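import Pool.Agent.P.MP_d565f2_an.Sieve2

set_option autoImplicit false

open Finset

namespace Pool.Agent.P.MP_d565f2_an.LS

variable {ι : Type} [Fintype ι] [DecidableEq ι]

/-- The decay function `min (1, b ^ (-2))`. -/
noncomputable def Psi2 (b : ℝ) : ℝ := 1 / (max 1 b) ^ 2

/-- The sum of the sphere sums over a set of fractions. -/
noncomputable def GG (ι : Type) [Fintype ι] [DecidableEq ι] (N : ℕ) (T : Finset ℚ) (x : ι → ℤ) :
    ℂ := ∑ t ∈ T, FF ι N fun i => (t : ℝ) * (2 * x i : ℤ)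

/-- The contribution of the fractions with large denominator. -/
noncomputable def EE (ι : Type) [Fintype ι] [DecidableEq ι] (γ R w : ℕ) (x : ι → ℤ) : ℝ :=
  ∑ s ∈ farey (w ^ 2), ∑ m ∈ Icc 1 (R ^ 2 / γ), (m : ℝ)⁻¹ *
    ‖∑ a ∈ (range m).filter (fun a : ℕ => ¬ (((a : ℚ) + s) / m).den ≤ w ^ 40),
      FF ι (γ * m) fun i => ((((a : ℚ) + s) / m : ℚ) : ℝ) * (2 * x i : ℤ)‖

open Classical in
/-- The number of short vectors leading to a mate of `x` modulo a prime. -/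
noncomputable def TT (ι : Type) [Fintype ι] [DecidableEq ι] (R w : ℕ) (x : ι → ℤ) : ℕ :=
  ((box ι R).filter fun z => z ≠ 0 ∧ z ⬝ᵥ z ≤ (R : ℤ) ^ 2 ∧ ∃ p : ℕ, p.Prime ∧ w < p ∧
    ¬ (p : ℤ) ∣ x ⬝ᵥ x ∧ 2 * (x ⬝ᵥ z) = p * (z ⬝ᵥ z)).card

end Pool.Agent.P.MP_d565f2_an.LS
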