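import Pool.Agent.P.MP_d565f2_an.SR.CDefs

set_option autoImplicit false

open Finset

namespace Pool.Agent.P.MP_d565f2_an.LS

variable {ι : Type} [Fintype ι] [DecidableEq ι]

/- b ≤ R: first bound, 4 R / b + 1 ≤ 5 R / b, V ^ 2 ≤ b so w ^ (4 e + 30) V ≤ b.  R < b and
b ^ 6 ≤ R ^ 7: first bound, 4 R / b + 1 ≤ 4, w ^ (4 e + 30) V b ^ 2 ≤ R ^ 3 (power 120:
b ^ 294 ≤ R ^ 343, w ^ (480 e + 3600) ≤ R ^ 17).  R ^ 7 < b ^ 6: second bound,
w ^ (4 e + 34) V b ≤ R ^ 3 (power 20) and w ^ (4 e + 34) V R ^ 4 ≤ b ^ 4 (power 120: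
R ^ 497 ≤ b ^ 426). -/
theorem VA_le {e : ℕ} (he3 : 3 ≤ e) {C₁ C₂ : ℝ} (h₁ : 0 ≤ C₁) (h₂ : 0 ≤ C₂) : ∃ C : ℝ, 0 ≤ C ∧
    ∀ (R b V w : ℕ) (A : ℝ), 1 ≤ w → w ^ (50 * e + 400) ≤ R → w ^ (8 * e + 60) < b →
      b ≤ w ^ 2 * R ^ 2 → V ^ 20 ≤ b ^ 9 →
      A ≤ C₁ * w ^ 2 * b ^ 2 * R ^ e * ((4 * R / b + 1 : ℕ) : ℝ) ^ e →
      A ≤ C₂ * w ^ 6 * b * ((R : ℝ) ^ e + ((R : ℝ) ^ 2 / b) ^ (e + 2)) →
      (w : ℝ) ^ (4 * e + 28) * (V * A) ≤ C * (R : ℝ) ^ (2 * e) := by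
  refine ⟨C₁ * 5 ^ e + 2 * C₂, by positivity, fun R b V w A hw hR hb hbR hV a1 a2 => ?_⟩
  have R1 : 1 ≤ R := (Nat.one_le_pow _ _ hw).trans hR
  have b1 : 1 ≤ b := by omega
  have hwR : ∀ k m : ℕ, k ≤ (50 * e + 400) * m → w ^ k ≤ R ^ m := fun k m h =>
    (Nat.pow_le_pow_right hw h).trans (by rw [pow_mul]; exact Nat.pow_le_pow_left hR m)
  have hV6 : V ^ 120 ≤ b ^ 54 := by
    calc V ^ 120 = (V ^ 20) ^ 6 := by ring
      _ ≤ (b ^ 9) ^ 6 := Nat.pow_le_pow_left hV 6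
      _ = _ := by ring
  have R0 : (0 : ℝ) < R := by exact_mod_cast R1
  have b0 : (0 : ℝ) < b := by exact_mod_cast b1
  have R3 : R ^ 3 ≤ R ^ e := Nat.pow_le_pow_right R1 he3
  have p1 : 0 ≤ C₁ * 5 ^ e * (R : ℝ) ^ (2 * e) := by positivity
  have p2 : 0 ≤ C₂ * (R : ℝ) ^ (2 * e) := by positivity
  have hm : ∀ B : ℝ, A ≤ B → (w : ℝ) ^ (4 * e + 28) * (V * A) ≤
      (w : ℝ) ^ (4 * e + 28) * (V * B) := fun B h => by gcongr
  rcases le_or_gt b R with c1 | c1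
  · have k1 : w ^ (4 * e + 30) * V ≤ b := by
      have v2 : V ^ 2 ≤ b := by
        refine (Nat.pow_le_pow_iff_left (by norm_num : 10 ≠ 0)).1 ?_
        calc (V ^ 2) ^ 10 = V ^ 20 := by ring
          _ ≤ b ^ 9 := hV
          _ ≤ b ^ 10 := Nat.pow_le_pow_right b1 (by norm_num)
      refine (Nat.pow_le_pow_iff_left (by norm_num : 2 ≠ 0)).1 ?_
      calc (w ^ (4 * e + 30) * V) ^ 2 = w ^ (8 * e + 60) * V ^ 2 := by ring
        _ ≤ b * b := Nat.mul_le_mul hb.le v2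
        _ = _ := by ring
    have k2 : w ^ (4 * e + 30) * V * b ^ 2 ≤ b ^ e := by
      calc _ ≤ b * b ^ 2 := Nat.mul_le_mul_right _ k1
        _ = b ^ 3 := by ring
        _ ≤ _ := Nat.pow_le_pow_right b1 he3
    have k2' : (w : ℝ) ^ (4 * e + 30) * V * b ^ 2 ≤ (b : ℝ) ^ e := by exact_mod_cast k2
    have k3 : ((4 * R / b + 1 : ℕ) : ℝ) ≤ 5 * R / b := by
      rw [le_div_iff₀ b0]
      have : (4 * R / b + 1) * b ≤ 5 * R := by
        have := Nat.div_mul_le_self (4 * R) b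
        rw [Nat.add_mul]; omega
      exact_mod_cast this
    refine (hm _ (a1.trans (mul_le_mul_of_nonneg_left
      (pow_le_pow_left₀ (by positivity) k3 e) (by positivity)))).trans ?_
    calc _ = C₁ * 5 ^ e * (R : ℝ) ^ (2 * e) *
          ((w : ℝ) ^ (4 * e + 30) * V * b ^ 2 / (b : ℝ) ^ e) := by
          rw [div_pow, mul_pow]; field_simp; ring
      _ ≤ C₁ * 5 ^ e * (R : ℝ) ^ (2 * e) * 1 := by
          gcongr
          exact div_le_one_of_le₀ k2' (by positivity)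
      _ ≤ _ := by nlinarith
  rcases le_or_gt (b ^ 6) (R ^ 7) with c2 | c2
  · have k1 : w ^ (4 * e + 30) * V * b ^ 2 ≤ R ^ 3 := by
      refine (Nat.pow_le_pow_iff_left (by norm_num : 120 ≠ 0)).1 ?_
      calc (w ^ (4 * e + 30) * V * b ^ 2) ^ 120 = w ^ (480 * e + 3600) * V ^ 120 * b ^ 240 := by
            ring
        _ ≤ R ^ 17 * b ^ 54 * b ^ 240 :=
            Nat.mul_le_mul_right _ (Nat.mul_le_mul (hwR _ _ (by omega)) hV6)
        _ = R ^ 17 * (b ^ 6) ^ 49 := by ring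
        _ ≤ R ^ 17 * (R ^ 7) ^ 49 := Nat.mul_le_mul_left _ (Nat.pow_le_pow_left c2 49)
        _ = _ := by ring
    have k2' : (w : ℝ) ^ (4 * e + 30) * V * b ^ 2 ≤ (R : ℝ) ^ e := by
      exact_mod_cast k1.trans R3
    have k3 : ((4 * R / b + 1 : ℕ) : ℝ) ≤ 5 := by
      have : 4 * R / b < 4 := (Nat.div_lt_iff_lt_mul b1).2 (by omega)
      exact_mod_cast (by omega : 4 * R / b + 1 ≤ 5)
    refine (hm _ (a1.trans (mul_le_mul_of_nonneg_left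
      (pow_le_pow_left₀ (by positivity) k3 e) (by positivity)))).trans ?_
    calc _ = C₁ * 5 ^ e * (R : ℝ) ^ e * ((w : ℝ) ^ (4 * e + 30) * V * b ^ 2) := by ring
      _ ≤ C₁ * 5 ^ e * (R : ℝ) ^ e * (R : ℝ) ^ e := by gcongr
      _ = C₁ * 5 ^ e * (R : ℝ) ^ (2 * e) := by ring
      _ ≤ _ := by nlinarith
  · have k1 : w ^ (4 * e + 34) * V * b ≤ R ^ 3 := by
      refine (Nat.pow_le_pow_iff_left (by norm_num : 20 ≠ 0)).1 ?_
      calc (w ^ (4 * e + 34) * V * b) ^ 20 = w ^ (80 * e + 680) * V ^ 20 * b ^ 20 := by ring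
        _ ≤ w ^ (80 * e + 680) * b ^ 9 * b ^ 20 :=
            Nat.mul_le_mul_right _ (Nat.mul_le_mul_left _ hV)
        _ = w ^ (80 * e + 680) * b ^ 29 := by ring
        _ ≤ w ^ (80 * e + 680) * (w ^ 2 * R ^ 2) ^ 29 :=
            Nat.mul_le_mul_left _ (Nat.pow_le_pow_left hbR 29)
        _ = w ^ (80 * e + 738) * R ^ 58 := by ring
        _ ≤ R ^ 2 * R ^ 58 := Nat.mul_le_mul_right _ (hwR _ _ (by omega))
        _ = _ := by ring
    have k2 : w ^ (4 * e + 34) * V * R ^ 4 ≤ b ^ (e + 1) := by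
      refine le_trans ?_ (Nat.pow_le_pow_right b1 (by omega : 4 ≤ e + 1))
      refine (Nat.pow_le_pow_iff_left (by norm_num : 120 ≠ 0)).1 ?_
      calc (w ^ (4 * e + 34) * V * R ^ 4) ^ 120 = w ^ (480 * e + 4080) * V ^ 120 * R ^ 480 := by
            ring
        _ ≤ R ^ 17 * b ^ 54 * R ^ 480 :=
            Nat.mul_le_mul_right _ (Nat.mul_le_mul (hwR _ _ (by omega)) hV6)
        _ = (R ^ 7) ^ 71 * b ^ 54 := by ring
        _ ≤ (b ^ 6) ^ 71 * b ^ 54 := Nat.mul_le_mul_right _ (Nat.pow_le_pow_left c2.le 71)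
        _ = _ := by ring
    have k1' : (w : ℝ) ^ (4 * e + 34) * V * b ≤ (R : ℝ) ^ e := by exact_mod_cast k1.trans R3
    have k2' : (w : ℝ) ^ (4 * e + 34) * V * R ^ 4 ≤ (b : ℝ) ^ (e + 1) := by exact_mod_cast k2
    refine (hm _ a2).trans ?_
    calc _ = C₂ * ((R : ℝ) ^ e * ((w : ℝ) ^ (4 * e + 34) * V * b) + (R : ℝ) ^ (2 * e) *
          ((w : ℝ) ^ (4 * e + 34) * V * R ^ 4 / (b : ℝ) ^ (e + 1))) := by
          rw [div_pow]; field_simp; ring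
      _ ≤ C₂ * ((R : ℝ) ^ e * (R : ℝ) ^ e + (R : ℝ) ^ (2 * e) * 1) := by
          gcongr
          exact div_le_one_of_le₀ k2' (by positivity)
      _ = 2 * (C₂ * (R : ℝ) ^ (2 * e)) := by ring
      _ ≤ _ := by nlinarith

end Pool.Agent.P.MP_d565f2_an.LS
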