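import Pool.Agent.P.MP_d565f2_an.LS.Desc
import Pool.Agent.P.MP_d565f2_an.LS.Factor

set_option autoImplicit false

open MvPolynomial Finset Module

namespace Pool.Agent.P.MP_d565f2_an.LS

variable {σ : Type} [Fintype σ] [DecidableEq σ]

/-- The derivative of `F` at `x` in the direction `τ`. -/
noncomputable def dd (F : MvPolynomial σ ℤ) (x : σ → ℤ) (τ : σ → ℚ) : ℚ :=
  ∑ j, τ j * ((eval x (pderiv j F) : ℤ) : ℚ)

/-- Directions killed by the differentials of the equations in `S` are combinations of the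
fields. -/
def Tang (W : Finset (σ → ℤ)) (I : Finset σ) (v : σ → σ → MvPolynomial σ ℤ)
    (J : MvPolynomial σ ℤ) (S : Set (MvPolynomial σ ℤ)) : Prop :=
  ∀ x ∈ W, ∀ τ : σ → ℚ, (∀ F ∈ S, dd F x τ = 0) →
    ∀ j, ((eval x J : ℤ) : ℚ) * τ j = ∑ i ∈ I, τ i * ((eval x (v i j) : ℤ) : ℚ)

/-- The scalar product of a constant vector and a field. -/
noncomputable def fl (u : σ → ℤ) (v : σ → MvPolynomial σ ℤ) : MvPolynomial σ ℤ :=
  ∑ j, C (u j) * v j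

/-- The equation of the sphere. -/
noncomputable def sp (σ : Type) [Fintype σ] (n : ℕ) : MvPolynomial σ ℤ :=
  ∑ j, X j ^ 2 - C (n : ℤ)

/-- A linear form. -/
noncomputable def lf (α : σ → ℤ) : MvPolynomial σ ℤ := ∑ j, C (α j) * X j

/-- The square of the linear form, reduced modulo the sphere. -/
noncomputable def th (α : σ → ℤ) (n : ℕ) : MvPolynomial σ ℤ := lf α ^ 2 - C (α ⬝ᵥ α) * sp σ n

/-- A constant field. -/
noncomputable def cf (c : σ → ℤ) : σ → MvPolynomial σ ℤ := fun j => C (c j)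

/-- A spanning family of the space orthogonal to `u`, `u'` and a dual pair of vectors. -/
structure Frame (u u' : σ → ℤ) (c : σ → σ → ℤ) (m : ℤ) (s s' : σ → ℚ) : Prop where
  ne : m ≠ 0
  o1 : ∀ k, u ⬝ᵥ c k = 0
  o2 : ∀ k, u' ⬝ᵥ c k = 0
  span : ∀ τ : σ → ℚ, cst u ⬝ᵥ τ = 0 → cst u' ⬝ᵥ τ = 0 →
    ∀ j, (m : ℚ) * τ j = ∑ k, τ k * (c k j : ℚ)
  s1 : cst u ⬝ᵥ s = 1
  s2 : cst u' ⬝ᵥ s = 0
  s3 : cst u ⬝ᵥ s' = 0
  s4 : cst u' ⬝ᵥ s' = 1

/-- `F` vanishes on the whole slices through the points of `W`. -/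
def Whole (W : Finset (σ → ℤ)) (u u' α : σ → ℤ) (n e : ℕ) (F : MvPolynomial σ ℤ) : Prop :=
  ∃ (A B : MvPolynomial σ ℤ) (a : ℤ), a ≠ 0 ∧ A.totalDegree ≤ e ∧ B.totalDegree ≤ e ∧
    der (cf α) A = 0 ∧ der (cf α) B = 0 ∧ sp σ n ∣ C a * F - (A + lf α * B) ∧
    ∀ x ∈ W, ∀ τ : σ → ℚ, cst u ⬝ᵥ τ = 0 → cst u' ⬝ᵥ τ = 0 →
      eval (cst x + τ) (toQ A) = 0 ∧ eval (cst x + τ) (toQ B) = 0

/-- The combinatorial statement for small sets. -/
def MainSt2 (ρ : ℕ) : Prop :=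
  ∃ C A a : ℕ, ∀ (n lam L g G T : ℕ) (W : Finset (Fin ρ → ℤ)), W.Nonempty → OnSph n W →
    n + 1 ≤ lam ^ 2 → 1 ≤ L → lam ≤ 2 ^ L → 2 * W.card ≤ 2 ^ L → W.card ≤ g ^ ρ →
    lam ^ (2 * ρ * (ρ - 2) + 1) ≤ g ^ (2 * ρ * (ρ - 1)) → lam ^ (ρ - 1) ≤ (G * T) ^ ρ → 1 ≤ T →
    C * T ^ a ≤ lam → ¬ Rel W (C * L ^ A * (T ^ a * g + G))

omit [DecidableEq σ] in
theorem eval_fl (u : σ → ℤ) (v : σ → MvPolynomial σ ℤ) (x : σ → ℤ) :
    eval x (fl u v) = u ⬝ᵥ fun j => eval x (v j) := by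
  simp [fl, dotProduct]

omit [DecidableEq σ] in
theorem eval_lf (α x : σ → ℤ) : eval x (lf α) = α ⬝ᵥ x := by
  simp [lf, dotProduct]

omit [DecidableEq σ] in
theorem eval_sp (n : ℕ) (x : σ → ℤ) : eval x (sp σ n) = x ⬝ᵥ x - n := by
  simp [sp, dotProduct, sq]

omit [DecidableEq σ] in
theorem eval_der (v : σ → MvPolynomial σ ℤ) (F : MvPolynomial σ ℤ) (x : σ → ℤ) :
    eval x (der v F) = (fun j => eval x (v j)) ⬝ᵥ fun j => eval x (pderiv j F) := by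
  simp [der, dotProduct]

theorem pderiv_sp (n : ℕ) (j : σ) : pderiv j (sp σ n) = 2 * X j := by
  simp [sp, pderiv_X, Pi.single_apply]

theorem pderiv_lf (α : σ → ℤ) (j : σ) : pderiv j (lf α) = C (α j) := by
  simp [lf, pderiv_X, Pi.single_apply]

theorem dd_sp (n : ℕ) (x : σ → ℤ) (τ : σ → ℚ) : dd (sp σ n) x τ = 2 * (cst x ⬝ᵥ τ) := by
  simp only [dd, pderiv_sp, dotProduct, cst, Finset.mul_sum]
  exact Finset.sum_congr rfl fun j _ => by simp; ring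

omit [DecidableEq σ] in
theorem Tang.subset {W W' : Finset (σ → ℤ)} {I : Finset σ} {v : σ → σ → MvPolynomial σ ℤ}
    {J : MvPolynomial σ ℤ} {S : Set (MvPolynomial σ ℤ)} (h : Tang W I v J S) (hW : W' ⊆ W) :
    Tang W' I v J S := fun x hx => h x (hW hx)

end Pool.Agent.P.MP_d565f2_an.LS
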