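import Pool.Agent.P.MP_d565f2_an.SR.ADefs

set_option autoImplicit false

open Finset

namespace Pool.Agent.P.MP_d565f2_an.LS

variable {ι : Type} [Fintype ι] [DecidableEq ι]

/-- The decay function `min (1, b⁻¹)`. -/
noncomputable def Psi1 (b : ℝ) : ℝ := 1 / max 1 b

/-- Primitive vectors. -/
def Prim (x : ι → ℤ) : Prop := ∃ f : ι → ℤ, ∑ i, x i * f i = 1

open Classical in
/-- The primitive points of a sphere. -/
noncomputable def psph (ι : Type) [Fintype ι] [DecidableEq ι] (n : ℕ) : Finset (ι → ℤ) :=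
  (sph ι n).filter Prim

/-- The sieve weight of a fraction. -/
noncomputable def wt (s : ℚ) : ℝ := (s.den.divisors.card : ℝ) ^ 2 / s.den

/-- The contribution of the fractions with denominator above `B`. -/
noncomputable def EB (ι : Type) [Fintype ι] [DecidableEq ι] (γ R w B : ℕ) (x : ι → ℤ) : ℝ :=
  ∑ s ∈ farey (w ^ 2), ∑ m ∈ Icc 1 (R ^ 2 / γ), (m : ℝ)⁻¹ *
    ‖∑ a ∈ (range m).filter (fun a : ℕ => ¬ (((a : ℚ) + s) / m).den ≤ B),
      FF ι (γ * m) fun i => ((((a : ℚ) + s) / m : ℚ) : ℝ) * (2 * x i : ℤ)‖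

/-- The number of coincidences modulo `b`. -/
noncomputable def AA (ι : Type) [Fintype ι] [DecidableEq ι] (N b : ℕ) (T : Finset ℚ) : ℕ :=
  (((T ×ˢ T) ×ˢ (sph ι N ×ˢ sph ι N)).filter fun y =>
    ∀ i, (b : ℤ) ∣ 2 * (y.1.1.num * y.2.1 i - y.1.2.num * y.2.2 i)).card

/-- The residue vectors modulo `b`. -/
noncomputable def res (ι : Type) [Fintype ι] [DecidableEq ι] (b : ℕ) : Finset (ι → ℤ) :=
  Fintype.piFinset fun _ => Ico (0 : ℤ) b

theorem mem_psph {n : ℕ} {x : ι → ℤ} : x ∈ psph ι n ↔ x ∈ sph ι n ∧ Prim x := by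
  simp [psph]

theorem mem_res {b : ℕ} {x : ι → ℤ} : x ∈ res ι b ↔ ∀ i, 0 ≤ x i ∧ x i < b := by
  simp [res]

end Pool.Agent.P.MP_d565f2_an.LS
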