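import Pool.Agent.P.MP_d565f2_an.SR.BDefs
import Pool.Agent.P.MP_d565f2_an.LS.Coprime

set_option autoImplicit false

open MvPolynomial Finset Module

namespace Pool.Agent.P.MP_d565f2_an.LS

variable {σ : Type} [Fintype σ] [DecidableEq σ]

omit [DecidableEq σ] in
theorem descend_word (v : σ → σ → MvPolynomial σ ℤ) {W : Finset (σ → ℤ)} {F : MvPolynomial σ ℤ}
    (hFW : ∀ x ∈ W, eval x F = 0) {l : List σ} (hx : ∃ x ∈ W, eval x (wd v l F) ≠ 0) :
    ∃ l' : List σ, l'.length ≤ l.length ∧ (∀ x ∈ W, eval x (wd v l' F) = 0) ∧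
      ∃ k, ∃ x ∈ W, eval x (der (v k) (wd v l' F)) ≠ 0 := by
  induction l with
  | nil =>
    obtain ⟨x, h1, h2⟩ := hx
    exact (h2 (hFW x h1)).elim
  | cons k l ih =>
    by_cases h : ∃ x ∈ W, eval x (wd v l F) ≠ 0
    · obtain ⟨l', h1, h2⟩ := ih h
      exact ⟨l', h1.trans (Nat.le_succ _), h2⟩
    · push Not at h
      exact ⟨l, Nat.le_succ _, h, k, hx⟩

theorem CJet_X (a : σ → ℤ) (p : MvPolynomial σ ℤ) (j : σ) :
    der (cf a) (p * X j) = C (a j) * p + der (cf a) p * X j := by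
  rw [der_mul, der_X, cf]
  ring

theorem CJet_comm (a b : σ → ℤ) (g : MvPolynomial σ ℤ) :
    der (cf a) (der (cf b) g) = der (cf b) (der (cf a) g) := by
  induction g using MvPolynomial.induction_on with
  | C r => simp only [der_C, der_zero]
  | add p q hp hq => simp only [der_add, hp, hq]
  | mul_X p j hp =>
    simp only [CJet_X, der_add, der_C_mul, hp]
    ring

theorem der_cf_wd (α : σ → ℤ) (c : σ → σ → ℤ) {N : MvPolynomial σ ℤ} (hN : der (cf α) N = 0)
    (l : List σ) : der (cf α) (wd (fun k => cf (c k)) l N) = 0 := by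
  induction l with
  | nil => exact hN
  | cons k l ih => rw [wd_cons, CJet_comm, ih, der_zero]

/-- The restriction to a line. -/
noncomputable def CJet_ln (a b : σ → ℚ) (N : MvPolynomial σ ℤ) : Polynomial ℚ :=
  aeval (fun j => Polynomial.C (a j) + Polynomial.C (b j) * Polynomial.X) (toQ N)

omit [Fintype σ] [DecidableEq σ] in
theorem CJet_eval (a b : σ → ℚ) (N : MvPolynomial σ ℤ) (s : ℚ) :
    (CJet_ln a b N).eval s = eval (fun j => a j + s * b j) (toQ N) := by
  rw [CJet_ln]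
  generalize toQ N = q
  induction q using MvPolynomial.induction_on with
  | C r => simp
  | add p q hp hq => simp [hp, hq]
  | mul_X p j hp => simp [hp, mul_comm s]

theorem CJet_der (c : σ → σ → ℤ) (a t : σ → ℚ) (N : MvPolynomial σ ℤ) :
    Polynomial.derivative (CJet_ln a (fun j => ∑ k, t k * (c k j : ℚ)) N) =
      ∑ k, Polynomial.C (t k) * CJet_ln a (fun j => ∑ k, t k * (c k j : ℚ)) (der (cf (c k)) N) := by
  induction N using MvPolynomial.induction_on with
  | C r => simp [CJet_ln, der_C, toQ, -eq_intCast]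
  | add p q hp hq =>
    simp only [CJet_ln, der_add, map_add, mul_add, sum_add_distrib] at *
    rw [hp, hq]
  | mul_X p j hp =>
    have h1 : ∀ (b : σ → ℚ) (p : MvPolynomial σ ℤ), CJet_ln a b (p * X j) =
        CJet_ln a b p * (Polynomial.C (a j) + Polynomial.C (b j) * Polynomial.X) := fun b p => by
      simp [CJet_ln, toQ]
    have h2 : ∀ (b : σ → ℚ) (r : ℤ) (p q : MvPolynomial σ ℤ), CJet_ln a b (C r * p + q) =
        Polynomial.C (r : ℚ) * CJet_ln a b p + CJet_ln a b q := fun b r p q => by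
      simp [CJet_ln, toQ]
    simp only [CJet_X, h2, h1, Polynomial.derivative_mul, hp, Polynomial.derivative_add,
      Polynomial.derivative_C, Polynomial.derivative_X, zero_mul, zero_add, mul_one]
    generalize Polynomial.C (a j) + Polynomial.C (∑ k, t k * (c k j : ℚ)) * Polynomial.X = w
    simp only [map_sum, map_mul, mul_sum, sum_mul, ← sum_add_distrib]
    exact sum_congr rfl fun k _ => by ring

theorem const_jets (c : σ → σ → ℤ) {N : MvPolynomial σ ℤ} {x : σ → ℤ} {e : ℕ}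
    (hN : N.totalDegree ≤ e)
    (h : ∀ l : List σ, l.length ≤ e → eval x (wd (fun k => cf (c k)) l N) = 0) (t : σ → ℚ) :
    eval (fun j => (x j : ℚ) + ∑ k, t k * (c k j : ℚ)) (toQ N) = 0 := by
  have h1 : ∀ (i : ℕ) (M : MvPolynomial σ ℤ),
      (∀ l : List σ, l.length = i → eval x (wd (fun k => cf (c k)) l M) = 0) →
      (CJet_ln (cst x) (fun j => ∑ k, t k * (c k j : ℚ)) M).coeff i = 0 := by
    intro i
    induction i with
    | zero =>
      intro M hM
      rw [Polynomial.coeff_zero_eq_eval_zero, CJet_eval]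
      simp only [zero_mul, add_zero]
      rw [eval_toQ, show eval x M = 0 from hM [] rfl, Int.cast_zero]
    | succ i ih =>
      intro M hM
      have h2 := congrArg (Polynomial.coeff · i) (CJet_der c (cst x) t M)
      simp only [Polynomial.coeff_derivative, Polynomial.finsetSum_coeff,
        Polynomial.coeff_C_mul] at h2
      rw [sum_eq_zero fun k _ => by
        rw [ih _ fun l hl => by
          have := hM (l ++ [k]) (by simp [hl])
          rwa [wd_append] at this, mul_zero]] at h2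
      exact (mul_eq_zero.1 h2).resolve_right (by positivity)
  have h3 : CJet_ln (cst x) (fun j => ∑ k, t k * (c k j : ℚ)) N = 0 := by
    ext i
    rcases le_or_gt i e with hi | hi
    · exact h1 i N fun l hl => h l (hl.trans_le hi)
    · exact Polynomial.coeff_eq_zero_of_natDegree_lt
        ((Coprime_line _ _ ((totalDegree_toQ N).trans hN)).1.trans_lt hi)
  have h4 := CJet_eval (cst x) (fun j => ∑ k, t k * (c k j : ℚ)) N 1
  rw [h3] at h4
  simpa [cst] using h4.symm

omit [DecidableEq σ] in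
theorem CJet_one {α : σ → ℤ} (hα : α ≠ 0) : (1 : ℚ) ≤ cst α ⬝ᵥ cst α := by
  obtain ⟨j, hj⟩ := Function.ne_iff.1 hα
  have h1 : (1 : ℤ) ≤ α j * α j := mul_self_pos.2 hj
  refine le_trans ?_ (single_le_sum (f := fun i => cst α i * cst α i)
    (fun i _ => mul_self_nonneg _) (mem_univ j))
  simp only [cst]
  exact_mod_cast h1

omit [DecidableEq σ] in
theorem CJet_th (α : σ → ℤ) (n : ℕ) (z : σ → ℚ) :
    eval z (toQ (th α n)) = (cst α ⬝ᵥ z) ^ 2 - cst α ⬝ᵥ cst α * (z ⬝ᵥ z - n) := by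
  simp [th, lf, sp, toQ, dotProduct, cst, sq]

omit [DecidableEq σ] in
theorem vanish_of_norm {A B : MvPolynomial σ ℤ} {α β : σ → ℤ} {n : ℕ} (hα : α ≠ 0) (hβ : β ≠ 0)
    (hαβ : α ⬝ᵥ β = 0) {y : σ → ℚ}
    (h : ∀ s : ℚ, eval (fun j => y j + s * (β j : ℚ)) (toQ (A ^ 2 - th α n * B ^ 2)) = 0) :
    eval y (toQ A) = 0 ∧ eval y (toQ B) = 0 := by
  have ha := CJet_one hα
  have hb := CJet_one hβ
  have h0 : cst α ⬝ᵥ cst β = 0 := by
    simp only [dotProduct, cst] at hαβ ⊢
    exact_mod_cast hαβ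
  have hy : 0 ≤ y ⬝ᵥ y := sum_nonneg fun i _ => mul_self_nonneg _
  obtain ⟨d, hd⟩ : ∃ d, d = (cst α ⬝ᵥ y) ^ 2 + cst α ⬝ᵥ cst α * n := ⟨_, rfl⟩
  have hd0 : 0 ≤ d := by rw [hd]; positivity
  have h1 : ∀ s ∈ Set.Ioi (2 * |y ⬝ᵥ cst β| + d + 1),
      (CJet_ln y (cst β) A).eval s = 0 ∧ (CJet_ln y (cst β) B).eval s = 0 := by
    intro s hs
    have h2 := h s
    have e : (fun j => y j + s * (β j : ℚ)) = y + s • cst β := rfl
    rw [CJet_eval, CJet_eval]
    change eval (y + s • cst β) (toQ A) = 0 ∧ eval (y + s • cst β) (toQ B) = 0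
    rw [e] at h2
    simp only [map_sub, map_mul, map_pow, CJet_th] at h2
    have h3 : (cst α ⬝ᵥ (y + s • cst β)) ^ 2 -
        cst α ⬝ᵥ cst α * ((y + s • cst β) ⬝ᵥ (y + s • cst β) - n) < 0 := by
      simp only [dotProduct_add, add_dotProduct, dotProduct_smul, smul_dotProduct, smul_eq_mul,
        h0, dotProduct_comm (cst β) y]
      have hs' : 2 * |y ⬝ᵥ cst β| + d + 1 < s := hs
      have h4 := neg_abs_le (y ⬝ᵥ cst β)
      have h5 := abs_nonneg (y ⬝ᵥ cst β)
      have h6 : d + 1 ≤ 2 * (y ⬝ᵥ cst β) + s * (cst β ⬝ᵥ cst β) := by nlinarith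
      have h7 : d + 1 ≤ s * (2 * (y ⬝ᵥ cst β) + s * (cst β ⬝ᵥ cst β)) := by nlinarith
      have h8 : d + 1 ≤ cst α ⬝ᵥ cst α *
          (y ⬝ᵥ y + s * (2 * (y ⬝ᵥ cst β) + s * (cst β ⬝ᵥ cst β))) := by nlinarith
      nlinarith
    generalize eval (y + s • cst β) (toQ A) = p at *
    generalize eval (y + s • cst β) (toQ B) = q at *
    have h9 : q ^ 2 ≤ 0 := by nlinarith [sq_nonneg p]
    have h10 : q = 0 := pow_eq_zero_iff two_ne_zero |>.1 (le_antisymm h9 (sq_nonneg q))
    refine ⟨pow_eq_zero_iff two_ne_zero |>.1 ?_, h10⟩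
    simpa [h10] using h2
  have h11 : ∀ M : MvPolynomial σ ℤ, (∀ s ∈ Set.Ioi (2 * |y ⬝ᵥ cst β| + d + 1),
      (CJet_ln y (cst β) M).eval s = 0) → eval y (toQ M) = 0 := fun M hM => by
    have h12 := CJet_eval y (cst β) M 0
    rw [Polynomial.eq_zero_of_infinite_isRoot _ ((Set.Ioi_infinite _).mono hM)] at h12
    simpa using h12.symm
  exact ⟨h11 A fun s hs => (h1 s hs).1, h11 B fun s hs => (h1 s hs).2⟩

end Pool.Agent.P.MP_d565f2_an.LS
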