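import Pool.Agent.P.MP_d565f2_an.SR.Plane

set_option autoImplicit false

open Finset

namespace Pool.Agent.P.MP_d565f2_an.LS

variable {ι : Type} [Fintype ι] [DecidableEq ι]

/- K = the y ∈ res ι b with b ∣ 2 ξ y; its translates by k f (mod b), 0 ≤ 2 k < b, are disjoint,
so b |K| ≤ 2 b ^ d.  Each class mod b has at most (2 r / b + 1) ^ d points in the box. -/
theorem card_lat_box {b : ℕ} (hb : 0 < b) (r : ℕ) {ξ f : ι → ℤ} (hf : ∑ i, ξ i * f i = 1) :
    b * ((box ι r).filter fun y => (b : ℤ) ∣ 2 * (ξ ⬝ᵥ y)).card ≤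
      2 * (2 * r + b) ^ Fintype.card ι := by
  have key : ∀ (y : ι → ℤ) (k : ℕ), ξ ⬝ᵥ (fun i => y i + ((k : ℤ) * f i) % b) =
      ξ ⬝ᵥ y + k - b * ∑ i, ξ i * ((k : ℤ) * f i / b) := fun y k => by
    have h1 : (k : ℤ) = ∑ i, k * (ξ i * f i) := by rw [← mul_sum, hf, mul_one]
    conv_rhs => rw [h1]
    conv_rhs => enter [2, 2, 2, i]; rw [← h1]
    simp only [dotProduct, mul_sum, ← sum_add_distrib, ← sum_sub_distrib]
    refine sum_congr rfl fun i _ => ?_
    rw [Int.emod_def]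
    ring
  have hb' : (0 : ℤ) < b := by exact_mod_cast hb
  have h := card_le_card_of_injOn
    (s := ((box ι r).filter fun y => (b : ℤ) ∣ 2 * (ξ ⬝ᵥ y)) ×ˢ range ((b + 1) / 2))
    (t := Fintype.piFinset fun _ : ι => Ico (-(r : ℤ)) (r + b))
    (fun p i => p.1 i + ((p.2 : ℤ) * f i) % b) ?_ ?_
  · rw [card_product, card_range, Fintype.card_piFinset] at h
    simp only [Int.card_Ico, prod_const, card_univ] at h
    have e : ((r : ℤ) + b - -(r : ℤ)).toNat = 2 * r + b := by omega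
    rw [e] at h
    calc _ ≤ (2 * ((b + 1) / 2)) * _ := Nat.mul_le_mul_right _ (by omega)
      _ = 2 * (_ * ((b + 1) / 2)) := by ring
      _ ≤ _ := Nat.mul_le_mul_left _ h
  · rintro ⟨y, k⟩ hp
    have h1 := mem_box.1 (mem_filter.1 (mem_product.1 (mem_coe.1 hp)).1).1
    refine mem_coe.2 (Fintype.mem_piFinset.2 fun i => mem_Ico.2 ?_)
    have h2 := abs_le.1 (h1 i)
    have h3 := Int.emod_nonneg ((k : ℤ) * f i) hb'.ne'
    have h4 := Int.emod_lt_of_pos ((k : ℤ) * f i) hb'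
    dsimp only at h2 ⊢
    omega
  · rintro ⟨y, k⟩ hp ⟨y', k'⟩ hp' e
    obtain ⟨h1, h2⟩ := mem_product.1 (mem_coe.1 hp)
    obtain ⟨h1', h2'⟩ := mem_product.1 (mem_coe.1 hp')
    have h3 := (mem_filter.1 h1).2
    have h3' := (mem_filter.1 h1').2
    have h4 := mem_range.1 h2
    have h4' := mem_range.1 h2'
    dsimp only at e h3 h3' h4 h4'
    have e1 := key y k
    rw [e, key y' k'] at e1
    have h5 : (b : ℤ) ∣ 2 * k - 2 * k' := by
      have : (2 : ℤ) * k - 2 * k' = 2 * (ξ ⬝ᵥ y') - 2 * (ξ ⬝ᵥ y) +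
          b * (2 * ∑ i, ξ i * ((k : ℤ) * f i / b) - 2 * ∑ i, ξ i * ((k' : ℤ) * f i / b)) := by
        linear_combination -2 * e1
      rw [this]
      exact dvd_add (dvd_sub h3' h3) (dvd_mul_right _ _)
    have h6 := Int.eq_zero_of_abs_lt_dvd h5 (abs_lt.2 ⟨by omega, by omega⟩)
    obtain rfl : k = k' := by omega
    exact Prod.ext (funext fun i => add_right_cancel (congrFun e i)) rfl

theorem ClsBig_pigeon {b V : ℕ} (hb : 0 < b) (ξ : ι → ℤ) (t : ι → Finset ℤ)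
    (ht : ∀ l, t l ⊆ Icc 0 (V : ℤ)) (h : b < ∏ l, (t l).card) :
    ∃ u u' : ι → ℤ, (∀ l, u l ∈ t l) ∧ (∀ l, u' l ∈ t l) ∧ (∃ l, u l - u' l ≠ 0) ∧
      (∀ l, |u l - u' l| ≤ V) ∧ (b : ℤ) ∣ ξ ⬝ᵥ (u - u') := by
  have hb' : (0 : ℤ) < b := by exact_mod_cast hb
  obtain ⟨u, hu, u', hu', hne, e⟩ := exists_ne_map_eq_of_card_lt_of_maps_to
    (s := Fintype.piFinset t) (t := Ico (0 : ℤ) b) (f := fun u => (ξ ⬝ᵥ u) % b)
    (by rw [Fintype.card_piFinset, Int.card_Ico]; simpa using h)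
    (fun u _ => mem_coe.2 (mem_Ico.2 ⟨Int.emod_nonneg _ hb'.ne', Int.emod_lt_of_pos _ hb'⟩))
  rw [Fintype.mem_piFinset] at hu hu'
  refine ⟨u, u', hu, hu', ?_, fun l => ?_, ?_⟩
  · obtain ⟨l, hl⟩ := Function.ne_iff.1 hne
    exact ⟨l, sub_ne_zero.2 hl⟩
  · have h1 := mem_Icc.1 (ht l (hu l))
    have h2 := mem_Icc.1 (ht l (hu' l))
    exact abs_le.2 ⟨by omega, by omega⟩
  · rw [dotProduct_sub]
    exact (Int.ModEq.dvd e.symm)

/- Pigeonhole on [0, V] ^ ι gives v ≠ 0, say v i ≠ 0; then on the vectors of [0, V'] ^ ι with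
coordinate i equal to 0. -/
theorem exists_short_pair (hd : 5 ≤ Fintype.card ι) {b V V' : ℕ} (hb : 0 < b)
    (hV : b < (V + 1) ^ 5) (hV' : b < (V' + 1) ^ 4) (ξ : ι → ℤ) :
    ∃ v v' : ι → ℤ, (∀ i, |v i| ≤ V) ∧ (∀ i, |v' i| ≤ V') ∧ (b : ℤ) ∣ ξ ⬝ᵥ v ∧ (b : ℤ) ∣ ξ ⬝ᵥ v' ∧
      ∃ i j, v i * v' j - v j * v' i ≠ 0 := by
  have hI : ∀ V : ℕ, (Icc (0 : ℤ) V).card = V + 1 := fun V => by
    rw [Int.card_Icc]
    omega
  obtain ⟨u, u', -, -, ⟨i, hi⟩, h1, h2⟩ := ClsBig_pigeon hb ξ (fun _ => Icc 0 (V : ℤ))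
    (fun _ => Subset.refl _) (by
      rw [prod_const, hI, card_univ]
      exact hV.trans_le (Nat.pow_le_pow_right (Nat.succ_pos _) hd))
  obtain ⟨z, z', k1, k2, ⟨j, hj⟩, h3, h4⟩ := ClsBig_pigeon (V := V') hb ξ
    (fun l => if l = i then {0} else Icc 0 (V' : ℤ))
    (fun l => by
      split_ifs
      · simp
      · exact Subset.refl _) (by
      rw [← mul_prod_erase _ _ (mem_univ i), if_pos rfl, card_singleton, one_mul,
        prod_congr rfl fun l hl => by rw [if_neg (ne_of_mem_erase hl), hI], prod_const,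
        card_erase_of_mem (mem_univ i), card_univ]
      exact hV'.trans_le (Nat.pow_le_pow_right (Nat.succ_pos _) (by omega)))
  refine ⟨u - u', z - z', h1, h3, h2, h4, i, j, ?_⟩
  have e1 := k1 i
  have e2 := k2 i
  rw [if_pos rfl, mem_singleton] at e1 e2
  simp only [Pi.sub_apply, e1, e2, sub_self, mul_zero, sub_zero]
  exact mul_ne_zero hi hj

/-- The `3 × 3` minors with two fixed rows. -/
def ClsBig_ph (v v' : ι → ℤ) (i j : ι) (x : ι → ℤ) : ι → ℤ := fun l =>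
  (v i * v' j - v j * v' i) * x l - (x i * v' j - x j * v' i) * v l - (v i * x j - v j * x i) * v' l

theorem ClsBig_pack {b Y V V' : ℕ} (hb : 0 < b) (hV1 : 1 ≤ V) (hV1' : 1 ≤ V') {ξ f v v' : ι → ℤ}
    (hf : ∑ i, ξ i * f i = 1) (hv : ∀ i, |v i| ≤ V) (hv' : ∀ i, |v' i| ≤ V')
    (h1 : (b : ℤ) ∣ ξ ⬝ᵥ v) (h2 : (b : ℤ) ∣ ξ ⬝ᵥ v') {i j : ι}
    (hij : v i * v' j - v j * v' i ≠ 0) (T : Finset (ι → ℤ)) (y : (ι → ℤ) → ι → ℤ)
    (hy : ∀ a ∈ T, ∀ l, |y a l| ≤ Y) (hd : ∀ a ∈ T, (b : ℤ) ∣ 2 * (ξ ⬝ᵥ y a))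
    (hi : ∀ a ∈ T, ∀ a' ∈ T, ClsBig_ph v v' i j (y a) = ClsBig_ph v v' i j (y a') → a = a') :
    b * T.card * (Y * Y) ≤ 2 * (2 * (3 * Y) + b) ^ Fintype.card ι * (V * V') := by
  have hk : ∀ {V k : ℕ} {c : ℤ}, k < Y / V + 1 → |c| ≤ V → |(k : ℤ) * c| ≤ Y := by
    intro V k c hk hc
    have : k * V ≤ Y := (Nat.mul_le_mul_right _ (by omega)).trans (Nat.div_mul_le_self Y V)
    rw [abs_mul, Nat.abs_cast]
    calc (k : ℤ) * |c| ≤ k * V := mul_le_mul_of_nonneg_left hc (Int.natCast_nonneg k)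
      _ ≤ Y := by exact_mod_cast this
  have h := card_le_card_of_injOn (s := T ×ˢ range (Y / V + 1) ×ˢ range (Y / V' + 1))
    (t := (box ι (3 * Y)).filter fun y => (b : ℤ) ∣ 2 * (ξ ⬝ᵥ y))
    (fun p l => y p.1 l + p.2.1 * v l + p.2.2 * v' l) ?_ ?_
  · rw [card_product, card_product, card_range, card_range] at h
    have hA : ∀ {V : ℕ}, 1 ≤ V → Y ≤ (Y / V + 1) * V := fun {V} hV => by
      rw [mul_comm]
      exact (Nat.lt_mul_div_succ Y hV).le
    calc _ ≤ b * T.card * (((Y / V + 1) * V) * ((Y / V' + 1) * V')) :=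
          Nat.mul_le_mul_left _ (Nat.mul_le_mul (hA hV1) (hA hV1'))
      _ = b * (T.card * ((Y / V + 1) * (Y / V' + 1))) * (V * V') := by ring
      _ ≤ _ := Nat.mul_le_mul_right _
          ((Nat.mul_le_mul_left _ h).trans (card_lat_box hb (3 * Y) hf))
  · rintro ⟨a, k, k'⟩ hp
    obtain ⟨p1, p2⟩ := mem_product.1 (mem_coe.1 hp)
    obtain ⟨p2, p3⟩ := mem_product.1 p2
    refine mem_coe.2 (mem_filter.2 ⟨mem_box.2 fun l => ?_, ?_⟩)
    · have q1 := abs_le.1 (hy a p1 l)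
      have q2 := abs_le.1 (hk (mem_range.1 p2) (hv l))
      have q3 := abs_le.1 (hk (mem_range.1 p3) (hv' l))
      dsimp only at q1 q2 q3 ⊢
      push_cast
      exact abs_le.2 ⟨by linarith [q1.1, q2.1, q3.1], by linarith [q1.2, q2.2, q3.2]⟩
    · have e : 2 * (ξ ⬝ᵥ fun l => y a l + k * v l + k' * v' l) =
          2 * (ξ ⬝ᵥ y a) + 2 * k * (ξ ⬝ᵥ v) + 2 * k' * (ξ ⬝ᵥ v') := by
        simp only [dotProduct, mul_sum, ← sum_add_distrib]
        exact sum_congr rfl fun l _ => by ring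
      dsimp only
      rw [e]
      exact dvd_add (dvd_add (hd a p1) (h1.mul_left _)) (h2.mul_left _)
  · rintro ⟨a, k, k'⟩ hp ⟨c, m, m'⟩ hp' e
    dsimp only at e
    have ei := congrFun e i
    have ej := congrFun e j
    obtain rfl : a = c := by
      refine hi a (mem_product.1 (mem_coe.1 hp)).1 c (mem_product.1 (mem_coe.1 hp')).1
        (funext fun l => ?_)
      have el := congrFun e l
      simp only [ClsBig_ph]
      linear_combination (v i * v' j - v j * v' i) * el - (v' j * v l - v j * v' l) * ei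
        + (v' i * v l - v i * v' l) * ej
    have e1 : (k : ℤ) = m := mul_left_cancel₀ hij (by linear_combination v' j * ei - v' i * ej)
    have e2 : (k' : ℤ) = m' := mul_left_cancel₀ hij (by linear_combination v i * ej - v j * ei)
    rw [Nat.cast_inj.1 e1, Nat.cast_inj.1 e2]

/- Take a member x₀ (primitive).  x = x₀ + b y(x), |y| ≤ Y = 2 lam / b, b ∣ 2 x₀ y.  v, v' from
`exists_short_pair` for x₀.  Call x ~ x' if x - x' ∈ ℚ v + ℚ v'; classes have ≤ 10 w ^ 2 points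
(`plane_count`); S₀ = representatives (for example the image under
x ↦ (l ↦ the 3 × 3 minor, μ x l - (..) v l - (..) v' l), which is constant exactly on classes, and
`card_le_mul_card_image`).  Y' = Y + b, A = Y' / V + 1, A' = Y' / V' + 1; the map
(x, k, k') ↦ y(x) + k v + k' v' on S₀ × range A × range A' is injective into the set of
`card_lat_box` with r = 5 Y'; A V ≥ Y', A' V' ≥ Y'. -/
theorem class_big {e : ℕ} (he : Fintype.card ι = e + 2) (he3 : 3 ≤ e) {n lam b V V' w Z : ℕ}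
    (hn : n ≤ lam ^ 2) (hb : 0 < b) (hV : b < (V + 1) ^ 5) (hV' : b < (V' + 1) ^ 4) (hV1 : 1 ≤ V)
    (hV1' : 1 ≤ V') (hVb : V ≤ b) (hVb' : V' ≤ b) (hZ : lam ≤ Z) (hbZ : b ≤ Z) (hw : 1 ≤ w)
    (hτ : ∀ t : ℕ, t ≤ 10 ^ 5 * (e + 2) ^ 4 * Z ^ 18 → t.divisors.card ≤ w) (ξ : ι → ℤ) :
    b * ((psph ι n).filter fun x => ∀ i, (b : ℤ) ∣ x i - ξ i).card ≤
      20 * 11 ^ (e + 2) * w ^ 2 * (V * V') * (2 * lam / b + b) ^ e := by
  set S := (psph ι n).filter fun x => ∀ i, (b : ℤ) ∣ x i - ξ i with hS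
  rcases S.eq_empty_or_nonempty with h0 | ⟨x₀, h0⟩
  · rw [h0, card_empty, mul_zero]
    exact Nat.zero_le _
  have hb' : (0 : ℤ) < b := by exact_mod_cast hb
  have hs : ∀ x ∈ S, x ∈ sph ι n := fun x hx => (mem_psph.1 (mem_filter.1 hx).1).1
  obtain ⟨f, hf⟩ := (mem_psph.1 (mem_filter.1 h0).1).2
  obtain ⟨v, v', hv, hv', h1, h2, i, j, hij⟩ := exists_short_pair (ι := ι) (by omega) hb hV hV' x₀
  have hx : ∀ x ∈ S, ∀ l, x l = x₀ l + b * ((x l - x₀ l) / b) := fun x hx l => by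
    have := dvd_sub ((mem_filter.1 hx).2 l) ((mem_filter.1 h0).2 l)
    rw [sub_sub_sub_cancel_right] at this
    rw [Int.mul_ediv_cancel' this, add_sub_cancel]
  have hl : ∀ x ∈ S, ∀ l, |x l| ≤ lam := fun x hx =>
    mem_box.1 (mem_box_of_dot ((mem_sph.1 (hs x hx)).le.trans (by exact_mod_cast hn)))
  have hfib : S.card ≤ 10 * w ^ 2 * (S.image (ClsBig_ph v v' i j)).card := by
    refine card_le_mul_card_image S _ fun a _ => plane_count (Z := Z)
      (hn.trans (Nat.pow_le_pow_left hZ 2)) hw (by rw [he]; exact hτ)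
      (fun l => (hv l).trans (by exact_mod_cast hVb.trans hbZ))
      (fun l => (hv' l).trans (by exact_mod_cast hVb'.trans hbZ)) hij _
      (fun x hx => hs x (mem_filter.1 hx).1) fun x hx y hy => ?_
    have e := (mem_filter.1 hx).2.trans (mem_filter.1 hy).2.symm
    have hq : ((v i * v' j - v j * v' i : ℤ) : ℚ) ≠ 0 := Int.cast_ne_zero.2 hij
    refine ⟨((x i - y i) * v' j - (x j - y j) * v' i : ℤ) / (v i * v' j - v j * v' i : ℤ),
      (v i * (x j - y j) - v j * (x i - y i) : ℤ) / (v i * v' j - v j * v' i : ℤ), fun l => ?_⟩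
    have el := congrFun e l
    simp only [ClsBig_ph] at el
    rw [div_mul_eq_mul_div, div_mul_eq_mul_div, ← add_div, eq_div_iff hq]
    exact_mod_cast (by linear_combination el : (x l - y l) * (v i * v' j - v j * v' i) =
      ((x i - y i) * v' j - (x j - y j) * v' i) * v l + (v i * (x j - y j) - v j * (x i - y i)) * v' l)
  have hg : ∀ a : ι → ℤ, ∃ x, a ∈ S.image (ClsBig_ph v v' i j) →
      x ∈ S ∧ ClsBig_ph v v' i j x = a := fun a => by
    by_cases h : a ∈ S.image (ClsBig_ph v v' i j)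
    · obtain ⟨x, h1, h2⟩ := mem_image.1 h
      exact ⟨x, fun _ => ⟨h1, h2⟩⟩
    · exact ⟨a, fun h' => absurd h' h⟩
  choose g hg using hg
  set Y := 2 * lam / b + b
  have hp := ClsBig_pack (Y := Y) hb hV1 hV1' hf hv hv' h1 h2 hij (S.image (ClsBig_ph v v' i j))
    (fun a l => (g a l - x₀ l) / b) (fun a ha l => ?_) (fun a ha => ?_) fun a ha c hc e => ?_
  · have hbY : b ≤ Y := Nat.le_add_left _ _
    clear_value Y
    have hY0 : 0 < Y * Y := Nat.mul_pos (by omega) (by omega)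
    have h3 : b * (S.image (ClsBig_ph v v' i j)).card ≤ 2 * 11 ^ (e + 2) * (V * V') * Y ^ e := by
      refine Nat.le_of_mul_le_mul_right (hp.trans ?_) hY0
      rw [he]
      calc _ ≤ 2 * (11 * Y) ^ (e + 2) * (V * V') :=
            Nat.mul_le_mul_right _ (Nat.mul_le_mul_left _ (Nat.pow_le_pow_left (by omega) _))
        _ = _ := by ring
    calc _ ≤ b * (10 * w ^ 2 * (S.image (ClsBig_ph v v' i j)).card) := Nat.mul_le_mul_left _ hfib
      _ = 10 * w ^ 2 * (b * (S.image (ClsBig_ph v v' i j)).card) := by ring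
      _ ≤ 10 * w ^ 2 * (2 * 11 ^ (e + 2) * (V * V') * Y ^ e) := Nat.mul_le_mul_left _ h3
      _ = _ := by ring
  · have q := hx _ (hg a ha).1 l
    have q1 := abs_le.1 (hl _ (hg a ha).1 l)
    have q2 := abs_le.1 (hl _ h0 l)
    generalize (g a l - x₀ l) / b = z at q ⊢
    have q3 : (b : ℤ) * |z| ≤ 2 * lam := by
      rw [← Nat.abs_cast b, ← abs_mul]
      exact abs_le.2 ⟨by linarith [q1.1, q2.2], by linarith [q1.2, q2.1]⟩
    have q4 : z.natAbs ≤ 2 * lam / b := by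
      rw [Nat.le_div_iff_mul_le hb, mul_comm]
      rw [← Int.natCast_natAbs] at q3
      exact_mod_cast q3
    rw [← Int.natCast_natAbs]
    exact_mod_cast q4.trans (Nat.le_add_right _ _)
  · have q := hx _ (hg a ha).1
    have q1 := mem_sph.1 (hs _ (hg a ha).1)
    have q2 := mem_sph.1 (hs _ h0)
    set z : ι → ℤ := fun l => (g a l - x₀ l) / b with hz
    have q3 : g a ⬝ᵥ g a = x₀ ⬝ᵥ x₀ + b * (2 * (x₀ ⬝ᵥ z) + b * (z ⬝ᵥ z)) := by
      simp only [dotProduct, mul_sum, ← sum_add_distrib]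
      refine sum_congr rfl fun l _ => ?_
      have := q l
      change g a l = x₀ l + b * z l at this
      rw [this]
      ring
    rw [q1, q2, left_eq_add, mul_eq_zero] at q3
    exact ⟨-(z ⬝ᵥ z), by linear_combination q3.resolve_left hb'.ne'⟩
  · rw [← (hg a ha).2, ← (hg c hc).2]
    funext l
    have el := congrFun e l
    have q := hx _ (hg a ha).1
    have q' := hx _ (hg c hc).1
    simp only [ClsBig_ph] at el ⊢
    linear_combination b * el + (v i * v' j - v j * v' i) * (q l - q' l)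
      - (v' j * v l - v j * v' l) * (q i - q' i) + (v' i * v l - v i * v' l) * (q j - q' j)

end Pool.Agent.P.MP_d565f2_an.LS
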