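import Pool.Agent.P.MP_d565f2_an.SR.ADefs
import Pool.Agent.P.MP_d565f2_an.LS.Count

set_option autoImplicit false

open Finset

namespace Pool.Agent.P.MP_d565f2_an.LS

variable {ι : Type} [Fintype ι] [DecidableEq ι]

theorem ClsCount_int (R : ℕ) {D : ℕ} (hD : 0 < D) (a : ℤ) :
    ((Icc (-(R : ℤ)) R).filter fun x => (D : ℤ) ∣ x - a).card ≤ 2 * R / D + 1 := by
  have hD' : (0 : ℤ) < D := by exact_mod_cast hD
  refine (card_le_card_of_injOn (t := Icc (0 : ℤ) (2 * R / D : ℕ)) (fun x => (x + R) / D)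
    (fun x hx => ?_) fun x hx y hy e => ?_).trans_eq
      (by rw [Int.card_Icc]; generalize 2 * R / D = q; omega)
  · obtain ⟨h1, h2⟩ := mem_Icc.1 (mem_filter.1 hx).1
    refine mem_coe.2 (mem_Icc.2 ⟨Int.ediv_nonneg (by omega) hD'.le, ?_⟩)
    push_cast
    exact Int.ediv_le_ediv hD' (by omega)
  · have e1 : (x + R) % D = (y + R) % D := Int.modEq_iff_dvd.2 (by
      simpa using dvd_sub (mem_filter.1 hy).2 (mem_filter.1 hx).2)
    have e2 : (x + R) / D = (y + R) / D := e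
    have e3 := Int.emod_add_mul_ediv (x + R) D
    have e4 := Int.emod_add_mul_ediv (y + R) D
    rw [e1, e2] at e3
    omega

theorem ClsCount_two {R w : ℕ} (hw : 1 ≤ w) (hτ : ∀ t : ℕ, t ≤ R ^ 2 → t.divisors.card ≤ w)
    {k : ℤ} (hk : k ≤ (R : ℤ) ^ 2) (S : Finset (ℤ × ℤ)) (hS : ∀ v ∈ S, v.1 ^ 2 + v.2 ^ 2 = k) :
    S.card ≤ 10 * w ^ 2 := by
  rcases le_or_gt k 0 with h | h
  · refine (card_le_card (t := {(0, 0)}) fun v hv => ?_).trans (by rw [card_singleton]; nlinarith)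
    have := hS v hv
    exact mem_singleton.2 (Prod.ext (by nlinarith [sq_nonneg v.1, sq_nonneg v.2])
      (by nlinarith [sq_nonneg v.1, sq_nonneg v.2]))
  · obtain ⟨m, rfl⟩ := Int.eq_ofNat_of_zero_le h.le
    refine (ell_form (D := 1) (m := m) one_pos (by exact_mod_cast h) S fun v hv => by
      simpa using hS v hv).trans ?_
    have := hτ m (by exact_mod_cast hk)
    gcongr

/- Fix all coordinates but two (an interval of 2 R + 1 integers has at most 2 R / D + 1 members of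
one class mod D); the last two satisfy u ^ 2 + v ^ 2 = k ≤ R ^ 2: `ell_form` with D = 1 if k > 0,
one solution if k = 0.  Compare `count_slices` in LS/Count.lean. -/
theorem class_count {e : ℕ} (he : Fintype.card ι = e + 2) {N R D w : ℕ} (hN : N ≤ R ^ 2)
    (hD : 0 < D) (hw : 1 ≤ w) (hτ : ∀ t : ℕ, t ≤ R ^ 2 → t.divisors.card ≤ w) (a : ι → ℤ) :
    ((sph ι N).filter fun z => ∀ i, (D : ℤ) ∣ z i - a i).card ≤ 10 * w ^ 2 * (2 * R / D + 1) ^ e := by
  classical
  obtain ⟨b, -, c, -, hbc⟩ := one_lt_card.1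
    (show 1 < (univ : Finset ι).card by rw [card_univ]; omega)
  have hs : ∀ x : ι → ℤ, x ⬝ᵥ x = x b * x b + x c * x c +
      ∑ i ∈ ({b, c} : Finset ι)ᶜ, x i * x i := fun x => by
    rw [dotProduct, ← sum_add_sum_compl {b, c}, sum_pair hbc]
  have hn' : (N : ℤ) ≤ (R : ℤ) ^ 2 := by exact_mod_cast hN
  refine (card_le_mul_card_image_of_maps_to
    (f := fun (X : ι → ℤ) (i : {i // ¬ i ∈ ({b, c} : Finset ι)}) => X i)
    (t := Fintype.piFinset fun i => (Icc (-(R : ℤ)) R).filter fun x => (D : ℤ) ∣ x - a i.1)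
    (fun X hX => Fintype.mem_piFinset.2 fun i => ?_)
    (10 * w ^ 2) fun Y _ => ?_).trans (Nat.mul_le_mul_left _ ?_)
  · obtain ⟨h1, h2⟩ := mem_filter.1 hX
    exact mem_filter.2 ⟨mem_Icc.2 (abs_le.1 (mem_box.1
      (mem_box_of_dot ((mem_sph.1 h1).le.trans hn')) i)), h2 i⟩
  · set T := ((sph ι N).filter fun z => ∀ i, (D : ℤ) ∣ z i - a i).filter
      fun X => (fun i : {i // ¬ i ∈ ({b, c} : Finset ι)} => X i) = Y
    rcases T.eq_empty_or_nonempty with e | ⟨X0, h0⟩
    · rw [e]; simp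
    have ag : ∀ X ∈ T, ∀ Z ∈ T, ∀ i ∈ ({b, c} : Finset ι)ᶜ, X i = Z i := fun X hX Z hZ i hi =>
      congrFun ((mem_filter.1 hX).2.trans (mem_filter.1 hZ).2.symm) ⟨i, mem_compl.1 hi⟩
    have hi : Set.InjOn (fun X : ι → ℤ => (X b, X c)) T := fun X hX Z hZ e => by
      simp only [Prod.mk.injEq] at e
      funext i
      by_cases h : i ∈ ({b, c} : Finset ι)
      · simp only [mem_insert, mem_singleton] at h
        rcases h with rfl | rfl
        exacts [e.1, e.2]
      · exact ag X hX Z hZ i (mem_compl.2 h)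
    rw [← card_image_of_injOn hi]
    refine ClsCount_two hw hτ (k := N - ∑ i ∈ ({b, c} : Finset ι)ᶜ, X0 i * X0 i)
      ((sub_le_self _ (sum_nonneg fun _ _ => mul_self_nonneg _)).trans hn') _ fun v hv => ?_
    obtain ⟨X, hX, rfl⟩ := mem_image.1 hv
    have h1 := (mem_filter.1 (mem_filter.1 hX).1).1
    rw [mem_sph, hs, sum_congr rfl fun i hi => by rw [ag X hX X0 h0 i hi]] at h1
    linear_combination h1
  · rw [Fintype.card_piFinset]
    refine (prod_le_pow_card _ _ _ fun i _ => ClsCount_int R hD _).trans_eq ?_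
    rw [card_univ, Fintype.card_subtype_compl, Fintype.card_coe, card_pair hbc, he,
      Nat.add_sub_cancel]

/- If the set is nonempty take a member a; any other member z' has D' ∣ z' i - a i with
D' = D / gcd D 2, since c' is coprime to D; 2 R / D' ≤ 4 R / D. -/
theorem pair_count {e : ℕ} (he : Fintype.card ι = e + 2) {N R D w : ℕ} (hN : N ≤ R ^ 2)
    (hD : 0 < D) (hw : 1 ≤ w) (hτ : ∀ t : ℕ, t ≤ R ^ 2 → t.divisors.card ≤ w) (y : ι → ℤ) {c' : ℤ}
    (hc : IsCoprime c' (D : ℤ)) :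
    ((sph ι N).filter fun z' => ∀ i, (D : ℤ) ∣ 2 * (y i - c' * z' i)).card ≤
      10 * w ^ 2 * (4 * R / D + 1) ^ e := by
  rcases ((sph ι N).filter fun z' => ∀ i, (D : ℤ) ∣ 2 * (y i - c' * z' i)).eq_empty_or_nonempty
    with h | ⟨a, ha⟩
  · rw [h]; simp
  have key : ∀ z ∈ (sph ι N).filter fun z' => ∀ i, (D : ℤ) ∣ 2 * (y i - c' * z' i), ∀ i,
      (D : ℤ) ∣ 2 * (z i - a i) := fun z hz i => hc.symm.dvd_of_dvd_mul_left (by
    convert dvd_sub ((mem_filter.1 ha).2 i) ((mem_filter.1 hz).2 i) using 1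
    ring)
  obtain ⟨m, rfl | rfl⟩ := Nat.even_or_odd' D
  · refine (card_le_card fun z hz => mem_filter.2 ⟨(mem_filter.1 hz).1, fun i => ?_⟩).trans
      ((class_count he hN (D := m) (by omega) hw hτ a).trans_eq ?_)
    · have := key z hz i
      push_cast at this
      exact (mul_dvd_mul_iff_left two_ne_zero).1 this
    · rw [show 4 * R = 2 * (2 * R) by ring, Nat.mul_div_mul_left _ _ two_pos]
  · refine (card_le_card fun z hz => mem_filter.2 ⟨(mem_filter.1 hz).1, fun i => ?_⟩).trans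
      ((class_count he hN hD hw hτ a).trans ?_)
    · exact IsCoprime.dvd_of_dvd_mul_left ⟨1, -m, by push_cast; ring⟩ (key z hz i)
    · gcongr
      norm_num

end Pool.Agent.P.MP_d565f2_an.LS
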