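import Pool.Agent.P.MP_d565f2_an.SR.BDefs
import Pool.Agent.P.MP_d565f2_an.LS.Count

set_option autoImplicit false

open MvPolynomial Finset Module

namespace Pool.Agent.P.MP_d565f2_an.LS

variable {σ : Type} [Fintype σ] [DecidableEq σ]

theorem Count2_hyper (ι : Type) [Fintype ι] [DecidableEq ι] {ρ : ℕ} (hι : Fintype.card ι = ρ + 1)
    (hρ : 2 ≤ ρ) {B : ℕ} (hB : 1 ≤ B) : ∃ C : ℕ, ∀ n lam : ℕ, 1 ≤ lam → n ≤ lam ^ 2 →
      ∀ u : ι → ℤ, u ≠ 0 → ∀ τ : ℤ,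
      ((sph ι n).filter fun X => u ⬝ᵥ X = τ).card ^ B ≤ C * lam ^ (B * (ρ - 2) + 1) := by
  obtain ⟨r, rfl⟩ := Nat.exists_eq_add_of_le' hρ
  obtain ⟨C, hC⟩ := card_divisors_pow_le (2 * B * 18) (by omega)
  refine ⟨10 ^ B * (C * 10 ^ 10 + 1) * 3 ^ (r * B), fun n lam hl hn u hu τ => ?_⟩
  obtain ⟨t, ht, hm⟩ := exists_max_image (Icc 1 (10 ^ 10 * lam ^ 18))
    (fun t => t.divisors.card) ⟨1, mem_Icc.2 ⟨le_rfl, Nat.mul_pos (by norm_num) (by positivity)⟩⟩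
  obtain ⟨t1, t2⟩ := mem_Icc.1 ht
  have h1 := count_slices (w := t.divisors.card) (by omega) hn hu τ
    (card_pos.2 ⟨1, Nat.one_mem_divisors.2 (by omega)⟩) fun s hs => by
      rcases Nat.eq_zero_or_pos s with rfl | h0
      · simp
      · exact hm s (mem_Icc.2 ⟨h0, hs⟩)
  have h2 : t.divisors.card ^ (2 * B) ≤ (C * 10 ^ 10 + 1) * lam := by
    refine (Nat.pow_le_pow_iff_left (n := 18) (by omega)).1 ?_
    rw [← pow_mul, mul_pow]
    calc _ ≤ C * (10 ^ 10 * lam ^ 18) := (hC t (by omega)).trans (Nat.mul_le_mul_left _ t2)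
      _ ≤ (C * 10 ^ 10 + 1) * lam ^ 18 := by rw [← mul_assoc]; gcongr; omega
      _ ≤ _ := Nat.mul_le_mul_right _ (Nat.le_self_pow (by omega) _)
  rw [hι, show r + 2 + 1 - 3 = r by omega] at h1
  calc _ ≤ (10 * t.divisors.card ^ 2 * (3 * lam) ^ r) ^ B :=
        Nat.pow_le_pow_left (h1.trans (by gcongr; omega)) _
    _ = 10 ^ B * t.divisors.card ^ (2 * B) * (3 ^ (r * B) * lam ^ (r * B)) := by
        simp only [mul_pow, ← pow_mul]
    _ ≤ 10 ^ B * ((C * 10 ^ 10 + 1) * lam) * (3 ^ (r * B) * lam ^ (r * B)) := by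
        gcongr
    _ = _ := by rw [Nat.add_sub_cancel]; ring

/- Copy `count_hyper`, `count_quadric` (LS/Count.lean) with the divisor bound
`card_divisors_pow_le` at a higher exponent: (10 w ^ 2) ^ B ≤ C lam. -/
theorem count_quadric2 (hρ : 2 ≤ Fintype.card σ) {B : ℕ} (hB : 1 ≤ B) : ∃ C : ℕ, ∀ n lam : ℕ,
    1 ≤ lam → n ≤ lam ^ 2 → ∀ W : Finset (σ → ℤ), OnSph n W → ∀ (u : σ → ℤ) (w τ : ℤ),
      (u ≠ 0 ∨ w ≠ 0) → (∀ y ∈ W, (τ - u ⬝ᵥ y) ^ 2 = w ^ 2 * (n - y ⬝ᵥ y)) →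
      W.card ^ B ≤ C * lam ^ (B * (Fintype.card σ - 2) + 1) := by
  obtain ⟨C, hC⟩ := Count2_hyper (Option σ) Fintype.card_option hρ hB
  refine ⟨C, fun n lam hl hn W hW u w τ h0 hq => le_trans (Nat.pow_le_pow_left ?_ _)
    (hC n lam hl hn (fun o => o.elim w u) (fun e => ?_) τ)⟩
  · have : ∀ y ∈ W, ∃ ω : ℤ, y ⬝ᵥ y + ω ^ 2 = n ∧ w * ω + u ⬝ᵥ y = τ := fun y hy => by
      obtain ⟨ω, -, h1⟩ := hW y hy
      have h2 := hq y hy
      rw [← h1, add_sub_cancel_left, ← mul_pow] at h2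
      rcases sq_eq_sq_iff_eq_or_eq_neg.1 h2 with e | e
      · exact ⟨ω, h1, by linarith⟩
      · exact ⟨-ω, by rwa [neg_sq], by linarith⟩
    choose! ω h1 h2 using this
    refine card_le_card_of_injOn (fun y o => o.elim (ω y) y) (fun y hy => ?_)
      fun y _ y' _ e => funext fun j => congrFun e (some j)
    simp only [coe_filter, Set.mem_ofPred_eq, mem_sph, dotProduct, Fintype.sum_option, Option.elim]
    exact ⟨by rw [← h1 y hy, dotProduct]; ring, h2 y hy⟩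
  · exact h0.elim (fun h => h (funext fun j => congrFun e (some j))) fun h => h (congrFun e none)

end Pool.Agent.P.MP_d565f2_an.LS
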