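import Pool.Agent.P.MP_d565f2_an.SR.BDefs
import Pool.Agent.P.MP_d565f2_an.LS.Count

set_option autoImplicit false

open MvPolynomial Finset Module

namespace Pool.Agent.P.MP_d565f2_an.LS

variable {σ : Type} [Fintype σ] [DecidableEq σ]

theorem Count3_mul {x y X Y : ℤ} (hx : |x| ≤ X) (hy : |y| ≤ Y) : |x * y| ≤ X * Y := by
  rw [abs_mul]
  exact mul_le_mul hx hy (abs_nonneg _) ((abs_nonneg _).trans hx)

theorem Count3_add {x y X Y : ℤ} (hx : |x| ≤ X) (hy : |y| ≤ Y) : |x + y| ≤ X + Y :=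
  (abs_add_le _ _).trans (add_le_add hx hy)

theorem Count3_sub {x y X Y : ℤ} (hx : |x| ≤ X) (hy : |y| ≤ Y) : |x - y| ≤ X + Y :=
  (abs_sub _ _).trans (add_le_add hx hy)

theorem Count3_sq {x X : ℤ} (hx : |x| ≤ X) : |x ^ 2| ≤ X * X := by
  rw [sq]
  exact Count3_mul hx hx

theorem Count3_disc {a b c d e f L : ℤ} (hL : 0 ≤ L) (ha : |a| ≤ 12 * L ^ 4)
    (hb : |b| ≤ 16 * L ^ 4) (hc : |c| ≤ 12 * L ^ 4) (hd : |d| ≤ 48 * L ^ 5)
    (he : |e| ≤ 48 * L ^ 5) (hf : |f| ≤ 76 * L ^ 6) :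
    |(2 * a * e - b * d) ^ 2 + (4 * a * c - b ^ 2) * (d ^ 2 - 4 * a * f)| ≤ 10 ^ 10 * L ^ 18 := by
  have h2 : |(2 : ℤ)| ≤ 2 := by norm_num
  have h4 : |(4 : ℤ)| ≤ 4 := by norm_num
  refine (Count3_add (Count3_sq (Count3_sub (Count3_mul (Count3_mul h2 ha) he) (Count3_mul hb hd)))
    (Count3_mul (Count3_sub (Count3_mul (Count3_mul h4 ha) hc) (Count3_sq hb))
      (Count3_sub (Count3_sq hd) (Count3_mul (Count3_mul h4 ha) hf)))).trans ?_
  have : 0 ≤ L ^ 18 := by positivity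
  calc _ = 8638464 * L ^ 18 := by ring
    _ ≤ _ := by gcongr; norm_num

theorem Count3_four {n m p q r s α β : ℤ} {lam w : ℕ} (hm : m ≠ 0) (bm : |m| ≤ 2 * lam ^ 2)
    (bp : |p| ≤ 2 * lam ^ 2) (bq : |q| ≤ 2 * lam ^ 2) (br : |r| ≤ 2 * lam ^ 2)
    (bs : |s| ≤ 2 * lam ^ 2) (hn : n ≤ lam ^ 2) (S : Finset (ℤ × ℤ × ℤ × ℤ))
    (hS : ∀ v ∈ S, v.1 ^ 2 + v.2.1 ^ 2 + v.2.2.1 ^ 2 + v.2.2.2 ^ 2 = n ∧
      m * v.1 = α + p * v.2.2.1 + q * v.2.2.2 ∧ m * v.2.1 = β + r * v.2.2.1 + s * v.2.2.2)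
    (hw : 1 ≤ w) (hτ : ∀ t : ℕ, t ≤ 10 ^ 10 * lam ^ 18 → t.divisors.card ≤ w) :
    S.card ≤ 10 * w ^ 2 := by
  classical
  rcases S.eq_empty_or_nonempty with rfl | ⟨z, hz⟩
  · simp
  obtain ⟨z0, z1, z2⟩ := hS z hz
  have hi : Set.InjOn (fun v : ℤ × ℤ × ℤ × ℤ => v.2.2) S := fun v hv u hu e => by
    have e' : v.2.2 = u.2.2 := e
    obtain ⟨-, v1, v2⟩ := hS v hv
    obtain ⟨-, u1, u2⟩ := hS u hu
    rw [e'] at v1 v2
    exact Prod.ext (mul_left_cancel₀ hm (v1.trans u1.symm))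
      (Prod.ext (mul_left_cancel₀ hm (v2.trans u2.symm)) e')
  have hL : (0 : ℤ) ≤ lam := by positivity
  have hb : |z.1| ≤ lam ∧ |z.2.1| ≤ lam ∧ |z.2.2.1| ≤ lam ∧ |z.2.2.2| ≤ lam := by
    refine ⟨?_, ?_, ?_, ?_⟩ <;> refine abs_le_of_sq_le_sq ?_ hL <;>
      nlinarith [sq_nonneg z.1, sq_nonneg z.2.1, sq_nonneg z.2.2.1, sq_nonneg z.2.2.2]
  obtain ⟨b1, b2, b3, b4⟩ := hb
  have bα : |α| ≤ 6 * lam ^ 3 := by
    rw [show α = m * z.1 - p * z.2.2.1 - q * z.2.2.2 by linear_combination -z1]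
    exact (Count3_sub (Count3_sub (Count3_mul bm b1) (Count3_mul bp b3))
      (Count3_mul bq b4)).trans_eq (by ring)
  have bβ : |β| ≤ 6 * lam ^ 3 := by
    rw [show β = m * z.2.1 - r * z.2.2.1 - s * z.2.2.2 by linear_combination -z2]
    exact (Count3_sub (Count3_sub (Count3_mul bm b2) (Count3_mul br b3))
      (Count3_mul bs b4)).trans_eq (by ring)
  have bn : |n| ≤ lam ^ 2 := by
    rw [abs_of_nonneg (by rw [← z0]; positivity)]
    exact hn
  have h2 : |(2 : ℤ)| ≤ 2 := by norm_num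
  rw [← card_image_of_injOn hi]
  refine ell_conic (a := p ^ 2 + r ^ 2 + m ^ 2) (b := 2 * (p * q + r * s))
    (c := q ^ 2 + s ^ 2 + m ^ 2) (d := 2 * (α * p + β * r)) (e := 2 * (α * q + β * s))
    (f := α ^ 2 + β ^ 2 - m ^ 2 * n) ?_ _ (fun u hu => ?_) hw (hτ _ ?_)
  · rw [show 4 * (p ^ 2 + r ^ 2 + m ^ 2) * (q ^ 2 + s ^ 2 + m ^ 2) - (2 * (p * q + r * s)) ^ 2 =
      4 * (m ^ 4 + (m ^ 2 * (p ^ 2 + r ^ 2 + q ^ 2 + s ^ 2) + (p * s - r * q) ^ 2)) by ring]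
    positivity
  · obtain ⟨v, hv, rfl⟩ := mem_image.1 hu
    obtain ⟨v0, v1, v2⟩ := hS v hv
    linear_combination m ^ 2 * v0 - (m * v.1 + α + p * v.2.2.1 + q * v.2.2.2) * v1 -
      (m * v.2.1 + β + r * v.2.2.1 + s * v.2.2.2) * v2
  · zify
    refine Count3_disc hL ?_ ?_ ?_ ?_ ?_ ?_
    · exact (Count3_add (Count3_add (Count3_sq bp) (Count3_sq br)) (Count3_sq bm)).trans_eq
        (by ring)
    · exact (Count3_mul h2 (Count3_add (Count3_mul bp bq) (Count3_mul br bs))).trans_eq (by ring)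
    · exact (Count3_add (Count3_add (Count3_sq bq) (Count3_sq bs)) (Count3_sq bm)).trans_eq
        (by ring)
    · exact (Count3_mul h2 (Count3_add (Count3_mul bα bp) (Count3_mul bβ br))).trans_eq (by ring)
    · exact (Count3_mul h2 (Count3_add (Count3_mul bα bq) (Count3_mul bβ bs))).trans_eq (by ring)
    · exact (Count3_sub (Count3_add (Count3_sq bα) (Count3_sq bβ))
        (Count3_mul (Count3_sq bm) bn)).trans_eq (by ring)

theorem Count3_slices {ι : Type} [Fintype ι] [DecidableEq ι] (hι : 4 ≤ Fintype.card ι)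
    {n lam w : ℕ} (hn : n ≤ lam ^ 2) {u u' : ι → ℤ} (hu : ∀ j, |u j| ≤ lam)
    (hu' : ∀ j, |u' j| ≤ lam) {a b : ι} (hm : u a * u' b - u b * u' a ≠ 0) (τ τ' : ℤ)
    (hw : 1 ≤ w) (hτ : ∀ t : ℕ, t ≤ 10 ^ 10 * lam ^ 18 → t.divisors.card ≤ w) :
    ((sph ι n).filter fun X => u ⬝ᵥ X = τ ∧ u' ⬝ᵥ X = τ').card ≤
      10 * w ^ 2 * (2 * lam + 1) ^ (Fintype.card ι - 4) := by
  classical
  have hab : a ≠ b := by
    rintro rfl
    exact hm (by ring)
  obtain ⟨k, hk, l, hl, hkl⟩ := one_lt_card.1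
    (show 1 < ((univ.erase a).erase b).card by
      rw [card_erase_of_mem (mem_erase.2 ⟨hab.symm, mem_univ _⟩), card_erase_of_mem (mem_univ _),
        card_univ]
      omega)
  have hbk := (ne_of_mem_erase hk).symm
  have hbl := (ne_of_mem_erase hl).symm
  have hak := (ne_of_mem_erase (mem_of_mem_erase hk)).symm
  have hal := (ne_of_mem_erase (mem_of_mem_erase hl)).symm
  have hs : ∀ x y : ι → ℤ, x ⬝ᵥ y = x a * y a + x b * y b + x k * y k + x l * y l +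
      ∑ i ∈ ({a, b, k, l} : Finset ι)ᶜ, x i * y i := fun x y => by
    rw [dotProduct, ← sum_add_sum_compl {a, b, k, l}, sum_insert (by simp [hab, hak, hal]),
      sum_insert (by simp [hbk, hbl]), sum_pair hkl]
    ring
  have hn' : (n : ℤ) ≤ (lam : ℤ) ^ 2 := by exact_mod_cast hn
  have hc : ∀ {x y z t : ℤ}, |x| ≤ lam → |y| ≤ lam → |z| ≤ lam → |t| ≤ lam →
      |x * y - z * t| ≤ 2 * lam ^ 2 := fun hx hy hz ht =>
    (Count3_sub (Count3_mul hx hy) (Count3_mul hz ht)).trans_eq (by ring)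
  refine (card_le_mul_card_image_of_maps_to
    (f := fun (X : ι → ℤ) (i : {i // ¬ i ∈ ({a, b, k, l} : Finset ι)}) => X i) (t := box _ lam)
    (fun X hX => mem_box.2 fun i => mem_box.1
      (mem_box_of_dot ((mem_sph.1 (mem_filter.1 hX).1).le.trans hn')) i) (10 * w ^ 2)
    fun Y _ => ?_).trans_eq ?_
  · set T := ((sph ι n).filter fun X => u ⬝ᵥ X = τ ∧ u' ⬝ᵥ X = τ').filter
      fun X => (fun i : {i // ¬ i ∈ ({a, b, k, l} : Finset ι)} => X i) = Y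
    rcases T.eq_empty_or_nonempty with e | ⟨X0, h0⟩
    · rw [e]; simp
    have ag : ∀ X ∈ T, ∀ Z ∈ T, ∀ i ∈ ({a, b, k, l} : Finset ι)ᶜ, X i = Z i :=
      fun X hX Z hZ i hi =>
        congrFun ((mem_filter.1 hX).2.trans (mem_filter.1 hZ).2.symm) ⟨i, mem_compl.1 hi⟩
    have hi : Set.InjOn (fun X : ι → ℤ => (X a, X b, X k, X l)) T := fun X hX Z hZ e => by
      simp only [Prod.mk.injEq] at e
      funext i
      by_cases h : i ∈ ({a, b, k, l} : Finset ι)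
      · simp only [mem_insert, mem_singleton] at h
        rcases h with rfl | rfl | rfl | rfl
        exacts [e.1, e.2.1, e.2.2.1, e.2.2.2]
      · exact ag X hX Z hZ i (mem_compl.2 h)
    rw [← card_image_of_injOn hi]
    refine Count3_four (m := u a * u' b - u b * u' a)
      (p := u b * u' k - u' b * u k) (q := u b * u' l - u' b * u l)
      (r := u' a * u k - u a * u' k) (s := u' a * u l - u a * u' l)
      (n := n - ∑ i ∈ ({a, b, k, l} : Finset ι)ᶜ, X0 i * X0 i)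
      (α := u' b * (τ - ∑ i ∈ ({a, b, k, l} : Finset ι)ᶜ, u i * X0 i) -
        u b * (τ' - ∑ i ∈ ({a, b, k, l} : Finset ι)ᶜ, u' i * X0 i))
      (β := u a * (τ' - ∑ i ∈ ({a, b, k, l} : Finset ι)ᶜ, u' i * X0 i) -
        u' a * (τ - ∑ i ∈ ({a, b, k, l} : Finset ι)ᶜ, u i * X0 i)) hm
      (hc (hu _) (hu' _) (hu _) (hu' _)) (hc (hu _) (hu' _) (hu' _) (hu _))
      (hc (hu _) (hu' _) (hu' _) (hu _)) (hc (hu' _) (hu _) (hu _) (hu' _))
      (hc (hu' _) (hu _) (hu _) (hu' _))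
      ((sub_le_self _ (sum_nonneg fun _ _ => mul_self_nonneg _)).trans hn') _
      (fun v hv => ?_) hw hτ
    obtain ⟨X, hX, rfl⟩ := mem_image.1 hv
    obtain ⟨h1, h2, h3⟩ := mem_filter.1 (mem_filter.1 hX).1
    rw [mem_sph, hs, sum_congr rfl fun i hi => by rw [ag X hX X0 h0 i hi]] at h1
    rw [hs, sum_congr rfl fun i hi => by rw [ag X hX X0 h0 i hi]] at h2 h3
    exact ⟨by linear_combination h1, by linear_combination u' b * h2 - u b * h3,
      by linear_combination u a * h3 - u' a * h2⟩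
  · rw [card_box, Fintype.card_subtype_compl, Fintype.card_coe,
      card_insert_of_notMem (by simp [hab, hak, hal]), card_eq_three.2
      ⟨b, k, l, hbk, hbl, hkl, rfl⟩]

/- a ≠ b.  Choose two more coordinates k, l and fix the other d - 4 (each of size ≤ lam).  With
m = u a u' b - u b u' a, Cramer gives m x a, m x b as affine functions of (x k, x l) with
coefficients bounded by a power of lam (take a point of the fibre to bound the constants), so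
(x k, x l) determines x and lies on (m x a) ^ 2 + (m x b) ^ 2 + m ^ 2 (x k ^ 2 + x l ^ 2) = m ^ 2 n',
a positive definite conic: `ell_conic` (as `count_plane`, `count_slices`); then
`card_divisors_pow_le` at a high exponent (as `count_hyper`). -/
theorem count_codim2 (hσ : 4 ≤ Fintype.card σ) {B : ℕ} (hB : 1 ≤ B) : ∃ C : ℕ, ∀ n lam : ℕ,
    1 ≤ lam → n ≤ lam ^ 2 → ∀ u u' : σ → ℤ, (∀ j, |u j| ≤ lam) → (∀ j, |u' j| ≤ lam) →
      (∃ a b, u a * u' b - u b * u' a ≠ 0) → ∀ t t' : ℤ,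
      ((sph σ n).filter fun x => u ⬝ᵥ x = t ∧ u' ⬝ᵥ x = t').card ^ B ≤
        C * lam ^ (B * (Fintype.card σ - 4) + 1) := by
  obtain ⟨C, hC⟩ := card_divisors_pow_le (2 * B * 18) (by omega)
  generalize hr : Fintype.card σ - 4 = r
  refine ⟨10 ^ B * (C * 10 ^ 10 + 1) * 3 ^ (r * B),
    fun n lam hl hn u u' hu hu' ⟨a, b, hm⟩ τ τ' => ?_⟩
  obtain ⟨t, ht, hmax⟩ := exists_max_image (Icc 1 (10 ^ 10 * lam ^ 18))
    (fun t => t.divisors.card) ⟨1, mem_Icc.2 ⟨le_rfl, Nat.mul_pos (by norm_num) (by positivity)⟩⟩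
  obtain ⟨t1, t2⟩ := mem_Icc.1 ht
  have h1 := Count3_slices (w := t.divisors.card) hσ hn hu hu' hm τ τ'
    (card_pos.2 ⟨1, Nat.one_mem_divisors.2 (by omega)⟩) fun s hs => by
      rcases Nat.eq_zero_or_pos s with rfl | h0
      · simp
      · exact hmax s (mem_Icc.2 ⟨h0, hs⟩)
  have h2 : t.divisors.card ^ (2 * B) ≤ (C * 10 ^ 10 + 1) * lam := by
    refine (Nat.pow_le_pow_iff_left (n := 18) (by omega)).1 ?_
    rw [← pow_mul, mul_pow]
    calc _ ≤ C * (10 ^ 10 * lam ^ 18) := (hC t (by omega)).trans (Nat.mul_le_mul_left _ t2)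
      _ ≤ (C * 10 ^ 10 + 1) * lam ^ 18 := by rw [← mul_assoc]; gcongr; omega
      _ ≤ _ := Nat.mul_le_mul_right _ (Nat.le_self_pow (by omega) _)
  rw [hr] at h1
  calc _ ≤ (10 * t.divisors.card ^ 2 * (3 * lam) ^ r) ^ B :=
        Nat.pow_le_pow_left (h1.trans (by gcongr; omega)) _
    _ = 10 ^ B * t.divisors.card ^ (2 * B) * (3 ^ (r * B) * lam ^ (r * B)) := by
        simp only [mul_pow, ← pow_mul]
    _ ≤ 10 ^ B * ((C * 10 ^ 10 + 1) * lam) * (3 ^ (r * B) * lam ^ (r * B)) := by gcongr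
    _ = _ := by ring

end Pool.Agent.P.MP_d565f2_an.LS
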