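import Pool.Agent.P.MP_d565f2_an.SR.Slice

set_option autoImplicit false

open MvPolynomial Finset Module

namespace Pool.Agent.P.MP_d565f2_an.LS

variable {σ : Type} [Fintype σ] [DecidableEq σ]

omit [Fintype σ] [DecidableEq σ] in
theorem FlatB_eval (z s s' : σ → ℚ) (y : Fin 2 → ℚ) (P : MvPolynomial σ ℚ) :
    eval y (aeval (fun j => (C (z j) + C (s j) * X 0 + C (s' j) * X 1 :
      MvPolynomial (Fin 2) ℚ)) P) = eval (fun j => z j + s j * y 0 + s' j * y 1) P := by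
  induction P using MvPolynomial.induction_on with
  | C c => simp
  | add p q hp hq => simp only [map_add, hp, hq]
  | mul_X p j hp => simp only [map_mul, hp, aeval_X, map_add, eval_X, eval_C]

theorem FlatB_chain (z s s' : σ → ℚ) (y w : Fin 2 → ℚ) (P : MvPolynomial σ ℚ) :
    w 0 * eval y (pderiv 0 (aeval (fun j => (C (z j) + C (s j) * X 0 + C (s' j) * X 1 :
      MvPolynomial (Fin 2) ℚ)) P)) +
    w 1 * eval y (pderiv 1 (aeval (fun j => (C (z j) + C (s j) * X 0 + C (s' j) * X 1 :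
      MvPolynomial (Fin 2) ℚ)) P)) =
    ∑ j, (w 0 * s j + w 1 * s' j) *
      eval (fun j => z j + s j * y 0 + s' j * y 1) (pderiv j P) := by
  induction P using MvPolynomial.induction_on with
  | C c => simp
  | add p q hp hq =>
    simp only [map_add, mul_add, sum_add_distrib, ← hp, ← hq]
    ring
  | mul_X p i hp =>
    have e : ∀ j, (w 0 * s j + w 1 * s' j) *
        eval (fun j => z j + s j * y 0 + s' j * y 1) (pderiv j (p * X i)) =
        (z i + s i * y 0 + s' i * y 1) * ((w 0 * s j + w 1 * s' j) *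
          eval (fun j => z j + s j * y 0 + s' j * y 1) (pderiv j p)) +
        if j = i then (w 0 * s i + w 1 * s' i) *
          eval (fun j => z j + s j * y 0 + s' j * y 1) p else 0 := fun j => by
      rw [Derivation.leibniz, pderiv_X]
      by_cases h : j = i
      · subst h
        simp
        ring
      · simp [h, Ne.symm h]
        ring
    simp only [e, sum_add_distrib, ← mul_sum, ← hp, sum_ite_eq', mem_univ, if_true]
    simp only [map_mul, aeval_X, Derivation.leibniz, smul_eq_mul, map_add, FlatB_eval]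
    simp [pderiv_X]
    ring

omit [Fintype σ] [DecidableEq σ] in
theorem FlatB_deg (z s s' : σ → ℚ) (P : MvPolynomial σ ℚ) :
    (aeval (fun j => (C (z j) + C (s j) * X 0 + C (s' j) * X 1 :
      MvPolynomial (Fin 2) ℚ)) P).totalDegree ≤ P.totalDegree := by
  have hl : ∀ (c : ℚ) (i : Fin 2), (C c * X i : MvPolynomial (Fin 2) ℚ).totalDegree ≤ 1 :=
    fun c i => (totalDegree_mul _ _).trans (by rw [totalDegree_C, totalDegree_X])
  conv_lhs => rw [P.as_sum, map_sum]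
  refine totalDegree_finsetSum_le fun m hm => ?_
  rw [aeval_monomial, algebraMap_eq, Finsupp.prod]
  refine (totalDegree_mul _ _).trans ?_
  rw [totalDegree_C, zero_add]
  refine (totalDegree_finsetProd _ _).trans (le_trans (sum_le_sum fun i _ => ?_)
    (le_totalDegree hm))
  refine (totalDegree_pow _ _).trans (mul_le_of_le_one_right' ?_)
  exact (totalDegree_add _ _).trans (max_le ((totalDegree_add _ _).trans
    (max_le (by simp) (hl _ _))) (hl _ _))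

omit [DecidableEq σ] in
theorem FlatB_mul (P Q : MvPolynomial σ ℤ) (x : σ → ℤ) (τ : σ → ℚ) :
    dd (P * Q) x τ = (eval x P : ℤ) * dd Q x τ + (eval x Q : ℤ) * dd P x τ := by
  simp only [dd, Derivation.leibniz, smul_eq_mul, map_add, map_mul, mul_sum, ← sum_add_distrib]
  exact sum_congr rfl fun j _ => by push_cast; ring

omit [DecidableEq σ] in
theorem FlatB_add (P Q : MvPolynomial σ ℤ) (x : σ → ℤ) (τ : σ → ℚ) :
    dd (P + Q) x τ = dd P x τ + dd Q x τ := by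
  simp only [dd, map_add, Int.cast_add, mul_add, sum_add_distrib]

theorem FlatB_dd {x α : σ → ℤ} {s s' : σ → ℚ} {y w : Fin 2 → ℚ}
    {f : MvPolynomial (Fin 2) ℚ} (hf : eval y f = 0)
    (hw : w 0 * eval y (pderiv 0 f) + w 1 * eval y (pderiv 1 f) = 0)
    {A : MvPolynomial σ ℤ} (hA : der (cf α) A = 0)
    (h1 : f ∣ aeval (fun j => (C ((x j : ℚ) - y 0 * s j - y 1 * s' j) + C (s j) * X 0 +
      C (s' j) * X 1 : MvPolynomial (Fin 2) ℚ)) (toQ A)) (p q : ℚ) :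
    dd A x (fun j => p * (w 0 * s j + w 1 * s' j) - q * (α j : ℚ)) = 0 := by
  obtain ⟨g, hg⟩ := h1
  have e := FlatB_chain (fun j => (x j : ℚ) - y 0 * s j - y 1 * s' j) s s' y w (toQ A)
  have e1 : (fun j => (x j : ℚ) - y 0 * s j - y 1 * s' j + s j * y 0 + s' j * y 1) = cst x :=
    funext fun j => by simp only [cst]; ring
  have e2 : ∀ j, eval (cst x) (pderiv j (toQ A)) = ((eval x (pderiv j A) : ℤ) : ℚ) := fun j => by
    rw [← eval_toQ, toQ, pderiv_map]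
  rw [hg, e1] at e
  simp only [e2, Derivation.leibniz, smul_eq_mul, map_add, map_mul, hf, zero_mul, zero_add] at e
  have e3 : ∑ j, (α j : ℚ) * ((eval x (pderiv j A) : ℤ) : ℚ) = 0 := by
    have := eval_der (cf α) A x
    rw [hA, map_zero] at this
    simp only [cf, eval_C, dotProduct] at this
    exact_mod_cast this.symm
  simp only [dd, sub_mul, sum_sub_distrib, mul_assoc, ← mul_sum, ← e, e3]
  linear_combination p * eval y g * hw

omit [DecidableEq σ] in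
theorem FlatB_dot (u α : σ → ℤ) (s s' : σ → ℚ) (w : Fin 2 → ℚ) (p q : ℚ) :
    (cst u ⬝ᵥ fun j => p * (w 0 * s j + w 1 * s' j) - q * (α j : ℚ)) =
      p * (w 0 * (cst u ⬝ᵥ s) + w 1 * (cst u ⬝ᵥ s')) - q * ((u ⬝ᵥ α : ℤ) : ℚ) := by
  simp only [dotProduct, cst, mul_add, mul_sum, Int.cast_sum, Int.cast_mul, ← sum_add_distrib,
    ← sum_sub_distrib]
  exact sum_congr rfl fun j _ => by ring

omit [DecidableEq σ] in
theorem FlatB_sp (x α : σ → ℤ) (s s' : σ → ℚ) (w : Fin 2 → ℚ) :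
    (cst x ⬝ᵥ fun j => ((α ⬝ᵥ x : ℤ) : ℚ) * (w 0 * s j + w 1 * s' j) -
      (cst x ⬝ᵥ fun j => w 0 * s j + w 1 * s' j) * (α j : ℚ)) = 0 := by
  have := FlatB_dot x α s s' w 1 0
  simp only [one_mul, zero_mul, sub_zero] at this
  rw [FlatB_dot, this, dotProduct_comm x α]
  ring

omit [DecidableEq σ] in
theorem FlatB_aff (u x : σ → ℤ) (z s s' : σ → ℚ) (a b c d : ℚ) :
    (cst u ⬝ᵥ fun j => d * z j + c * (x j : ℚ) + a * s j + b * s' j) =
      d * (cst u ⬝ᵥ z) + c * ((u ⬝ᵥ x : ℤ) : ℚ) + a * (cst u ⬝ᵥ s) + b * (cst u ⬝ᵥ s') := by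
  simp only [dotProduct, cst, mul_sum, Int.cast_sum, Int.cast_mul, ← sum_add_distrib]
  exact sum_congr rfl fun j _ => by ring

/- Let y = (u x, u' x), z = x - y 0 • s - y 1 • s' (orthogonal to u, u').  If f divides
G = aeval (fun j => C (z j) + C (s j) * X 0 + C (s' j) * X 1) (toQ A) and f(y) = 0, take w ≠ 0 in
ℚ ^ 2 with df(y) w = 0; then dG(y) w = 0, and by the chain rule dG(y) w = dd A x (w 0 • s + w 1 • s').
For τ₀ = (α x) • ι - (x ι) • α, ι = w 0 • s + w 1 • s': dd A x τ₀ = dd B x τ₀ = 0 (der (cf α) kills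
A, B), B(x) = 0, x τ₀ = 0, x on the sphere, so a * dd F x τ₀ = 0. -/
theorem dd_of_dvd {n : ℕ} {x α : σ → ℤ} (hx : x ⬝ᵥ x = n) {s s' : σ → ℚ} {y w : Fin 2 → ℚ}
    {f : MvPolynomial (Fin 2) ℚ} (hf : eval y f = 0)
    (hw : w 0 * eval y (pderiv 0 f) + w 1 * eval y (pderiv 1 f) = 0)
    {A B F : MvPolynomial σ ℤ} {a : ℤ} (ha : a ≠ 0) (hA : der (cf α) A = 0) (hB : der (cf α) B = 0)
    (hF : sp σ n ∣ C a * F - (A + lf α * B)) (hB0 : eval x B = 0)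
    (h1 : f ∣ aeval (fun j => (C ((x j : ℚ) - y 0 * s j - y 1 * s' j) + C (s j) * X 0 +
      C (s' j) * X 1 : MvPolynomial (Fin 2) ℚ)) (toQ A))
    (h2 : f ∣ aeval (fun j => (C ((x j : ℚ) - y 0 * s j - y 1 * s' j) + C (s j) * X 0 +
      C (s' j) * X 1 : MvPolynomial (Fin 2) ℚ)) (toQ B)) :
    dd F x (fun j => ((α ⬝ᵥ x : ℤ) : ℚ) * (w 0 * s j + w 1 * s' j) -
      (cst x ⬝ᵥ fun j => w 0 * s j + w 1 * s' j) * (α j : ℚ)) = 0 := by
  obtain ⟨H, hH⟩ := hF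
  have e := congrArg (fun P => dd P x fun j => ((α ⬝ᵥ x : ℤ) : ℚ) * (w 0 * s j + w 1 * s' j) -
      (cst x ⬝ᵥ fun j => w 0 * s j + w 1 * s' j) * (α j : ℚ)) (sub_eq_iff_eq_add.1 hH)
  have e1 : ∀ τ, dd (C a) x τ = 0 := fun τ => by simp only [dd, pderiv_C]; simp
  simp only [FlatB_add, FlatB_mul, FlatB_dd hf hw hA h1, FlatB_dd hf hw hB h2, hB0, dd_sp,
    FlatB_sp, eval_sp, hx, eval_C, e1] at e
  simpa [ha] using e

/- `single_slice` with 𝒢 = the polynomials aeval (fun j => C (z j) + C (s j) * X 0 + C (s' j) * X 1)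
(toQ P), P ∈ {A₁, B₁, A₂, B₂}, z orthogonal to u, u'.  They vanish at (u x, u' x) by `Whole`.  If f
divides all of them, `dd_of_dvd`, `dd_sp` and `Tang` give J τ₀ = ∑ τ₀ i v i (x); flatness gives
u τ₀ = u' τ₀ = 0, that is (α x) w = 0. -/
theorem slice_of_whole {e n k : ℕ} {W : Finset (σ → ℤ)} {I : Finset σ}
    {v : σ → σ → MvPolynomial σ ℤ} {J F₁ F₂ : MvPolynomial σ ℤ} (hW : W.Nonempty)
    (hJ : ∀ x ∈ W, eval x J ≠ 0) (hsph : W ⊆ sph σ n) (hT : Tang W I v J {sp σ n, F₁, F₂})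
    {u u' α : σ → ℤ} {c : σ → σ → ℤ} {m : ℤ} {s s' : σ → ℚ} (hfr : Frame u u' c m s s')
    (hu : ∀ i ∈ I, ∀ x ∈ W, eval x (fl u (v i)) = 0)
    (hu' : ∀ i ∈ I, ∀ x ∈ W, eval x (fl u' (v i)) = 0) (h1 : u ⬝ᵥ α = 0) (h2 : u' ⬝ᵥ α = 0)
    (hα : ∀ x ∈ W, α ⬝ᵥ x ≠ 0) (hF₁ : Whole W u u' α n e F₁) (hF₂ : Whole W u u' α n e F₂)
    (hrel : Rel W (k + 3 * e)) :
    ∃ W' ⊆ W, W'.Nonempty ∧ Rel W' k ∧ ∃ t t' : ℤ, ∀ x ∈ W', u ⬝ᵥ x = t ∧ u' ⬝ᵥ x = t' := by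
  obtain ⟨A₁, B₁, a₁, n₁, dA₁, dB₁, kA₁, kB₁, r₁, z₁⟩ := hF₁
  obtain ⟨A₂, B₂, a₂, n₂, dA₂, dB₂, kA₂, kB₂, r₂, z₂⟩ := hF₂
  refine single_slice hW hrel u u' {G | ∃ z : σ → ℚ, cst u ⬝ᵥ z = 0 ∧ cst u' ⬝ᵥ z = 0 ∧
    ∃ P, (P = A₁ ∨ P = B₁ ∨ P = A₂ ∨ P = B₂) ∧ G = aeval (fun j =>
      (C (z j) + C (s j) * X 0 + C (s' j) * X 1 : MvPolynomial (Fin 2) ℚ)) (toQ P)} ?_ ?_ ?_
  · rintro _ ⟨z, -, -, P, hP, rfl⟩
    refine (FlatB_deg _ _ _ _).trans ((totalDegree_toQ _).trans ?_)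
    rcases hP with rfl | rfl | rfl | rfl <;> assumption
  · rintro _ ⟨z, o1, o2, P, hP, rfl⟩ x hx
    have e : (fun j => z j + s j * cst ![u ⬝ᵥ x, u' ⬝ᵥ x] 0 + s' j * cst ![u ⬝ᵥ x, u' ⬝ᵥ x] 1) =
        cst x + fun j => 1 * z j + (-1) * (x j : ℚ) + ((u ⬝ᵥ x : ℤ) : ℚ) * s j +
          ((u' ⬝ᵥ x : ℤ) : ℚ) * s' j := funext fun j => by
      simp only [cst, Pi.add_apply, Matrix.cons_val_zero, Matrix.cons_val_one]
      ring
    have p1 := FlatB_aff u x z s s' ((u ⬝ᵥ x : ℤ) : ℚ) ((u' ⬝ᵥ x : ℤ) : ℚ) (-1) 1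
    have p2 := FlatB_aff u' x z s s' ((u ⬝ᵥ x : ℤ) : ℚ) ((u' ⬝ᵥ x : ℤ) : ℚ) (-1) 1
    rw [o1, hfr.s1, hfr.s3] at p1
    rw [o2, hfr.s2, hfr.s4] at p2
    have q1 := z₁ x hx _ (p1.trans (by ring)) (p2.trans (by ring))
    have q2 := z₂ x hx _ (p1.trans (by ring)) (p2.trans (by ring))
    rw [FlatB_eval, e]
    rcases hP with rfl | rfl | rfl | rfl
    exacts [q1.1, q1.2, q2.1, q2.2]
  · intro x hx f hf
    by_contra hc
    push Not at hc
    set y := cst ![u ⬝ᵥ x, u' ⬝ᵥ x] with hy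
    have y0 : y 0 = ((u ⬝ᵥ x : ℤ) : ℚ) := rfl
    have y1 : y 1 = ((u' ⬝ᵥ x : ℤ) : ℚ) := rfl
    have e : (fun j => (x j : ℚ) - y 0 * s j - y 1 * s' j) =
        fun j => 0 * s j + 1 * (x j : ℚ) + (-y 0) * s j + (-y 1) * s' j := funext fun j => by ring
    have hd : ∀ P, (P = A₁ ∨ P = B₁ ∨ P = A₂ ∨ P = B₂) → f ∣ aeval (fun j =>
        (C ((x j : ℚ) - y 0 * s j - y 1 * s' j) + C (s j) * X 0 + C (s' j) * X 1 :
          MvPolynomial (Fin 2) ℚ)) (toQ P) := fun P hP =>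
      hc _ ⟨fun j => (x j : ℚ) - y 0 * s j - y 1 * s' j,
        by rw [e, FlatB_aff, hfr.s1, hfr.s3, y0]; ring,
        by rw [e, FlatB_aff, hfr.s2, hfr.s4, y1]; ring, P, hP, rfl⟩
    obtain ⟨w, hw0, hw⟩ : ∃ w : Fin 2 → ℚ, ¬ (w 0 = 0 ∧ w 1 = 0) ∧
        w 0 * eval y (pderiv 0 f) + w 1 * eval y (pderiv 1 f) = 0 := by
      by_cases h : eval y (pderiv 0 f) = 0
      · exact ⟨![1, 0], by simp, by simp [h]⟩
      · exact ⟨![eval y (pderiv 1 f), -eval y (pderiv 0 f)], by simp [h], by simp; ring⟩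
    have hxs := mem_sph.1 (hsph hx)
    have b0 : ∀ B : MvPolynomial σ ℤ, eval (cst x + 0) (toQ B) = 0 → eval x B = 0 := fun B h => by
      rw [add_zero, eval_toQ] at h
      exact_mod_cast h
    have t1 := dd_of_dvd hxs hf hw n₁ kA₁ kB₁ r₁ (b0 _ (z₁ x hx 0 (by simp) (by simp)).2)
      (hd _ (by simp)) (hd _ (by simp))
    have t2 := dd_of_dvd hxs hf hw n₂ kA₂ kB₂ r₂ (b0 _ (z₂ x hx 0 (by simp) (by simp)).2)
      (hd _ (by simp)) (hd _ (by simp))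
    have t3 := hT x hx (fun j => ((α ⬝ᵥ x : ℤ) : ℚ) * (w 0 * s j + w 1 * s' j) -
      (cst x ⬝ᵥ fun j => w 0 * s j + w 1 * s' j) * (α j : ℚ)) (by
      rintro F (rfl | rfl | rfl)
      exacts [by rw [dd_sp, FlatB_sp, mul_zero], t1, t2])
    have key : ∀ (r : σ → ℤ) (τ : σ → ℚ), (∀ i ∈ I, ∀ x ∈ W, eval x (fl r (v i)) = 0) →
        (∀ j, ((eval x J : ℤ) : ℚ) * τ j = ∑ i ∈ I, τ i * ((eval x (v i j) : ℤ) : ℚ)) →
        cst r ⬝ᵥ τ = 0 := fun r τ hr h => by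
      refine (mul_eq_zero.1 ?_).resolve_left (Int.cast_ne_zero.2 (hJ x hx))
      calc ((eval x J : ℤ) : ℚ) * (cst r ⬝ᵥ τ) = ∑ j, (r j : ℚ) * (((eval x J : ℤ) : ℚ) * τ j) := by
            simp only [dotProduct, cst, mul_sum]
            exact sum_congr rfl fun j _ => by ring
        _ = ∑ i ∈ I, τ i * ((eval x (fl r (v i)) : ℤ) : ℚ) := by
            simp only [h, eval_fl, dotProduct, mul_sum, Int.cast_sum, Int.cast_mul]
            rw [sum_comm]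
            exact sum_congr rfl fun i _ => sum_congr rfl fun j _ => by ring
        _ = 0 := sum_eq_zero fun i hi => by rw [hr i hi x hx, Int.cast_zero, mul_zero]
    have k1 := key u _ hu t3
    have k2 := key u' _ hu' t3
    rw [FlatB_dot, hfr.s1, hfr.s3, h1] at k1
    rw [FlatB_dot, hfr.s2, hfr.s4, h2] at k2
    have ha : ((α ⬝ᵥ x : ℤ) : ℚ) ≠ 0 := Int.cast_ne_zero.2 (hα x hx)
    exact hw0 ⟨by simpa [ha] using k1, by simpa [ha] using k2⟩

end Pool.Agent.P.MP_d565f2_an.LS
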