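import Pool.Agent.P.MP_d565f2_an.SR.Normals

set_option autoImplicit false

open MvPolynomial Finset Module

namespace Pool.Agent.P.MP_d565f2_an.LS

variable {σ : Type} [Fintype σ] [DecidableEq σ]

theorem loc_of_rank {n p : ℕ} {W : Finset (σ → ℤ)} {x : σ → ℤ} (hsph : W ⊆ sph σ n) (hp : 0 < p)
    (hx : x ∈ W) (z : cls W p x → σ → ℤ) (hz : ∀ y j, y.1 j = x j + p * z y j) {r : ℕ}
    (hr : finrank ℚ (Submodule.span ℚ (Set.range fun j : σ => fun y => (z y j : ℚ))) ≤ r + 1)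
    (M : ℕ) : Loc W p (M + 1) ((r + 2) * (M + 1) ^ r) x := by
  set z' : σ → cls W p x → ℚ := fun j y => ((z y j : ℤ) : ℚ) with hz'
  have m1 : ∀ o, z' o ∈ Submodule.span ℚ (Set.range z') := fun o => Submodule.subset_span ⟨o, rfl⟩
  have p0 : (p : ℚ) ≠ 0 := by exact_mod_cast hp.ne'
  have h0 : x ⬝ᵥ x + (0 : ℤ) ^ 2 = n := by simpa using mem_sph.1 (hsph hx)
  have h2 : ∀ y : cls W p x, y.1 ⬝ᵥ y.1 + ((0 : ℤ) + p * 0) ^ 2 = n := fun y => by
    simpa using mem_sph.1 (hsph (mem_filter.1 y.2).1)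
  have hq : ∑ o, z' o ^ 2 ∈ Submodule.span ℚ (Set.range z') := by
    have : ∑ o, z' o ^ 2 = (-2 / p : ℚ) • (∑ j, (x j : ℚ) • z' j) := by
      funext y
      have s1 := congrArg (Int.cast : ℤ → ℚ) (LocA_sph hp h0 (hz y) (h2 y))
      push_cast at s1
      simp only [Finset.sum_apply, Pi.pow_apply, Pi.smul_apply, smul_eq_mul, hz']
      field_simp
      linear_combination s1
    rw [this]
    exact Submodule.smul_mem _ _ (Submodule.sum_mem _ fun j _ => Submodule.smul_mem _ _ (m1 _))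
  refine ⟨_, sphere_rank z' hr hq M, fun g => ?_⟩
  generalize M + 1 = k
  have o1 : ∀ k, (1 : cls W p x → ℚ) ∈ (1 ⊔ Submodule.span ℚ (Set.range z')) ^ k := fun k => by
    simpa using Submodule.pow_mem_pow (1 ⊔ Submodule.span ℚ (Set.range z'))
      (Submodule.mem_sup_left (Submodule.one_le.1 le_rfl)) k
  induction g using MvPolynomial.induction_on generalizing k with
  | C a => exact ⟨(a : ℚ) • 1, Submodule.smul_mem _ _ (o1 k), fun y => ⟨0, by simp⟩⟩
  | add f g hf hg =>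
    obtain ⟨φ, a1, a2⟩ := hf k
    obtain ⟨ψ, b1, b2⟩ := hg k
    refine ⟨φ + ψ, add_mem a1 b1, fun y => ?_⟩
    obtain ⟨a, ha⟩ := a2 y
    obtain ⟨b, hb⟩ := b2 y
    refine ⟨a + b, ?_⟩
    rw [map_add, Pi.add_apply]
    push_cast
    linear_combination ha + hb
  | mul_X f j hf =>
    rcases k with _ | k
    · exact ⟨0, zero_mem _, fun y => ⟨eval y.1 (f * X j), by simp⟩⟩
    · obtain ⟨φ, a1, a2⟩ := hf (k + 1)
      obtain ⟨ψ, b1, b2⟩ := hf k
      refine ⟨(x j : ℚ) • φ + (p : ℚ) • (ψ * z' j), add_mem (Submodule.smul_mem _ _ a1)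
        (Submodule.smul_mem _ _ ?_), fun y => ?_⟩
      · rw [pow_succ]
        exact Submodule.mul_mem_mul b1 (Submodule.mem_sup_right (m1 _))
      · obtain ⟨a, ha⟩ := a2 y
        obtain ⟨b, hb⟩ := b2 y
        refine ⟨x j * a + z y j * b, ?_⟩
        rw [map_mul, eval_X, hz y j]
        simp only [Pi.add_apply, Pi.smul_apply, Pi.mul_apply, smul_eq_mul, hz']
        push_cast
        linear_combination (x j : ℚ) * ha + (p : ℚ) * (z y j : ℚ) * hb

omit [Fintype σ] in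
theorem LocFlat_drop {p : ℤ} (pp : Prime p) {I : Finset σ} {c : σ → σ → ℤ} {φ : σ → ℤ} {i₁ : σ}
    (hi : i₁ ∈ I) (hφ : ¬ p ∣ φ i₁) :
    ∃ c' : σ → σ → ℤ, ∀ z : σ → ℤ, (∀ j, p ∣ z j - ∑ i ∈ I, z i * c i j) →
      p ∣ ∑ i ∈ I, z i * φ i → ∀ j, p ∣ z j - ∑ i ∈ I.erase i₁, z i * c' i j := by
  obtain ⟨u2, v2, i2⟩ := (pp.irreducible.coprime_iff_not_dvd).2 hφ
  refine ⟨fun i j => c i j - φ i * v2 * c i₁ j, fun z h1 h2 j => ?_⟩
  obtain ⟨k, hk⟩ := h1 j
  obtain ⟨m, hm⟩ := h2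
  rw [← Finset.add_sum_erase I _ hi] at hk hm
  have e : ∑ i ∈ I.erase i₁, z i * (c i j - φ i * v2 * c i₁ j)
      = ∑ i ∈ I.erase i₁, z i * c i j - v2 * c i₁ j * ∑ i ∈ I.erase i₁, z i * φ i := by
    rw [Finset.mul_sum, ← Finset.sum_sub_distrib]
    exact Finset.sum_congr rfl fun i _ => by ring
  refine ⟨k + v2 * c i₁ j * m + u2 * z i₁ * c i₁ j, ?_⟩
  rw [e]
  linear_combination hk + v2 * c i₁ j * hm - z i₁ * c i₁ j * i2

omit [Fintype σ] [DecidableEq σ] in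
theorem LocFlat_dvd {Y : Type} (z : Y → σ → ℤ) (p : ℤ) (K : Finset σ) (c : σ → σ → ℤ)
    (h : ∀ y j, p ∣ z y j - ∑ i ∈ K, z y i * c i j) {t : ℕ} (a : Fin t → Y) (b : Fin t → σ) :
    p ^ (t - K.card) ∣ (Matrix.of fun s u => z (a s) (b u)).det := by
  have := minor_dvd (κ := K) z p (fun i => c i) (fun y => ⟨fun i => z y i, fun j => by
    rw [Finset.sum_coe_sort K (fun i => z y i * c i j)]
    exact h y j⟩) a b
  rwa [Fintype.card_coe] at this

theorem locFlat {L e n lam p H r : ℕ} {W : Finset (σ → ℤ)} {I : Finset σ}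
    {v : σ → σ → MvPolynomial σ ℤ} {J : MvPolynomial σ ℤ} {x : σ → ℤ} (hS : Stage L W I v J e)
    (hsph : W ⊆ sph σ n) (hlam : n ≤ lam ^ 2) (hp : p.Prime) (hx : x ∈ W)
    (hJ : ¬ (p : ℤ) ∣ eval x J) (hI : I.card = r + 1) (hσ : Fintype.card σ = r + 4)
    (hs1 : (r + 3).factorial * (2 * lam / p) ^ (r + 3) < p ^ 2)
    (hs2 : (r + 2).factorial * (2 * lam / p) ^ (r + 2) ≤ H * p)
    (hkill : ∀ u ∈ box σ H, ∀ u' ∈ box σ H, (∃ a b, u a * u' b - u b * u' a ≠ 0) →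
      (∃ i ∈ I, ¬ (p : ℤ) ∣ eval x (fl u (v i))) ∨ ∃ i ∈ I, ¬ (p : ℤ) ∣ eval x (fl u' (v i)))
    (M : ℕ) : Loc W p (M + 1) ((r + 2) * (M + 1) ^ r) x := by
  have pp : Prime (p : ℤ) := Nat.prime_iff_prime_int.1 hp
  have hc : ∀ y : cls W p x, y.1 ∈ W ∧ ∀ j, (p : ℤ) ∣ y.1 j - x j := fun y => mem_filter.1 y.2
  choose z hz1 using fun (y : cls W p x) j => (hc y).2 j
  have e1 : ∀ (y : cls W p x) j, y.1 j = x j + p * z y j := fun y j => by rw [← hz1]; ring
  have ab : ∀ y ∈ W, ∀ j, |y j| ≤ lam := fun y hy =>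
    (LocA_abs_le (ω := 0) (by simpa using mem_sph.1 (hsph hy)) hlam).1
  have hb : ∀ y j, |z y j| ≤ ((2 * lam / p : ℕ) : ℤ) := fun y j =>
    LocA_div hp.pos (e1 y j) (ab x hx j) (ab _ (hc y).1 j)
  obtain ⟨u1, v1, i1⟩ := (pp.irreducible.coprime_iff_not_dvd).2 hJ
  let c : σ → σ → ℤ := fun i j => v1 * eval x (v i j)
  have d0 : ∀ (y : cls W p x) j, (p : ℤ) ∣ eval x J * z y j - ∑ i ∈ I, z y i * eval x (v i j) :=
    fun y j => hS.tan x hx y.1 (hc y).1 p (z y) pp.ne_zero (e1 y) j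
  have d1 : ∀ (y : cls W p x) j, (p : ℤ) ∣ z y j - ∑ i ∈ I, z y i * c i j := fun y j => by
    obtain ⟨k, hk⟩ := d0 y j
    refine ⟨u1 * z y j + v1 * k, ?_⟩
    have : ∑ i ∈ I, z y i * c i j = v1 * ∑ i ∈ I, z y i * eval x (v i j) := by
      rw [Finset.mul_sum]
      exact Finset.sum_congr rfl fun i _ => by simp only [c]; ring
    rw [this]
    linear_combination v1 * hk - z y j * i1
  have hs1' : (((r + 3).factorial * (2 * lam / p) ^ (r + 3) : ℕ) : ℤ) < (p : ℤ) ^ 2 := by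
    exact_mod_cast hs1
  have hs3 : (((r + 2).factorial * (2 * lam / p) ^ (r + 2) : ℕ) : ℤ) < (p : ℤ) ^ 2 := by
    refine lt_of_le_of_lt ?_ hs1'
    rw [Nat.cast_le]
    rcases Nat.eq_zero_or_pos (2 * lam / p) with h | h
    · rw [h]; simp
    · exact Nat.mul_le_mul (Nat.factorial_le (by omega)) (Nat.pow_le_pow_right h (by omega))
  have m3 : ∀ (a : Fin (r + 2 + 1) → cls W p x) (b : Fin (r + 2 + 1) → σ),
      (Matrix.of fun s u => z (a s) (b u)).det = 0 := fun a b => by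
    have h1 := LocFlat_dvd z p I c d1 a b
    rw [hI, show r + 2 + 1 - (r + 1) = 2 by omega] at h1
    exact Int.eq_zero_of_abs_lt_dvd h1 ((minor_le z hb a b).trans_lt hs1')
  have m2 : ∀ (a : Fin (r + 2) → cls W p x) (b : Fin (r + 2) → σ),
      (p : ℤ) ∣ (Matrix.of fun s u => z (a s) (b u)).det ∧
        |(Matrix.of fun s u => z (a s) (b u)).det| ≤ H * p := fun a b => by
    have h1 := LocFlat_dvd z p I c d1 a b
    rw [hI, show r + 2 - (r + 1) = 1 by omega, pow_one] at h1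
    exact ⟨h1, (minor_le z hb a b).trans (by exact_mod_cast hs2)⟩
  have key : ∀ u : σ → ℤ, (∀ y, u ⬝ᵥ z y = 0) → (∃ i ∈ I, ¬ (p : ℤ) ∣ eval x (fl u (v i))) →
      ∀ (a : Fin (r + 2) → cls W p x) (b : Fin (r + 2) → σ),
        (Matrix.of fun s u => z (a s) (b u)).det = 0 := by
    rintro u hu ⟨i₁, hi, hφ⟩ a b
    obtain ⟨c', hc'⟩ := LocFlat_drop (c := c) (φ := fun i => eval x (fl u (v i))) pp hi hφ
    have d2 : ∀ y, (p : ℤ) ∣ ∑ i ∈ I, z y i * eval x (fl u (v i)) := fun y => by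
      have h1 : (p : ℤ) ∣ ∑ j, u j * (eval x J * z y j - ∑ i ∈ I, z y i * eval x (v i j)) :=
        Finset.dvd_sum fun j _ => (d0 y j).mul_left _
      have h2 : ∑ j, u j * (eval x J * z y j - ∑ i ∈ I, z y i * eval x (v i j))
          = eval x J * (u ⬝ᵥ z y) - ∑ i ∈ I, z y i * eval x (fl u (v i)) := by
        simp only [eval_fl, dotProduct, mul_sub, Finset.sum_sub_distrib, Finset.mul_sum]
        rw [Finset.sum_comm]
        congr 1
        · exact Finset.sum_congr rfl fun j _ => by ring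
        · exact Finset.sum_congr rfl fun i _ => Finset.sum_congr rfl fun j _ => by ring
      rw [h2, hu y, mul_zero, zero_sub, dvd_neg] at h1
      exact h1
    have h1 := LocFlat_dvd z p (I.erase i₁) c' (fun y => hc' (z y) (d1 y) (d2 y)) a b
    rw [Finset.card_erase_of_mem hi, hI, show r + 2 - (r + 1 - 1) = 2 by omega] at h1
    exact Int.eq_zero_of_abs_lt_dvd h1 ((minor_le z hb a b).trans_lt hs3)
  have m1 : ∀ (a : Fin (r + 2) → cls W p x) (b : Fin (r + 2) → σ),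
      (Matrix.of fun s u => z (a s) (b u)).det = 0 := by
    by_contra hne
    push Not at hne
    obtain ⟨u, u', b1, b2, b3, b4⟩ := two_normals z (t := r + 2) (H := H)
      (by exact_mod_cast hp.pos) hσ m3 m2 hne
    obtain ⟨a, b, hab⟩ := hne
    rcases hkill u (mem_box.2 b1) u' (mem_box.2 b2) b3 with h | h
    · exact hab (key u (fun y => (b4 y).1) h a b)
    · exact hab (key u' (fun y => (b4 y).2) h a b)
  exact loc_of_rank hsph hp.pos hx z e1 (Nat.lt_succ_iff.1 (rank_lt z m1)) M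

end Pool.Agent.P.MP_d565f2_an.LS
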