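import Pool.Agent.P.MP_d565f2_an.SR.FlatA
import Pool.Agent.P.MP_d565f2_an.SR.FlatB
import Pool.Agent.P.MP_d565f2_an.SR.LocFlat

set_option autoImplicit false

open MvPolynomial Finset Module

namespace Pool.Agent.P.MP_d565f2_an.LS

variable {σ : Type} [Fintype σ] [DecidableEq σ]

/- If lf (c k) vanishes on W for every k: `Frame.exists_dot` with V = v i (x) gives k with
der (v i) (lf (c k)) (x) ≠ 0 (`eval_der`, `pderiv_lf`), a new equation (`Sz.lf`).  Otherwise filter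
by lf (c k0) (cost 1), `flat_alt` for F₁ and F₂, `slice_of_whole`. -/
theorem flat_case {L e n k : ℕ} {W : Finset (σ → ℤ)} {I : Finset σ}
    {v : σ → σ → MvPolynomial σ ℤ} {J F₁ F₂ : MvPolynomial σ ℤ} (hS : Stage L W I v J e)
    (hI : I.card + 3 = Fintype.card σ) (hI0 : I.Nonempty) (hW : W.Nonempty) (hL : 1 ≤ L)
    (hσ : Fintype.card σ ≤ 2 ^ L) (hsph : W ⊆ sph σ n) (hn : n ≤ 2 ^ (2 * L))
    (horth : ∀ x ∈ W, ∀ i ∈ I, (x ⬝ᵥ fun j => eval x (v i j)) = 0) (hF₁ : Sz L F₁ e)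
    (hF₂ : Sz L F₂ e) (h₁ : ∀ x ∈ W, eval x F₁ = 0) (h₂ : ∀ x ∈ W, eval x F₂ = 0)
    (hT : Tang W I v J {sp σ n, F₁, F₂}) {u u' : σ → ℤ} {c : σ → σ → ℤ} {m : ℤ} {s s' : σ → ℚ}
    (hfr : Frame u u' c m s s') (hc : ∀ k j, |c k j| ≤ 2 ^ L)
    (hu : ∀ i ∈ I, ∀ x ∈ W, eval x (fl u (v i)) = 0)
    (hu' : ∀ i ∈ I, ∀ x ∈ W, eval x (fl u' (v i)) = 0) (he : 10 ≤ e) (heL : 200 * e ≤ 2 ^ L)
    (hrel : Rel W (k + 100 * e)) :
    ∃ W' ⊆ W, W'.Nonempty ∧ Rel W' k ∧ (HasEq L W' I v (200 * e) ∨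
      ∃ t t' : ℤ, ∀ x ∈ W', u ⬝ᵥ x = t ∧ u' ⬝ᵥ x = t') := by
  classical
  by_cases h0 : ∀ k, ∀ x ∈ W, c k ⬝ᵥ x = 0
  · obtain ⟨x, hx⟩ := hW
    obtain ⟨i, hi⟩ := hI0
    have hV : (fun j => eval x (v i j)) ≠ 0 := fun h => hS.ne x hx (by
      have := congrFun h i
      rwa [hS.diag i hi i hi, if_pos rfl] at this)
    obtain ⟨k', hk'⟩ := hfr.exists_dot hV (by rw [← eval_fl]; exact hu i hi x hx)
      (by rw [← eval_fl]; exact hu' i hi x hx)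
    refine ⟨W, Subset.rfl, ⟨x, hx⟩, hrel.mono (by omega), Or.inl ⟨lf (c k'),
      (Sz.lf hσ (hc k')).mono (by omega), fun y hy => by rw [eval_lf]; exact h0 k' y hy,
      i, hi, x, hx, ?_⟩⟩
    rw [eval_der]
    simp only [pderiv_lf, eval_C]
    rwa [dotProduct_comm]
  push Not at h0
  obtain ⟨k0, x0, hx0, hk0⟩ := h0
  have hsub : W.filter (fun x => eval x (lf (c k0)) ≠ 0) ⊆ W := filter_subset _ _
  have hne : (W.filter (fun x => eval x (lf (c k0)) ≠ 0)).Nonempty :=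
    ⟨x0, mem_filter.2 ⟨hx0, by rwa [eval_lf]⟩⟩
  have hrel1 : Rel (W.filter (fun x => eval x (lf (c k0)) ≠ 0)) (k + 3 * (20 * e)) :=
    Rel.filter (a := 3) (hrel.mono (by omega)) _ (Sz.lf hσ (hc k0)).1
  have hα : ∀ x ∈ W.filter (fun x => eval x (lf (c k0)) ≠ 0), c k0 ⬝ᵥ x ≠ 0 := fun x hx => by
    rw [← eval_lf]; exact (mem_filter.1 hx).2
  generalize W.filter (fun x => eval x (lf (c k0)) ≠ 0) = W1 at hsub hne hrel1 hα
  have alt : ∀ F : MvPolynomial σ ℤ, Sz L F e → (∀ x ∈ W, eval x F = 0) →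
      HasEq L W1 I v (200 * e) ∨ Whole W1 u u' (c k0) n (20 * e) F := fun F hF hFW =>
    flat_alt (hS.subset hsub) hI hI0 hL hσ (hsub.trans hsph) hn (fun x hx => horth x (hsub hx)) hF
      (fun x hx => hFW x (hsub hx)) hfr hc (fun i hi x hx => hu i hi x (hsub hx))
      (fun i hi x hx => hu' i hi x (hsub hx)) hα hne he heL
  rcases alt F₁ hF₁ h₁ with ha | ha
  · exact ⟨W1, hsub, hne, hrel1.mono (by omega), Or.inl ha⟩
  rcases alt F₂ hF₂ h₂ with hb | hb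
  · exact ⟨W1, hsub, hne, hrel1.mono (by omega), Or.inl hb⟩
  obtain ⟨W2, h21, h22, h23, h24⟩ := slice_of_whole hne (fun x hx => hS.ne x (hsub hx))
    (hsub.trans hsph) (hT.subset hsub) hfr (fun i hi x hx => hu i hi x (hsub hx))
    (fun i hi x hx => hu' i hi x (hsub hx)) (hfr.o1 k0) (hfr.o2 k0) hα ha hb hrel1
  exact ⟨W2, h21.trans hsub, h22, h23, Or.inr h24⟩

/- `kill_all` with U = box σ H (`card_box`), cost ≤ e₁.  If two flat u, u' have a nonzero minor: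
`exists_frame`, `flat_case`; a single slice is small (hC), `small_eq`.  Otherwise `eq_of_loc` with
n + 1 in place of n (OnSph (n + 1) with ω = 1), c = r + 2, e₁ in place of e, and
B = J * ∏ u ∈ box σ H, K u, K u = fl u (v i) for a killed u and 1 otherwise (`Sz.fl`, `Size_prod`
after K u = 1 outside the box); `locFlat`. -/
theorem critical {L e n lam H d ν k g e₁ : ℕ} {W : Finset (σ → ℤ)} {I : Finset σ}
    {v : σ → σ → MvPolynomial σ ℤ} {J F₁ F₂ : MvPolynomial σ ℤ} (hd : Fintype.card σ = d)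
    (hS : Stage L W I v J e) (hI : I.card + 3 = d) (hd4 : 4 ≤ d) (hW : W.Nonempty) (hL : 1 ≤ L)
    (hsph : W ⊆ sph σ n) (hlam : n + 1 ≤ lam ^ 2) (hlamL : lam ≤ 2 ^ L) (hWL : W.card ≤ 2 ^ L)
    (horth : ∀ x ∈ W, ∀ i ∈ I, (x ⬝ᵥ fun j => eval x (v i j)) = 0) (hF₁ : Sz L F₁ e)
    (hF₂ : Sz L F₂ e) (h₁ : ∀ x ∈ W, eval x F₁ = 0) (h₂ : ∀ x ∈ W, eval x F₂ = 0)
    (hT : Tang W I v J {sp σ n, F₁, F₂}) (hH1 : 1 ≤ H) (hH : 6 * H ^ 2 ≤ lam)
    (hν : 8 * (d + 1) ^ 2 * (21 * d ^ 2 * L ^ 2) ^ d ≤ ν)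
    (hs1 : ∀ p : ℕ, e₁ < p → (d - 1).factorial * (2 * lam / p) ^ (d - 1) < p ^ 2)
    (hs2 : ∀ p : ℕ, e₁ < p → (d - 2).factorial * (2 * lam / p) ^ (d - 2) ≤ H * p)
    (hC : ∀ u u' : σ → ℤ, (∀ j, |u j| ≤ lam) → (∀ j, |u' j| ≤ lam) →
      (∃ a b, u a * u' b - u b * u' a ≠ 0) → ∀ t t' : ℤ,
      2 * ((sph σ n).filter fun x => u ⬝ᵥ x = t ∧ u' ⬝ᵥ x = t').card ≤ g ^ (d - 3))
    (he : 10 ^ 10 ≤ e) (heg : d * g ≤ e) (he₁ : 200 * (2 * H + 1) ^ d * e ≤ e₁)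
    (heL : 224 * d ^ 2 * ν * L ^ 2 * e₁ ≤ 2 ^ L) (hrel : Rel W (k + 2 * e₁)) :
    ∃ W' ⊆ W, W'.Nonempty ∧ Rel W' k ∧ HasEq L W' I v (224 * d ^ 2 * ν * L ^ 2 * e₁) := by
  classical
  obtain ⟨r, hr⟩ : ∃ r, d = r + 4 := ⟨d - 4, by omega⟩
  have hIr : I.card = r + 1 := by omega
  have hL2 : 1 ≤ L ^ 2 := Nat.one_le_pow _ _ hL
  have hd2 : d ≤ d ^ 2 := Nat.le_self_pow two_ne_zero d
  have hq : 1 ≤ 21 * d ^ 2 * L ^ 2 := Nat.one_le_iff_ne_zero.2 (by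
    have : d ≠ 0 := by omega
    positivity)
  have hν1 : 1 ≤ ν := le_trans (Nat.one_le_iff_ne_zero.2 (by positivity)) hν
  obtain ⟨N, hN⟩ : ∃ N, N = (2 * H + 1) ^ d := ⟨_, rfl⟩
  have hN1 : 1 ≤ N := by rw [hN]; exact Nat.one_le_pow _ _ (by omega)
  have hU : (box σ H).card = N := by rw [card_box, hd, hN]
  rw [← hN, mul_assoc] at he₁
  have hNe : e ≤ N * e := Nat.le_mul_of_pos_left _ hN1
  have hNe' : N ≤ N * e := Nat.le_mul_of_pos_right _ (by omega)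
  have hbig : d * e₁ ≤ 224 * d ^ 2 * ν * L ^ 2 * e₁ :=
    calc d * e₁ = 1 * d * 1 * 1 * e₁ := by ring
      _ ≤ _ := by gcongr; omega
  have hde : e₁ ≤ d * e₁ := Nat.le_mul_of_pos_left _ (by omega)
  have hde' : d ≤ d * e₁ := Nat.le_mul_of_pos_right _ (by omega)
  have hσ : Fintype.card σ ≤ 2 ^ L := by omega
  have hHl : H ≤ lam := by nlinarith
  have hon : OnSph (n + 1) W := fun y hy => ⟨1, one_ne_zero, by
    rw [mem_sph.1 (hsph hy)]; push_cast; ring⟩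
  obtain ⟨W1, hsub, hne, hrel1, hk⟩ := kill_all (box σ H) I (fun i j => (hS.szv i j).1) hW
    (k := k + e₁) (hrel.mono (by rw [hU]; omega))
  by_cases hflat : ∃ u ∈ box σ H, ∃ u' ∈ box σ H, (∃ a b, u a * u' b - u b * u' a ≠ 0) ∧
      (∀ i ∈ I, ∀ x ∈ W1, eval x (fl u (v i)) = 0) ∧ ∀ i ∈ I, ∀ x ∈ W1, eval x (fl u' (v i)) = 0
  · obtain ⟨u, hu, u', hu', ⟨a, b, hab⟩, hf, hf'⟩ := hflat
    rw [mem_box] at hu hu'
    obtain ⟨c, m, s, s', hfr, hc⟩ := exists_frame hu hu' hab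
    have hc' : ∀ k j, |c k j| ≤ 2 ^ L := fun k j =>
      (hc k j).trans (by exact_mod_cast hH.trans hlamL)
    have hn : n ≤ 2 ^ (2 * L) := by
      have := Nat.pow_le_pow_left hlamL 2
      rw [← pow_mul, mul_comm] at this
      omega
    obtain ⟨W2, h21, h22, h23, h24⟩ := flat_case (k := k) (hS.subset hsub) (by omega)
      (card_pos.1 (by omega)) hne hL hσ (hsub.trans hsph) hn (fun x hx => horth x (hsub hx)) hF₁ hF₂
      (fun x hx => h₁ x (hsub hx)) (fun x hx => h₂ x (hsub hx)) (hT.subset hsub) hfr hc' hf hf'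
      (by omega) (by omega) (hrel1.mono (by omega))
    refine ⟨W2, h21.trans hsub, h22, h23, ?_⟩
    rcases h24 with h24 | ⟨t, t', h24⟩
    · exact h24.mono (by omega)
    have hHl' : (H : ℤ) ≤ lam := by exact_mod_cast hHl
    have h3 := hC u u' (fun j => (hu j).trans hHl') (fun j => (hu' j).trans hHl') ⟨a, b, hab⟩ t t'
    have h4 : W2.card ≤ ((sph σ n).filter fun x => u ⬝ᵥ x = t ∧ u' ⬝ᵥ x = t').card :=
      card_le_card fun x hx => mem_filter.2 ⟨hsph (hsub (h21 hx)), h24 x hx⟩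
    have h5 : I.card * g ≤ d * g := Nat.mul_le_mul_right _ (by omega)
    have h6 : d - 3 = I.card := by omega
    rw [h6] at h3
    exact HasEq.mono (small_eq (hS.subset (h21.trans hsub)) h22 hL
      ((hon.subset (h21.trans hsub)).abs_le' hlam hlamL) (g := g) (by omega) (by omega)) (by omega)
  have hex : ∀ u : σ → ℤ, ∃ K : MvPolynomial σ ℤ, Sz L K (e + 2) ∧ (∀ x ∈ W1, eval x K ≠ 0) ∧
      (u ∈ box σ H → (∃ i ∈ I, K = fl u (v i)) ∨ ∀ i ∈ I, ∀ x ∈ W1, eval x (fl u (v i)) = 0) := by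
    intro u
    by_cases hu : u ∈ box σ H
    · rcases hk u hu with ⟨i, hi, h⟩ | h
      · refine ⟨fl u (v i), Sz.fl hσ (fun j => ((mem_box.1 hu) j).trans ?_) (hS.szv i), h,
          fun _ => Or.inl ⟨i, hi, rfl⟩⟩
        exact_mod_cast hHl.trans hlamL
      · exact ⟨1, Sz.one _, fun x _ => by simp, fun _ => Or.inr h⟩
    · exact ⟨1, Sz.one _, fun x _ => by simp, fun h => absurd h hu⟩
  choose K hK1 hK2 hK3 using hex
  have hB : Sz L (J * ∏ u ∈ box σ H, K u) e₁ := by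
    refine (hS.szJ.mul (Size_prod _ _ hK1)).mono ?_
    rw [hU, mul_add]
    omega
  refine ⟨W1, hsub, hne, hrel1.mono (by omega), eq_of_loc ((hS.subset hsub).mono (by omega)) hne hL
    (hon.subset hsub) hlam hlamL ((card_le_card hsub).trans hWL) hd hIr (c := r + 2) (by omega)
    (le_trans ?_ hν) (by omega) heL hB (fun x hx => ?_) fun p hp hpe x hx hdv M => ?_⟩
  · refine Nat.mul_le_mul_right _ (Nat.mul_le_mul_left _ ?_)
    exact le_trans (by omega) (Nat.le_self_pow two_ne_zero (d + 1))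
  · rw [map_mul, map_prod]
    exact mul_ne_zero (hS.ne x (hsub hx)) (prod_ne_zero_iff.2 fun u _ => hK2 u x hx)
  · rw [map_mul, map_prod] at hdv
    have hJ : ¬ (p : ℤ) ∣ eval x J := fun h => hdv ((h.mul_right _).mul_right _)
    have hKp : ∀ u ∈ box σ H, ¬ (p : ℤ) ∣ eval x (K u) := fun u hu h =>
      hdv (((h.trans (dvd_prod_of_mem (fun u => eval x (K u)) hu)).mul_left _).mul_right _)
    have e1 := hs1 p hpe
    have e2 := hs2 p hpe
    rw [show d - 1 = r + 3 by omega] at e1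
    rw [show d - 2 = r + 2 by omega] at e2
    refine locFlat (H := H) (hS.subset hsub) (hsub.trans hsph) (by omega) hp hx hJ hIr (by omega)
      e1 e2 (fun u hu u' hu' hab => ?_) M
    rcases hK3 u hu with ⟨i, hi, h⟩ | h
    · exact Or.inl ⟨i, hi, h ▸ hKp u hu⟩
    rcases hK3 u' hu' with ⟨i, hi, h'⟩ | h'
    · exact Or.inr ⟨i, hi, h' ▸ hKp u' hu'⟩
    exact absurd ⟨u, hu, u', hu', hab, h, h'⟩ hflat

end Pool.Agent.P.MP_d565f2_an.LS
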