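import Pool.Agent.P.MP_d565f2_an.SR.BDefs

set_option autoImplicit false

open Finset

namespace Pool.Agent.P.MP_d565f2_an.LS

variable {ι : Type} [Fintype ι] [DecidableEq ι]

/-- The combinatorial statement for small sets. -/
def MainSt3 (ρ : ℕ) : Prop :=
  ∃ C A a : ℕ, ∀ (n lam L g G T : ℕ) (W : Finset (Fin ρ → ℤ)), W.Nonempty → OnSph n W →
    n + 1 ≤ lam ^ 2 → 1 ≤ L → lam ≤ 2 ^ L → 2 * W.card ≤ 2 ^ L → W.card ≤ g ^ ρ →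
    lam ^ (2 * ρ * (ρ - 1) - 1) ≤ g ^ (2 * ρ ^ 2) → lam ^ (ρ - 1) ≤ (G * T) ^ ρ → 1 ≤ T →
    C * T ^ a ≤ lam → ¬ Rel W (C * L ^ A * (T ^ a * g + G))

end Pool.Agent.P.MP_d565f2_an.LS
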