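import Pool.Agent.P.MP_d565f2_an.SR.BDefs

set_option autoImplicit false

open MvPolynomial Finset Module

namespace Pool.Agent.P.MP_d565f2_an.LS

variable {σ : Type} [Fintype σ] [DecidableEq σ]

/- Copy `desc` (LS/Desc.lean); hsz replaces `size_lt`. -/
theorem desc2 {L n lam : ℕ} (hL : 1 ≤ L) (hlam : n ≤ lam ^ 2) (hlamL : lam ≤ 2 ^ L)
    {ρ ν t e₀ Λ : ℕ} (hρ : Fintype.card σ = ρ) (hρ1 : 1 ≤ ρ)
    (hν : 8 * (ρ + 1) ^ 2 * (21 * ρ ^ 2 * L ^ 2) ^ ρ ≤ ν)
    (hsz : ∀ p : ℕ, e₀ < p → t.factorial * (2 * lam / p) ^ t < p)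
    (hΛ : 230 * ρ ^ 2 * ν * L ^ 2 ≤ Λ) :
    ∀ (r : ℕ) (W : Finset (σ → ℤ)) (I : Finset σ) (v : σ → σ → MvPolynomial σ ℤ)
      (J : MvPolynomial σ ℤ) (e : ℕ), I.card = r → r + 1 ≤ t → Stage L W I v J e → W.Nonempty →
      OnSph n W → W.card ≤ 2 ^ L → 10 ^ 10 ≤ e → e₀ ≤ e → ¬ Rel W ((2 * Λ) ^ (r + 1) * e) := by
  have hL2 : 1 ≤ L ^ 2 := Nat.one_le_pow _ _ hL
  intro r
  induction r with
  | zero =>
    intro W I v J e hI hr hS hW hn hWL he heg hrel
    have hν1 : 1 ≤ ν := le_trans (Nat.one_le_iff_ne_zero.2 (by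
      have : ρ ≠ 0 := by omega
      positivity)) hν
    have hb := hn.abs_le' hlam hlamL
    have hYe : 16 * e ≤ 16 * L ^ 2 * e := by nlinarith
    have hI0 : I = ∅ := card_eq_zero.1 hI
    refine Rel.false_of_average hW ((Ioc (16 * L ^ 2 * e) (4 * (16 * L ^ 2 * e))).filter Nat.Prime)
      (4 * (16 * L ^ 2 * e)) (fun p hp => ⟨(mem_filter.1 hp).2, (mem_Ioc.1 (mem_filter.1 hp).1).2⟩)
      (hrel.mono ?_) fun x hx => ?_
    · have h1 : ρ * 1 ≤ ρ ^ 2 * ν := Nat.mul_le_mul (by nlinarith) hν1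
      have h2 : ρ * 1 * L ^ 2 * e ≤ ρ ^ 2 * ν * L ^ 2 * e := by gcongr
      have h3 := Nat.mul_le_mul_right e hΛ
      rw [hρ, zero_add, pow_one]
      calc 2 * (ρ * (4 * (16 * L ^ 2 * e))) = 128 * (ρ * 1 * L ^ 2 * e) := by ring
        _ ≤ 230 * (ρ ^ 2 * ν * L ^ 2 * e) := Nat.mul_le_mul (by norm_num) h2
        _ = 230 * ρ ^ 2 * ν * L ^ 2 * e := by ring
        _ ≤ 2 * (Λ * e) := by omega
        _ = _ := by ring
    · refine lt_of_le_of_lt (Nat.mul_le_mul_left 2 (card_le_card fun p hp => ?_))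
        (D3.few_primes (P := 16 * L ^ 2 * e) (by omega) (hS.ne x hx) ?_)
      · obtain ⟨hp1, y, hy, hne, hxy⟩ := mem_filter.1 hp
        refine mem_filter.2 ⟨hp1, ?_⟩
        obtain ⟨hp2, hp3⟩ := mem_filter.1 hp1
        have hp4 := (mem_Ioc.1 hp2).1
        choose z hz using fun j => (hxy j).neg_right
        obtain ⟨j, hj⟩ := Function.ne_iff.1 hne
        have h1 := hS.tan x hx y hy p z (by exact_mod_cast hp3.ne_zero)
          (fun j => by linarith [hz j]) j
        rw [hI0, sum_empty, sub_zero] at h1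
        refine ((Nat.prime_iff_prime_int.1 hp3).dvd_or_dvd h1).resolve_right fun h2 => hj ?_
        have h3 := hsz p (by omega)
        have h4 : 2 * lam / p < p := by
          refine lt_of_le_of_lt ?_ h3
          calc _ = (2 * lam / p) ^ 1 := (pow_one _).symm
            _ ≤ _ := pow_le_pow_or le_rfl (by omega)
            _ ≤ _ := Nat.le_mul_of_pos_left _ (Nat.factorial_pos _)
        have h5 : 2 * lam < p * p := (Nat.div_lt_iff_lt_mul hp3.pos).1 h4
        have h6 : (2 : ℤ) * lam < p * p := by exact_mod_cast h5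
        obtain ⟨t, ht⟩ := h2
        have h7 := abs_le.1 (hn.abs_le hlam hx j)
        have h8 := abs_le.1 (hn.abs_le hlam hy j)
        have h9 := hz j
        rw [ht, ← mul_assoc] at h9
        have h10 : t = 0 := by
          by_contra h0
          have h11 : (p : ℤ) * p * 1 ≤ |(p : ℤ) * p * t| := by
            rw [abs_mul, abs_of_nonneg (by positivity)]
            exact mul_le_mul_of_nonneg_left (Int.one_le_abs h0) (by positivity)
          rw [← h9, le_abs] at h11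
          omega
        rw [h10] at h9
        linarith
      · refine (pow_le_pow_left₀ (abs_nonneg _) (hS.szJ.eval_le (hb x hx)) 4).trans ?_
        rw [← pow_mul]
        refine pow_le_pow_right₀ one_le_two ?_
        calc 2 * e * L * 4 = 8 * (L * 1) * e := by ring
          _ ≤ 16 * (L * L) * e := by gcongr; norm_num
          _ = _ := by ring
  | succ r ih =>
    intro W I v J e hI hr hS hW hn hWL he heg hrel
    have hν1 : 1 ≤ ν := le_trans (Nat.one_le_iff_ne_zero.2 (by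
      have : ρ ≠ 0 := by omega
      positivity)) hν
    obtain ⟨q, hq⟩ : ∃ q, q = ρ ^ 2 * ν * L ^ 2 := ⟨_, rfl⟩
    have hq1 : ρ ≤ q := by
      rw [hq]
      calc ρ ≤ ρ ^ 2 * 1 * 1 := by nlinarith
        _ ≤ _ := by gcongr
    have hΛ' : 230 * q ≤ Λ := by rw [hq]; linarith
    have hqe : 230 * (q * e) ≤ Λ * e := by nlinarith
    have hqe' : e ≤ q * e := Nat.le_mul_of_pos_left _ (by omega)
    have hqe'' : q ≤ q * e := Nat.le_mul_of_pos_right _ (by omega)
    have hK : (2 * Λ) ^ (r + 1) * (Λ * e) + Λ * e ≤ (2 * Λ) ^ (r + 1 + 1) * e := by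
      have : Λ * e ≤ (2 * Λ) ^ (r + 1) * (Λ * e) :=
        Nat.le_mul_of_pos_left _ (Nat.pow_pos (by omega))
      calc _ ≤ 2 * ((2 * Λ) ^ (r + 1) * (Λ * e)) := by omega
        _ = _ := by ring
    have hlt := (lt_card_of_rel hW hrel).le.trans hWL
    have hE : 224 * ρ ^ 2 * ν * L ^ 2 * e = 224 * (q * e) := by rw [hq]; ring
    have h1 := eq_of_loc hS hW hL hn hlam hlamL hWL hρ hI (c := r + 2) (ν := ν) (by omega)
      (le_trans (by
        have h0 : r + 1 ≤ ρ := by rw [← hI, ← hρ]; exact card_le_univ I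
        have : r + 2 ≤ (ρ + 1) ^ 2 := by nlinarith
        gcongr) hν) he (by omega) hS.szJ hS.ne fun p hp h1 x hx h2 M => by
        refine locA hS hn hlam hp (by omega) hx h2 hI ?_ M
        refine lt_of_le_of_lt ?_ (hsz p (by omega))
        exact Nat.mul_le_mul (Nat.factorial_le (by omega)) (pow_le_pow_or (by omega) (by omega))
    rw [hE] at h1
    obtain ⟨W', hW1, hW2, hW3, i, hi, v', J', hS'⟩ := hS.next hL (by omega) h1 (by omega)
      (k := (2 * Λ) ^ (r + 1) * (Λ * e)) (hrel.mono (by omega))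
    exact ih W' _ v' J' (Λ * e) (by rw [card_erase_of_mem hi, hI]; rfl) (by omega)
      (hS'.mono (by omega)) hW2 (hn.subset hW1) ((card_le_card hW1).trans hWL) (by omega)
      (by omega) hW3

end Pool.Agent.P.MP_d565f2_an.LS
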