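import Pool.Agent.P.MP_d565f2_an.SR.MeanSq

set_option autoImplicit false

open Finset

namespace Pool.Agent.P.MP_d565f2_an.LS

variable {ι : Type} [Fintype ι] [DecidableEq ι]

theorem Minor_terms {e : ℕ} (he5 : 5 ≤ e) (R b w : ℝ) (hw : 1 ≤ w) (hb1 : w ^ 40 ≤ b)
    (hb2 : b ≤ w ^ 2 * R ^ 2) (hR : w ^ 160 ≤ R) :
    w ^ 16 * ((R ^ (e + 1)) ^ e * w ^ 3 * b ^ 2 * R ^ e * (R ^ e / √b ^ 5 + 1) +
      b ^ 4 * R ^ (2 * e) * (R ^ (e + 1)) ^ (e - 2) * √(R ^ (e + 1)))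
      ≤ 3 * ((R ^ (e + 1)) ^ e * R ^ (2 * e)) := by
  have hw0 : 0 < w := by linarith
  have h24 : w ^ 24 ≤ R := (pow_le_pow_right₀ hw (by norm_num)).trans hR
  have h23 : w ^ 23 ≤ R := (pow_le_pow_right₀ hw (by norm_num)).trans hR
  have hR1 : 1 ≤ R := (one_le_pow₀ hw).trans hR
  have hR0 : 0 < R := by linarith
  have hb0 : 0 < b := lt_of_lt_of_le (by positivity) hb1
  have hs0 : 0 < √b := Real.sqrt_pos.2 hb0
  have hs1 : w ^ 19 ≤ √b := by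
    refine (pow_le_pow_right₀ hw (by norm_num : 19 ≤ 20)).trans (Real.le_sqrt_of_sq_le ?_)
    rw [← pow_mul]; exact hb1
  have hs2 : b ^ 2 = √b ^ 4 := by
    rw [show (4 : ℕ) = 2 * 2 from rfl, pow_mul, Real.sq_sqrt hb0.le]
  have t1 : w ^ 19 * b ^ 2 / √b ^ 5 ≤ 1 := by
    rw [div_le_one (by positivity), hs2]
    calc w ^ 19 * √b ^ 4 ≤ √b * √b ^ 4 := by gcongr
      _ = √b ^ 5 := by ring
  have t2 : w ^ 19 * b ^ 2 ≤ R ^ e := by
    calc w ^ 19 * b ^ 2 ≤ w ^ 19 * (w ^ 2 * R ^ 2) ^ 2 := by gcongr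
      _ = w ^ 23 * R ^ 4 := by ring
      _ ≤ R * R ^ 4 := by gcongr
      _ = R ^ 5 := by ring
      _ ≤ R ^ e := pow_le_pow_right₀ hR1 he5
  set L := R ^ (e + 1) with hL
  have hL0 : 0 < L := by positivity
  have hq : R ^ 3 ≤ √L := by
    refine Real.le_sqrt_of_sq_le ?_
    rw [← pow_mul]
    exact pow_le_pow_right₀ hR1 (by omega)
  have hq2 : L ^ 2 = √L ^ 4 := by
    rw [show (4 : ℕ) = 2 * 2 from rfl, pow_mul, Real.sq_sqrt hL0.le]
  have t3 : w ^ 16 * b ^ 4 * √L ≤ L ^ 2 := by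
    calc w ^ 16 * b ^ 4 * √L ≤ w ^ 16 * (w ^ 2 * R ^ 2) ^ 4 * √L := by gcongr
      _ = w ^ 24 * R ^ 8 * √L := by ring
      _ ≤ R * R ^ 8 * √L := by gcongr
      _ = (R ^ 3) ^ 3 * √L := by ring
      _ ≤ √L ^ 3 * √L := by gcongr
      _ = L ^ 2 := by rw [hq2]; ring
  have hLe : L ^ e = L ^ (e - 2) * L ^ 2 := by
    rw [← pow_add]; congr 1; omega
  calc _ = L ^ e * R ^ (2 * e) * (w ^ 19 * b ^ 2 / √b ^ 5) + L ^ e * R ^ e * (w ^ 19 * b ^ 2)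
        + R ^ (2 * e) * L ^ (e - 2) * (w ^ 16 * b ^ 4 * √L) := by ring
    _ ≤ L ^ e * R ^ (2 * e) * 1 + L ^ e * R ^ e * R ^ e + R ^ (2 * e) * L ^ (e - 2) * L ^ 2 := by
        gcongr
    _ = _ := by rw [mul_assoc (R ^ (2 * e)), ← hLe]; ring

theorem mean_one {e : ℕ} (he : Fintype.card ι = e + 2) (he5 : 5 ≤ e) : ∃ C : ℝ, 0 ≤ C ∧
    ∀ (n N R b w : ℕ) (T : Finset ℚ), 0 < n → n ≤ (R ^ (e + 1)) ^ 2 → 0 < N → N ≤ R ^ 2 →
      w ^ 40 < b → b ≤ w ^ 2 * R ^ 2 → (∀ t ∈ T, t.den = b) → T.card ≤ b → 1 ≤ w → w ^ 160 ≤ R →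
      (∀ t : ℕ, t ≤ w ^ 2 * R ^ 2 → t.divisors.card ≤ w) →
      (w : ℝ) ^ 8 * ∑ x ∈ sph ι n, ‖GG ι N T x‖ ≤ C * ((R : ℝ) ^ (e + 1)) ^ e * R ^ e := by
  obtain ⟨C1, hC1, h1⟩ := mean_square he he5
  obtain ⟨C2, hC2, h2⟩ := card_sph_le he he5
  refine ⟨√(3 * C1 * C2), Real.sqrt_nonneg _, ?_⟩
  intro n N R b w T hn hnR hN hNR hb1 hb2 hT hTc hw hR hτ
  have hb0 : 0 < b := by omega
  have hRR : R ^ 2 ≤ w ^ 2 * R ^ 2 := Nat.le_mul_of_pos_left _ (by positivity)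
  have a1 := h1 n (R ^ (e + 1)) N R b w T hn hnR hN hNR hb0 hT hTc hw
    (fun t ht => hτ t (ht.trans hRR)) (hτ b hb2)
  have a2 := h2 n hn
  have a3 := Minor_terms he5 (R : ℝ) b w (by exact_mod_cast hw) (by exact_mod_cast hb1.le)
    (by exact_mod_cast hb2) (by exact_mod_cast hR)
  have a4 : √(n : ℝ) ≤ (R : ℝ) ^ (e + 1) := by
    rw [Real.sqrt_le_left (by positivity)]
    exact_mod_cast hnR
  have a5 : ((sph ι n).card : ℝ) ≤ C2 * ((R : ℝ) ^ (e + 1)) ^ e :=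
    a2.trans (by gcongr)
  have a6 := sq_sum_le_card_mul_sum_sq (s := sph ι n) (f := fun x => ‖GG ι N T x‖)
  push_cast at a1
  have a7 : (w : ℝ) ^ 16 * ∑ x ∈ sph ι n, ‖GG ι N T x‖ ^ 2
      ≤ C1 * (3 * (((R : ℝ) ^ (e + 1)) ^ e * R ^ (2 * e))) := by
    refine (mul_le_mul_of_nonneg_left a1 (by positivity)).trans ?_
    rw [mul_left_comm]
    exact mul_le_mul_of_nonneg_left a3 hC1
  refine abs_le_of_sq_le_sq' ?_ (by positivity) |>.2
  have a8 : 0 ≤ ∑ x ∈ sph ι n, ‖GG ι N T x‖ ^ 2 := sum_nonneg fun _ _ => by positivity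
  calc ((w : ℝ) ^ 8 * ∑ x ∈ sph ι n, ‖GG ι N T x‖) ^ 2
      = (w : ℝ) ^ 16 * (∑ x ∈ sph ι n, ‖GG ι N T x‖) ^ 2 := by ring
    _ ≤ (w : ℝ) ^ 16 * ((C2 * ((R : ℝ) ^ (e + 1)) ^ e) * ∑ x ∈ sph ι n, ‖GG ι N T x‖ ^ 2) :=
        mul_le_mul_of_nonneg_left (a6.trans (mul_le_mul_of_nonneg_right a5 a8)) (by positivity)
    _ = (C2 * ((R : ℝ) ^ (e + 1)) ^ e) * ((w : ℝ) ^ 16 * ∑ x ∈ sph ι n, ‖GG ι N T x‖ ^ 2) := by
        ring
    _ ≤ (C2 * ((R : ℝ) ^ (e + 1)) ^ e) * (C1 * (3 * (((R : ℝ) ^ (e + 1)) ^ e * R ^ (2 * e)))) :=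
        mul_le_mul_of_nonneg_left a7 (by positivity)
    _ = _ := by
        rw [mul_pow, mul_pow, Real.sq_sqrt (by positivity)]
        ring

theorem Minor_den (s : ℚ) (a m : ℕ) (hm : 0 < m) : (((a : ℚ) + s) / m).den ∣ s.den * m := by
  have hm' : (0 : ℚ) < m := by exact_mod_cast hm
  have hden : (0 : ℚ) < s.den := by exact_mod_cast s.pos
  have h4 : ((a : ℚ) + s) / m = ((a * s.den + s.num : ℤ) : ℚ) / ((s.den * m : ℕ) : ℚ) := by
    push_cast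
    rw [← Rat.mul_den_eq_num s]
    field_simp
  rw [h4]
  exact den_div_dvd _ _

/-- The fractions of one residue system with a given denominator. -/
noncomputable def Minor_T (s : ℚ) (m b : ℕ) : Finset ℚ :=
  ((range m).filter fun a : ℕ => (((a : ℚ) + s) / m).den = b).image fun a : ℕ => ((a : ℚ) + s) / m

theorem Minor_T_den {s : ℚ} {m b : ℕ} : ∀ t ∈ Minor_T s m b, t.den = b := by
  intro t ht
  obtain ⟨a, ha, rfl⟩ := mem_image.1 ht
  exact (mem_filter.1 ha).2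

theorem Minor_T_card {s : ℚ} (h0 : 0 ≤ s) (h1 : s < 1) (m b : ℕ) : (Minor_T s m b).card ≤ b := by
  refine le_trans (card_le_card ?_) (card_farey_den_eq b b)
  intro t ht
  have hd := Minor_T_den t ht
  obtain ⟨a, ha, rfl⟩ := mem_image.1 ht
  have ha1 := mem_range.1 (mem_filter.1 ha).1
  have hm' : (0 : ℚ) < m := by exact_mod_cast (by omega : 0 < m)
  have ha' : (a : ℚ) + 1 ≤ m := by exact_mod_cast ha1
  refine mem_filter.2 ⟨mem_farey.2 ⟨by positivity, ?_, hd.le⟩, hd⟩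
  rw [div_lt_one hm']; linarith

theorem Minor_split (s : ℚ) (m N W : ℕ) (hm : 0 < m) (x : ι → ℤ) :
    ∑ a ∈ (range m).filter (fun a : ℕ => ¬ (((a : ℚ) + s) / m).den ≤ W),
      FF ι N (fun i => ((((a : ℚ) + s) / m : ℚ) : ℝ) * (2 * x i : ℤ))
      = ∑ b ∈ (s.den * m).divisors.filter (fun b => W < b), GG ι N (Minor_T s m b) x := by
  have hm' : (0 : ℚ) < m := by exact_mod_cast hm
  rw [← sum_fiberwise_of_maps_to (g := fun a : ℕ => (((a : ℚ) + s) / m).den)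
    (t := (s.den * m).divisors.filter (fun b => W < b))]
  · refine sum_congr rfl fun b hb => ?_
    have hb2 := (mem_filter.1 hb).2
    rw [GG, Minor_T, sum_image]
    · refine sum_congr ?_ fun _ _ => rfl
      rw [filter_filter]
      refine filter_congr fun a _ => ⟨fun h => h.2, fun h => ⟨?_, h⟩⟩
      omega
    · intro a _ a' _ h
      have h1 : (a : ℚ) + s = a' + s := (div_left_inj' hm'.ne').1 h
      have h3 : (a : ℚ) = a' := by linarith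
      exact_mod_cast h3
  · intro a ha
    refine mem_filter.2 ⟨Nat.mem_divisors.2 ⟨Minor_den s a m hm, ?_⟩, ?_⟩
    · exact (Nat.mul_pos s.pos hm).ne'
    · exact not_le.1 (mem_filter.1 ha).2

theorem minor {e : ℕ} (he : Fintype.card ι = e + 2) (he5 : 5 ≤ e) : ∃ C : ℝ, 0 ≤ C ∧
    ∀ n γ R w : ℕ, 0 < n → n ≤ (R ^ (e + 1)) ^ 2 → 0 < γ → 1 ≤ w → w ^ 160 ≤ R →
      (∀ t : ℕ, t ≤ w ^ 2 * R ^ 2 → t.divisors.card ≤ w) →
      ∑ m ∈ Icc 1 (R ^ 2), (m : ℝ)⁻¹ ≤ w →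
      (w : ℝ) ^ 2 * ∑ x ∈ sph ι n, EE ι γ R w x ≤ C * ((R : ℝ) ^ (e + 1)) ^ e * R ^ e := by
  obtain ⟨C, hC, h⟩ := mean_one he he5
  refine ⟨C, hC, ?_⟩
  intro n γ R w hn hnR hγ hw hR hτ hH
  set K : ℝ := C * ((R : ℝ) ^ (e + 1)) ^ e * R ^ e with hK
  have hK0 : 0 ≤ K := by positivity
  have hw0 : (0 : ℝ) < w := by exact_mod_cast hw
  have one : ∀ s ∈ farey (w ^ 2), ∀ m ∈ Icc 1 (R ^ 2 / γ), ∑ x ∈ sph ι n,
      ‖∑ a ∈ (range m).filter (fun a : ℕ => ¬ (((a : ℚ) + s) / m).den ≤ w ^ 40),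
        FF ι (γ * m) fun i => ((((a : ℚ) + s) / m : ℚ) : ℝ) * (2 * x i : ℤ)‖
        ≤ w * (K / w ^ 8) := by
    intro s hs m hm
    obtain ⟨h0, h1, h2⟩ := mem_farey.1 hs
    obtain ⟨hm1, hm2⟩ := mem_Icc.1 hm
    have hN : γ * m ≤ R ^ 2 := by
      rw [mul_comm]; exact (Nat.le_div_iff_mul_le hγ).1 hm2
    have hm3 : m ≤ R ^ 2 := hm2.trans (Nat.div_le_self _ _)
    have hsm : s.den * m ≤ w ^ 2 * R ^ 2 := Nat.mul_le_mul h2 hm3
    simp only [Minor_split s m (γ * m) (w ^ 40) hm1]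
    calc _ ≤ ∑ x ∈ sph ι n, ∑ b ∈ (s.den * m).divisors.filter (fun b => w ^ 40 < b),
          ‖GG ι (γ * m) (Minor_T s m b) x‖ := sum_le_sum fun x _ => norm_sum_le _ _
      _ = ∑ b ∈ (s.den * m).divisors.filter (fun b => w ^ 40 < b), ∑ x ∈ sph ι n,
          ‖GG ι (γ * m) (Minor_T s m b) x‖ := sum_comm
      _ ≤ ∑ b ∈ (s.den * m).divisors.filter (fun b => w ^ 40 < b), K / w ^ 8 := by
          refine sum_le_sum fun b hb => ?_
          obtain ⟨hb1, hb2⟩ := mem_filter.1 hb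
          rw [le_div_iff₀ (by positivity), mul_comm]
          exact h n (γ * m) R b w _ hn hnR (Nat.mul_pos hγ hm1) hN hb2
            ((Nat.divisor_le hb1).trans hsm) Minor_T_den (Minor_T_card h0 h1 m b) hw hR hτ
      _ ≤ w * (K / w ^ 8) := by
          rw [sum_const, nsmul_eq_mul]
          refine mul_le_mul_of_nonneg_right ?_ (by positivity)
          exact_mod_cast (card_filter_le _ _).trans (hτ _ hsm)
  have hH2 : ∑ m ∈ Icc 1 (R ^ 2 / γ), (m : ℝ)⁻¹ ≤ w :=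
    le_trans (sum_le_sum_of_subset_of_nonneg (Icc_subset_Icc_right (Nat.div_le_self _ _))
      fun _ _ _ => by positivity) hH
  have two : ∑ x ∈ sph ι n, EE ι γ R w x ≤ (w : ℝ) ^ 4 * (w * (w * (K / w ^ 8))) := by
    unfold EE
    rw [sum_comm]
    refine le_trans (sum_le_card_nsmul _ _ (w * (w * (K / w ^ 8))) fun s hs => ?_) ?_
    · rw [sum_comm]
      calc _ ≤ ∑ m ∈ Icc 1 (R ^ 2 / γ), (m : ℝ)⁻¹ * (w * (K / w ^ 8)) := by
            refine sum_le_sum fun m hm => ?_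
            rw [← mul_sum]
            exact mul_le_mul_of_nonneg_left (one s hs m hm) (by positivity)
        _ ≤ _ := by
            rw [← sum_mul]
            exact mul_le_mul_of_nonneg_right hH2 (by positivity)
    · rw [nsmul_eq_mul]
      refine mul_le_mul_of_nonneg_right ?_ (by positivity)
      have := card_farey_le (w ^ 2)
      rw [← pow_mul] at this
      exact_mod_cast this
  refine (mul_le_mul_of_nonneg_left two (by positivity)).trans (le_of_eq ?_)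
  field_simp

end Pool.Agent.P.MP_d565f2_an.LS
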