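import Pool.Agent.P.MP_d565f2_an.SR.Sieve3
import Pool.Agent.P.MP_d565f2_an.SR.Minor

set_option autoImplicit false

open Finset

namespace Pool.Agent.P.MP_d565f2_an.LS

variable {ι : Type} [Fintype ι] [DecidableEq ι]

theorem Exc_prim [Nonempty ι] {n : ℕ} (hn : 0 < n) {x : ι → ℤ} (hx : x ∈ sph ι n) :
    ∃ (γ : ℕ) (x₀ f : ι → ℤ), 0 < γ ∧ γ ^ 2 ≤ n ∧ (∀ i, x i = γ * x₀ i) ∧ ∑ i, x₀ i * f i = 1 ∧
      x₀ ∈ sph ι (n / γ ^ 2) := by
  obtain ⟨x₀, hx₀, hg⟩ := Finset.extract_gcd x (univ_nonempty (α := ι))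
  obtain ⟨f, hf⟩ := Finset.gcd_eq_sum_mul univ x₀
  rw [hg] at hf
  obtain ⟨γ, hγ⟩ : ∃ γ : ℕ, univ.gcd x = γ := ⟨(univ.gcd x).natAbs, (Int.natAbs_of_nonneg
    (Int.nonneg_of_normalize_eq_self Finset.normalize_gcd)).symm⟩
  have hxγ : ∀ i, x i = γ * x₀ i := fun i => by rw [← hγ]; exact hx₀ i (mem_univ i)
  have h1 : (n : ℤ) = γ ^ 2 * (x₀ ⬝ᵥ x₀) := by
    rw [← mem_sph.1 hx]
    simp only [dotProduct, hxγ, Finset.mul_sum]
    exact sum_congr rfl fun i _ => by ring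
  obtain ⟨k, hk⟩ := Int.eq_ofNat_of_zero_le
    (show 0 ≤ x₀ ⬝ᵥ x₀ from sum_nonneg fun i _ => mul_self_nonneg _)
  have h2 : n = γ ^ 2 * k := by rw [hk] at h1; exact_mod_cast h1
  have h3 : 0 < γ := Nat.pos_of_ne_zero fun h => by simp [h] at h2; omega
  refine ⟨γ, x₀, f, h3, Nat.le_of_dvd hn ⟨k, h2⟩, hxγ, hf.symm, mem_sph.2 ?_⟩
  rw [hk, h2, Nat.mul_div_cancel_left _ (pow_pos h3 2)]

theorem Exc_nonneg (γ R w : ℕ) (x : ι → ℤ) : 0 ≤ EE ι γ R w x :=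
  sum_nonneg fun _ _ => sum_nonneg fun _ _ => by positivity

/- C₀ = 2 (C + 1), C from `TT_le`.  Write x = γ x₀ with x₀ primitive (`Finset.extract_gcd`,
`Finset.gcd_eq_sum_mul`, as in `level0`); x₀ ∈ sph ι (n / γ ^ 2), γ ^ 2 ∣ n.  An exceptional x has
R ^ e < EE ι γ R w x₀.  For each γ ≤ w Markov and `minor` give at most C lam ^ e / w ^ 2 points
(EE ≥ 0).  For γ > w all points: `card_sph_le` gives C lam ^ e / γ ^ e ≤ C lam ^ e / γ ^ 2 and
∑ over γ > w of 1 / γ ^ 2 ≤ 1 / w (`sum_Ioc_inv_sq_le_sub`). -/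
theorem exc {e : ℕ} (he : Fintype.card ι = e + 2) (he5 : 5 ≤ e) : ∃ (C₀ : ℝ) (C₁ : ℕ), 0 ≤ C₀ ∧
    ∀ n R w : ℕ, 0 < n → n ≤ (R ^ (e + 1)) ^ 2 → 1 ≤ w → w ^ 160 ≤ R →
      (∀ t : ℕ, t ≤ w ^ 2 * R ^ 2 → t.divisors.card ≤ w) →
      ∑ m ∈ Icc 1 (R ^ 2), (m : ℝ)⁻¹ ≤ w →
      w * ((sph ι n).filter fun x => C₀ * (R : ℝ) ^ e < TT ι R w x * Real.log w).card ≤
        C₁ * (R ^ (e + 1)) ^ e := by
  have : Nonempty ι := Fintype.card_pos_iff.1 (by omega)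
  obtain ⟨C, hC0, hC⟩ := TT_le he he5
  obtain ⟨D, hD0, hD⟩ := minor he he5
  obtain ⟨B, hB0, hB⟩ := card_sph_le he he5
  refine ⟨2 * (C + 1), ⌈D + B⌉₊, by positivity, fun n R w hn hnR hw hR hτ hH => ?_⟩
  have hR0 : (0 : ℝ) < R := by exact_mod_cast (pow_pos hw 160).trans_le hR
  have hw0 : (0 : ℝ) < w := by exact_mod_cast hw
  set L : ℝ := (R : ℝ) ^ (e + 1) with hL
  have hL0 : 0 < L := by positivity
  set A : ℕ → Finset (ι → ℤ) := fun γ =>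
    (sph ι (n / γ ^ 2)).filter fun x => (R : ℝ) ^ e < EE ι γ R w x with hA
  set S := (Icc 1 n).filter fun γ => γ ^ 2 ≤ n with hS
  have hpos : ∀ γ ∈ S, 0 < γ ∧ 0 < n / γ ^ 2 := fun γ h => by
    have h1 : 0 < γ := (mem_Icc.1 (mem_filter.1 h).1).1
    exact ⟨h1, Nat.div_pos (mem_filter.1 h).2 (pow_pos h1 2)⟩
  have h1 : ((sph ι n).filter fun x => 2 * (C + 1) * (R : ℝ) ^ e < TT ι R w x * Real.log w) ⊆
      S.biUnion fun γ => (A γ).image fun x i => γ * x i := fun x hx => by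
    obtain ⟨hx1, hx2⟩ := mem_filter.1 hx
    obtain ⟨γ, x₀, f, a1, a2, a3, a4, a5⟩ := Exc_prim hn hx1
    refine mem_biUnion.2 ⟨γ, mem_filter.2 ⟨mem_Icc.2 ⟨a1, ?_⟩, a2⟩,
      mem_image.2 ⟨x₀, mem_filter.2 ⟨a5, ?_⟩, (funext a3).symm⟩⟩
    · exact (Nat.le_self_pow two_ne_zero γ).trans a2
    · linarith [hC x x₀ f γ R w a3 a4 a1 hw hR]
  have h2 : ∀ γ ∈ S, ((A γ).card : ℝ) ≤ D * L ^ e / w ^ 2 := fun γ h => by
    have a := hD (n / γ ^ 2) γ R w (hpos γ h).2 ((Nat.div_le_self _ _).trans hnR) (hpos γ h).1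
      hw hR hτ hH
    have b : ((A γ).card : ℝ) * R ^ e ≤ ∑ x ∈ sph ι (n / γ ^ 2), EE ι γ R w x := by
      rw [← nsmul_eq_mul]
      exact (card_nsmul_le_sum _ _ _ fun x hx => (mem_filter.1 hx).2.le).trans
        (sum_le_sum_of_subset_of_nonneg (filter_subset _ _) fun x _ _ => Exc_nonneg _ _ _ _)
    rw [le_div_iff₀ (by positivity)]
    refine le_of_mul_le_mul_right ?_ (pow_pos hR0 e)
    refine le_trans ?_ a
    rw [mul_right_comm, mul_comm]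
    gcongr
  have h3 : ∀ γ ∈ S, ((A γ).card : ℝ) ≤ B * L ^ e * ((γ : ℝ) ^ 2)⁻¹ := fun γ h => by
    have g1 : (1 : ℝ) ≤ γ := by exact_mod_cast (hpos γ h).1
    have a : √((n / γ ^ 2 : ℕ) : ℝ) ≤ L / γ := by
      rw [Real.sqrt_le_left (by positivity), div_pow]
      refine Nat.cast_div_le.trans ?_
      push_cast
      gcongr
      rw [hL]
      exact_mod_cast hnR
    calc ((A γ).card : ℝ) ≤ (sph ι (n / γ ^ 2)).card := by
          exact_mod_cast card_filter_le _ _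
      _ ≤ B * (L / γ) ^ e := (hB _ (hpos γ h).2).trans (by gcongr)
      _ ≤ _ := by
          rw [div_pow, mul_assoc, ← div_eq_mul_inv]
          gcongr
          omega
  have h4 : ∑ γ ∈ S.filter (· ≤ w), ((A γ).card : ℝ) ≤ D * L ^ e / w := by
    refine (sum_le_card_nsmul _ _ _ fun γ h => h2 γ (mem_filter.1 h).1).trans ?_
    have a : (S.filter (· ≤ w)).card ≤ w := by
      refine (card_le_card (t := Icc 1 w) fun γ h => ?_).trans (by simp)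
      exact mem_Icc.2 ⟨(hpos γ (mem_filter.1 h).1).1, (mem_filter.1 h).2⟩
    calc _ ≤ (w : ℝ) * (D * L ^ e / w ^ 2) := by
          rw [nsmul_eq_mul]
          gcongr
      _ = _ := by field_simp
  have h5 : ∑ γ ∈ S.filter (¬ · ≤ w), ((A γ).card : ℝ) ≤ B * L ^ e / w := by
    refine (sum_le_sum fun γ h => h3 γ (mem_filter.1 h).1).trans ?_
    rw [← mul_sum, div_eq_mul_inv]
    refine mul_le_mul_of_nonneg_left ?_ (by positivity)
    refine (sum_le_sum_of_subset_of_nonneg (t := Ioc w (w + n)) (fun γ h => ?_)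
      fun _ _ _ => by positivity).trans ((sum_Ioc_inv_sq_le_sub (by omega) (by omega)).trans ?_)
    · have a := (mem_filter.1 h).2
      have b := (mem_Icc.1 (mem_filter.1 (mem_filter.1 h).1).1).2
      exact mem_Ioc.2 ⟨by omega, by omega⟩
    · exact sub_le_self _ (by positivity)
  have h6 : (((sph ι n).filter fun x =>
      2 * (C + 1) * (R : ℝ) ^ e < TT ι R w x * Real.log w).card : ℝ) ≤ (D + B) * L ^ e / w := by
    rw [add_mul, add_div]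
    refine le_trans ?_ (add_le_add h4 h5)
    rw [sum_filter_add_sum_filter_not]
    exact_mod_cast (card_le_card h1).trans
      (card_biUnion_le.trans (sum_le_sum fun γ _ => card_image_le))
  rw [le_div_iff₀ hw0, mul_comm] at h6
  have h7 := h6.trans (mul_le_mul_of_nonneg_right (Nat.le_ceil (D + B)) (by positivity))
  rw [hL] at h7
  exact_mod_cast h7

end Pool.Agent.P.MP_d565f2_an.LS
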