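import Pool.Agent.P.MP_d565f2_an.SR.MeanSq5
import Pool.Agent.P.MP_d565f2_an.SR.Minor

set_option autoImplicit false

open Finset

namespace Pool.Agent.P.MP_d565f2_an.LS

variable {ι : Type} [Fintype ι] [DecidableEq ι]

theorem sum_gcd_div (n M : ℕ) (hn : 0 < n) :
    ∑ m ∈ Icc 1 M, (Nat.gcd n m : ℝ) / m ≤ n.divisors.card * (1 + Real.log M) := by
  have hH : ∑ k ∈ Icc 1 M, (k : ℝ)⁻¹ ≤ 1 + Real.log M := by
    have h := harmonic_le_one_add_log M
    rw [harmonic_eq_sum_Icc] at h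
    push_cast at h
    exact h
  rw [← sum_fiberwise_of_maps_to (g := fun m => Nat.gcd n m) (t := n.divisors)
    (fun m _ => Nat.mem_divisors.2 ⟨Nat.gcd_dvd_left _ _, hn.ne'⟩), ← nsmul_eq_mul]
  refine sum_le_card_nsmul _ _ _ fun d hd => le_trans ?_ hH
  have hd0 : 0 < d := Nat.pos_of_mem_divisors hd
  have hd1 : (0 : ℝ) < d := by exact_mod_cast hd0
  calc ∑ m ∈ (Icc 1 M).filter (fun m => Nat.gcd n m = d), (Nat.gcd n m : ℝ) / m
      = ∑ m ∈ (Icc 1 M).filter (fun m => Nat.gcd n m = d), (d : ℝ) / m :=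
        sum_congr rfl fun m hm => by rw [(mem_filter.1 hm).2]
    _ ≤ ∑ m ∈ (Icc 1 M).image (fun k => d * k), (d : ℝ) / m := by
        refine sum_le_sum_of_subset_of_nonneg (fun m hm => ?_) fun _ _ _ => by positivity
        obtain ⟨h1, h2⟩ := mem_filter.1 hm
        obtain ⟨h3, h4⟩ := mem_Icc.1 h1
        obtain ⟨k, rfl⟩ : d ∣ m := h2 ▸ Nat.gcd_dvd_right n m
        refine mem_image.2 ⟨k, mem_Icc.2 ⟨Nat.pos_of_mul_pos_left h3, ?_⟩, rfl⟩
        exact (Nat.le_mul_of_pos_left k hd0).trans h4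
    _ = ∑ k ∈ Icc 1 M, (k : ℝ)⁻¹ := by
        rw [sum_image fun a _ b _ h => Nat.eq_of_mul_eq_mul_left hd0 h]
        refine sum_congr rfl fun k _ => ?_
        push_cast
        rw [div_mul_eq_div_div, div_self hd1.ne', one_div]

theorem Minor5_mem {s : ℚ} (h0 : 0 ≤ s) (h1 : s < 1) {m b : ℕ} :
    ∀ t ∈ Minor_T s m b, t.den = b ∧ 0 ≤ t ∧ t < 1 := by
  intro t ht
  refine ⟨Minor_T_den t ht, ?_⟩
  obtain ⟨a, ha, rfl⟩ := mem_image.1 ht
  have ha1 := mem_range.1 (mem_filter.1 ha).1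
  have hm' : (0 : ℚ) < m := by exact_mod_cast (by omega : 0 < m)
  have ha' : (a : ℚ) + 1 ≤ m := by exact_mod_cast ha1
  refine ⟨by positivity, ?_⟩
  rw [div_lt_one hm']; linarith

theorem Minor5_inv {s : ℚ} (h0 : 0 ≤ s) (h1 : s < 1) {m b : ℕ} (u : ℕ) (hu : u.Coprime b)
    (hd : (Nat.gcd s.den b : ℤ) ∣ (u : ℤ) - 1) :
    ∀ t ∈ Minor_T s m b, Int.fract ((u : ℚ) * t) ∈ Minor_T s m b := by
  intro t ht
  have hb := Minor_T_den t ht
  obtain ⟨a, ha, e⟩ := mem_image.1 ht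
  have ha1 := mem_range.1 (mem_filter.1 ha).1
  have hm' : (0 : ℚ) < m := by exact_mod_cast (by omega : 0 < m)
  have e1 : (m : ℚ) * t = a + s := by rw [← e]; field_simp
  have d1 : s.den ∣ b := by
    have h2 : s = (m : ℚ) * t - ((a : ℤ) : ℚ) := by rw [e1]; push_cast; ring
    have h3 := Rat.mul_den_dvd (m : ℚ) t
    rw [Rat.den_natCast, one_mul, hb] at h3
    rwa [h2, Rat.sub_intCast_den]
  rw [Nat.gcd_eq_left d1] at hd
  obtain ⟨k, hk⟩ := hd
  have d2 : (Int.fract ((u : ℚ) * t)).den = b := by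
    have h2 : (Int.fract ((u : ℚ) * t)).den = ((u : ℚ) * t).den := Rat.sub_intCast_den _ _
    rw [h2, Rat.mul_den, Rat.den_natCast, Rat.num_natCast, one_mul, Int.natAbs_mul,
      Int.natAbs_natCast, Nat.Coprime.gcd_eq_one (Nat.Coprime.mul_left (hb ▸ hu) t.reduced),
      Nat.div_one, hb]
  have f0 := Int.fract_nonneg ((u : ℚ) * t)
  have f1 := Int.fract_lt_one ((u : ℚ) * t)
  obtain ⟨a', e2⟩ : ∃ a' : ℤ, (m : ℚ) * Int.fract ((u : ℚ) * t) = a' + s := by
    refine ⟨u * a + k * s.num - m * ⌊(u : ℚ) * t⌋, ?_⟩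
    have h2 : (u : ℚ) - 1 = s.den * k := by exact_mod_cast hk
    have h3 : s * s.den = s.num := Rat.mul_den_eq_num s
    rw [Int.fract]
    push_cast
    linear_combination (u : ℚ) * e1 + s * h2 + (k : ℚ) * h3
  have g0 : (0 : ℚ) ≤ a' + s := e2 ▸ mul_nonneg hm'.le f0
  have g1 : (a' : ℚ) + s < m := e2 ▸ mul_lt_of_lt_one_right hm' f1
  have g2 : (-1 : ℤ) < a' := by exact_mod_cast (show ((-1 : ℚ)) < a' by linarith)
  have g3 : a' < m := by exact_mod_cast (show (a' : ℚ) < m by linarith)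
  obtain ⟨c, rfl⟩ := Int.eq_ofNat_of_zero_le (show 0 ≤ a' by omega)
  have e3 : ((c : ℚ) + s) / m = Int.fract ((u : ℚ) * t) := by
    rw [div_eq_iff hm'.ne', mul_comm, e2]
    push_cast
    rfl
  exact mem_image.2 ⟨c, mem_filter.2 ⟨mem_range.2 (by exact_mod_cast g3), e3 ▸ d2⟩, e3⟩

/- As `minor` (SR/Minor.lean).  For T = the t = (a + s) / m with t.den = b (nonempty) take
b' = s.den: m t = s + a gives s.den ∣ b, and for u coprime to b with s.den ∣ u - 1 the fraction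
fract (u t) has denominator b and m * fract (u t) - s is an integer in [0, m).
gcd n b ≤ gcd n (s.den m) ≤ w ^ 2 gcd n m; `sum_gcd_div`; losses w ^ 4 * w * w ^ 2 * w * w. -/
theorem minor5 {e : ℕ} (he : Fintype.card ι = e + 2) (he3 : 3 ≤ e) : ∃ C : ℝ, 0 ≤ C ∧
    ∀ n γ R w : ℕ, 0 < n → n ≤ (R ^ (e + 1)) ^ 2 → 0 < γ → 10 * (e + 2) ≤ w →
      w ^ (50 * e + 400) ≤ R → (∀ t : ℕ, t ≤ R ^ (20 * (e + 2)) → t.divisors.card ≤ w) →
      1 + Real.log (6 * (R : ℝ) ^ 2) ≤ w →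
      (w : ℝ) ^ 2 * ∑ x ∈ psph ι n, EB ι γ R w (w ^ (8 * e + 60)) x ≤
        C * ((R : ℝ) ^ (e + 1)) ^ e * R ^ e := by
  obtain ⟨C, hC, h⟩ := mean_one5 he he3
  refine ⟨C, hC, ?_⟩
  intro n γ R w hn hnR hγ hw hR hτ hH
  set K : ℝ := C * ((R : ℝ) ^ (e + 1)) ^ e * R ^ e with hK
  have hK0 : 0 ≤ K := by positivity
  have hw1 : 0 < w := by omega
  have hw0 : (0 : ℝ) < w := by exact_mod_cast hw1
  have hw2 : w ^ 2 ≤ R := (Nat.pow_le_pow_right hw1 (by omega)).trans hR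
  have hR0 : 0 < R := lt_of_lt_of_le (by positivity) hw2
  have hR3 : w ^ 2 * R ^ 2 ≤ R ^ (20 * (e + 2)) :=
    calc w ^ 2 * R ^ 2 ≤ R * R ^ 2 := Nat.mul_le_mul_right _ hw2
      _ = R ^ 3 := by ring
      _ ≤ _ := Nat.pow_le_pow_right hR0 (by omega)
  have one : ∀ s ∈ farey (w ^ 2), ∀ m ∈ Icc 1 (R ^ 2 / γ), ∑ x ∈ psph ι n,
      ‖∑ a ∈ (range m).filter (fun a : ℕ => ¬ (((a : ℚ) + s) / m).den ≤ w ^ (8 * e + 60)),
        FF ι (γ * m) fun i => ((((a : ℚ) + s) / m : ℚ) : ℝ) * (2 * x i : ℤ)‖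
        ≤ w * (K / w ^ 11 * (w ^ 2 * Nat.gcd n m)) := by
    intro s hs m hm
    obtain ⟨h0, h1, h2⟩ := mem_farey.1 hs
    obtain ⟨hm1, hm2⟩ := mem_Icc.1 hm
    have hN : γ * m ≤ R ^ 2 := by
      rw [mul_comm]; exact (Nat.le_div_iff_mul_le hγ).1 hm2
    have hm3 : m ≤ R ^ 2 := hm2.trans (Nat.div_le_self _ _)
    have hsm : s.den * m ≤ w ^ 2 * R ^ 2 := Nat.mul_le_mul h2 hm3
    simp only [Minor_split s m (γ * m) (w ^ (8 * e + 60)) hm1]
    calc _ ≤ ∑ x ∈ psph ι n, ∑ b ∈ (s.den * m).divisors.filter (fun b => w ^ (8 * e + 60) < b),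
          ‖GG ι (γ * m) (Minor_T s m b) x‖ := sum_le_sum fun x _ => norm_sum_le _ _
      _ = ∑ b ∈ (s.den * m).divisors.filter (fun b => w ^ (8 * e + 60) < b), ∑ x ∈ psph ι n,
          ‖GG ι (γ * m) (Minor_T s m b) x‖ := sum_comm
      _ ≤ ∑ b ∈ (s.den * m).divisors.filter (fun b => w ^ (8 * e + 60) < b),
          K / w ^ 11 * (w ^ 2 * Nat.gcd n m) := by
          refine sum_le_sum fun b hb => ?_
          obtain ⟨hb1, hb2⟩ := mem_filter.1 hb
          have a1 := h n (γ * m) R b (Nat.gcd s.den b) w (Minor_T s m b) hn hnR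
            (Nat.mul_pos hγ hm1) hN hb2
            ((Nat.divisor_le hb1).trans hsm) (Nat.gcd_dvd_right _ _)
            ((Nat.gcd_le_left _ s.pos).trans h2) (Minor5_mem h0 h1) (Minor5_inv h0 h1) hw hR hτ hH
          have a2 : Nat.gcd n b ≤ w ^ 2 * Nat.gcd n m := by
            have b1 : Nat.gcd n b ∣ Nat.gcd n s.den * Nat.gcd n m :=
              (Nat.gcd_dvd_gcd_of_dvd_right n (Nat.dvd_of_mem_divisors hb1)).trans
                (gcd_mul_dvd_mul_gcd n s.den m)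
            exact (Nat.le_of_dvd (Nat.mul_pos (Nat.gcd_pos_of_pos_left _ hn)
              (Nat.gcd_pos_of_pos_left _ hn)) b1).trans
              (Nat.mul_le_mul_right _ ((Nat.gcd_le_right _ s.pos).trans h2))
          have a3 : (Nat.gcd n b : ℝ) ≤ (w : ℝ) ^ 2 * Nat.gcd n m := by exact_mod_cast a2
          rw [div_mul_eq_mul_div, le_div_iff₀ (by positivity), mul_comm]
          exact a1.trans (mul_le_mul_of_nonneg_left a3 hK0)
      _ ≤ w * (K / w ^ 11 * (w ^ 2 * Nat.gcd n m)) := by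
          rw [sum_const, nsmul_eq_mul]
          refine mul_le_mul_of_nonneg_right ?_ (by positivity)
          exact_mod_cast (card_filter_le _ _).trans (hτ _ (hsm.trans hR3))
  have hH2 : ∑ m ∈ Icc 1 (R ^ 2 / γ), (Nat.gcd n m : ℝ) / m ≤ w * w := by
    refine (sum_gcd_div n _ hn).trans ?_
    have b1 : (n.divisors.card : ℝ) ≤ w := by
      refine Nat.cast_le.2 (hτ n (hnR.trans ?_))
      rw [← pow_mul]
      exact Nat.pow_le_pow_right hR0 (by omega)
    have b2 : (1 : ℝ) ≤ R := by exact_mod_cast hR0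
    have b3 : ((R ^ 2 / γ : ℕ) : ℝ) ≤ (R : ℝ) ^ 2 := by exact_mod_cast Nat.div_le_self _ _
    have b4 : (1 : ℝ) ≤ (R : ℝ) ^ 2 := one_le_pow₀ b2
    have b5 : Real.log ((R ^ 2 / γ : ℕ) : ℝ) ≤ Real.log (6 * (R : ℝ) ^ 2) := by
      rcases Nat.eq_zero_or_pos (R ^ 2 / γ) with k | k
      · rw [k, Nat.cast_zero, Real.log_zero]
        exact Real.log_nonneg (by linarith)
      · exact Real.log_le_log (by exact_mod_cast k) (by linarith)
    have b6 : 0 ≤ Real.log ((R ^ 2 / γ : ℕ) : ℝ) := Real.log_natCast_nonneg _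
    exact mul_le_mul b1 (by linarith) (by linarith) hw0.le
  have two : ∑ x ∈ psph ι n, EB ι γ R w (w ^ (8 * e + 60)) x ≤
      (w : ℝ) ^ 4 * (w * w * (w * (K / w ^ 11 * w ^ 2))) := by
    unfold EB
    rw [sum_comm]
    refine le_trans (sum_le_card_nsmul _ _ (w * w * (w * (K / w ^ 11 * w ^ 2))) fun s hs => ?_) ?_
    · rw [sum_comm]
      calc _ ≤ ∑ m ∈ Icc 1 (R ^ 2 / γ),
            (Nat.gcd n m : ℝ) / m * (w * (K / w ^ 11 * w ^ 2)) := by
            refine sum_le_sum fun m hm => ?_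
            rw [← mul_sum]
            refine (mul_le_mul_of_nonneg_left (one s hs m hm) (by positivity)).trans (le_of_eq ?_)
            ring
        _ ≤ _ := by
            rw [← sum_mul]
            exact mul_le_mul_of_nonneg_right hH2 (by positivity)
    · rw [nsmul_eq_mul]
      refine mul_le_mul_of_nonneg_right ?_ (by positivity)
      have := card_farey_le (w ^ 2)
      rw [← pow_mul] at this
      exact_mod_cast this
  refine (mul_le_mul_of_nonneg_left two (by positivity)).trans (le_of_eq ?_)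
  field_simp

end Pool.Agent.P.MP_d565f2_an.LS
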