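import Pool.Agent.P.MP_d565f2_an.SR.Sieve5
import Pool.Agent.P.MP_d565f2_an.SR.Minor5
import Pool.Agent.P.MP_d565f2_an.SR.Exc

set_option autoImplicit false

open Finset

namespace Pool.Agent.P.MP_d565f2_an.LS

variable {ι : Type} [Fintype ι] [DecidableEq ι]

theorem Exc5_nonneg (γ R w B : ℕ) (x : ι → ℤ) : 0 ≤ EB ι γ R w B x :=
  sum_nonneg fun _ _ => sum_nonneg fun _ _ => by positivity

/- Copy `exc` (SR/Exc.lean): C₀ = 2 C with C from `TT_le5` (B = w ^ (8 e + 60)), x₀ ∈ psph,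
`minor5`, `card_sph_le5`. -/
theorem exc5 {e : ℕ} (he : Fintype.card ι = e + 2) (he3 : 3 ≤ e) : ∃ (C₀ : ℝ) (C₁ : ℕ), 0 ≤ C₀ ∧
    ∀ n R w : ℕ, 0 < n → n ≤ (R ^ (e + 1)) ^ 2 → 10 * (e + 2) ≤ w → w ^ (50 * e + 400) ≤ R →
      (∀ t : ℕ, t ≤ R ^ (20 * (e + 2)) → t.divisors.card ≤ w) →
      1 + Real.log (6 * (R : ℝ) ^ 2) ≤ w →
      w * ((sph ι n).filter fun x => C₀ * (R : ℝ) ^ e < TT ι R w x * Real.log w).card ≤
        C₁ * (R ^ (e + 1)) ^ e := by
  have : Nonempty ι := Fintype.card_pos_iff.1 (by omega)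
  obtain ⟨C, hC0, hC⟩ := TT_le5 he he3
  obtain ⟨D, hD0, hD⟩ := minor5 he he3
  obtain ⟨B, hB0, hB⟩ := card_sph_le5 he he3
  refine ⟨2 * C, ⌈D + B⌉₊, by positivity, fun n R w hn hnR hw' hR hτ hH => ?_⟩
  have hw : 1 ≤ w := by omega
  have hR6 : (w ^ (8 * e + 60)) ^ 6 ≤ R := by
    rw [← pow_mul]
    exact (Nat.pow_le_pow_right hw (by omega)).trans hR
  have hR0 : (0 : ℝ) < R := by exact_mod_cast (pow_pos hw _).trans_le hR
  have hw0 : (0 : ℝ) < w := by exact_mod_cast hw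
  set L : ℝ := (R : ℝ) ^ (e + 1) with hL
  have hL0 : 0 < L := by positivity
  set A : ℕ → Finset (ι → ℤ) := fun γ =>
    (psph ι (n / γ ^ 2)).filter fun x => (R : ℝ) ^ e < EB ι γ R w (w ^ (8 * e + 60)) x with hA
  set S := (Icc 1 n).filter fun γ => γ ^ 2 ≤ n with hS
  have hpos : ∀ γ ∈ S, 0 < γ ∧ 0 < n / γ ^ 2 := fun γ h => by
    have h1 : 0 < γ := (mem_Icc.1 (mem_filter.1 h).1).1
    exact ⟨h1, Nat.div_pos (mem_filter.1 h).2 (pow_pos h1 2)⟩
  have h1 : ((sph ι n).filter fun x => 2 * C * (R : ℝ) ^ e < TT ι R w x * Real.log w) ⊆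
      S.biUnion fun γ => (A γ).image fun x i => γ * x i := fun x hx => by
    obtain ⟨hx1, hx2⟩ := mem_filter.1 hx
    obtain ⟨γ, x₀, f, a1, a2, a3, a4, a5⟩ := Exc_prim hn hx1
    refine mem_biUnion.2 ⟨γ, mem_filter.2 ⟨mem_Icc.2 ⟨a1, ?_⟩, a2⟩,
      mem_image.2 ⟨x₀, mem_filter.2 ⟨mem_psph.2 ⟨a5, f, a4⟩, ?_⟩, (funext a3).symm⟩⟩
    · exact (Nat.le_self_pow two_ne_zero γ).trans a2
    · by_contra hcon
      have b1 := hC x x₀ f γ R w _ a3 a4 a1 hw hR6
      have b2 := mul_le_mul_of_nonneg_left (not_lt.1 hcon) hC0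
      linarith [mul_add C ((R : ℝ) ^ e) (EB ι γ R w (w ^ (8 * e + 60)) x₀)]
  have h2 : ∀ γ ∈ S, ((A γ).card : ℝ) ≤ D * L ^ e / w ^ 2 := fun γ h => by
    have a := hD (n / γ ^ 2) γ R w (hpos γ h).2 ((Nat.div_le_self _ _).trans hnR) (hpos γ h).1
      hw' hR hτ hH
    have b : ((A γ).card : ℝ) * R ^ e ≤
        ∑ x ∈ psph ι (n / γ ^ 2), EB ι γ R w (w ^ (8 * e + 60)) x := by
      rw [← nsmul_eq_mul]
      exact (card_nsmul_le_sum _ _ _ fun x hx => (mem_filter.1 hx).2.le).trans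
        (sum_le_sum_of_subset_of_nonneg (filter_subset _ _) fun x _ _ => Exc5_nonneg _ _ _ _ _)
    rw [le_div_iff₀ (by positivity)]
    refine le_of_mul_le_mul_right ?_ (pow_pos hR0 e)
    refine le_trans ?_ a
    rw [mul_right_comm, mul_comm]
    gcongr
  have h3 : ∀ γ ∈ S, ((A γ).card : ℝ) ≤ B * L ^ e * ((γ : ℝ) ^ 2)⁻¹ := fun γ h => by
    have g1 : (1 : ℝ) ≤ γ := by exact_mod_cast (hpos γ h).1
    have a : √((n / γ ^ 2 : ℕ) : ℝ) ≤ L / γ := by
      rw [Real.sqrt_le_left (by positivity), div_pow]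
      refine Nat.cast_div_le.trans ?_
      push_cast
      gcongr
      rw [hL]
      exact_mod_cast hnR
    calc ((A γ).card : ℝ) ≤ (sph ι (n / γ ^ 2)).card := by
          exact_mod_cast card_le_card fun x hx => (mem_psph.1 (mem_filter.1 hx).1).1
      _ ≤ B * (L / γ) ^ e := (hB _ (hpos γ h).2).trans (by gcongr)
      _ ≤ _ := by
          rw [div_pow, mul_assoc, ← div_eq_mul_inv]
          gcongr
          omega
  have h4 : ∑ γ ∈ S.filter (· ≤ w), ((A γ).card : ℝ) ≤ D * L ^ e / w := by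
    refine (sum_le_card_nsmul _ _ _ fun γ h => h2 γ (mem_filter.1 h).1).trans ?_
    have a : (S.filter (· ≤ w)).card ≤ w := by
      refine (card_le_card (t := Icc 1 w) fun γ h => ?_).trans (by simp)
      exact mem_Icc.2 ⟨(hpos γ (mem_filter.1 h).1).1, (mem_filter.1 h).2⟩
    calc _ ≤ (w : ℝ) * (D * L ^ e / w ^ 2) := by
          rw [nsmul_eq_mul]
          gcongr
      _ = _ := by field_simp
  have h5 : ∑ γ ∈ S.filter (¬ · ≤ w), ((A γ).card : ℝ) ≤ B * L ^ e / w := by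
    refine (sum_le_sum fun γ h => h3 γ (mem_filter.1 h).1).trans ?_
    rw [← mul_sum, div_eq_mul_inv]
    refine mul_le_mul_of_nonneg_left ?_ (by positivity)
    refine (sum_le_sum_of_subset_of_nonneg (t := Ioc w (w + n)) (fun γ h => ?_)
      fun _ _ _ => by positivity).trans ((sum_Ioc_inv_sq_le_sub (by omega) (by omega)).trans ?_)
    · have a := (mem_filter.1 h).2
      have b := (mem_Icc.1 (mem_filter.1 (mem_filter.1 h).1).1).2
      exact mem_Ioc.2 ⟨by omega, by omega⟩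
    · exact sub_le_self _ (by positivity)
  have h6 : (((sph ι n).filter fun x =>
      2 * C * (R : ℝ) ^ e < TT ι R w x * Real.log w).card : ℝ) ≤ (D + B) * L ^ e / w := by
    rw [add_mul, add_div]
    refine le_trans ?_ (add_le_add h4 h5)
    rw [sum_filter_add_sum_filter_not]
    exact_mod_cast (card_le_card h1).trans
      (card_biUnion_le.trans (sum_le_sum fun γ _ => card_image_le))
  rw [le_div_iff₀ hw0, mul_comm] at h6
  have h7 := h6.trans (mul_le_mul_of_nonneg_right (Nat.le_ceil (D + B)) (by positivity))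
  rw [hL] at h7
  exact_mod_cast h7

end Pool.Agent.P.MP_d565f2_an.LS
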