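import Pool.Agent.P.MP_d565f2_an.SR.Small5
import Pool.Agent.P.MP_d565f2_an.SR.DDefs
import Pool.Agent.P.MP_d565f2_an.SR.Final

set_option autoImplicit false

open Finset

namespace Pool.Agent.P.MP_d565f2_an.LS

variable {ι : Type} [Fintype ι] [DecidableEq ι]

/- Copy `core2` (SR/Final.lean) with `small_of_rel5` and E = (50 e + 400) b. -/
theorem core3 {e : ℕ} (he3 : 3 ≤ e) (h : MainSt3 (e + 1)) :
    ∃ E y₀ K : ℕ, 1 ≤ E ∧ ∀ y : ℕ, y₀ ≤ y → ∀ n : ℕ, n ≠ 0 → n + 1 ≤ ((y ^ E) ^ (e + 1)) ^ 2 →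
      ∀ Z ⊆ sph (Fin (e + 1 + 1)) n, Z.Nonempty → ¬ Rel Z (K * (y ^ E) ^ e) := by
  obtain ⟨C, A, a, h⟩ := h
  obtain ⟨w₀, K, C₁, hs⟩ := small_of_rel5 (ι := Fin (e + 1 + 1)) (e := e) (Fintype.card_fin _) he3
  obtain ⟨b, hb⟩ : ∃ b, b = (a + 1) * (e + 1) + 1 := ⟨_, rfl⟩
  obtain ⟨E, hE⟩ : ∃ E, E = b * (50 * e + 400) := ⟨_, rfl⟩
  obtain ⟨c, hc⟩ : ∃ c, c = E * (e + 1) ^ 2 + 1 := ⟨_, rfl⟩
  have hb1 : 1 ≤ b := by omega
  have hEa : 2 * (e + 1) * (a + 1) ≤ E := by rw [hE, hb]; nlinarith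
  have hEa' : a + 1 ≤ E := le_trans (Nat.le_mul_of_pos_left _ (by omega)) hEa
  obtain ⟨m, hm⟩ : ∃ m, E * e = m + (a + 1) := ⟨E * e - (a + 1), by
    have : E ≤ E * e := Nat.le_mul_of_pos_right _ (by omega)
    omega⟩
  obtain ⟨Y, hY⟩ : ∃ Y, Y = (2 * C * c ^ A) ^ 2 * (2 * A + 1) ^ (2 * A + 1) := ⟨_, rfl⟩
  refine ⟨E, w₀ + C + C₁ + Y + 1, K + 3, le_trans (by omega) hEa', fun y hy n hn0 hn Z hZ hne hrel => ?_⟩
  have y0 : 0 < y := by omega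
  have hyE : (y ^ b) ^ (50 * e + 400) = y ^ E := by rw [hE, pow_mul]
  have h1 := hs (y ^ b) (le_trans (by omega) (Nat.le_self_pow (by omega) y)) n hn0
    (by rw [hyE]; omega) Z hZ
    (by rw [hyE]; exact hrel.mono (Nat.mul_le_mul_right _ (by omega)))
  rw [hyE] at h1
  obtain ⟨j, hj⟩ : ∃ j, j = Nat.log 2 y + 1 := ⟨_, rfl⟩
  have j1 : 1 ≤ j := by omega
  have hyj : y ≤ 2 ^ j := hj ▸ (Nat.lt_pow_succ_log_self one_lt_two y).le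
  have hZg : Z.card ≤ (y ^ m) ^ (e + 1) := by
    refine Nat.le_of_mul_le_mul_left (h1.trans ?_) (pow_pos y0 b)
    calc C₁ * ((y ^ E) ^ (e + 1)) ^ e ≤ y * ((y ^ E) ^ (e + 1)) ^ e :=
          Nat.mul_le_mul_right _ (by omega)
      _ = y ^ (E * e * (e + 1) + 1) := by ring
      _ = _ := by rw [hm, hb]; ring
  have hL : 2 * C * (c * j) ^ A ≤ y := by
    have h2 := succ_pow_le (2 * A + 1) (Nat.log 2 y) (by omega)
    rw [← hj] at h2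
    have h3 : 2 ^ Nat.log 2 y ≤ y := Nat.pow_log_le_self 2 y0.ne'
    rw [← Nat.pow_le_pow_iff_left (n := 2) two_ne_zero]
    calc (2 * C * (c * j) ^ A) ^ 2 = (2 * C * c ^ A) ^ 2 * j ^ (2 * A) := by ring
      _ ≤ (2 * C * c ^ A) ^ 2 * j ^ (2 * A + 1) :=
          Nat.mul_le_mul_left _ (Nat.pow_le_pow_right j1 (by omega))
      _ ≤ (2 * C * c ^ A) ^ 2 * ((2 * A + 1) ^ (2 * A + 1) * y) :=
          Nat.mul_le_mul_left _ (h2.trans (Nat.mul_le_mul_left _ h3))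
      _ = Y * y := by rw [hY, mul_assoc ((2 * C * c ^ A) ^ 2)]
      _ ≤ y ^ 2 := by rw [sq]; exact Nat.mul_le_mul_right _ (by omega)
  have hR : (y ^ E) ^ e = y ^ (m + a) * y := by rw [← pow_mul, hm, ← pow_succ, add_assoc]
  have hR1 : 1 ≤ (y ^ E) ^ e := Nat.one_le_pow _ _ (pow_pos y0 _)
  have hk : C * (c * j) ^ A * (y ^ a * y ^ m + y ^ (m + a)) ≤ (y ^ E) ^ e :=
    calc _ = y ^ (m + a) * (2 * C * (c * j) ^ A) := by ring
      _ ≤ _ := by rw [hR]; exact Nat.mul_le_mul_left _ hL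
  obtain ⟨W, w1, w2, w3, w4⟩ := project (k := C * (c * j) ^ A * (y ^ a * y ^ m + y ^ (m + a)))
    (by omega) hZ hne (hrel.mono (by rw [add_mul K]; omega))
  have hp : ∀ u, u + 1 ≤ c → 2 * y ^ u ≤ 2 ^ (c * j) := fun u hu =>
    calc 2 * y ^ u ≤ 2 * (2 ^ j) ^ u := by gcongr
      _ = 2 ^ (j * u + 1) := by rw [← pow_mul, pow_succ']
      _ ≤ _ := Nat.pow_le_pow_right two_pos (by nlinarith)
  refine h n ((y ^ E) ^ (e + 1)) (c * j) (y ^ m) (y ^ (m + a)) y W w1 w2 hn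
    (Nat.mul_pos (by omega) j1) ?_ ?_ (w3.trans hZg) ?_ ?_ y0 ?_ w4
  · rw [← pow_mul]
    refine le_trans (Nat.le_mul_of_pos_left _ two_pos) (hp _ ?_)
    rw [hc]
    exact Nat.succ_le_succ (Nat.mul_le_mul_left _ (Nat.le_self_pow two_ne_zero _))
  · refine (Nat.mul_le_mul_left 2 (w3.trans hZg)).trans ?_
    rw [← pow_mul]
    refine hp _ ?_
    rw [hc, sq, ← mul_assoc]
    exact Nat.succ_le_succ (Nat.mul_le_mul_right _ (by rw [mul_add, hm]; omega))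
  · rw [← pow_mul, ← pow_mul, ← pow_mul]
    refine Nat.pow_le_pow_right y0 ?_
    rw [Nat.add_sub_cancel]
    obtain ⟨q, hq⟩ : ∃ q, 2 * (e + 1) * e = q + 1 :=
      ⟨2 * (e + 1) * e - 1, (Nat.sub_add_cancel (Nat.mul_pos (by omega) (by omega))).symm⟩
    rw [hq, Nat.add_sub_cancel]
    have h2 : E * q ≤ m * (2 * (e + 1)) := by
      have h3 : E * q + E = E * e * (2 * (e + 1)) := by
        rw [← mul_add_one E q, ← hq]; ring
      rw [hm, add_mul m, mul_comm (a + 1)] at h3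
      omega
    calc _ = E * q * (e + 1) := by ring
      _ ≤ m * (2 * (e + 1)) * (e + 1) := Nat.mul_le_mul_right _ h2
      _ = _ := by ring
  · rw [Nat.add_sub_cancel, ← hR, pow_right_comm]
  · calc C * y ^ a ≤ y * y ^ a := Nat.mul_le_mul_right _ (by omega)
      _ = y ^ (a + 1) := (pow_succ' _ _).symm
      _ ≤ y ^ E := Nat.pow_le_pow_right y0 hEa'
      _ ≤ _ := Nat.le_self_pow (by omega) _

/- Copy `sharp_bound2`. -/
theorem sharp_bound3 {e : ℕ} (he3 : 3 ≤ e) (h : MainSt3 (e + 1)) :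
    ∃ C : ℝ, 0 < C ∧ ∀ n : ℕ, 1 ≤ n → ∃ K : ℕ,
      (∀ Z ⊆ sph (Fin (e + 1 + 1)) n, Z.Nonempty → ¬ Rel Z K) ∧
        (K : ℝ) ≤ C * (n : ℝ) ^ ((e : ℝ) / (2 * ((e : ℝ) + 1))) := by
  obtain ⟨E, w₀, K, hE, h⟩ := core3 he3 h
  have hE' : (1 : ℝ) ≤ E := by exact_mod_cast hE
  refine ⟨(K : ℝ) * (w₀ + 3) ^ (E * e) + 1, by positivity, fun n hn => ?_⟩
  set t : ℝ := (n : ℝ) ^ ((1 : ℝ) / ((E : ℝ) * (e + 1) * 2)) with ht
  have hn' : (1 : ℝ) ≤ n := by exact_mod_cast hn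
  have ht1 : 1 ≤ t := Real.one_le_rpow hn' (by positivity)
  have hr1 : t < ((⌈t⌉₊ + w₀ + 1 : ℕ) : ℝ) := by
    have := Nat.le_ceil t
    push_cast
    linarith [(by positivity : (0 : ℝ) ≤ w₀)]
  have hr2 : ((⌈t⌉₊ + w₀ + 1 : ℕ) : ℝ) ≤ (w₀ + 3) * t := by
    have := Nat.ceil_lt_add_one (show 0 ≤ t by linarith)
    push_cast
    nlinarith [(by positivity : (0 : ℝ) ≤ w₀)]
  have htp : t ^ (E * (e + 1) * 2) = n := by
    rw [ht, ← Real.rpow_natCast, ← Real.rpow_mul (by positivity)]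
    push_cast
    rw [one_div_mul_cancel (by positivity), Real.rpow_one]
  have hnr : n + 1 ≤ (((⌈t⌉₊ + w₀ + 1) ^ E) ^ (e + 1)) ^ 2 := by
    rw [← pow_mul, ← pow_mul, ← mul_assoc]
    have : (n : ℝ) < ((⌈t⌉₊ + w₀ + 1 : ℕ) : ℝ) ^ (E * (e + 1) * 2) := by
      rw [← htp]
      exact pow_lt_pow_left₀ hr1 (by linarith) (by positivity)
    exact_mod_cast this
  refine ⟨_, h (⌈t⌉₊ + w₀ + 1) (by omega) n (by omega) hnr, ?_⟩
  have htd : t ^ (E * e) = (n : ℝ) ^ ((e : ℝ) / (2 * ((e : ℝ) + 1))) := by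
    rw [ht, ← Real.rpow_natCast, ← Real.rpow_mul (by positivity)]
    congr 1
    push_cast
    field_simp
  rw [← htd, ← pow_mul, Nat.cast_mul, Nat.cast_pow]
  have h0 : 0 ≤ t ^ (E * e) := by positivity
  calc (K : ℝ) * ((⌈t⌉₊ + w₀ + 1 : ℕ) : ℝ) ^ (E * e)
      ≤ K * ((w₀ + 3) * t) ^ (E * e) := by gcongr
    _ = K * (w₀ + 3) ^ (E * e) * t ^ (E * e) := by rw [mul_pow]; ring
    _ ≤ _ := by nlinarith

/- Copy `upper2`. -/
theorem upper3 (h : ∀ ρ : ℕ, 4 ≤ ρ → MainSt3 ρ) (d : ℕ) (hd : d = 2 ∨ 5 ≤ d) :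
    ∃ C : ℝ, 0 < C ∧ ∀ n : ℕ, 1 ≤ n → (sph (Fin d) n).card ≠ 0 → ∃ K : ℕ,
      (∀ Z ⊆ sph (Fin d) n, Z.Nonempty → ¬ Rel Z K) ∧
        (K : ℝ) ≤ C * ((sph (Fin d) n).card : ℝ) ^ ((1 : ℝ) / ((d : ℝ) - 1)) := by
  rcases hd with rfl | hd
  · exact FR.upper 2 (Or.inl rfl)
  · obtain ⟨f, rfl⟩ : ∃ f, d = f + 1 + 4 := ⟨d - 5, by omega⟩
    obtain ⟨C, hC, h⟩ := sharp_bound3 (e := f + 3) (by omega) (h _ (by omega))
    obtain ⟨D, hD⟩ := nf_count f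
    have e1 : (((f + 1 + 4 : ℕ) : ℝ) - 1) = f + 4 := by push_cast; ring
    rw [e1]
    refine ⟨C * ((D : ℝ) + 1) ^ ((1 : ℝ) / (2 * ((f : ℝ) + 4))), by positivity, fun n hn _ => ?_⟩
    obtain ⟨K, hK, hKC⟩ := h n hn
    refine ⟨K, hK, hKC.trans ?_⟩
    rw [mul_assoc]
    refine mul_le_mul_of_nonneg_left ?_ hC.le
    set N := (sph (Fin (f + 1 + 4)) n).card with hNdef
    have h1 : (n : ℝ) ^ (f + 3) ≤ ((D : ℝ) + 1) * (N : ℝ) ^ 2 := by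
      have : (n : ℝ) ^ (f + 3) ≤ (D : ℝ) * (N : ℝ) ^ 2 := by exact_mod_cast hD n
      nlinarith [sq_nonneg (N : ℝ)]
    calc (n : ℝ) ^ (((f + 3 : ℕ) : ℝ) / (2 * (((f + 3 : ℕ) : ℝ) + 1)))
        = ((n : ℝ) ^ (f + 3)) ^ ((1 : ℝ) / (2 * ((f : ℝ) + 4))) := by
          rw [← Real.rpow_natCast, ← Real.rpow_mul (by positivity)]
          congr 1
          push_cast
          rw [show (f : ℝ) + 3 + 1 = f + 4 by ring]
          ring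
      _ ≤ (((D : ℝ) + 1) * (N : ℝ) ^ 2) ^ ((1 : ℝ) / (2 * ((f : ℝ) + 4))) := by gcongr
      _ = _ := by
          rw [Real.mul_rpow (by positivity) (by positivity), ← Real.rpow_natCast (N : ℝ) 2,
            ← Real.rpow_mul (by positivity)]
          congr 2
          push_cast
          field_simp

end Pool.Agent.P.MP_d565f2_an.LS
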