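import Pool.Agent.P.MP_d565f2_an.SR.Kill

set_option autoImplicit false

open MvPolynomial Finset Module

namespace Pool.Agent.P.MP_d565f2_an.LS

variable {σ : Type} [Fintype σ] [DecidableEq σ]

theorem Norm_dot {L : ℕ} (hσ : Fintype.card σ ≤ 2 ^ L) {α : σ → ℤ} (hα : ∀ j, |α j| ≤ 2 ^ L) :
    Sz L (C (α ⬝ᵥ α) : MvPolynomial σ ℤ) 3 := by
  have : (C (α ⬝ᵥ α) : MvPolynomial σ ℤ) = ∑ j, cf α j * cf α j := by simp [dotProduct, cf]
  rw [this]
  exact Sz.sum _ _ hσ fun j _ => (Sz.cf hα j).mul (Sz.cf hα j)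

theorem Norm_der_lf (α : σ → ℤ) : der (cf α) (lf α) = C (α ⬝ᵥ α) := by
  simp only [der, pderiv_lf, cf, dotProduct, map_sum, map_mul]

theorem Norm_der_sp (α : σ → ℤ) (n : ℕ) : der (cf α) (sp σ n) = 2 * lf α := by
  simp only [der, pderiv_sp, cf, lf, Finset.mul_sum]
  exact Finset.sum_congr rfl fun j _ => by ring

theorem Norm_sp {L n : ℕ} (hL : 1 ≤ L) (hσ : Fintype.card σ ≤ 2 ^ L) (hn : n ≤ 2 ^ (2 * L)) :
    Sz L (sp σ n) 4 := by
  have h0 : ∀ j : σ, Sz L (X j ^ 2 : MvPolynomial σ ℤ) 2 := fun j => by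
    rw [sq]; exact (Sz.X j).mul (Sz.X j)
  have h1 := Sz.sum univ (fun j : σ => (X j ^ 2 : MvPolynomial σ ℤ)) hσ fun j _ => h0 j
  have h2 : Sz L (C (n : ℤ) : MvPolynomial σ ℤ) 2 := Sz.monomial 0 _ (by simp) (by simpa using hn)
  exact h1.sub hL (h2.mono (by omega))

theorem Sz.th {L n : ℕ} (hL : 1 ≤ L) (hσ : Fintype.card σ ≤ 2 ^ L) (hn : n ≤ 2 ^ (2 * L))
    {α : σ → ℤ} (hα : ∀ j, |α j| ≤ 2 ^ L) : Sz L (th α n) 8 := by
  have h4 : Sz L (LS.lf α ^ 2) 7 := by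
    rw [sq]; exact ((Sz.lf hσ hα).mul (Sz.lf hσ hα)).mono (by omega)
  exact h4.sub hL ((Norm_dot hσ hα).mul (Norm_sp hL hσ hn))

theorem der_th (α : σ → ℤ) (n : ℕ) : der (cf α) (th α n) = 0 := by
  rw [th, sq, der_sub, der_mul, der_C_mul, Norm_der_lf, Norm_der_sp]
  ring

theorem Norm_prod {L n : ℕ} (hL : 1 ≤ L) (hσ : Fintype.card σ ≤ 2 ^ L) (hn : n ≤ 2 ^ (2 * L))
    {α : σ → ℤ} (hα : ∀ j, |α j| ≤ 2 ^ L) (s : Multiset σ) :
    ∃ A B : MvPolynomial σ ℤ, Sz L A (10 * s.card) ∧ Sz L B (10 * s.card) ∧ der (cf α) A = 0 ∧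
      der (cf α) B = 0 ∧ sp σ n ∣ C ((α ⬝ᵥ α) ^ s.card) * (s.map X).prod - (A + lf α * B) := by
  induction s using Multiset.induction_on with
  | empty => exact ⟨1, 0, Sz.one _, Sz.zero _, der_C _ 1, der_zero _, by simp⟩
  | cons j s ih =>
    obtain ⟨A, B, hA, hB, dA, dB, c, hc⟩ := ih
    have hp : Sz L (C (α ⬝ᵥ α) * X j - C (α j) * lf α) 5 :=
      ((Norm_dot hσ hα).mul (Sz.X j)).sub hL ((Sz.cf hα j).mul (Sz.lf hσ hα))
    have dp : der (cf α) (C (α ⬝ᵥ α) * X j - C (α j) * lf α) = 0 := by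
      rw [der_sub, der_C_mul, der_C_mul, der_X, Norm_der_lf, cf]
      ring
    refine ⟨A * (C (α ⬝ᵥ α) * X j - C (α j) * lf α) + C (α j) * th α n * B,
      C (α j) * A + (C (α ⬝ᵥ α) * X j - C (α j) * lf α) * B, ?_, ?_, ?_, ?_,
      C (α ⬝ᵥ α) * X j * c + C (α j) * C (α ⬝ᵥ α) * B, ?_⟩
    · exact (((hA.mul hp).mono (by omega)).add hL
        (((Sz.cf hα j).mul (Sz.th hL hσ hn hα)).mul hB)).mono (by rw [Multiset.card_cons]; omega)
    · exact ((((Sz.cf hα j).mul hA).mono (by omega)).add hL (hp.mul hB)).mono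
        (by rw [Multiset.card_cons]; omega)
    · rw [der_add, der_mul, der_mul _ _ B, der_C_mul, der_th, dA, dB, dp]
      simp
    · rw [der_add, der_C_mul, der_mul, dA, dB, dp]
      simp
    · rw [Multiset.card_cons, Multiset.map_cons, Multiset.prod_cons, pow_succ, map_mul, th]
      linear_combination C (α ⬝ᵥ α) * X j * hc

theorem Norm_mon {L e n : ℕ} (hL : 1 ≤ L) (hσ : Fintype.card σ ≤ 2 ^ L) (hn : n ≤ 2 ^ (2 * L))
    {α : σ → ℤ} (hα : ∀ j, |α j| ≤ 2 ^ L) (m : σ →₀ ℕ) :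
    ∃ A B : MvPolynomial σ ℤ, (m.sum fun _ k => k) ≤ e → Sz L A (10 * e) ∧ Sz L B (10 * e) ∧
      der (cf α) A = 0 ∧ der (cf α) B = 0 ∧
        sp σ n ∣ C ((α ⬝ᵥ α) ^ e) * monomial m 1 - (A + lf α * B) := by
  obtain ⟨A, B, hA, hB, dA, dB, hc⟩ := Norm_prod hL hσ hn hα m.toMultiset
  have h1 : (m.toMultiset.map X).prod = (monomial m 1 : MvPolynomial σ ℤ) := by
    rw [monomial_eq, Finset.prod_multiset_map_count, Finsupp.toFinset_toMultiset]
    simp [Finsupp.prod]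
  have h2 : m.toMultiset.card = m.sum fun _ k => k := by rw [Finsupp.card_toMultiset]; rfl
  rw [h1, h2] at hc
  rw [h2] at hA hB
  generalize (m.sum fun _ k => k) = d at *
  have h3 : ∀ k, Sz L (C ((α ⬝ᵥ α) ^ k) : MvPolynomial σ ℤ) (3 * k) := fun k => by
    induction k with
    | zero => simpa using Sz.one 0
    | succ k ih => rw [pow_succ, map_mul]; exact ih.mul (Norm_dot hσ hα)
  refine ⟨C ((α ⬝ᵥ α) ^ (e - d)) * A, C ((α ⬝ᵥ α) ^ (e - d)) * B, fun h => ⟨((h3 _).mul hA).mono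
    (by omega), ((h3 _).mul hB).mono (by omega), by rw [der_C_mul, dA, mul_zero],
    by rw [der_C_mul, dB, mul_zero], ?_⟩⟩
  obtain ⟨k, rfl⟩ := Nat.exists_eq_add_of_le h
  rw [add_tsub_cancel_left, pow_add, map_mul]
  convert hc.mul_left (C ((α ⬝ᵥ α) ^ k)) using 1
  ring

theorem Norm_sum {L e : ℕ} {F : MvPolynomial σ ℤ} (hF : Sz L F e)
    (A : (σ →₀ ℕ) → MvPolynomial σ ℤ) (hA : ∀ m ∈ F.support, Sz L (A m) (10 * e)) :
    Sz L (∑ m ∈ F.support, C (F.coeff m) * A m) (20 * e) := by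
  refine ⟨totalDegree_finsetSum_le fun m hm => (totalDegree_mul _ _).trans ?_,
    (nrm_sum_le _ _).trans ?_⟩
  · have := (hA m hm).1
    rw [totalDegree_C]
    omega
  · calc _ ≤ ∑ m ∈ F.support, (F.coeff m).natAbs * 2 ^ (10 * e * L) :=
          Finset.sum_le_sum fun m hm => (Size_mul _ _).trans
            (Nat.mul_le_mul (nrm_monomial 0 _).le (hA m hm).2)
      _ = nrm F * 2 ^ (10 * e * L) := by rw [nrm, Finset.sum_mul]
      _ ≤ 2 ^ (e * L) * 2 ^ (10 * e * L) := Nat.mul_le_mul_right _ hF.2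
      _ ≤ _ := by
          rw [← pow_add]
          exact Nat.pow_le_pow_right two_pos (by nlinarith [Nat.zero_le (e * L)])

/- a = α α (size 3).  π j = C a * X j - C (α j) * lf α is killed by der (cf α) and
C a * X j = π j + C (α j) * lf α.  For a list l of variables, by induction:
C (a ^ length) * (l.map X).prod ≡ A + lf α * B with sizes 10 * length, where
A' = A * π j + C (α j) * th α n * B, B' = C (α j) * A + π j * B (lf α ^ 2 ≡ th α n).  Multiply by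
C (a ^ (e - length)); sum over the monomials of F with `nrm_sum_le`, `Size_mul` (the number of
monomials is not bounded by 2 ^ L, so add the norms directly); `Coprime_mon` or `exists_tuple`
write a monomial as a product. -/
theorem norm_decomp {L e n : ℕ} (hL : 1 ≤ L) (hσ : Fintype.card σ ≤ 2 ^ L) (hn : n ≤ 2 ^ (2 * L))
    {α : σ → ℤ} (hα : ∀ j, |α j| ≤ 2 ^ L) {F : MvPolynomial σ ℤ} (hF : Sz L F e) :
    ∃ A B : MvPolynomial σ ℤ, Sz L A (20 * e) ∧ Sz L B (20 * e) ∧ der (cf α) A = 0 ∧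
      der (cf α) B = 0 ∧ sp σ n ∣ C ((α ⬝ᵥ α) ^ e) * F - (A + lf α * B) := by
  choose A B h using Norm_mon (e := e) hL hσ hn hα
  have h' := fun m (hm : m ∈ F.support) => h m ((le_totalDegree hm).trans hF.1)
  refine ⟨_, _, Norm_sum hF A fun m hm => (h' m hm).1, Norm_sum hF B fun m hm => (h' m hm).2.1,
    ?_, ?_, ?_⟩
  · rw [der_sum]
    exact Finset.sum_eq_zero fun m hm => by rw [der_C_mul, (h' m hm).2.2.1, mul_zero]
  · rw [der_sum]
    exact Finset.sum_eq_zero fun m hm => by rw [der_C_mul, (h' m hm).2.2.2.1, mul_zero]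
  · have e1 : C ((α ⬝ᵥ α) ^ e) * F =
        ∑ m ∈ F.support, C (F.coeff m) * (C ((α ⬝ᵥ α) ^ e) * monomial m 1) := by
      conv_lhs => rw [F.as_sum, Finset.mul_sum]
      refine Finset.sum_congr rfl fun m _ => ?_
      rw [mul_left_comm, C_mul_monomial (a := F.coeff m), mul_one]
    rw [e1, Finset.mul_sum, ← Finset.sum_add_distrib, ← Finset.sum_sub_distrib]
    refine Finset.dvd_sum fun m hm => ?_
    convert (h' m hm).2.2.2.2.mul_left (C (F.coeff m)) using 1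
    ring

end Pool.Agent.P.MP_d565f2_an.LS
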