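import Pool.Agent.P.MP_d565f2_an.SR.Frame
import Pool.Agent.P.MP_d565f2_an.SR.Norm
import Pool.Agent.P.MP_d565f2_an.SR.CJet

set_option autoImplicit false

open MvPolynomial Finset Module

namespace Pool.Agent.P.MP_d565f2_an.LS

variable {σ : Type} [Fintype σ] [DecidableEq σ]

/- `norm_decomp` gives A, B; N = A ^ 2 - th α n * B ^ 2 has size 41 e, vanishes on W (on the
sphere it is (A + lf α B)(A - lf α B)) and der (cf α) N = 0.  If some word of length ≤ 41 e in the
fields cf (c k) is nonzero at a point of W: `descend_word`, `Sz.wd` (field size 1, `Sz.cf`),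
`der_cf_wd` give N' vanishing on W and k, x with der (cf (c k)) N' (x) ≠ 0; for
τ = (α x) c k - (c k x) α one has τ φ = (α x) der (cf (c k)) N' (x) ≠ 0 (φ the gradient of N' at
x, `eval_der`), so `Frame.mem_span` gives i ∈ I with der (v i) N' (x) ≠ 0.  Otherwise `const_jets`
(t = τ / m, `Frame.span`) says N vanishes on x + Π; `exists_orth` (V = v i (x), nonzero by diag)
and `vanish_of_norm`. -/
theorem flat_alt {L e n : ℕ} {W : Finset (σ → ℤ)} {I : Finset σ}
    {v : σ → σ → MvPolynomial σ ℤ} {J F : MvPolynomial σ ℤ} (hS : Stage L W I v J e)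
    (hI : I.card + 3 = Fintype.card σ) (hI0 : I.Nonempty) (hL : 1 ≤ L)
    (hσ : Fintype.card σ ≤ 2 ^ L) (hsph : W ⊆ sph σ n) (hn : n ≤ 2 ^ (2 * L))
    (horth : ∀ x ∈ W, ∀ i ∈ I, (x ⬝ᵥ fun j => eval x (v i j)) = 0) (hF : Sz L F e)
    (hFW : ∀ x ∈ W, eval x F = 0) {u u' : σ → ℤ} {c : σ → σ → ℤ} {m : ℤ} {s s' : σ → ℚ}
    (hfr : Frame u u' c m s s') (hc : ∀ k j, |c k j| ≤ 2 ^ L)
    (hu : ∀ i ∈ I, ∀ x ∈ W, eval x (fl u (v i)) = 0)
    (hu' : ∀ i ∈ I, ∀ x ∈ W, eval x (fl u' (v i)) = 0) {k0 : σ} (hα : ∀ x ∈ W, c k0 ⬝ᵥ x ≠ 0)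
    (hW : W.Nonempty) (he : 10 ≤ e) (heL : 200 * e ≤ 2 ^ L) :
    HasEq L W I v (200 * e) ∨ Whole W u u' (c k0) n (20 * e) F := by
  obtain ⟨A, B, hA, hB, dA, dB, hdiv⟩ := norm_decomp hL hσ hn (hc k0) hF
  have hα0 : c k0 ≠ 0 := fun h => by
    obtain ⟨x, hx⟩ := hW
    exact hα x hx (by rw [h, zero_dotProduct])
  obtain ⟨N, hN⟩ : ∃ N, N = A ^ 2 - th (c k0) n * B ^ 2 := ⟨_, rfl⟩
  have sN : Sz L N (41 * e) := by
    rw [hN, sq, sq]
    exact (((hA.mul hA).mono (Nat.le_add_left _ 8)).sub hL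
      ((Sz.th hL hσ hn (hc k0)).mul (hB.mul hB))).mono (by omega)
  have hNW : ∀ x ∈ W, eval x N = 0 := fun x hx => by
    have h1 : eval x (sp σ n) = 0 := by rw [eval_sp, mem_sph.1 (hsph hx), sub_self]
    obtain ⟨q, hq⟩ := hdiv
    have h2 := congrArg (eval x) hq
    simp only [map_sub, map_mul, map_add, h1, hFW x hx, mul_zero, zero_mul] at h2
    rw [hN, th]
    simp only [map_sub, map_mul, map_pow, h1, mul_zero, sub_zero]
    linear_combination -(eval x A - eval x (lf (c k0)) * eval x B) * h2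
  have dN : der (cf (c k0)) N = 0 := by
    rw [hN, der_sub, sq, sq, der_mul, der_mul, der_mul, dA, dB, der_th]
    simp
  have h1 : ∀ x ∈ W, ∀ i ∈ I, (u ⬝ᵥ fun j => eval x (v i j)) = 0 := fun x hx i hi =>
    (eval_fl _ _ _).symm.trans (hu i hi x hx)
  have h2 : ∀ x ∈ W, ∀ i ∈ I, (u' ⬝ᵥ fun j => eval x (v i j)) = 0 := fun x hx i hi =>
    (eval_fl _ _ _).symm.trans (hu' i hi x hx)
  by_cases hw : ∃ l : List σ, l.length ≤ 41 * e ∧
    ∃ x ∈ W, eval x (wd (fun k => cf (c k)) l N) ≠ 0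
  · left
    obtain ⟨l, hl, hx⟩ := hw
    obtain ⟨l', hl', h0, k, x, hx, hne⟩ := descend_word _ hNW hx
    refine ⟨_, (Sz.wd (fun k j => Sz.cf (hc k) j) sN hσ (hl'.trans hl) (by omega)).mono
      (by omega), h0, ?_⟩
    by_contra hcon
    push Not at hcon
    have hd := congrArg (eval x) (der_cf_wd (c k0) c dN l')
    have ecf : ∀ a : σ → ℤ, (fun j => eval x (cf a j)) = a := fun a => funext fun j => by
      simp [cf]
    rw [eval_der, ecf] at hd hne
    rw [map_zero] at hd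
    have h3 := hfr.mem_span (hfr.o1 k0) (hfr.o2 k0) (hα x hx) hI
      (V := fun i j => eval x (v i j)) (hS.ne x hx)
      (fun i hi j hj => by
        show eval x (v i j) = _
        rw [hS.diag i hi j hj]
        split_ifs <;> simp)
      (h1 x hx) (h2 x hx) (horth x hx) (τ := (c k0 ⬝ᵥ x) • c k - (c k ⬝ᵥ x) • c k0)
      (by rw [dotProduct_sub, dotProduct_smul, dotProduct_smul, hfr.o1, hfr.o1]; simp)
      (by rw [dotProduct_sub, dotProduct_smul, dotProduct_smul, hfr.o2, hfr.o2]; simp)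
      (by
        rw [dotProduct_sub, dotProduct_smul, dotProduct_smul, dotProduct_comm x,
          dotProduct_comm x, smul_eq_mul, smul_eq_mul]
        ring)
      (φ := fun j => eval x (pderiv j (wd (fun k => cf (c k)) l' N)))
      (fun i hi => (eval_der _ _ _).symm.trans (hcon i hi x hx))
    rw [sub_dotProduct, smul_dotProduct, smul_dotProduct, hd, smul_zero, sub_zero,
      smul_eq_mul] at h3
    exact mul_ne_zero (hα x hx) hne h3
  · right
    push Not at hw
    refine ⟨A, B, _, pow_ne_zero e (by simpa using hα0), hA.1, hB.1, dA, dB, hdiv,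
      fun x hx τ t1 t2 => ?_⟩
    obtain ⟨i, hi⟩ := hI0
    obtain ⟨β, b0, b1, b2, b3⟩ := exists_orth (hfr.o1 k0) (hfr.o2 k0) (hα x hx)
      (V := fun j => eval x (v i j)) (fun h => hS.ne x hx (by
        have := congrFun h i
        rwa [hS.diag i hi i hi, if_pos rfl] at this)) (h1 x hx i hi) (h2 x hx i hi)
      (horth x hx i hi)
    refine vanish_of_norm (n := n) hα0 b0 b1 fun r => ?_
    have hm : (m : ℚ) ≠ 0 := by exact_mod_cast hfr.ne
    have cd : ∀ a : σ → ℤ, a ⬝ᵥ β = 0 → cst a ⬝ᵥ cst β = 0 := fun a h => by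
      have : ((a ⬝ᵥ β : ℤ) : ℚ) = 0 := by rw [h, Int.cast_zero]
      simpa [dotProduct, cst] using this
    have h3 := hfr.span (τ + r • cst β)
      (by rw [dotProduct_add, dotProduct_smul, t1, cd u b2]; simp)
      (by rw [dotProduct_add, dotProduct_smul, t2, cd u' b3]; simp)
    rw [← hN, ← const_jets c sN.1 (fun l hl => hw l hl x hx) fun k => (τ + r • cst β) k / m]
    congr 2
    funext j
    have h4 : ∑ k, (τ + r • cst β) k / m * (c k j : ℚ) = (τ + r • cst β) j := by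
      simp only [div_mul_eq_mul_div, ← Finset.sum_div, ← h3 j]
      field_simp
    rw [h4]
    simp [cst, add_assoc]

end Pool.Agent.P.MP_d565f2_an.LS
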