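import Pool.Agent.P.MP_d565f2_an.SR.BDefs

set_option autoImplicit false

open MvPolynomial Finset Module

namespace Pool.Agent.P.MP_d565f2_an.LS

variable {σ : Type} [Fintype σ] [DecidableEq σ]

omit [DecidableEq σ] in
theorem Frame_cst_dot (u v : σ → ℤ) : cst u ⬝ᵥ cst v = ((u ⬝ᵥ v : ℤ) : ℚ) := by
  simp [cst, dotProduct]

theorem Frame_dot3 {R : Type} [CommRing R] (w : σ → R) (k a b : σ) (m p q : R) :
    (w ⬝ᵥ fun j => (if j = k then m else 0) - (if j = a then p else 0) -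
      (if j = b then q else 0)) = w k * m - w a * p - w b * q := by
  simp [dotProduct, mul_sub, Finset.sum_sub_distrib]

theorem Frame_dot2 {R : Type} [CommRing R] (w : σ → R) (a b : σ) (p q : R) :
    (w ⬝ᵥ fun j => (if j = a then p else 0) - (if j = b then q else 0)) = w a * p - w b * q := by
  simp [dotProduct, mul_sub, Finset.sum_sub_distrib]

theorem Frame_bd {H : ℕ} {p q r t : ℤ} (hp : |p| ≤ H) (hq : |q| ≤ H) (hr : |r| ≤ H)
    (ht : |t| ≤ H) : |p * q - r * t| ≤ 2 * (H : ℤ) ^ 2 := by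
  have h1 : |p * q| ≤ (H : ℤ) * H := by
    rw [abs_mul]; exact mul_le_mul hp hq (abs_nonneg _) (Int.natCast_nonneg _)
  have h2 : |r * t| ≤ (H : ℤ) * H := by
    rw [abs_mul]; exact mul_le_mul hr ht (abs_nonneg _) (Int.natCast_nonneg _)
  have h3 := abs_sub (p * q) (r * t)
  nlinarith

theorem Frame_ite_bd {P : Prop} [Decidable P] {p B : ℤ} (hp : |p| ≤ B) :
    |if P then p else 0| ≤ B := by
  split_ifs
  · exact hp
  · simpa using (abs_nonneg p).trans hp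

/- m = u a u' b - u b u' a, c k = m e_k - (u k u' b - u b u' k) e_a - (u a u' k - u k u' a) e_b,
s = (u' b e_a - u' a e_b) / m, s' = (u a e_b - u b e_a) / m  (a ≠ b). -/
theorem exists_frame {u u' : σ → ℤ} {H : ℕ} (hu : ∀ j, |u j| ≤ H) (hu' : ∀ j, |u' j| ≤ H)
    {a b : σ} (hab : u a * u' b - u b * u' a ≠ 0) :
    ∃ (c : σ → σ → ℤ) (m : ℤ) (s s' : σ → ℚ), Frame u u' c m s s' ∧
      ∀ k j, |c k j| ≤ 6 * (H : ℤ) ^ 2 := by
  have hm' : (u a : ℚ) * u' b - u b * u' a ≠ 0 := by exact_mod_cast hab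
  refine ⟨fun k j => (if j = k then u a * u' b - u b * u' a else 0) -
      (if j = a then u k * u' b - u b * u' k else 0) -
      (if j = b then u a * u' k - u k * u' a else 0), u a * u' b - u b * u' a,
    fun j => (if j = a then (u' b : ℚ) / (u a * u' b - u b * u' a) else 0) -
      (if j = b then (u' a : ℚ) / (u a * u' b - u b * u' a) else 0),
    fun j => (if j = b then (u a : ℚ) / (u a * u' b - u b * u' a) else 0) -
      (if j = a then (u b : ℚ) / (u a * u' b - u b * u' a) else 0),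
    ⟨hab, fun k => ?_, fun k => ?_, fun τ h1 h2 j => ?_, ?_, ?_, ?_, ?_⟩, fun k j => ?_⟩
  · rw [Frame_dot3]; ring
  · rw [Frame_dot3]; ring
  · have e1 : ∑ k, τ k * (u k : ℚ) = 0 := by
      rw [← h1]; simp [dotProduct, cst, mul_comm]
    have e2 : ∑ k, τ k * (u' k : ℚ) = 0 := by
      rw [← h2]; simp [dotProduct, cst, mul_comm]
    have f1 : ∑ k, τ k * ((u k : ℚ) * u' b - u b * u' k) = 0 := by
      have : ∑ k, τ k * ((u k : ℚ) * u' b - u b * u' k) =
          (∑ k, τ k * (u k : ℚ)) * u' b - u b * ∑ k, τ k * (u' k : ℚ) := by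
        rw [Finset.sum_mul, Finset.mul_sum, ← Finset.sum_sub_distrib]
        exact Finset.sum_congr rfl fun k _ => by ring
      rw [this, e1, e2]; ring
    have f2 : ∑ k, τ k * ((u a : ℚ) * u' k - u k * u' a) = 0 := by
      have : ∑ k, τ k * ((u a : ℚ) * u' k - u k * u' a) =
          u a * (∑ k, τ k * (u' k : ℚ)) - (∑ k, τ k * (u k : ℚ)) * u' a := by
        rw [Finset.sum_mul, Finset.mul_sum, ← Finset.sum_sub_distrib]
        exact Finset.sum_congr rfl fun k _ => by ring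
      rw [this, e1, e2]; ring
    have g1 : ∑ k, τ k * (((if j = a then u k * u' b - u b * u' k else 0 : ℤ)) : ℚ) = 0 := by
      split_ifs
      · simpa using f1
      · simp
    have g2 : ∑ k, τ k * (((if j = b then u a * u' k - u k * u' a else 0 : ℤ)) : ℚ) = 0 := by
      split_ifs
      · simpa using f2
      · simp
    have g0 : ∑ k, τ k * (((if j = k then u a * u' b - u b * u' a else 0 : ℤ)) : ℚ) =
        ((u a * u' b - u b * u' a : ℤ) : ℚ) * τ j := by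
      rw [Finset.sum_eq_single j]
      · simp [mul_comm]
      · intro k _ hk
        simp [Ne.symm hk]
      · simp
    simp only [Int.cast_sub (R := ℚ) (_ - _) (if j = b then _ else _),
      Int.cast_sub (R := ℚ) (if _ = _ then _ else _) (if j = a then _ else _), mul_sub,
      Finset.sum_sub_distrib]
    rw [g0, g1, g2]; ring
  · rw [Frame_dot2]; simp only [cst]; field_simp
  · rw [Frame_dot2]; simp only [cst]; field_simp; ring
  · rw [Frame_dot2]; simp only [cst]; field_simp; ring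
  · rw [Frame_dot2]; simp only [cst]
    rw [← mul_div_assoc, ← mul_div_assoc, ← sub_div, div_eq_one_iff_eq hm']; ring
  · have b1 := Frame_ite_bd (P := j = k) (Frame_bd (hu a) (hu' b) (hu b) (hu' a))
    have b2 := Frame_ite_bd (P := j = a) (Frame_bd (hu k) (hu' b) (hu b) (hu' k))
    have b3 := Frame_ite_bd (P := j = b) (Frame_bd (hu a) (hu' k) (hu k) (hu' a))
    have c1 := abs_le.1 b1
    have c2 := abs_le.1 b2
    have c3 := abs_le.1 b3
    rw [abs_le]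
    constructor <;> linarith [c1.1, c1.2, c2.1, c2.2, c3.1, c3.2]

/- The map τ ↦ (u τ, u' τ, x τ) from ℚ ^ σ to ℚ ^ 3 is onto (s, s', α), so its kernel has
dimension |I|; the V i are |I| independent vectors in it (hd), so they span it. -/
theorem Frame.mem_span {u u' : σ → ℤ} {c : σ → σ → ℤ} {m : ℤ} {s s' : σ → ℚ}
    (hF : Frame u u' c m s s') {x α : σ → ℤ} (hα : u ⬝ᵥ α = 0) (hα' : u' ⬝ᵥ α = 0)
    (hx : α ⬝ᵥ x ≠ 0) {I : Finset σ} (hI : I.card + 3 = Fintype.card σ) {V : σ → σ → ℤ} {J : ℤ}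
    (hJ : J ≠ 0) (hd : ∀ i ∈ I, ∀ j ∈ I, V i j = if i = j then J else 0)
    (h1 : ∀ i ∈ I, u ⬝ᵥ V i = 0) (h2 : ∀ i ∈ I, u' ⬝ᵥ V i = 0) (h3 : ∀ i ∈ I, x ⬝ᵥ V i = 0)
    {τ : σ → ℤ} (t1 : u ⬝ᵥ τ = 0) (t2 : u' ⬝ᵥ τ = 0) (t3 : x ⬝ᵥ τ = 0) {φ : σ → ℤ}
    (hφ : ∀ i ∈ I, V i ⬝ᵥ φ = 0) : τ ⬝ᵥ φ = 0 := by
  let Φ : (σ → ℚ) →ₗ[ℚ] (ℚ × ℚ × ℚ) × (I → ℚ) :=
    { toFun := fun y => ((cst u ⬝ᵥ y, cst u' ⬝ᵥ y, cst x ⬝ᵥ y), fun i => y i.1)
      map_add' := fun y z => by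
        refine Prod.ext ?_ rfl
        simp [dotProduct_add]
      map_smul' := fun r y => by
        refine Prod.ext ?_ rfl
        simp [dotProduct_smul] }
  have hJ' : (J : ℚ) ≠ 0 := by exact_mod_cast hJ
  have hx' : cst x ⬝ᵥ cst α ≠ 0 := by
    rw [Frame_cst_dot, dotProduct_comm]; exact_mod_cast hx
  have hV : ∀ (w : σ → ℤ), (∀ i ∈ I, w ⬝ᵥ V i = 0) → ∀ t : σ → ℚ,
      cst w ⬝ᵥ (∑ i ∈ I, t i • cst (V i)) = 0 := fun w hw t => by
    rw [dotProduct_sum]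
    refine Finset.sum_eq_zero fun i hi => ?_
    rw [dotProduct_smul, Frame_cst_dot, hw i hi]; simp
  have hVI : ∀ t : σ → ℚ, ∀ j ∈ I, (∑ i ∈ I, t i • cst (V i)) j = t j * J := fun t j hj => by
    rw [Finset.sum_apply, Finset.sum_eq_single j]
    · simp [cst, hd j hj j hj]
    · intro i hi hij
      simp [cst, hd i hi j hj, hij]
    · intro h; exact absurd hj h
  have hsurj : Function.Surjective Φ := by
    rintro ⟨⟨p, q, r⟩, t⟩
    let y0 : σ → ℚ := p • s + q • s' +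
      ((r - cst x ⬝ᵥ (p • s + q • s')) / (cst x ⬝ᵥ cst α)) • cst α
    let t' : σ → ℚ := fun i => if h : i ∈ I then (t ⟨i, h⟩ - y0 i) / J else 0
    refine ⟨y0 + ∑ i ∈ I, t' i • cst (V i), Prod.ext (Prod.ext ?_ (Prod.ext ?_ ?_)) ?_⟩
    · show cst u ⬝ᵥ (y0 + ∑ i ∈ I, t' i • cst (V i)) = p
      rw [dotProduct_add, hV u h1]
      simp [y0, dotProduct_add, dotProduct_smul, hF.s1, hF.s3, Frame_cst_dot, hα]
    · show cst u' ⬝ᵥ (y0 + ∑ i ∈ I, t' i • cst (V i)) = q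
      rw [dotProduct_add, hV u' h2]
      simp [y0, dotProduct_add, dotProduct_smul, hF.s2, hF.s4, Frame_cst_dot, hα']
    · show cst x ⬝ᵥ (y0 + ∑ i ∈ I, t' i • cst (V i)) = r
      rw [dotProduct_add, hV x h3, add_zero]
      simp only [y0]
      rw [dotProduct_add, dotProduct_smul, smul_eq_mul, div_mul_cancel₀ _ hx']
      ring
    · funext i
      show (y0 + ∑ i ∈ I, t' i • cst (V i)) i.1 = t i
      rw [Pi.add_apply, hVI t' i.1 i.2]
      simp only [t', dif_pos i.2]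
      rw [div_mul_cancel₀ _ hJ']
      ring
  have hinj : Function.Injective Φ := by
    refine (LinearMap.injective_iff_surjective_of_finrank_eq_finrank ?_).2 hsurj
    simp [Module.finrank_prod]
    omega
  have key : (J : ℚ) • cst τ = ∑ i ∈ I, cst τ i • cst (V i) := by
    refine hinj (Prod.ext (Prod.ext ?_ (Prod.ext ?_ ?_)) ?_)
    · show cst u ⬝ᵥ ((J : ℚ) • cst τ) = cst u ⬝ᵥ (∑ i ∈ I, cst τ i • cst (V i))
      rw [hV u h1, dotProduct_smul, Frame_cst_dot, t1]; simp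
    · show cst u' ⬝ᵥ ((J : ℚ) • cst τ) = cst u' ⬝ᵥ (∑ i ∈ I, cst τ i • cst (V i))
      rw [hV u' h2, dotProduct_smul, Frame_cst_dot, t2]; simp
    · show cst x ⬝ᵥ ((J : ℚ) • cst τ) = cst x ⬝ᵥ (∑ i ∈ I, cst τ i • cst (V i))
      rw [hV x h3, dotProduct_smul, Frame_cst_dot, t3]; simp
    · funext i
      show ((J : ℚ) • cst τ) i.1 = (∑ i ∈ I, cst τ i • cst (V i)) i.1
      rw [hVI _ i.1 i.2]
      simp [mul_comm]
  have fin : cst φ ⬝ᵥ ((J : ℚ) • cst τ) = 0 := by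
    rw [key]
    exact hV φ (fun i hi => by rw [dotProduct_comm]; exact hφ i hi) _
  rw [dotProduct_smul, Frame_cst_dot, smul_eq_mul, mul_eq_zero] at fin
  rcases fin with h | h
  · exact absurd h hJ'
  · rw [dotProduct_comm]; exact_mod_cast h

/- m V V = ∑ k, V k * (c k V) by `span`. -/
theorem Frame.exists_dot {u u' : σ → ℤ} {c : σ → σ → ℤ} {m : ℤ} {s s' : σ → ℚ}
    (hF : Frame u u' c m s s') {V : σ → ℤ} (h0 : V ≠ 0) (h1 : u ⬝ᵥ V = 0) (h2 : u' ⬝ᵥ V = 0) :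
    ∃ k, c k ⬝ᵥ V ≠ 0 := by
  by_contra hcon
  push Not at hcon
  have hs := hF.span (cst V) (by rw [Frame_cst_dot, h1]; simp) (by rw [Frame_cst_dot, h2]; simp)
  have e : (m : ℚ) * (cst V ⬝ᵥ cst V) = ∑ k, cst V k * (cst (c k) ⬝ᵥ cst V) := by
    simp only [dotProduct, Finset.mul_sum]
    rw [Finset.sum_comm]
    refine Finset.sum_congr rfl fun j _ => ?_
    rw [← mul_assoc, hs j, Finset.sum_mul]
    exact Finset.sum_congr rfl fun k _ => by simp [cst, mul_assoc]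
  simp only [Frame_cst_dot, hcon, Int.cast_zero, mul_zero, Finset.sum_const_zero] at e
  have e' : m * (V ⬝ᵥ V) = 0 := by exact_mod_cast e
  rcases mul_eq_zero.1 e' with h | h
  · exact hF.ne h
  · exact h0 (dotProduct_self_eq_zero.1 h)

/- β = (α α) V - (α V) α. -/
theorem exists_orth {u u' x α V : σ → ℤ} (hα : u ⬝ᵥ α = 0) (hα' : u' ⬝ᵥ α = 0) (hx : α ⬝ᵥ x ≠ 0)
    (h0 : V ≠ 0) (h1 : u ⬝ᵥ V = 0) (h2 : u' ⬝ᵥ V = 0) (h3 : x ⬝ᵥ V = 0) :
    ∃ β : σ → ℤ, β ≠ 0 ∧ α ⬝ᵥ β = 0 ∧ u ⬝ᵥ β = 0 ∧ u' ⬝ᵥ β = 0 := by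
  refine ⟨(α ⬝ᵥ α) • V - (α ⬝ᵥ V) • α, fun h => ?_, ?_, ?_, ?_⟩
  · have e : x ⬝ᵥ ((α ⬝ᵥ α) • V - (α ⬝ᵥ V) • α) = 0 := by rw [h]; simp
    rw [dotProduct_sub, dotProduct_smul, dotProduct_smul, h3, dotProduct_comm x α] at e
    have e1 : α ⬝ᵥ V = 0 := by
      have : (α ⬝ᵥ V) * (α ⬝ᵥ x) = 0 := by simpa using e
      exact (mul_eq_zero.1 this).resolve_right hx
    rw [e1, zero_smul, sub_zero, smul_eq_zero] at h
    rcases h with h | h
    · rw [dotProduct_self_eq_zero.1 h] at hx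
      exact hx (by simp)
    · exact h0 h
  · rw [dotProduct_sub, dotProduct_smul, dotProduct_smul]; simp [mul_comm]
  · rw [dotProduct_sub, dotProduct_smul, dotProduct_smul, h1, hα]; simp
  · rw [dotProduct_sub, dotProduct_smul, dotProduct_smul, h2, hα']; simp

end Pool.Agent.P.MP_d565f2_an.LS
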