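import Pool.Agent.P.MP_d565f2_an.SR.BDefs

set_option autoImplicit false

open MvPolynomial Finset Module

namespace Pool.Agent.P.MP_d565f2_an.LS

variable {σ : Type} [Fintype σ] [DecidableEq σ]

theorem Tang.init (W : Finset (σ → ℤ)) :
    Tang W univ (fun i j => if i = j then 1 else 0) 1 ∅ := by
  intro x _ τ _ j
  simp [apply_ite]

/- J τ = ∑ τ i v i and dF τ = 0 give ∑ i ∈ I, τ i * der (v i) F (x) = 0 (`eval_der`). -/
theorem Tang.step {W : Finset (σ → ℤ)} {I : Finset σ} {v : σ → σ → MvPolynomial σ ℤ}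
    {J : MvPolynomial σ ℤ} {S : Set (MvPolynomial σ ℤ)} (h : Tang W I v J S)
    (F : MvPolynomial σ ℤ) {i0 : σ} (hi0 : i0 ∈ I) :
    Tang W (I.erase i0) (fun i j => der (v i0) F * v i j - der (v i) F * v i0 j)
      (der (v i0) F * J) (insert F S) := by
  intro x hx τ hτ j
  have h1 := h x hx τ fun G hG => hτ G (Set.mem_insert_of_mem _ hG)
  have h2 := hτ F (Set.mem_insert _ _)
  have h3 : ∑ i ∈ I, τ i * ((eval x (der (v i) F) : ℤ) : ℚ) = 0 := by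
    have : ∑ i ∈ I, τ i * ((eval x (der (v i) F) : ℤ) : ℚ) = (eval x J : ℤ) * dd F x τ := by
      simp only [eval_der, dotProduct, dd, Finset.mul_sum, ← mul_assoc, h1, Finset.sum_mul,
        Int.cast_sum, Int.cast_mul]
      exact Finset.sum_comm
    rw [this, h2, mul_zero]
  rw [Finset.sum_erase _ (by simp)]
  simp only [map_mul, map_sub, Int.cast_mul, Int.cast_sub]
  rw [mul_assoc, h1 j, Finset.mul_sum, ← sub_zero (∑ i ∈ I, _),
    ← zero_mul ((eval x (v i0 j) : ℤ) : ℚ), ← h3, Finset.sum_mul, ← Finset.sum_sub_distrib]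
  exact Finset.sum_congr rfl fun i _ => by ring


theorem Kill_C {L : ℕ} {c : ℤ} (hc : |c| ≤ 2 ^ L) : Sz L (C c : MvPolynomial σ ℤ) 1 := by
  refine Sz.monomial 0 c (by simp) ?_
  rw [one_mul]
  have : (c.natAbs : ℤ) ≤ ((2 ^ L : ℕ) : ℤ) := by rw [Int.natCast_natAbs]; exact_mod_cast hc
  exact_mod_cast this

theorem Sz.fl {L e : ℕ} (hσ : Fintype.card σ ≤ 2 ^ L) {u : σ → ℤ} (hu : ∀ j, |u j| ≤ 2 ^ L)
    {v : σ → MvPolynomial σ ℤ} (hv : ∀ j, Sz L (v j) e) : Sz L (fl u v) (e + 2) := by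
  exact (Sz.sum _ _ hσ fun j _ => (Kill_C (hu j)).mul (hv j)).mono (by omega)

theorem Sz.lf {L : ℕ} (hσ : Fintype.card σ ≤ 2 ^ L) {u : σ → ℤ} (hu : ∀ j, |u j| ≤ 2 ^ L) :
    Sz L (lf u) 3 := by
  exact Sz.sum _ _ hσ fun j _ => (Kill_C (hu j)).mul (Sz.X j)

theorem Sz.cf {L : ℕ} {u : σ → ℤ} (hu : ∀ j, |u j| ≤ 2 ^ L) (j : σ) : Sz L (cf u j) 1 := by
  exact Kill_C (hu j)

/- Induction on U as in `Rel.kill` (Orth.lean), with `Rel.filter`. -/
theorem kill_all (U : Finset (σ → ℤ)) (I : Finset σ) {v : σ → σ → MvPolynomial σ ℤ} {e : ℕ}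
    (hv : ∀ i j, (v i j).totalDegree ≤ e) :
    ∀ {W : Finset (σ → ℤ)} {k : ℕ}, W.Nonempty → Rel W (k + U.card * e) →
      ∃ W' ⊆ W, W'.Nonempty ∧ Rel W' k ∧ ∀ u ∈ U,
        (∃ i ∈ I, ∀ x ∈ W', eval x (fl u (v i)) ≠ 0) ∨
          ∀ i ∈ I, ∀ x ∈ W', eval x (fl u (v i)) = 0 := by
  classical
  induction U using Finset.induction_on with
  | empty =>
    intro W k hW h
    exact ⟨W, subset_rfl, hW, by simpa using h, by simp⟩
  | insert u U hu ih =>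
    intro W k hW h
    rw [card_insert_of_notMem hu, add_mul, one_mul, ← add_assoc] at h
    by_cases hall : ∀ i ∈ I, ∀ x ∈ W, eval x (fl u (v i)) = 0
    · obtain ⟨W', h1, h2, h3, h4⟩ := ih hW (h.mono (Nat.le_add_right _ _))
      refine ⟨W', h1, h2, h3, fun u' hu' => ?_⟩
      rcases mem_insert.1 hu' with rfl | hu'
      · exact Or.inr fun i hi x hx => hall i hi x (h1 hx)
      · exact h4 u' hu'
    · push Not at hall
      obtain ⟨i, hi, x, hx, hx'⟩ := hall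
      have hd : (fl u (v i)).totalDegree ≤ e := totalDegree_finsetSum_le fun j _ =>
        (totalDegree_mul _ _).trans (by rw [totalDegree_C, zero_add]; exact hv i j)
      obtain ⟨W', h1, h2, h3, h4⟩ := ih ⟨x, mem_filter.2 ⟨hx, hx'⟩⟩ (h.filter _ hd)
      refine ⟨W', h1.trans (filter_subset _ _), h2, h3, fun u' hu' => ?_⟩
      rcases mem_insert.1 hu' with rfl | hu'
      · exact Or.inl ⟨i, hi, fun y hy => (mem_filter.1 (h1 hy)).2⟩
      · exact h4 u' hu'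

/- Raise to the power b. -/
theorem pow_ratio {lam g a b a' b' : ℕ} (hlam : 1 ≤ lam) (hb : 1 ≤ b) (h : lam ^ a ≤ g ^ b)
    (hab : a' * b ≤ a * b') : lam ^ a' ≤ g ^ b' := by
  refine (Nat.pow_le_pow_iff_left (n := b) (by omega)).1 ?_
  calc (lam ^ a') ^ b ≤ (lam ^ a) ^ b' := by
        rw [← pow_mul, ← pow_mul]; exact Nat.pow_le_pow_right hlam hab
    _ ≤ (g ^ b) ^ b' := Nat.pow_le_pow_left h _
    _ = (g ^ b') ^ b := by rw [← pow_mul, ← pow_mul, mul_comm]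

/- As `size_lt` in LS/Desc.lean. -/
theorem size_lt2 {K lam g p a b : ℕ} (hK : 1 ≤ K) (hb : 1 ≤ b) (hg : lam ^ a ≤ g ^ (a + b))
    (hp : 2 * K * g < p) : K * (2 * lam / p) ^ a < p ^ b := by
  have h1 : (2 * lam / p) ^ a * p ^ a ≤ 2 ^ a * lam ^ a := by
    rw [← mul_pow, ← mul_pow]
    exact Nat.pow_le_pow_left (Nat.div_mul_le_self _ _) _
  have h2 : (2 * K * g) ^ (a + b) < p ^ (a + b) := Nat.pow_lt_pow_left hp (by omega)
  have h3 : K * 2 ^ a ≤ (2 * K) ^ (a + b) := by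
    rw [mul_pow, mul_comm]
    exact Nat.mul_le_mul (Nat.pow_le_pow_right two_pos (by omega)) (Nat.le_self_pow (by omega) _)
  refine Nat.lt_of_mul_lt_mul_right (a := p ^ a) ?_
  calc K * (2 * lam / p) ^ a * p ^ a ≤ K * 2 ^ a * lam ^ a := by
        rw [mul_assoc, mul_assoc]; exact Nat.mul_le_mul_left _ h1
    _ ≤ (2 * K) ^ (a + b) * g ^ (a + b) := Nat.mul_le_mul h3 hg
    _ < p ^ b * p ^ a := by rw [← mul_pow, ← pow_add, add_comm b a]; exact h2

theorem size_le3 {lam G T p r : ℕ} (hg : lam ^ r ≤ (G * T) ^ (r + 1)) (hp : G < p) :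
    (2 * lam / p) ^ r ≤ 2 ^ r * T ^ (r + 1) * p := by
  have h1 : (2 * lam / p) ^ r * p ^ r ≤ 2 ^ r * lam ^ r := by
    rw [← mul_pow, ← mul_pow]
    exact Nat.pow_le_pow_left (Nat.div_mul_le_self _ _) _
  have h2 : (G * T) ^ (r + 1) ≤ (p * T) ^ (r + 1) :=
    Nat.pow_le_pow_left (Nat.mul_le_mul_right _ hp.le) _
  refine Nat.le_of_mul_le_mul_right (c := p ^ r) ?_ (Nat.pow_pos (by omega))
  calc (2 * lam / p) ^ r * p ^ r ≤ 2 ^ r * (p * T) ^ (r + 1) :=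
        h1.trans (Nat.mul_le_mul_left _ (hg.trans h2))
    _ = _ := by ring

theorem two_mul_le_pow {c C₀ lam g B a r : ℕ} (hB : 1 ≤ B) (hr : 1 ≤ r)
    (h : c ^ B ≤ C₀ * lam ^ a) (hg : lam ^ a ≤ g ^ (B * r)) :
    2 * c ≤ (2 * (C₀ + 1) * g) ^ r := by
  have h1 : c ≤ (C₀ + 1) * g ^ r := by
    refine (Nat.pow_le_pow_iff_left (n := B) (by omega)).1 (h.trans ?_)
    rw [mul_pow, ← pow_mul, mul_comm r B]
    exact Nat.mul_le_mul ((Nat.le_succ _).trans (Nat.le_self_pow (by omega) _)) hg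
  rw [mul_pow]
  calc 2 * c ≤ 2 * (C₀ + 1) * g ^ r := by rw [mul_assoc]; exact Nat.mul_le_mul_left _ h1
    _ ≤ _ := Nat.mul_le_mul_right _ (Nat.le_self_pow (by omega) _)

end Pool.Agent.P.MP_d565f2_an.LS
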