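import Pool.Agent.P.MP_d565f2_an.SR.LiftRel

set_option autoImplicit false

open MvPolynomial Finset Module

namespace Pool.Agent.P.MP_d565f2_an.LS

variable {σ : Type} [Fintype σ] [DecidableEq σ]

theorem Sz.rename_some {L e : ℕ} {g : MvPolynomial σ ℤ} (h : Sz L g e) :
    Sz L (rename some g : MvPolynomial (Option σ) ℤ) e := by
  refine ⟨(totalDegree_rename_le _ _).trans h.1, le_trans ?_ h.2⟩
  conv_lhs => rw [g.as_sum, map_sum]
  refine (nrm_sum_le _ _).trans (le_of_eq ?_)
  rw [nrm]
  exact Finset.sum_congr rfl fun m _ => by rw [rename_monomial, nrm_monomial]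

/-- The lifted fields. -/
noncomputable def Lift_v (v : σ → σ → MvPolynomial σ ℤ) :
    Option σ → Option σ → MvPolynomial (Option σ) ℤ
  | none, _ => 0
  | some i, none => -(C 2 * ∑ j, X (some j) * rename some (v i j))
  | some i, some j => C 2 * X none * rename some (v i j)

omit [Fintype σ] [DecidableEq σ] in
theorem Lift_eval (x : Option σ → ℤ) (g : MvPolynomial σ ℤ) :
    eval x (rename some g) = eval (fun j => x (some j)) g := by
  rw [eval_rename]
  rfl

omit [DecidableEq σ] in
theorem Lift_ev_some (v : σ → σ → MvPolynomial σ ℤ) (x : Option σ → ℤ) (i j : σ) :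
    eval x (Lift_v v (some i) (some j)) = 2 * x none * eval (fun j => x (some j)) (v i j) := by
  simp only [Lift_v, map_mul, eval_C, eval_X, Lift_eval]

omit [DecidableEq σ] in
theorem Lift_ev_none (v : σ → σ → MvPolynomial σ ℤ) (x : Option σ → ℤ) (i : σ) :
    eval x (Lift_v v (some i) none) =
      -(2 * ∑ j, x (some j) * eval (fun j => x (some j)) (v i j)) := by
  simp only [Lift_v, map_neg, map_mul, map_sum, eval_C, eval_X, Lift_eval]

theorem Lift_two {L : ℕ} (hL : 1 ≤ L) : Sz L (C 2 : MvPolynomial (Option σ) ℤ) 1 :=
  Sz.monomial 0 2 (by simp) (by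
    rw [one_mul]
    exact Nat.pow_le_pow_right two_pos hL)

omit [Fintype σ] in
theorem Lift_pd (F : MvPolynomial σ ℤ) :
    pderiv none (rename some F : MvPolynomial (Option σ) ℤ) = 0 := by
  induction F using MvPolynomial.induction_on with
  | C a => simp
  | add p q hp hq => simp [hp, hq]
  | mul_X p j hp => simp [hp, pderiv_X]

theorem Lift_dd (F : MvPolynomial σ ℤ) (x : Option σ → ℤ) (τ : Option σ → ℚ) :
    dd (rename some F) x τ = dd F (fun j => x (some j)) (fun j => τ (some j)) := by
  unfold dd
  rw [Fintype.sum_option, Lift_pd]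
  simp only [map_zero, Int.cast_zero, mul_zero, zero_add]
  refine Finset.sum_congr rfl fun j _ => ?_
  rw [pderiv_rename (Option.some_injective σ), Lift_eval]

/- W' = up n W, I' = I.map some, with r = rename some: J' = 2 X none * r J,
v' (some i) (some j) = 2 X none * r (v i j), v' (some i) none = -2 ∑ j, X (some j) * r (v i j),
v' none = 0, F' = r F.  tan at none: 2 x z = -p z z on the sphere.  Tang at none: x τ = 0 by
`dd_sp`; `pderiv_rename`, `eval_rename`. -/
theorem lift {L e n : ℕ} {W : Finset (σ → ℤ)} {I : Finset σ} {v : σ → σ → MvPolynomial σ ℤ}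
    {J F₁ F₂ : MvPolynomial σ ℤ} (hS : Stage L W I v J e) (hL : 1 ≤ L)
    (hσ : Fintype.card σ ≤ 2 ^ L) (hn : OnSph n W) (hT : Tang W I v J {F₁, F₂}) :
    ∃ (I' : Finset (Option σ)) (v' : Option σ → Option σ → MvPolynomial (Option σ) ℤ)
      (J' : MvPolynomial (Option σ) ℤ), I'.card = I.card ∧ Stage L (up n W) I' v' J' (e + 3) ∧
      (∀ x ∈ up n W, ∀ i ∈ I', (x ⬝ᵥ fun j => eval x (v' i j)) = 0) ∧
      Tang (up n W) I' v' J' {sp (Option σ) n, rename some F₁, rename some F₂} := by
  have hJ : ∀ x : Option σ → ℤ, eval x (C 2 * X none * rename some J) =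
      2 * x none * eval (fun j => x (some j)) J := fun x => by
    simp only [map_mul, eval_C, eval_X, Lift_eval]
  refine ⟨I.map Function.Embedding.some, Lift_v v, C 2 * X none * rename some J, card_map _,
    ⟨?_, ?_, ?_, ?_, ?_⟩, ?_, ?_⟩
  · intro i hi j hj
    obtain ⟨i, hi', rfl⟩ := mem_map.1 hi
    obtain ⟨j, hj', rfl⟩ := mem_map.1 hj
    simp only [Function.Embedding.some_apply, Lift_v, hS.diag i hi' j hj', Option.some.injEq]
    split_ifs <;> simp
  · rintro (_ | i) (_ | j)
    · exact Sz.zero _
    · exact Sz.zero _
    · exact Size_szneg (((Lift_two hL).mul (Sz.sum _ _ hσ fun j _ =>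
        (Sz.X (some j)).mul (hS.szv i j).rename_some)).mono (by omega))
    · exact (((Lift_two hL).mul (Sz.X none)).mul (hS.szv i j).rename_some).mono (by omega)
  · exact (((Lift_two hL).mul (Sz.X none)).mul hS.szJ.rename_some).mono (by omega)
  · intro x hx
    rw [hJ]
    exact mul_ne_zero (mul_ne_zero two_ne_zero (up_ne hn hx)) (hS.ne _ (mem_up.1 hx).1)
  · intro x hx y hy p z hp hz j
    obtain ⟨hx1, hx2⟩ := mem_up.1 hx
    obtain ⟨hy1, hy2⟩ := mem_up.1 hy
    have ht := hS.tan _ hx1 _ hy1 p (fun j => z (some j)) hp (fun j => hz (some j))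
    rw [hJ, Finset.sum_map]
    simp only [Function.Embedding.some_apply]
    cases j with
    | some j =>
      simp only [Lift_ev_some]
      have e1 : 2 * x none * eval (fun j => x (some j)) J * z (some j) -
          ∑ i ∈ I, z (some i) * (2 * x none * eval (fun j => x (some j)) (v i j)) =
          2 * x none * (eval (fun j => x (some j)) J * z (some j) -
          ∑ i ∈ I, z (some i) * eval (fun j => x (some j)) (v i j)) := by
        rw [mul_sub, Finset.mul_sum]
        congr 1
        · ring
        · exact Finset.sum_congr rfl fun i _ => by ring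
      rw [e1]
      exact (ht j).mul_left _
    | none =>
      simp only [Lift_ev_none]
      have e0 : 2 * (x none * z none + ∑ j, x (some j) * z (some j)) =
          p * -(z none ^ 2 + ∑ j, z (some j) * z (some j)) := by
        apply mul_left_cancel₀ hp
        have e2 : ∑ j, y (some j) * y (some j) = ∑ j, x (some j) * x (some j) +
            p * (2 * ∑ j, x (some j) * z (some j)) + p * (p * ∑ j, z (some j) * z (some j)) := by
          simp only [Finset.mul_sum, ← Finset.sum_add_distrib]
          exact Finset.sum_congr rfl fun j _ => by rw [hz]; ring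
        simp only [dotProduct] at hx2 hy2
        rw [e2, hz none] at hy2
        linear_combination hy2 - hx2
      have e1 : 2 * x none * eval (fun j => x (some j)) J * z none -
          ∑ i ∈ I, z (some i) * -(2 * ∑ j, x (some j) * eval (fun j => x (some j)) (v i j)) =
          eval (fun j => x (some j)) J * (2 * (x none * z none + ∑ j, x (some j) * z (some j))) -
          ∑ j, 2 * x (some j) * (eval (fun j => x (some j)) J * z (some j) -
            ∑ i ∈ I, z (some i) * eval (fun j => x (some j)) (v i j)) := by
        simp only [mul_sub, mul_add, mul_neg, Finset.sum_sub_distrib, Finset.mul_sum,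
          Finset.sum_neg_distrib]
        rw [Finset.sum_comm (s := I)]
        have e3 : ∑ j, eval (fun j => x (some j)) J * (2 * (x (some j) * z (some j))) =
            ∑ j, 2 * x (some j) * (eval (fun j => x (some j)) J * z (some j)) :=
          Finset.sum_congr rfl fun j _ => by ring
        have e4 : ∑ j, ∑ i ∈ I, z (some i) * (2 * (x (some j) *
              eval (fun j => x (some j)) (v i j))) =
            ∑ j, ∑ i ∈ I, 2 * x (some j) * (z (some i) * eval (fun j => x (some j)) (v i j)) :=
          Finset.sum_congr rfl fun j _ => Finset.sum_congr rfl fun i _ => by ring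
        rw [e3, e4]
        ring
      rw [e1, e0]
      exact dvd_sub ((dvd_mul_right _ _).mul_left _)
        (Finset.dvd_sum fun j _ => (ht j).mul_left _)
  · intro x _ i hi
    obtain ⟨i, -, rfl⟩ := mem_map.1 hi
    simp only [Function.Embedding.some_apply, dotProduct, Fintype.sum_option, Lift_ev_some,
      Lift_ev_none, mul_neg, Finset.mul_sum]
    rw [neg_add_eq_zero]
    exact Finset.sum_congr rfl fun j _ => by ring
  · intro x hx τ hτ j
    have h0 := hτ _ (Set.mem_insert _ _)
    have ht := hT _ (mem_up.1 hx).1 (fun j => τ (some j)) (by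
      rintro F (rfl | rfl)
      · rw [← Lift_dd]
        exact hτ _ (by simp)
      · rw [← Lift_dd]
        exact hτ _ (by simp))
    rw [hJ, Finset.sum_map]
    simp only [Function.Embedding.some_apply]
    cases j with
    | some j =>
      simp only [Lift_ev_some]
      push_cast
      rw [mul_assoc, ht j, Finset.mul_sum]
      exact Finset.sum_congr rfl fun i _ => by ring
    | none =>
      simp only [Lift_ev_none]
      rw [dd_sp] at h0
      simp only [dotProduct, Fintype.sum_option, cst] at h0
      have e1 : ∑ i ∈ I, τ (some i) *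
          ((-(2 * ∑ j, x (some j) * eval (fun j => x (some j)) (v i j)) : ℤ) : ℚ) =
          -(2 * ∑ j, (x (some j) : ℚ) * ∑ i ∈ I, τ (some i) *
            ((eval (fun j => x (some j)) (v i j) : ℤ) : ℚ)) := by
        push_cast
        simp only [mul_neg, Finset.sum_neg_distrib, Finset.mul_sum]
        rw [Finset.sum_comm]
        congr 1
        exact Finset.sum_congr rfl fun j _ => Finset.sum_congr rfl fun i _ => by ring
      have e2 : ∑ j, (x (some j) : ℚ) * ∑ i ∈ I, τ (some i) *
            ((eval (fun j => x (some j)) (v i j) : ℤ) : ℚ) =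
          ((eval (fun j => x (some j)) J : ℤ) : ℚ) * ∑ j, (x (some j) : ℚ) * τ (some j) := by
        rw [Finset.mul_sum]
        exact Finset.sum_congr rfl fun j _ => by rw [← ht j]; ring
      rw [e1, e2]
      push_cast
      linear_combination ((eval (fun j => x (some j)) J : ℤ) : ℚ) * h0

end Pool.Agent.P.MP_d565f2_an.LS
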