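import Pool.Agent.P.MP_d565f2_an.SR.BDefs

set_option autoImplicit false

open MvPolynomial Finset Module

namespace Pool.Agent.P.MP_d565f2_an.LS

variable {σ : Type} [Fintype σ] [DecidableEq σ]

/-- The points of the sphere above `W`. -/
noncomputable def up (n : ℕ) (W : Finset (σ → ℤ)) : Finset (Option σ → ℤ) :=
  (sph (Option σ) n).filter fun x => (fun j => x (some j)) ∈ W

theorem mem_up {n : ℕ} {W : Finset (σ → ℤ)} {x : Option σ → ℤ} :
    x ∈ up n W ↔ (fun j => x (some j)) ∈ W ∧
      (fun j => x (some j)) ⬝ᵥ (fun j => x (some j)) + x none ^ 2 = n := by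
  rw [up, mem_filter, mem_sph, and_comm]
  refine and_congr_right fun _ => ?_
  have h : x ⬝ᵥ x = (fun j => x (some j)) ⬝ᵥ (fun j => x (some j)) + x none ^ 2 := by
    simp only [dotProduct, Fintype.sum_option]
    ring
  rw [h]

theorem up_ne {n : ℕ} {W : Finset (σ → ℤ)} (hn : OnSph n W) {x : Option σ → ℤ} (hx : x ∈ up n W) :
    x none ≠ 0 := by
  obtain ⟨h1, h2⟩ := mem_up.1 hx
  obtain ⟨ω, h3, h4⟩ := hn _ h1
  intro h0
  rw [h0] at h2
  exact h3 (pow_eq_zero_iff two_ne_zero |>.1 (by linarith))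

theorem up_nonempty {n : ℕ} {W : Finset (σ → ℤ)} (hn : OnSph n W) (hW : W.Nonempty) :
    (up n W).Nonempty := by
  obtain ⟨y, hy⟩ := hW
  obtain ⟨ω, _, h4⟩ := hn y hy
  exact ⟨fun o => o.elim ω y, mem_up.2 ⟨hy, h4⟩⟩

theorem card_up (n : ℕ) (W : Finset (σ → ℤ)) : (up n W).card ≤ 2 * W.card := by
  have h := Finset.card_le_card_of_injOn (s := up n W) (t := W ×ˢ (univ : Finset Bool))
    (fun x => (fun j => x (some j), decide (0 ≤ x none)))
    (fun x hx => mem_coe.2 (mem_product.2 ⟨(mem_up.1 (mem_coe.1 hx)).1, mem_univ _⟩))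
    (fun x hx x' hx' he => by
      have h1 : (fun j => x (some j)) = fun j => x' (some j) := congrArg Prod.fst he
      have h2 : decide (0 ≤ x none) = decide (0 ≤ x' none) := congrArg Prod.snd he
      have h3 := (mem_up.1 (mem_coe.1 hx)).2
      have h4 := (mem_up.1 (mem_coe.1 hx')).2
      rw [h1] at h3
      have h5 : x none ^ 2 = x' none ^ 2 := by linarith
      rw [decide_eq_decide] at h2
      funext o
      cases o with
      | none =>
        rcases sq_eq_sq_iff_eq_or_eq_neg.1 h5 with h6 | h6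
        · exact h6
        · omega
      | some j => exact congrFun h1 j)
  rw [card_product, card_univ, Fintype.card_bool] at h
  omega

omit [DecidableEq σ] in
theorem LiftRel_deg_sp (n : ℕ) : (-sp σ n).totalDegree ≤ 2 := by
  rw [totalDegree_neg, sp]
  refine (totalDegree_sub _ _).trans (max_le ?_ (by rw [totalDegree_C]; omega))
  refine (totalDegree_finsetSum _ _).trans (Finset.sup_le fun j _ => ?_)
  rw [totalDegree_X_pow]

omit [DecidableEq σ] in
theorem LiftRel_mono (n : ℕ) (m : Option σ →₀ ℕ) (c : ℤ) :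
    ∃ g : MvPolynomial σ ℤ, g.totalDegree ≤ (m.sum fun _ e => e) ∧ ∀ (y : σ → ℤ) (ω : ℤ),
      y ⬝ᵥ y + ω ^ 2 = n → eval (fun o : Option σ => o.elim ω y) (monomial m c)
        + eval (fun o : Option σ => o.elim (-ω) y) (monomial m c) = eval y g := by
  have hev : ∀ (y : σ → ℤ) (ω : ℤ), eval (fun o : Option σ => o.elim ω y) (monomial m c)
      = c * (ω ^ m none * ∏ j, y j ^ m (some j)) := by
    intro y ω
    rw [eval_monomial, Finsupp.prod_fintype _ _ (fun _ => pow_zero _), Fintype.prod_option]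
    rfl
  rcases Nat.even_or_odd' (m none) with ⟨a, ha | ha⟩
  · refine ⟨C (2 * c) * ((-sp σ n) ^ a * ∏ j, X j ^ m (some j)), ?_, fun y ω h => ?_⟩
    · rw [Finsupp.sum_fintype _ _ (fun _ => rfl), Fintype.sum_option, ha]
      refine (totalDegree_mul _ _).trans ?_
      rw [totalDegree_C, zero_add]
      refine (totalDegree_mul _ _).trans (add_le_add ?_ ?_)
      · refine (totalDegree_pow _ _).trans ?_
        rw [mul_comm]
        exact Nat.mul_le_mul_right _ (LiftRel_deg_sp n)
      · refine (totalDegree_finsetProd _ _).trans (Finset.sum_le_sum fun j _ => ?_)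
        rw [totalDegree_X_pow]
    · have h1 : eval y (-sp σ n) = ω ^ 2 := by
        rw [map_neg, eval_sp]
        linarith
      rw [hev, hev, map_mul, eval_C, map_mul, map_pow, h1, map_prod, ha, pow_mul, pow_mul, neg_sq]
      simp only [map_pow, eval_X]
      ring
  · refine ⟨0, by simp, fun y ω _ => ?_⟩
    rw [hev, hev, ha, pow_succ, pow_succ, pow_mul, pow_mul, neg_sq, map_zero]
    ring

omit [DecidableEq σ] in
theorem LiftRel_poly (n k : ℕ) (f : MvPolynomial (Option σ) ℤ) (hf : f.totalDegree ≤ k) :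
    ∃ g : MvPolynomial σ ℤ, g.totalDegree ≤ k ∧ ∀ (y : σ → ℤ) (ω : ℤ),
      y ⬝ᵥ y + ω ^ 2 = n → eval (fun o : Option σ => o.elim ω y) f
        + eval (fun o : Option σ => o.elim (-ω) y) f = eval y g := by
  choose g hg he using fun m => LiftRel_mono (σ := σ) n m (f.coeff m)
  refine ⟨∑ m ∈ f.support, g m, ?_, fun y ω h => ?_⟩
  · exact (totalDegree_finsetSum _ _).trans
      (Finset.sup_le fun m hm => (hg m).trans ((le_totalDegree hm).trans hf))
  · rw [map_sum, ← Finset.sum_congr rfl fun m _ => he m y ω h, Finset.sum_add_distrib,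
      ← map_sum, ← map_sum, ← f.as_sum]

/- Weights w(x ∘ some).  The fibre over y is {(y, ω), (y, -ω)}, ω ≠ 0.  For f of degree ≤ k there
is g in the variables σ of degree ≤ k with f(y, ω) + f(y, -ω) = g(y) whenever y y + ω ^ 2 = n
(monomials: odd powers of ω cancel, ω ^ (2 j) = (n - y y) ^ j). -/
theorem rel_up {n k : ℕ} {W : Finset (σ → ℤ)} (hn : OnSph n W) (h : Rel W k) :
    Rel (up n W) k := by
  obtain ⟨c, hc, hr⟩ := h
  refine ⟨fun x => c fun j => x (some j), fun x hx => hc _ (mem_up.1 hx).1, fun f hf => ?_⟩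
  obtain ⟨g, hg, he⟩ := LiftRel_poly n k f hf
  rw [← Finset.sum_fiberwise_of_maps_to (t := W) (g := fun x j => x (some j))
    (fun x hx => (mem_up.1 hx).1), ← hr g hg]
  refine Finset.sum_congr rfl fun y hy => ?_
  obtain ⟨ω, h0, h1⟩ := hn y hy
  have hfib : (up n W).filter (fun x => (fun j => x (some j)) = y)
      = {fun o : Option σ => o.elim ω y, fun o : Option σ => o.elim (-ω) y} := by
    ext x
    rw [mem_filter, mem_insert, mem_singleton, mem_up]
    constructor
    · rintro ⟨⟨_, h2⟩, h3⟩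
      rw [h3] at h2
      have h5 : x none ^ 2 = ω ^ 2 := by linarith
      refine (sq_eq_sq_iff_eq_or_eq_neg.1 h5).imp (fun h6 => ?_) fun h6 => ?_
      all_goals
        funext o
        cases o with
        | none => exact h6
        | some j => exact congrFun h3 j
    · rintro (rfl | rfl)
      · exact ⟨⟨hy, h1⟩, rfl⟩
      · refine ⟨⟨hy, ?_⟩, rfl⟩
        change y ⬝ᵥ y + (-ω) ^ 2 = n
        rw [neg_sq, h1]
  have hne : (fun o : Option σ => o.elim ω y) ≠ fun o : Option σ => o.elim (-ω) y := by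
    intro h2
    have h3 : ω = -ω := congrFun h2 none
    omega
  rw [hfib, Finset.sum_pair hne, ← he y ω h1, Int.cast_add, mul_add]
  rfl

end Pool.Agent.P.MP_d565f2_an.LS
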