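import Pool.Agent.P.MP_d565f2_an.SR.Crit
import Pool.Agent.P.MP_d565f2_an.SR.Count2
import Pool.Agent.P.MP_d565f2_an.SR.Count3
import Pool.Agent.P.MP_d565f2_an.SR.Lift
import Pool.Agent.P.MP_d565f2_an.SR.Desc2
import Pool.Agent.P.MP_d565f2_an.SR.Special2

set_option autoImplicit false

open MvPolynomial Finset Module

namespace Pool.Agent.P.MP_d565f2_an.LS

variable {σ : Type} [Fintype σ] [DecidableEq σ]

/-- The stages on the sphere. -/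
theorem upstairs {L e n lam H ρ ν g e₁ Λ : ℕ} {W : Finset (σ → ℤ)} {I : Finset σ}
    {v : σ → σ → MvPolynomial σ ℤ} {J F₁ F₂ : MvPolynomial σ ℤ} (hρ : Fintype.card σ = ρ)
    (hS : Stage L W I v J e) (hI : I.card + 2 = ρ) (hρ4 : 4 ≤ ρ) (hW : W.Nonempty) (hL : 1 ≤ L)
    (hn : OnSph n W) (hlam : n + 1 ≤ lam ^ 2) (hlamL : lam ≤ 2 ^ L) (hWL : 2 * W.card ≤ 2 ^ L)
    (hF₁ : Sz L F₁ e) (hF₂ : Sz L F₂ e) (h₁ : ∀ x ∈ W, eval x F₁ = 0)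
    (h₂ : ∀ x ∈ W, eval x F₂ = 0) (hT : Tang W I v J {F₁, F₂}) (hH1 : 1 ≤ H)
    (hH : 6 * H ^ 2 ≤ lam) (hν : 8 * (ρ + 1 + 1) ^ 2 * (21 * (ρ + 1) ^ 2 * L ^ 2) ^ (ρ + 1) ≤ ν)
    (hs1 : ∀ p : ℕ, e₁ < p → ρ.factorial * (2 * lam / p) ^ ρ < p ^ 2)
    (hs2 : ∀ p : ℕ, e₁ < p → (ρ - 1).factorial * (2 * lam / p) ^ (ρ - 1) ≤ H * p)
    (hs3 : ∀ p : ℕ, e₁ < p → (ρ - 2).factorial * (2 * lam / p) ^ (ρ - 2) < p)
    (hC : ∀ u u' : Option σ → ℤ, (∀ j, |u j| ≤ lam) → (∀ j, |u' j| ≤ lam) →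
      (∃ a b, u a * u' b - u b * u' a ≠ 0) → ∀ t t' : ℤ,
      2 * ((sph (Option σ) n).filter fun x => u ⬝ᵥ x = t ∧ u' ⬝ᵥ x = t').card ≤ g ^ (ρ - 2))
    (he : 10 ^ 10 ≤ e) (heg : (ρ + 1) * g ≤ e) (he₁ : 200 * (2 * H + 1) ^ (ρ + 1) * (2 * e) ≤ e₁)
    (hΛ : 230 * (ρ + 1) ^ 2 * ν * L ^ 2 ≤ Λ) : ¬ Rel W ((2 * Λ) ^ ρ * e₁) := by
  intro hrel
  have hd : Fintype.card (Option σ) = ρ + 1 := by rw [Fintype.card_option, hρ]
  have hν1 : 1 ≤ ν := le_trans (Nat.one_le_iff_ne_zero.2 (by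
    have : L ≠ 0 := by omega
    positivity)) hν
  have hL2 : 1 ≤ L ^ 2 := Nat.one_le_pow _ _ hL
  have hee : 400 * e ≤ e₁ := by
    have : 1 ≤ (2 * H + 1) ^ (ρ + 1) := Nat.one_le_pow _ _ (by omega)
    nlinarith
  obtain ⟨q, hq⟩ : ∃ q, q = (ρ + 1) ^ 2 * ν * L ^ 2 := ⟨_, rfl⟩
  have hq1 : ρ + 1 ≤ q := by
    rw [hq]
    calc ρ + 1 ≤ (ρ + 1) ^ 2 * 1 * 1 := by nlinarith
      _ ≤ _ := by gcongr
  have hΛ' : 230 * q ≤ Λ := by rw [hq]; linarith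
  have hqe : 230 * (q * e₁) ≤ Λ * e₁ := by nlinarith
  have hqe' : e₁ ≤ q * e₁ := Nat.le_mul_of_pos_left _ (by omega)
  have hqe'' : q ≤ q * e₁ := Nat.le_mul_of_pos_right _ (by omega)
  have hE : 224 * (ρ + 1) ^ 2 * ν * L ^ 2 * e₁ = 224 * (q * e₁) := by rw [hq]; ring
  obtain ⟨k, hk⟩ : ∃ k, k = (2 * Λ) ^ (ρ - 3 + 1) * (Λ * e₁) := ⟨_, rfl⟩
  have hk1 : Λ * e₁ ≤ k := hk ▸ Nat.le_mul_of_pos_left _ (Nat.pow_pos (by omega))
  have hk2 : 4 * k ≤ (2 * Λ) ^ ρ * e₁ :=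
    calc 4 * k = (2 * Λ) ^ (ρ - 3 + 1) * (2 * 2 * Λ * e₁) := by rw [hk]; ring
      _ ≤ (2 * Λ) ^ (ρ - 3 + 1) * (2 * Λ * (2 * Λ) * e₁) := by gcongr <;> omega
      _ = (2 * Λ) ^ (ρ - 3 + 1 + 2) * e₁ := by ring
      _ = _ := by rw [show ρ - 3 + 1 + 2 = ρ by omega]
  have hlt := (lt_card_of_rel hW hrel).le
  obtain ⟨I', v', J', hI', hS', horth, hT'⟩ := lift hS hL (by omega) hn hT
  have hsph : up n W ⊆ sph (Option σ) n := filter_subset _ _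
  have hcard := (card_up n W).trans hWL
  have hev : ∀ {F : MvPolynomial σ ℤ}, (∀ x ∈ W, eval x F = 0) →
      ∀ x ∈ up n W, eval x (rename some F) = 0 := fun h x hx => by
    rw [eval_rename]
    exact h _ (mem_up.1 hx).1
  obtain ⟨W₁, h11, h12, h13, h14⟩ := critical (e := 2 * e) (k := k + Λ * e₁) (g := g) (e₁ := e₁) hd
    (hS'.mono (by omega)) (by omega) (by omega) (up_nonempty hn hW) hL hsph hlam hlamL hcard horth
    (hF₁.rename_some.mono (by omega)) (hF₂.rename_some.mono (by omega)) (hev h₁) (hev h₂) hT' hH1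
    hH hν hs1 hs2 hC (by omega) (by omega) he₁ (by omega) ((rel_up hn hrel).mono (by omega))
  rw [hE] at h14
  obtain ⟨W₂, h21, h22, h23, i, hi, v'', J'', hS''⟩ :=
    ((hS'.subset h11).mono (e' := e₁) (by omega)).next hL (by omega) h14 (by omega) (k := k)
      (h13.mono (by omega))
  have h24 := h21.trans h11
  refine desc2 hL hlam hlamL hd (by omega) hν hs3 hΛ (ρ - 3) W₂ _ v'' J'' (Λ * e₁) ?_ (by omega)
    (hS''.mono (by omega)) h22 (fun y hy => ⟨1, one_ne_zero, ?_⟩) ((card_le_card h24).trans hcard)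
    (by omega) (by omega) (hk ▸ h23)
  · rw [card_erase_of_mem hi]
    omega
  · rw [mem_sph.1 (hsph (h24 hy))]
    simp

theorem Main2_ineq (r : ℕ) :
    (r + 5 + 1) * (2 * (r + 5) * (r + 4)) ≤ (2 * (r + 5) * (r + 3) + 1) * (r + 5 + 1 + 2) ∧
    (r + 5) * (2 * (r + 5) * (r + 4)) ≤ (2 * (r + 5) * (r + 3) + 1) * (r + 5 + 2) ∧
    (r + 3) * (2 * (r + 5) * (r + 4)) ≤ (2 * (r + 5) * (r + 3) + 1) * (r + 3 + 1) ∧
    (2 * (r + 5) * (r + 2) + 1) * (2 * (r + 5) * (r + 4)) ≤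
      (2 * (r + 5) * (r + 3) + 1) * (2 * (r + 5) * (r + 3)) :=
  ⟨by nlinarith [Nat.zero_le (r ^ 2), Nat.zero_le (r ^ 3)],
    by nlinarith [Nat.zero_le (r ^ 2), Nat.zero_le (r ^ 3)],
    by nlinarith [Nat.zero_le (r ^ 2), Nat.zero_le (r ^ 3)],
    by nlinarith [Nat.zero_le (r ^ 2), Nat.zero_le (r ^ 3), Nat.zero_le (r ^ 4)]⟩

theorem main2 {ρ : ℕ} (hρ : 5 ≤ ρ) : MainSt2 ρ := by
  classical
  have hσ : Fintype.card (Fin ρ) = ρ := Fintype.card_fin ρ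
  obtain ⟨C₀, hC₀⟩ := count_quadric2 (σ := Fin ρ) (by omega) (B := 2 * ρ) (by omega)
  obtain ⟨C₁, hC₁⟩ := count_codim2 (σ := Option (Fin ρ)) (by simp; omega) (B := 2 * ρ) (by omega)
  rw [hσ] at hC₀
  rw [Fintype.card_option, hσ] at hC₁
  obtain ⟨K₀, hK₀⟩ : ∃ K₀, K₀ = 10 ^ 10 + 2 * (ρ + 1).factorial + 16 * ρ * (C₀ + 1) +
    2 * (ρ + 1) * (C₁ + 1) := ⟨_, rfl⟩
  obtain ⟨c₁, hc₁⟩ : ∃ c₁, c₁ = 230 * (ρ + 1) ^ 2 * (8 * (ρ + 2) ^ 2 * (21 * (ρ + 1) ^ 2) ^ (ρ + 1)) :=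
    ⟨_, rfl⟩
  obtain ⟨h, hh⟩ : ∃ h, h = (ρ + 1).factorial * 2 ^ ρ := ⟨_, rfl⟩
  obtain ⟨c₂, hc₂⟩ : ∃ c₂, c₂ = 400 * (3 * h) ^ (ρ + 1) * (6 * (ρ + 1) ^ 4 * K₀) := ⟨_, rfl⟩
  have hh1 : 1 ≤ h := by rw [hh]; exact Nat.mul_pos (Nat.factorial_pos _) (by positivity)
  refine ⟨(2 * c₁) ^ (ρ + 2) * c₂ + 6 * h ^ 2, (2 * ρ + 4) * (ρ + 2), ρ * (ρ + 1),
    fun n lam L g G T W hW hn hlam hL hlamL hWL hWg hg hG hT hTl hrel => ?_⟩
  obtain ⟨ν, hν⟩ : ∃ ν, ν = 8 * (ρ + 1 + 1) ^ 2 * (21 * (ρ + 1) ^ 2 * L ^ 2) ^ (ρ + 1) := ⟨_, rfl⟩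
  obtain ⟨Λ, hΛ⟩ : ∃ Λ, Λ = 230 * (ρ + 1) ^ 2 * ν * L ^ 2 := ⟨_, rfl⟩
  obtain ⟨e, he⟩ : ∃ e, e = K₀ * g := ⟨_, rfl⟩
  obtain ⟨e₁, he₁⟩ : ∃ e₁, e₁ = 6 * (ρ + 1) ^ 4 * e := ⟨_, rfl⟩
  obtain ⟨H, hH⟩ : ∃ H, H = h * T ^ ρ := ⟨_, rfl⟩
  obtain ⟨e₂, he₂⟩ : ∃ e₂, e₂ = 200 * (2 * H + 1) ^ (ρ + 1) * (2 * (Λ * e₁)) + G := ⟨_, rfl⟩
  have hlam1 : 1 ≤ lam := Nat.pos_of_ne_zero fun h0 => by simp [h0] at hlam
  have hH1 : 1 ≤ H := by rw [hH]; exact Nat.mul_pos hh1 (by positivity)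
  have hg1 : 1 ≤ g := Nat.pos_of_ne_zero fun h => by
    have := hW.card_pos
    rw [h, zero_pow (by omega)] at hWg
    omega
  have hL2 : 1 ≤ L ^ 2 := Nat.one_le_pow _ _ hL
  have hν0 : 8 * (ρ + 1) ^ 2 * (21 * ρ ^ 2 * L ^ 2) ^ ρ ≤ ν := by
    rw [hν]
    refine Nat.mul_le_mul (by gcongr; omega) ?_
    calc (21 * ρ ^ 2 * L ^ 2) ^ ρ ≤ (21 * (ρ + 1) ^ 2 * L ^ 2) ^ ρ := by gcongr; omega
      _ ≤ _ := Nat.pow_le_pow_right (by positivity) (by omega)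
  have hν1 : 1 ≤ ν := Nat.one_le_iff_ne_zero.2 (by
    have : L ≠ 0 := by omega
    rw [hν]
    positivity)
  have he1 : 10 ^ 10 ≤ e := by
    rw [he]
    exact le_trans (by omega) (Nat.le_mul_of_pos_right _ hg1)
  have he2 : 2 * (ρ + 1).factorial * g ≤ e := by
    rw [he]
    exact Nat.mul_le_mul_right _ (by omega)
  have he3 : 2 * (4 * ρ * (2 * (C₀ + 1) * g)) ≤ e :=
    calc _ = 16 * ρ * (C₀ + 1) * g := by ring
      _ ≤ K₀ * g := Nat.mul_le_mul_right _ (by omega)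
      _ = e := he.symm
  have he4 : 4 * (ρ * (2 * g)) ≤ 4 * ρ * (2 * (C₀ + 1) * g) :=
    calc _ = 4 * ρ * (2 * 1 * g) := by ring
      _ ≤ _ := by gcongr; omega
  have he6 : (ρ + 1) * (2 * (C₁ + 1) * g) ≤ e :=
    calc _ = 2 * (ρ + 1) * (C₁ + 1) * g := by ring
      _ ≤ K₀ * g := Nat.mul_le_mul_right _ (by omega)
      _ = e := he.symm
  have he5 : 6 * e ≤ e₁ := by
    rw [he₁]
    exact Nat.mul_le_mul_right _ (Nat.le_mul_of_pos_right _ (by positivity))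
  obtain ⟨q, hq⟩ : ∃ q, q = ρ ^ 2 * ν * L ^ 2 := ⟨_, rfl⟩
  have hq1 : ρ ≤ q := by
    rw [hq]
    calc ρ ≤ ρ ^ 2 * 1 * 1 := by nlinarith
      _ ≤ _ := by gcongr
  have hΛq : 230 * q ≤ Λ := by
    rw [hΛ, hq]
    calc 230 * (ρ ^ 2 * ν * L ^ 2) = 230 * ρ ^ 2 * ν * L ^ 2 := by ring
      _ ≤ _ := by gcongr; omega
  have hΛe : 230 * (q * e₁) ≤ Λ * e₁ := by
    rw [← mul_assoc]
    exact Nat.mul_le_mul_right _ hΛq
  have hE : 224 * ρ ^ 2 * ν * L ^ 2 * e₁ = 224 * (q * e₁) := by rw [hq]; ring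
  have hqe : e₁ ≤ q * e₁ := Nat.le_mul_of_pos_left _ (by omega)
  have hqe' : q ≤ q * e₁ := Nat.le_mul_of_pos_right _ (by omega)
  have he₂1 : 400 * (Λ * e₁) ≤ e₂ := by
    have : 1 ≤ (2 * H + 1) ^ (ρ + 1) := Nat.one_le_pow _ _ (by omega)
    calc 400 * (Λ * e₁) = 200 * 1 * (2 * (Λ * e₁)) := by ring
      _ ≤ 200 * (2 * H + 1) ^ (ρ + 1) * (2 * (Λ * e₁)) := by gcongr
      _ ≤ e₂ := by omega
  obtain ⟨k, hk⟩ : ∃ k, k = (2 * Λ) ^ ρ * e₂ := ⟨_, rfl⟩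
  have hk1 : e₂ ≤ k := hk ▸ Nat.le_mul_of_pos_left _ (Nat.pow_pos (by omega))
  have hk2 : 2 * k ≤ ((2 * c₁) ^ (ρ + 2) * c₂ + 6 * h ^ 2) * L ^ ((2 * ρ + 4) * (ρ + 2)) *
      (T ^ (ρ * (ρ + 1)) * g + G) := by
    have h1 : 2 * Λ = 2 * c₁ * L ^ (2 * ρ + 4) := by
      rw [hΛ, hν, hc₁, mul_pow (21 * (ρ + 1) ^ 2), ← pow_mul]
      ring
    have h2 : (2 * H + 1) ^ (ρ + 1) ≤ (3 * h) ^ (ρ + 1) * T ^ (ρ * (ρ + 1)) := by
      rw [pow_mul, ← mul_pow, mul_assoc, ← hH]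
      exact Nat.pow_le_pow_left (by omega) _
    have h3 : 1 ≤ c₂ := by
      have : K₀ ≠ 0 := by omega
      have : h ≠ 0 := by omega
      rw [hc₂]
      exact Nat.one_le_iff_ne_zero.2 (by positivity)
    have h4 : e₂ ≤ 2 * Λ * (c₂ * (T ^ (ρ * (ρ + 1)) * g + G)) := by
      have h5 : G ≤ 2 * Λ * (c₂ * G) :=
        (Nat.le_mul_of_pos_left _ h3).trans (Nat.le_mul_of_pos_left _ (by omega))
      have h6 : 200 * (2 * H + 1) ^ (ρ + 1) * (2 * (Λ * e₁)) ≤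
          2 * Λ * (c₂ * (T ^ (ρ * (ρ + 1)) * g)) :=
        calc _ ≤ 400 * ((3 * h) ^ (ρ + 1) * T ^ (ρ * (ρ + 1))) * (2 * (Λ * e₁)) := by
              gcongr; norm_num
          _ = _ := by rw [hc₂, he₁, he]; ring
      rw [he₂, mul_add c₂, mul_add (2 * Λ)]
      exact Nat.add_le_add h6 h5
    calc 2 * k ≤ 2 * Λ * ((2 * Λ) ^ ρ * (2 * Λ * (c₂ * (T ^ (ρ * (ρ + 1)) * g + G)))) := by
          rw [hk]
          exact Nat.mul_le_mul (by omega) (Nat.mul_le_mul_left _ h4)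
      _ = (2 * Λ) ^ (ρ + 2) * c₂ * (T ^ (ρ * (ρ + 1)) * g + G) := by ring
      _ = (2 * c₁) ^ (ρ + 2) * c₂ * L ^ ((2 * ρ + 4) * (ρ + 2)) *
            (T ^ (ρ * (ρ + 1)) * g + G) := by
          rw [h1, mul_pow (2 * c₁), ← pow_mul]
          ring
      _ ≤ _ := by gcongr; omega
  have hrel' := hrel.mono hk2
  have hlt := (lt_card_of_rel hW hrel').le
  have hlam' : n ≤ lam ^ 2 := by omega
  have hb := hn.abs_le' hlam' hlamL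
  have hσL : Fintype.card (Fin ρ) ≤ 2 ^ L := by omega
  obtain ⟨r, hr⟩ : ∃ r, ρ = r + 5 := ⟨ρ - 5, by omega⟩
  have hsz : ∀ a b p : ℕ, 1 ≤ b → a ≤ ρ + 1 → e < p →
      a * (2 * ρ * (ρ - 1)) ≤ (2 * ρ * (ρ - 2) + 1) * (a + b) →
      a.factorial * (2 * lam / p) ^ a < p ^ b := fun a b p hb1 ha hp hab =>
    size_lt2 (Nat.factorial_pos _) hb1 (pow_ratio hlam1 (Nat.mul_pos (by omega) (by omega)) hg hab)
      (lt_of_le_of_lt (le_trans (by gcongr) he2) hp)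
  have e1 : ρ - 1 = r + 4 := by omega
  have e2 : ρ - 2 = r + 3 := by omega
  obtain ⟨F, hF, hFW, i0, -, x, hx, hx'⟩ := small_eq (Stage.init L W) hW hL hb (g := 2 * g)
    (by
      rw [card_univ, hσ, mul_pow]
      exact Nat.mul_le_mul (Nat.le_self_pow (by omega) _) hWg)
    (by rw [card_univ, hσ]; omega)
  rw [card_univ, hσ] at hF
  have hS := (Stage.init L W).step hL hσL hF (by omega) hFW (mem_univ i0)
  have hT1 := (Tang.init W).step F (mem_univ i0)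
  simp only [der_init] at hS hx' hT1
  have hF' := hF.pderiv (by omega) i0
  have h11 : (W.filter fun x => eval x (pderiv i0 F) ≠ 0) ⊆ W := filter_subset _ _
  obtain ⟨W', h1, h2, h3, F₂, h4, h5, i, hi, x₂, hx₂, hx₂'⟩ := special2 (hS.mono (e' := e) (by omega))
    (fun i g => by rw [der_comb, der_init, der_init]) (hF.mono (by omega)) (hF'.mono (by omega))
    (fun y hy => hFW y (h11 hy)) (fun y hy => (mem_filter.1 hy).2) ⟨x, mem_filter.2 ⟨hx, hx'⟩⟩ hL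
    (hn.subset h11) hlam' hlamL ((card_le_card h11).trans (by omega)) hσ (by omega) hν0
    (fun p hp => hsz _ _ p (by omega) le_rfl hp (by rw [e1, e2, hr]; exact (Main2_ineq r).1))
    (g := 2 * (C₀ + 1) * g)
    (fun W' hW' u w τ a b => two_mul_le_pow (by omega) (by omega)
      (hC₀ n lam hlam1 hlam' W' ((hn.subset h11).subset hW') u w τ a b) hg) he1 (by omega) he₁.ge
    (by omega) (k := k + Λ * e₁)
    (Rel.filter (a := e) (hrel'.mono (by omega)) _ (hF'.1.trans (by omega)))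
  rw [hE] at h4
  have hS1 := (hS.subset h1).mono (e' := e₁) (by omega)
  have hS2 := hS1.step hL hσL h4 (by omega) h5 hi
  have h21 := filter_subset (fun x => eval x (der (fun j => pderiv i0 F * (if i = j then 1 else 0) -
    pderiv i F * (if i0 = j then 1 else 0)) F₂) ≠ 0) W'
  have h22 := h21.trans (h1.trans h11)
  refine upstairs (e := Λ * e₁) (g := 2 * (C₁ + 1) * g) (e₁ := e₂) (H := H) (F₁ := F₂) (F₂ := F) hσ
    (hS2.mono (by omega)) ?_ (by omega) ⟨x₂, mem_filter.2 ⟨hx₂, hx₂'⟩⟩ hL (hn.subset h22) hlam hlamL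
    ((Nat.mul_le_mul_left 2 (card_le_card h22)).trans hWL) (h4.mono (by omega))
    (hF.mono (by omega)) (fun y hy => h5 y (h21 hy)) (fun y hy => hFW y (h22 hy)) ?_ hH1 ?_ hν.ge
    (fun p hp => hsz _ _ p (by omega) (by omega) (by omega)
      (by rw [e1, e2, hr]; exact (Main2_ineq r).2.1))
    (fun p hp => ?_) (fun p hp => ?_) (fun u u' a b c t t' => ?_) (by omega) (by omega) (by omega)
    hΛ.ge (hk ▸ Rel.filter (a := Λ * e₁) h3 _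
      ((Sz.der (hS1.szv i) h4 (by omega) hσL).1.trans (by omega)))
  · rw [card_erase_of_mem hi, card_erase_of_mem (mem_univ _), card_univ, hσ]
    omega
  · have := (hT1.step F₂ hi).subset h22
    rwa [insert_empty_eq] at this
  · refine le_trans ?_ hTl
    rw [hH, mul_pow, ← pow_mul, ← mul_assoc]
    exact Nat.mul_le_mul (by omega) (Nat.pow_le_pow_right hT (Nat.mul_le_mul_left _ (by omega)))
  · have h6 := size_le3 (r := ρ - 1) (p := p) (by rwa [show ρ - 1 + 1 = ρ by omega]) (by omega)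
    rw [show ρ - 1 + 1 = ρ by omega] at h6
    calc _ ≤ (ρ + 1).factorial * (2 ^ ρ * T ^ ρ * p) :=
          Nat.mul_le_mul (Nat.factorial_le (by omega)) (h6.trans (by gcongr <;> omega))
      _ = _ := by rw [hH, hh]; ring
  · simpa using hsz (ρ - 2) 1 p le_rfl (by omega) (by omega)
      (by rw [e1, e2, hr]; exact (Main2_ineq r).2.2.1)
  · refine two_mul_le_pow (B := 2 * ρ) (by omega) (by omega)
      (hC₁ n lam hlam1 hlam' u u' a b c t t')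
      (pow_ratio hlam1 (Nat.mul_pos (by omega) (by omega)) hg ?_)
    rw [e1, e2, show ρ + 1 - 4 = r + 2 by omega, hr]
    exact (Main2_ineq r).2.2.2

end Pool.Agent.P.MP_d565f2_an.LS
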