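import Pool.Agent.P.MP_d565f2_an.SR.Rat

set_option autoImplicit false

open Finset

namespace Pool.Agent.P.MP_d565f2_an.LS

variable {ι : Type} [Fintype ι] [DecidableEq ι]

theorem Major_k (b : ℕ) (hb : 0 < b) : ∃ k : ℕ, 0 < k ∧ b ≤ 4 * k ∧ ∀ q : ℕ, b ∣ 2 * q → k ∣ q := by
  by_cases h : 2 ∣ b
  · obtain ⟨k, rfl⟩ := h
    exact ⟨k, by omega, by omega, fun q hq => Nat.dvd_of_mul_dvd_mul_left two_pos hq⟩
  · exact ⟨b, hb, by omega, fun q hq =>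
      ((Nat.prime_two.coprime_iff_not_dvd.2 h).symm).dvd_of_dvd_mul_left hq⟩

theorem Major_one {e : ℕ} (he : Fintype.card ι = e + 2) (he5 : 5 ≤ e) : ∃ C : ℝ, 0 ≤ C ∧
    ∀ (x f : ι → ℤ) (n : ℕ) (t : ℚ), ∑ i, x i * f i = 1 → 0 < n →
      ‖FF ι n fun i => (t : ℝ) * (2 * x i : ℤ)‖ ≤
        C * (√n ^ e * (32 * (1 / √t.den ^ 5)) + (t.den : ℝ) ^ 2 * (√n ^ (e - 2) * √(√n))) := by
  obtain ⟨C, hC0, hC⟩ := FF_rat (ι := ι) he he5
  refine ⟨C, hC0, fun x f n t hf hn => ?_⟩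
  obtain ⟨k, hk, hbk, hq⟩ := Major_k t.den t.pos
  have h1 := hC n t.den k (fun i => t.num * (2 * x i)) hn t.pos hk fun q h => hq q (by
    have h2 : (t.den : ℤ) ∣ ∑ i, q * (t.num * (2 * x i)) * f i :=
      Finset.dvd_sum fun i _ => (h i).mul_right _
    have h3 : ∑ i, (q : ℤ) * (t.num * (2 * x i)) * f i = t.num * (2 * q) * ∑ i, x i * f i := by
      rw [Finset.mul_sum]
      exact Finset.sum_congr rfl fun i _ => by ring
    rw [h3, hf, mul_one] at h2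
    have h4 : IsCoprime (t.den : ℤ) t.num := by
      rw [Int.isCoprime_iff_gcd_eq_one, Int.gcd_comm]
      exact t.reduced
    exact_mod_cast h4.dvd_of_dvd_mul_left h2)
  have e1 : (fun i => (t : ℝ) * (2 * x i : ℤ)) =
      fun i => ((t.num * (2 * x i) : ℤ) : ℝ) / (t.den : ℕ) := by
    funext i
    rw [Rat.cast_def]
    push_cast
    ring
  rw [e1]
  refine h1.trans (mul_le_mul_of_nonneg_left (add_le_add ?_ (by rw [mul_assoc])) hC0)
  have hk' : (0 : ℝ) < √k := Real.sqrt_pos.2 (by exact_mod_cast hk)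
  have hb' : (0 : ℝ) < √t.den := Real.sqrt_pos.2 (by exact_mod_cast t.pos)
  have h5 : √(t.den : ℝ) ≤ 2 * √k := by
    rw [Real.sqrt_le_left (by positivity), mul_pow, Real.sq_sqrt (by positivity)]
    exact_mod_cast (by omega : t.den ≤ 2 ^ 2 * k)
  rw [div_eq_mul_one_div]
  refine mul_le_mul_of_nonneg_left ?_ (by positivity)
  rw [mul_one_div, div_le_div_iff₀ (by positivity) (by positivity), one_mul]
  calc √(t.den : ℝ) ^ 5 ≤ (2 * √k) ^ 5 := by gcongr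
    _ = _ := by ring

theorem Major_sum (B : ℕ) : ∑ t ∈ farey B, 1 / √(t.den : ℝ) ^ 5 ≤ 3 := by
  rw [← Finset.sum_fiberwise_of_maps_to (t := Icc 1 B) (g := fun t : ℚ => t.den)
    fun t ht => mem_Icc.2 ⟨t.pos, (mem_farey.1 ht).2.2⟩]
  refine le_trans (Finset.sum_le_sum fun b hb => ?_) (sum_Icc_sqrt_le B)
  have hb0 : (0 : ℝ) < b := by exact_mod_cast (mem_Icc.1 hb).1
  have hs : (0 : ℝ) < √b := Real.sqrt_pos.2 hb0
  rw [Finset.sum_congr rfl (g := fun _ => 1 / √(b : ℝ) ^ 5) fun t ht => by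
    rw [(mem_filter.1 ht).2], sum_const, nsmul_eq_mul]
  calc _ ≤ (b : ℝ) * (1 / √(b : ℝ) ^ 5) := by
        gcongr
        exact_mod_cast card_farey_den_eq B b
    _ = √(b : ℝ) ^ 2 * (1 / √(b : ℝ) ^ 5) := by rw [Real.sq_sqrt hb0.le]
    _ = _ := by field_simp

theorem Major_sq (B : ℕ) : ∑ t ∈ farey B, (t.den : ℝ) ^ 2 ≤ (B : ℝ) ^ 4 := by
  calc _ ≤ ∑ _t ∈ farey B, (B : ℝ) ^ 2 := Finset.sum_le_sum fun t ht => by
        gcongr
        exact (mem_farey.1 ht).2.2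
    _ = (farey B).card * (B : ℝ) ^ 2 := by rw [sum_const, nsmul_eq_mul]
    _ ≤ (B : ℝ) ^ 2 * (B : ℝ) ^ 2 := by
        gcongr
        exact_mod_cast card_farey_le B
    _ = _ := by ring

/- Fix m, put σ = √(γ m) ≤ R.  `sum_shift_le` with G t = if t.den ≤ B then ‖FF ..‖ else 0 bounds the
sum over (s, a) by the sum over t ∈ farey B.  For t = c / b in lowest terms use `FF_rat` with
η = 2 c x and k = b / gcd b 2 ≥ b / 2 (b ∣ 2 q c x i for all i gives b ∣ 2 q by hf).  At most b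
fractions have denominator b (`card_farey_den_eq`), ∑ 1 / √b ^ 3 ≤ 3, `card_farey_le`.
m⁻¹ σ ^ e = γ σ ^ (e - 2) ≤ γ R ^ (e - 2), and m⁻¹ B ^ 4 σ ^ (e - 2) √σ ≤ γ B ^ 4 R ^ (e - 3) ≤
γ R ^ (e - 2); γ (R ^ 2 / γ) ≤ R ^ 2.  Compare `level0_count` in Sieve1.lean. -/
theorem major {e : ℕ} (he : Fintype.card ι = e + 2) (he5 : 5 ≤ e) : ∃ C : ℝ, 0 ≤ C ∧
    ∀ (x f : ι → ℤ) (γ R B Q : ℕ), ∑ i, x i * f i = 1 → 0 < γ → B ^ 4 ≤ R →
      ∑ s ∈ farey Q, ∑ m ∈ Icc 1 (R ^ 2 / γ), (m : ℝ)⁻¹ *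
        ∑ a ∈ (range m).filter (fun a : ℕ => (((a : ℚ) + s) / m).den ≤ B),
          ‖FF ι (γ * m) fun i => ((((a : ℚ) + s) / m : ℚ) : ℝ) * (2 * x i : ℤ)‖ ≤
      C * (R : ℝ) ^ e := by
  obtain ⟨C, hC0, hC⟩ := Major_one (ι := ι) he he5
  refine ⟨97 * C, by positivity, fun x f γ R B Q hf hγ hB => ?_⟩
  obtain ⟨d, rfl⟩ : ∃ d, e = d + 4 := ⟨e - 4, by omega⟩
  rw [show d + 4 - 2 = d + 2 by omega] at hC
  rw [Finset.sum_comm]
  have hγ' : (0 : ℝ) < γ := by exact_mod_cast hγ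
  have key : ∀ m ∈ Icc 1 (R ^ 2 / γ), ∑ s ∈ farey Q, (m : ℝ)⁻¹ *
      ∑ a ∈ (range m).filter (fun a : ℕ => (((a : ℚ) + s) / m).den ≤ B),
        ‖FF ι (γ * m) fun i => ((((a : ℚ) + s) / m : ℚ) : ℝ) * (2 * x i : ℤ)‖ ≤
      97 * C * (γ * (R : ℝ) ^ (d + 2)) := by
    intro m hm
    obtain ⟨hm1, hm2⟩ := mem_Icc.1 hm
    have hm' : (0 : ℝ) < m := by exact_mod_cast hm1
    have hn : 0 < γ * m := Nat.mul_pos hγ hm1
    have hR : γ * m ≤ R ^ 2 := (Nat.mul_le_mul_left γ hm2).trans (Nat.mul_div_le _ _)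
    have hR1 : (1 : ℝ) ≤ R := by
      have : R ≠ 0 := by
        rintro rfl
        simp at hR
        omega
      exact_mod_cast Nat.one_le_iff_ne_zero.2 this
    obtain ⟨σ, hσ⟩ : ∃ σ : ℝ, σ = √((γ * m : ℕ) : ℝ) := ⟨_, rfl⟩
    have hσ0 : 0 ≤ σ := hσ ▸ Real.sqrt_nonneg _
    have hσ2 : σ ^ 2 = γ * m := by
      rw [hσ, Real.sq_sqrt (by positivity)]
      push_cast
      ring
    have hσR : σ ≤ R := by
      rw [hσ, Real.sqrt_le_left (by positivity)]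
      exact_mod_cast hR
    have hsR : √σ ≤ R := by
      rw [Real.sqrt_le_left (by positivity)]
      nlinarith
    have hB' : (B : ℝ) ^ 4 ≤ R := by exact_mod_cast hB
    have h1 := sum_shift_le (fun t => if t.den ≤ B then
      ‖FF ι (γ * m) fun i => (t : ℝ) * (2 * x i : ℤ)‖ else 0)
      (fun t => by split_ifs <;> positivity) Q m m hm1 le_rfl
    simp only [← Finset.sum_filter] at h1
    have h2 : ∑ t ∈ farey B, ‖FF ι (γ * m) fun i => (t : ℝ) * (2 * x i : ℤ)‖ ≤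
        C * (σ ^ (d + 4) * (32 * 3) + (B : ℝ) ^ 4 * (σ ^ (d + 2) * √σ)) := by
      refine (Finset.sum_le_sum fun t _ => hC x f (γ * m) t hf hn).trans ?_
      rw [← hσ, ← Finset.mul_sum, Finset.sum_add_distrib, ← Finset.mul_sum, ← Finset.mul_sum,
        ← Finset.sum_mul]
      gcongr
      exacts [Major_sum B, Major_sq B]
    have h3 := (h1.trans (Finset.sum_le_sum_of_subset_of_nonneg (t := farey B) (fun t ht => by
      obtain ⟨k1, k2⟩ := mem_filter.1 ht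
      obtain ⟨k3, k4, -⟩ := mem_farey.1 (mem_filter.1 k1).1
      exact mem_farey.2 ⟨k3, k4, k2⟩) fun _ _ _ => norm_nonneg _)).trans h2
    rw [← Finset.mul_sum]
    refine (mul_le_mul_of_nonneg_left h3 (by positivity)).trans ?_
    have e1 : (m : ℝ)⁻¹ * (C * (σ ^ (d + 4) * (32 * 3) + (B : ℝ) ^ 4 * (σ ^ (d + 2) * √σ))) =
        C * (γ * (96 * σ ^ (d + 2) + (B : ℝ) ^ 4 * σ ^ d * √σ)) := by
      rw [show σ ^ (d + 4) = σ ^ (d + 2) * σ ^ 2 by ring, show σ ^ (d + 2) * √σ =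
        σ ^ 2 * (σ ^ d * √σ) by ring, hσ2]
      field_simp
      ring
    rw [e1]
    calc _ ≤ C * (γ * (96 * (R : ℝ) ^ (d + 2) + R * (R : ℝ) ^ d * R)) := by gcongr
      _ = _ := by ring
  refine (Finset.sum_le_sum key).trans ?_
  rw [sum_const, nsmul_eq_mul, Nat.card_Icc, Nat.add_sub_cancel]
  have h4 : ((R ^ 2 / γ : ℕ) : ℝ) * γ ≤ (R : ℝ) ^ 2 := by exact_mod_cast Nat.div_mul_le_self _ _
  calc _ = 97 * C * (((R ^ 2 / γ : ℕ) : ℝ) * γ * (R : ℝ) ^ (d + 2)) := by ring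
    _ ≤ 97 * C * ((R : ℝ) ^ 2 * (R : ℝ) ^ (d + 2)) := by gcongr
    _ = _ := by ring

end Pool.Agent.P.MP_d565f2_an.LS
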