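import Pool.Agent.P.MP_d565f2_an.SR.Rat5

set_option autoImplicit false

open Finset

namespace Pool.Agent.P.MP_d565f2_an.LS

variable {ι : Type} [Fintype ι] [DecidableEq ι]

theorem sum_gcd_le_mul (b M : ℕ) (hb : 0 < b) :
    ∑ m ∈ Icc 1 M, Nat.gcd b m ≤ M * b.divisors.card := by
  calc ∑ m ∈ Icc 1 M, Nat.gcd b m ≤ ∑ m ∈ Icc 1 M, ∑ d ∈ b.divisors, if d ∣ m then d else 0 := by
        refine Finset.sum_le_sum fun m _ => ?_
        refine le_trans ?_ (Finset.single_le_sum (f := fun d => if d ∣ m then d else 0)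
          (fun _ _ => Nat.zero_le _) (Nat.mem_divisors.2 ⟨Nat.gcd_dvd_left b m, hb.ne'⟩))
        simp [Nat.gcd_dvd_right]
    _ = ∑ d ∈ b.divisors, (M / d) * d := by
        rw [Finset.sum_comm]
        refine Finset.sum_congr rfl fun d _ => ?_
        rw [← Finset.sum_filter, sum_const, smul_eq_mul, ← Nat.Ioc_filter_dvd_card_eq_div]
        rfl
    _ ≤ ∑ _d ∈ b.divisors, M := Finset.sum_le_sum fun d _ => Nat.div_mul_le_self _ _
    _ = _ := by rw [sum_const, smul_eq_mul, mul_comm]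

/- `card_divisors_pow_le 12`, summability of b ^ (-5 / 4). -/
theorem sum_tau_cube : ∃ C : ℝ, ∀ B : ℕ,
    ∑ b ∈ Icc 1 B, (b.divisors.card : ℝ) ^ 3 / √b ^ 3 ≤ C := by
  obtain ⟨C, hC⟩ := card_divisors_pow_le 12 (by norm_num)
  have hs : Summable fun n : ℕ => 1 / (n : ℝ) ^ (5 / 4 : ℝ) :=
    Real.summable_one_div_nat_rpow.2 (by norm_num)
  refine ⟨(C + 1) * ∑' n : ℕ, 1 / (n : ℝ) ^ (5 / 4 : ℝ), fun B => ?_⟩
  refine le_trans ?_ (mul_le_mul_of_nonneg_left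
    (hs.sum_le_tsum (Icc 1 B) fun _ _ => by positivity) (by positivity))
  rw [Finset.mul_sum]
  refine Finset.sum_le_sum fun b hb => ?_
  have hb1 := (mem_Icc.1 hb).1
  have hb0 : (0 : ℝ) < b := by exact_mod_cast hb1
  obtain ⟨u, hu⟩ : ∃ u : ℝ, u = (b : ℝ) ^ (1 / 4 : ℝ) := ⟨_, rfl⟩
  have hu0 : 0 < u := hu ▸ Real.rpow_pos_of_pos hb0 _
  have hu4 : u ^ 4 = b := by
    rw [hu, ← Real.rpow_natCast, ← Real.rpow_mul hb0.le]
    norm_num
  have hu5 : (b : ℝ) ^ (5 / 4 : ℝ) = u ^ 5 := by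
    rw [hu, ← Real.rpow_natCast, ← Real.rpow_mul hb0.le]
    norm_num
  have hu2 : √(b : ℝ) = u ^ 2 := by
    rw [← hu4, show u ^ 4 = (u ^ 2) ^ 2 by ring, Real.sqrt_sq (by positivity)]
  have h1 : (b.divisors.card : ℝ) ^ 12 ≤ C * b := by exact_mod_cast hC b (by omega)
  have h2 : (b.divisors.card : ℝ) ^ 3 ≤ (C + 1) * u := by
    refine le_of_pow_le_pow_left₀ (n := 4) (by norm_num) (by positivity) ?_
    rw [← pow_mul, mul_pow, hu4]
    refine h1.trans (mul_le_mul_of_nonneg_right ?_ hb0.le)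
    have h3 : (1 : ℝ) ≤ C + 1 := by linarith [Nat.cast_nonneg (α := ℝ) C]
    calc (C : ℝ) ≤ C + 1 := by linarith
      _ ≤ _ := le_self_pow₀ h3 (by norm_num)
  rw [hu5, hu2, div_le_iff₀ (by positivity)]
  refine h2.trans_eq ?_
  field_simp

theorem Major5_k (b : ℕ) (hb : 0 < b) :
    ∃ k : ℕ, 0 < k ∧ b ≤ 4 * k ∧ ∀ q : ℕ, b ∣ 2 * q → k ∣ q := by
  by_cases h : 2 ∣ b
  · obtain ⟨k, rfl⟩ := h
    exact ⟨k, by omega, by omega, fun q hq => Nat.dvd_of_mul_dvd_mul_left two_pos hq⟩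
  · exact ⟨b, hb, by omega, fun q hq =>
      ((Nat.prime_two.coprime_iff_not_dvd.2 h).symm).dvd_of_dvd_mul_left hq⟩

theorem Major5_one {e : ℕ} (he : Fintype.card ι = e + 2) (he3 : 3 ≤ e) : ∃ C : ℝ, 0 ≤ C ∧
    ∀ (x f : ι → ℤ) (n : ℕ) (t : ℚ), ∑ i, x i * f i = 1 → 0 < n →
      ‖FF ι n fun i => (t : ℝ) * (2 * x i : ℤ)‖ ≤
        C * (√n ^ e * (8 * (1 / √t.den ^ 3)) + (t.den : ℝ) * (√n ^ (e - 1) * √(√n))) := by
  obtain ⟨C, hC0, hC⟩ := FF_rat5 (ι := ι) he he3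
  refine ⟨C, hC0, fun x f n t hf hn => ?_⟩
  obtain ⟨k, hk, hbk, hq⟩ := Major5_k t.den t.pos
  have h1 := hC n t.den k (fun i => t.num * (2 * x i)) hn t.pos hk fun q h => hq q (by
    have h2 : (t.den : ℤ) ∣ ∑ i, q * (t.num * (2 * x i)) * f i :=
      Finset.dvd_sum fun i _ => (h i).mul_right _
    have h3 : ∑ i, (q : ℤ) * (t.num * (2 * x i)) * f i = t.num * (2 * q) * ∑ i, x i * f i := by
      rw [Finset.mul_sum]
      exact Finset.sum_congr rfl fun i _ => by ring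
    rw [h3, hf, mul_one] at h2
    have h4 : IsCoprime (t.den : ℤ) t.num := by
      rw [Int.isCoprime_iff_gcd_eq_one, Int.gcd_comm]
      exact t.reduced
    exact_mod_cast h4.dvd_of_dvd_mul_left h2)
  have e1 : (fun i => (t : ℝ) * (2 * x i : ℤ)) =
      fun i => ((t.num * (2 * x i) : ℤ) : ℝ) / (t.den : ℕ) := by
    funext i
    rw [Rat.cast_def]
    push_cast
    ring
  rw [e1]
  refine h1.trans (mul_le_mul_of_nonneg_left (add_le_add ?_ (by rw [mul_assoc])) hC0)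
  have hk' : (0 : ℝ) < √k := Real.sqrt_pos.2 (by exact_mod_cast hk)
  have hb' : (0 : ℝ) < √t.den := Real.sqrt_pos.2 (by exact_mod_cast t.pos)
  have h5 : √(t.den : ℝ) ≤ 2 * √k := by
    rw [Real.sqrt_le_left (by positivity), mul_pow, Real.sq_sqrt (by positivity)]
    exact_mod_cast (by omega : t.den ≤ 2 ^ 2 * k)
  rw [div_eq_mul_one_div]
  refine mul_le_mul_of_nonneg_left ?_ (by positivity)
  rw [mul_one_div, div_le_div_iff₀ (by positivity) (by positivity), one_mul]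
  calc √(t.den : ℝ) ^ 3 ≤ (2 * √k) ^ 3 := by gcongr
    _ = _ := by ring

theorem Major5_wt0 (s : ℚ) : 0 ≤ wt s := by
  unfold wt
  positivity

theorem Major5_wtC : ∃ C : ℝ, 0 ≤ C ∧ ∀ s : ℚ, wt s ≤ C := by
  obtain ⟨C, hC⟩ := card_divisors_pow_le 2 (by norm_num)
  refine ⟨C, by positivity, fun s => ?_⟩
  unfold wt
  rw [div_le_iff₀ (by exact_mod_cast s.pos)]
  exact_mod_cast hC s.den s.pos.ne'

theorem Major5_wt (t : ℚ) {m : ℕ} (hm : 0 < m) :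
    wt (m * t) ≤ (t.den.divisors.card : ℝ) ^ 2 / t.den * Nat.gcd t.den m := by
  have hm' : (m : ℚ) ≠ 0 := by exact_mod_cast hm.ne'
  have h1 : ((m : ℚ) * t).den ∣ t.den := by simpa using Rat.mul_den_dvd (m : ℚ) t
  have h2 : t.den ∣ ((m : ℚ) * t).den * m := by
    have := Rat.mul_den_dvd ((m : ℚ) * t) (m : ℚ)⁻¹
    rwa [show (m : ℚ) * t * (m : ℚ)⁻¹ = t by field_simp, Rat.inv_natCast_den_of_pos hm] at this
  have h3 : t.den ∣ ((m : ℚ) * t).den * Nat.gcd t.den m := by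
    rw [← Nat.gcd_mul_left]
    exact Nat.dvd_gcd (dvd_mul_left _ _) h2
  have h4 : (t.den : ℝ) ≤ ((m : ℚ) * t).den * Nat.gcd t.den m := by
    exact_mod_cast Nat.le_of_dvd (Nat.mul_pos (Rat.pos _) (Nat.gcd_pos_of_pos_left _ t.pos)) h3
  have h5 : ((((m : ℚ) * t).den.divisors.card : ℕ) : ℝ) ≤ t.den.divisors.card := by
    exact_mod_cast card_le_card (Nat.divisors_subset_of_dvd t.pos.ne' h1)
  have h6 : (0 : ℝ) < t.den := by exact_mod_cast t.pos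
  have h7 : (0 : ℝ) < ((m : ℚ) * t).den := by exact_mod_cast Rat.pos _
  unfold wt
  rw [div_mul_eq_mul_div, div_le_div_iff₀ h7 h6]
  calc _ ≤ (t.den.divisors.card : ℝ) ^ 2 * (((m : ℚ) * t).den * Nat.gcd t.den m) := by gcongr
    _ = _ := by ring

theorem Major5_den (B : ℕ) : ∑ t ∈ farey B, (t.den : ℝ) ≤ (B : ℝ) ^ 3 := by
  calc _ ≤ ∑ _t ∈ farey B, (B : ℝ) := Finset.sum_le_sum fun t ht => by
        exact_mod_cast (mem_farey.1 ht).2.2
    _ = (farey B).card * (B : ℝ) := by rw [sum_const, nsmul_eq_mul]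
    _ ≤ (B : ℝ) ^ 2 * (B : ℝ) := by
        gcongr
        exact_mod_cast card_farey_le B
    _ = _ := by ring

theorem Major5_sum : ∃ C : ℝ, 0 ≤ C ∧ ∀ B M : ℕ,
    ∑ m ∈ Icc 1 M, ∑ t ∈ farey B, wt (m * t) * (1 / √(t.den : ℝ) ^ 3) ≤ C * M := by
  obtain ⟨C, hC⟩ := sum_tau_cube
  have hC0 : 0 ≤ C := by simpa using hC 0
  refine ⟨C, hC0, fun B M => ?_⟩
  rw [Finset.sum_comm]
  have h1 : ∀ t ∈ farey B, ∑ m ∈ Icc 1 M, wt (m * t) * (1 / √(t.den : ℝ) ^ 3) ≤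
      (t.den.divisors.card : ℝ) ^ 3 / √(t.den : ℝ) ^ 3 / t.den * M := by
    intro t _
    have h2 : ∑ m ∈ Icc 1 M, (Nat.gcd t.den m : ℝ) ≤ M * t.den.divisors.card := by
      exact_mod_cast sum_gcd_le_mul t.den M t.pos
    calc _ ≤ ∑ m ∈ Icc 1 M, (t.den.divisors.card : ℝ) ^ 2 / t.den * Nat.gcd t.den m *
          (1 / √(t.den : ℝ) ^ 3) := Finset.sum_le_sum fun m hm =>
          mul_le_mul_of_nonneg_right (Major5_wt t (mem_Icc.1 hm).1) (by positivity)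
      _ = (t.den.divisors.card : ℝ) ^ 2 / t.den * (∑ m ∈ Icc 1 M, (Nat.gcd t.den m : ℝ)) *
          (1 / √(t.den : ℝ) ^ 3) := by rw [← Finset.sum_mul, ← Finset.mul_sum]
      _ ≤ (t.den.divisors.card : ℝ) ^ 2 / t.den * (M * t.den.divisors.card) *
          (1 / √(t.den : ℝ) ^ 3) := by gcongr
      _ = _ := by ring
  refine (Finset.sum_le_sum h1).trans ?_
  rw [← Finset.sum_mul]
  refine mul_le_mul_of_nonneg_right ?_ (by positivity)
  rw [← Finset.sum_fiberwise_of_maps_to (t := Icc 1 B) (g := fun t : ℚ => t.den)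
    fun t ht => mem_Icc.2 ⟨t.pos, (mem_farey.1 ht).2.2⟩]
  refine le_trans (Finset.sum_le_sum fun b hb => ?_) (hC B)
  have hb0 : (0 : ℝ) < b := by exact_mod_cast (mem_Icc.1 hb).1
  rw [Finset.sum_congr rfl (g := fun _ => (b.divisors.card : ℝ) ^ 3 / √(b : ℝ) ^ 3 / b)
    fun t ht => by rw [(mem_filter.1 ht).2], sum_const, nsmul_eq_mul]
  calc _ ≤ (b : ℝ) * ((b.divisors.card : ℝ) ^ 3 / √(b : ℝ) ^ 3 / b) := by
        gcongr
        exact_mod_cast card_farey_den_eq B b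
    _ = _ := by field_simp

/- As `major` (SR/Major.lean).  m t = s + a, so wt s = wt (m t); `sum_shift_le` with
G t = if t.den ≤ B then wt (m t) * ‖FF ..‖ else 0.  With b = t.den, (m t).den = b / gcd b m, so
wt (m t) ≤ τ(b) ^ 2 gcd(b, m) / b; also wt ≤ C (`card_divisors_pow_le 2`).  σ = √(γ m) ≤ R.  First
term of `FF_rat5`: m⁻¹ σ ^ e = γ σ ^ (e - 2), sum over m first (`sum_gcd_le_mul`), then
`sum_tau_cube`.  Second term: m⁻¹ B ^ 3 σ ^ (e - 1) √σ ≤ γ B ^ 3 R ^ (e - 3) √R ≤ γ R ^ (e - 2). -/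
theorem major5 {e : ℕ} (he : Fintype.card ι = e + 2) (he3 : 3 ≤ e) : ∃ C : ℝ, 0 ≤ C ∧
    ∀ (x f : ι → ℤ) (γ R B Q : ℕ), ∑ i, x i * f i = 1 → 0 < γ → B ^ 6 ≤ R →
      ∑ s ∈ farey Q, wt s * ∑ m ∈ Icc 1 (R ^ 2 / γ), (m : ℝ)⁻¹ *
        ∑ a ∈ (range m).filter (fun a : ℕ => (((a : ℚ) + s) / m).den ≤ B),
          ‖FF ι (γ * m) fun i => ((((a : ℚ) + s) / m : ℚ) : ℝ) * (2 * x i : ℤ)‖ ≤
      C * (R : ℝ) ^ e := by
  obtain ⟨C, hC0, hC⟩ := Major5_one (ι := ι) he he3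
  obtain ⟨C2, hC2, hw⟩ := Major5_wtC
  obtain ⟨C3, hC3, hsum⟩ := Major5_sum
  refine ⟨C * (8 * C3 + C2), by positivity, fun x f γ R B Q hf hγ hB => ?_⟩
  obtain ⟨d, rfl⟩ : ∃ d, e = d + 3 := ⟨e - 3, by omega⟩
  rw [show d + 3 - 1 = d + 2 by omega] at hC
  simp only [Finset.mul_sum (s := Icc 1 (R ^ 2 / γ))]
  rw [Finset.sum_comm]
  have hγ' : (0 : ℝ) < γ := by exact_mod_cast hγ
  have key : ∀ m ∈ Icc 1 (R ^ 2 / γ), ∑ s ∈ farey Q, wt s * ((m : ℝ)⁻¹ *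
      ∑ a ∈ (range m).filter (fun a : ℕ => (((a : ℚ) + s) / m).den ≤ B),
        ‖FF ι (γ * m) fun i => ((((a : ℚ) + s) / m : ℚ) : ℝ) * (2 * x i : ℤ)‖) ≤
      C * (γ * (R : ℝ) ^ (d + 1)) *
        (8 * ∑ t ∈ farey B, wt (m * t) * (1 / √(t.den : ℝ) ^ 3) + C2) := by
    intro m hm
    obtain ⟨hm1, hm2⟩ := mem_Icc.1 hm
    have hm' : (0 : ℝ) < m := by exact_mod_cast hm1
    have hmq : (m : ℚ) ≠ 0 := by exact_mod_cast (by omega : m ≠ 0)
    have hn : 0 < γ * m := Nat.mul_pos hγ hm1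
    have hR : γ * m ≤ R ^ 2 := (Nat.mul_le_mul_left γ hm2).trans (Nat.mul_div_le _ _)
    obtain ⟨σ, hσ⟩ : ∃ σ : ℝ, σ = √((γ * m : ℕ) : ℝ) := ⟨_, rfl⟩
    have hσ0 : 0 ≤ σ := hσ ▸ Real.sqrt_nonneg _
    have hσ2 : σ ^ 2 = γ * m := by
      rw [hσ, Real.sq_sqrt (by positivity)]
      push_cast
      ring
    have hσR : σ ≤ R := by
      rw [hσ, Real.sqrt_le_left (by positivity)]
      exact_mod_cast hR
    have hsR : (B : ℝ) ^ 3 * √σ ≤ R := by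
      have h1 : (B : ℝ) ^ 3 ≤ √R := by
        refine Real.le_sqrt_of_sq_le ?_
        rw [← pow_mul]
        exact_mod_cast hB
      calc (B : ℝ) ^ 3 * √σ ≤ √R * √R := by gcongr
        _ = R := Real.mul_self_sqrt (by positivity)
    have h1 := sum_shift_le (fun t => if t.den ≤ B then wt (m * t) *
      ‖FF ι (γ * m) fun i => (t : ℝ) * (2 * x i : ℤ)‖ else 0)
      (fun t => by
        split_ifs
        · exact mul_nonneg (Major5_wt0 _) (norm_nonneg _)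
        · exact le_rfl) Q m m hm1 le_rfl
    simp only [← Finset.sum_filter] at h1
    have h0 : ∀ (s : ℚ) (a : ℕ), wt (m * (((a : ℚ) + s) / m)) = wt s := fun s a => by
      have h3 : (m : ℚ) * (((a : ℚ) + s) / m) = s + (a : ℤ) := by
        push_cast
        field_simp
        ring
      unfold wt
      rw [h3, Rat.add_intCast_den]
    simp only [h0, ← Finset.mul_sum] at h1
    obtain ⟨S, hS⟩ : ∃ S : ℝ, S = ∑ t ∈ farey B, wt (m * t) * (1 / √(t.den : ℝ) ^ 3) := ⟨_, rfl⟩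
    have hS0 : 0 ≤ S := hS ▸ Finset.sum_nonneg fun t _ =>
      mul_nonneg (Major5_wt0 _) (by positivity)
    have h2 : ∑ t ∈ farey B, wt (m * t) * ‖FF ι (γ * m) fun i => (t : ℝ) * (2 * x i : ℤ)‖ ≤
        C * (σ ^ (d + 3) * (8 * S) + C2 * (B : ℝ) ^ 3 * (σ ^ (d + 2) * √σ)) := by
      have h5 : ∀ t ∈ farey B, wt (m * t) * ‖FF ι (γ * m) fun i => (t : ℝ) * (2 * x i : ℤ)‖ ≤
          C * (σ ^ (d + 3) * (8 * (wt (m * t) * (1 / √(t.den : ℝ) ^ 3))) +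
            C2 * (t.den : ℝ) * (σ ^ (d + 2) * √σ)) := by
        intro t _
        refine (mul_le_mul_of_nonneg_left (hC x f (γ * m) t hf hn) (Major5_wt0 _)).trans ?_
        rw [← hσ]
        have h6 := hw (m * t)
        calc _ = C * (σ ^ (d + 3) * (8 * (wt (m * t) * (1 / √(t.den : ℝ) ^ 3))) +
              wt (m * t) * (t.den : ℝ) * (σ ^ (d + 2) * √σ)) := by ring
          _ ≤ _ := by gcongr
      refine (Finset.sum_le_sum h5).trans ?_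
      rw [← Finset.mul_sum, Finset.sum_add_distrib, ← Finset.mul_sum, ← Finset.mul_sum,
        ← Finset.sum_mul, ← Finset.mul_sum, ← hS]
      gcongr
      exact Major5_den B
    have h3 := (h1.trans (Finset.sum_le_sum_of_subset_of_nonneg (t := farey B) (fun t ht => by
      obtain ⟨k1, k2⟩ := mem_filter.1 ht
      obtain ⟨k3, k4, -⟩ := mem_farey.1 (mem_filter.1 k1).1
      exact mem_farey.2 ⟨k3, k4, k2⟩)
      fun _ _ _ => mul_nonneg (Major5_wt0 _) (norm_nonneg _))).trans h2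
    simp only [mul_left_comm (wt _) ((m : ℝ)⁻¹)]
    rw [← Finset.mul_sum, ← hS]
    refine (mul_le_mul_of_nonneg_left h3 (by positivity)).trans ?_
    have e1 : (m : ℝ)⁻¹ * (C * (σ ^ (d + 3) * (8 * S) +
        C2 * (B : ℝ) ^ 3 * (σ ^ (d + 2) * √σ))) =
        C * (γ * (σ ^ (d + 1) * (8 * S) + C2 * (σ ^ d * ((B : ℝ) ^ 3 * √σ)))) := by
      rw [show σ ^ (d + 3) = σ ^ (d + 1) * σ ^ 2 by ring, show σ ^ (d + 2) * √σ =
        σ ^ 2 * (σ ^ d * √σ) by ring, hσ2]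
      field_simp
    rw [e1]
    calc _ ≤ C * (γ * ((R : ℝ) ^ (d + 1) * (8 * S) + C2 * ((R : ℝ) ^ d * R))) := by gcongr
      _ = _ := by ring
  refine (Finset.sum_le_sum key).trans ?_
  rw [← Finset.mul_sum, Finset.sum_add_distrib, ← Finset.mul_sum, sum_const, nsmul_eq_mul,
    Nat.card_Icc, Nat.add_sub_cancel]
  have h4 : ((R ^ 2 / γ : ℕ) : ℝ) * γ ≤ (R : ℝ) ^ 2 := by exact_mod_cast Nat.div_mul_le_self _ _
  have h5 := hsum B (R ^ 2 / γ)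
  calc _ ≤ C * (γ * (R : ℝ) ^ (d + 1)) *
        (8 * (C3 * ((R ^ 2 / γ : ℕ) : ℝ)) + ((R ^ 2 / γ : ℕ) : ℝ) * C2) := by gcongr
    _ = C * (8 * C3 + C2) * (((R ^ 2 / γ : ℕ) : ℝ) * γ * (R : ℝ) ^ (d + 1)) := by ring
    _ ≤ C * (8 * C3 + C2) * ((R : ℝ) ^ 2 * (R : ℝ) ^ (d + 1)) := by gcongr
    _ = _ := by ring

end Pool.Agent.P.MP_d565f2_an.LS
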