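import Pool.Agent.P.MP_d565f2_an.SR.Rat
import Pool.Agent.P.MP_d565f2_an.SR.ClsCount

set_option autoImplicit false

open Finset

namespace Pool.Agent.P.MP_d565f2_an.LS

variable {ι : Type} [Fintype ι] [DecidableEq ι]

omit [DecidableEq ι] in
theorem MeanSq_gcd {b : ℕ} (hb : 0 < b) (η : ι → ℤ) : ∃ D k : ℕ, b = D * k ∧
    (∀ i, (D : ℤ) ∣ η i) ∧ ∀ q : ℕ, (∀ i, (b : ℤ) ∣ q * η i) → k ∣ q := by
  obtain ⟨k, hk⟩ := Nat.gcd_dvd_left b (univ.gcd fun i => (η i).natAbs)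
  refine ⟨_, k, hk, fun i => ?_, fun q hq => ?_⟩
  · exact Int.natCast_dvd.2 ((Nat.gcd_dvd_right _ _).trans (Finset.gcd_dvd (mem_univ i)))
  · have h1 : b ∣ q * univ.gcd fun i => (η i).natAbs := by
      have := Finset.gcd_mul_left (s := (univ : Finset ι)) (f := fun i => (η i).natAbs) (a := q)
      rw [normalize_eq] at this
      rw [← this]
      refine Finset.dvd_gcd fun i _ => ?_
      have := Int.natCast_dvd.1 (hq i)
      rwa [Int.natAbs_mul, Int.natAbs_natCast] at this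
    have h2 : b ∣ q * Nat.gcd b (univ.gcd fun i => (η i).natAbs) := by
      rw [← Nat.gcd_mul_left]
      exact Nat.dvd_gcd (Dvd.intro_left _ rfl) h1
    have h3 : 0 < Nat.gcd b (univ.gcd fun i => (η i).natAbs) := Nat.gcd_pos_of_pos_left _ hb
    generalize Nat.gcd b (univ.gcd fun i => (η i).natAbs) = g at hk h2 h3
    rw [hk, mul_comm q] at h2
    exact Nat.dvd_of_mul_dvd_mul_left h3 h2

theorem MeanSq_expand (n N b : ℕ) (T : Finset ℚ) (hT : ∀ t ∈ T, t.den = b) :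
    ∑ x ∈ sph ι n, ‖GG ι N T x‖ ^ 2 ≤ ∑ t ∈ T, ∑ z ∈ sph ι N, ∑ t' ∈ T, ∑ z' ∈ sph ι N,
      ‖FF ι n fun i => ((2 * (t.num * z i - t'.num * z' i) : ℤ) : ℝ) / b‖ := by
  have e : ∀ x : ι → ℤ, ((‖GG ι N T x‖ ^ 2 : ℝ) : ℂ) = ∑ t ∈ T, ∑ z ∈ sph ι N, ∑ t' ∈ T,
      ∑ z' ∈ sph ι N, ex (∑ i, ((2 * (t.num * z i - t'.num * z' i) : ℤ) : ℝ) / b * x i) := by
    intro x
    rw [Complex.ofReal_pow, ← Complex.mul_conj', GG]
    simp only [FF, map_sum, conj_ex]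
    simp only [sum_mul]
    simp only [mul_sum, ← ex_add]
    refine sum_congr rfl fun t ht => sum_congr rfl fun z _ => sum_congr rfl fun t' ht' =>
      sum_congr rfl fun z' _ => congrArg ex ?_
    rw [← sum_neg_distrib, ← sum_add_distrib]
    refine sum_congr rfl fun i _ => ?_
    rw [Rat.cast_def t, Rat.cast_def t', hT t ht, hT t' ht']
    push_cast
    ring
  have key : ((∑ x ∈ sph ι n, ‖GG ι N T x‖ ^ 2 : ℝ) : ℂ) = ∑ t ∈ T, ∑ z ∈ sph ι N, ∑ t' ∈ T,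
      ∑ z' ∈ sph ι N, FF ι n fun i => ((2 * (t.num * z i - t'.num * z' i) : ℤ) : ℝ) / b := by
    rw [Complex.ofReal_sum, sum_congr rfl fun x _ => e x, sum_comm]
    refine sum_congr rfl fun t _ => ?_
    rw [sum_comm]
    refine sum_congr rfl fun z _ => ?_
    rw [sum_comm]
    refine sum_congr rfl fun t' _ => ?_
    rw [sum_comm]
    rfl
  refine (le_abs_self _).trans ?_
  rw [← Real.norm_eq_abs, ← Complex.norm_real, key]
  refine (norm_sum_le _ _).trans (sum_le_sum fun t _ => (norm_sum_le _ _).trans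
    (sum_le_sum fun z _ => (norm_sum_le _ _).trans (sum_le_sum fun t' _ => norm_sum_le _ _)))

theorem MeanSq_weight {e R D b : ℕ} (he5 : 5 ≤ e) (hD : 0 < D) (hDb : D ≤ b) :
    ((4 * R / D + 1 : ℕ) : ℝ) ^ e * (√D ^ 5 / √b ^ 5) ≤ 5 ^ e * (R ^ e / √b ^ 5 + 1) := by
  have d1 : (1 : ℝ) ≤ D := by exact_mod_cast hD
  have db : (D : ℝ) ≤ b := by exact_mod_cast hDb
  have b0 : 0 < √(b : ℝ) := Real.sqrt_pos.2 (by linarith)
  have h4 : ((4 * R / D + 1 : ℕ) : ℝ) ≤ 4 * R / D + 1 := by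
    have : ((4 * R / D : ℕ) : ℝ) ≤ ((4 * R : ℕ) : ℝ) / D := Nat.cast_div_le
    push_cast at this ⊢
    linarith
  rcases le_total D R with h | h
  · have h' : (D : ℝ) ≤ R := by exact_mod_cast h
    have h5 : ((4 * R / D + 1 : ℕ) : ℝ) ≤ 5 * R / D := by
      refine h4.trans ?_
      rw [div_add_one (by linarith)]
      gcongr
      linarith
    have h6 : √(D : ℝ) ^ 5 ≤ D ^ e :=
      (pow_le_pow_left₀ (Real.sqrt_nonneg _) (Real.sqrt_le_iff.2 ⟨by linarith, by nlinarith⟩)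
        5).trans (pow_le_pow_right₀ d1 he5)
    calc ((4 * R / D + 1 : ℕ) : ℝ) ^ e * (√D ^ 5 / √b ^ 5)
        ≤ (5 * R / D) ^ e * (D ^ e / √b ^ 5) := by gcongr
      _ = 5 ^ e * (R ^ e / √b ^ 5) := by
          rw [div_pow, mul_pow]
          field_simp
      _ ≤ _ := by gcongr; linarith
  · have h' : (R : ℝ) ≤ D := by exact_mod_cast h
    have h5 : ((4 * R / D + 1 : ℕ) : ℝ) ≤ 5 := by
      refine h4.trans ?_
      have : (4 : ℝ) * R / D ≤ 4 := by rw [div_le_iff₀ (by linarith)]; linarith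
      linarith
    have h6 : √(D : ℝ) ^ 5 / √b ^ 5 ≤ 1 := by
      rw [div_le_one (by positivity)]
      gcongr
    have h7 : (0 : ℝ) ≤ R ^ e / √b ^ 5 := by positivity
    calc ((4 * R / D + 1 : ℕ) : ℝ) ^ e * (√D ^ 5 / √b ^ 5) ≤ 5 ^ e * 1 := by gcongr
      _ ≤ _ := by gcongr; linarith

/- Expand ‖G‖ ^ 2 = G * conj G (`conj_ex`, `ex_add`): the sum over x equals the sum over
t, t' ∈ T and z, z' ∈ sph ι N of FF ι n (η / b), η i = 2 (t.num z i - t'.num z' i).  Let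
D = gcd of b and all η i; `FF_rat` with k = b / D gives C (lam ^ e (√D / √b) ^ 5 + b ^ 2 lam ^ (e - 2)
√lam).  Bound (√D / √b) ^ 5 by the sum over the divisors D of b with D ∣ η; for fixed t, t', z, D
`pair_count` (y = t.num z, c' = t'.num).  (4 R / D + 1) ^ e (√D / √b) ^ 5 ≤ 5 ^ e (R ^ e / √b ^ 5 + 1):
if D ≤ R then 4 R / D + 1 ≤ 5 R / D and √D ^ 5 ≤ D ^ e; if D > R then 4 R / D + 1 ≤ 5 and D ≤ b.
`card_sph_le` for sph ι N. -/
theorem mean_square {e : ℕ} (he : Fintype.card ι = e + 2) (he5 : 5 ≤ e) : ∃ C : ℝ, 0 ≤ C ∧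
    ∀ (n lam N R b w : ℕ) (T : Finset ℚ), 0 < n → n ≤ lam ^ 2 → 0 < N → N ≤ R ^ 2 → 0 < b →
      (∀ t ∈ T, t.den = b) → T.card ≤ b → 1 ≤ w → (∀ t : ℕ, t ≤ R ^ 2 → t.divisors.card ≤ w) →
      b.divisors.card ≤ w →
      ∑ x ∈ sph ι n, ‖GG ι N T x‖ ^ 2 ≤
        C * ((lam : ℝ) ^ e * w ^ 3 * b ^ 2 * R ^ e * (R ^ e / √b ^ 5 + 1) +
          (b : ℝ) ^ 4 * R ^ (2 * e) * lam ^ (e - 2) * √lam) := by
  obtain ⟨C1, h1, hF⟩ := FF_rat he he5
  obtain ⟨C2, h2, hS⟩ := card_sph_le he he5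
  refine ⟨C1 * (C2 * (10 * 5 ^ e) + C2 ^ 2), by positivity, ?_⟩
  intro n lam N R b w T hn hlam hN hR hb hT hTb hw hτ hbw
  have sn : √(n : ℝ) ≤ lam := Real.sqrt_le_iff.2 ⟨by positivity, by exact_mod_cast hlam⟩
  have sN : √(N : ℝ) ≤ R := Real.sqrt_le_iff.2 ⟨by positivity, by exact_mod_cast hR⟩
  have hcard : ((sph ι N).card : ℝ) ≤ C2 * R ^ e := (hS N hN).trans (by gcongr)
  have hTb' : (T.card : ℝ) ≤ b := by exact_mod_cast hTb
  have hbw' : (b.divisors.card : ℝ) ≤ w := by exact_mod_cast hbw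
  obtain ⟨A, hA⟩ : ∃ A : ℝ, A = R ^ e / √b ^ 5 + 1 := ⟨_, rfl⟩
  obtain ⟨B, hB⟩ : ∃ B : ℝ, B = (b : ℝ) ^ 2 * lam ^ (e - 2) * √lam := ⟨_, rfl⟩
  have A0 : 0 ≤ A := by rw [hA]; positivity
  have B0 : 0 ≤ B := by rw [hB]; positivity
  have pt : ∀ η : ι → ℤ, ‖FF ι n fun i => (η i : ℝ) / b‖ ≤ C1 * (lam ^ e *
      ∑ D ∈ b.divisors, (if ∀ i, (D : ℤ) ∣ η i then √D ^ 5 / √b ^ 5 else 0) + B) := by
    intro η
    obtain ⟨D, k, hk, hD, hq⟩ := MeanSq_gcd hb η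
    have k0 : 0 < k := Nat.pos_of_mul_pos_left (hk ▸ hb)
    have D0 : 0 < D := Nat.pos_of_mul_pos_right (hk ▸ hb)
    have e1 : 1 / √(k : ℝ) ^ 5 = √D ^ 5 / √b ^ 5 := by
      have a : 0 < √(k : ℝ) := Real.sqrt_pos.2 (by exact_mod_cast k0)
      have a' : 0 < √(D : ℝ) := Real.sqrt_pos.2 (by exact_mod_cast D0)
      rw [hk, Nat.cast_mul, Real.sqrt_mul (by positivity)]
      field_simp
    have e2 : 1 / √(k : ℝ) ^ 5 ≤
        ∑ D ∈ b.divisors, (if ∀ i, (D : ℤ) ∣ η i then √D ^ 5 / √b ^ 5 else 0) := by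
      refine le_trans ?_ (single_le_sum (a := D) (fun D _ => ?_)
        (Nat.mem_divisors.2 ⟨Dvd.intro _ hk.symm, hb.ne'⟩))
      · rw [if_pos hD, e1]
      · split_ifs <;> positivity
    refine (hF n b k η hn hb k0 hq).trans ?_
    rw [hB, div_eq_mul_one_div]
    gcongr
  have inner : ∀ y : ι → ℤ, ∀ t' ∈ T, ∑ z' ∈ sph ι N,
      ‖FF ι n fun i => ((2 * (y i - t'.num * z' i) : ℤ) : ℝ) / b‖ ≤
        C1 * (lam ^ e * (w * (10 * w ^ 2 * (5 ^ e * A))) + C2 * R ^ e * B) := by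
    intro y t' ht'
    refine (sum_le_sum fun z' _ => pt fun i => 2 * (y i - t'.num * z' i)).trans ?_
    rw [← mul_sum, sum_add_distrib, ← mul_sum, sum_comm, sum_const, nsmul_eq_mul]
    gcongr
    refine (sum_le_card_nsmul _ _ (10 * w ^ 2 * (5 ^ e * A)) fun D hD => ?_).trans ?_
    · have D0 : 0 < D := Nat.pos_of_mem_divisors hD
      have hc : IsCoprime t'.num (D : ℤ) := (Rat.isCoprime_num_den t').of_isCoprime_of_dvd_right
        (by rw [hT t' ht']; exact_mod_cast Nat.dvd_of_mem_divisors hD)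
      have pc : (((sph ι N).filter fun z' => ∀ i, (D : ℤ) ∣ 2 * (y i - t'.num * z' i)).card : ℝ) ≤
          10 * w ^ 2 * ((4 * R / D + 1 : ℕ) : ℝ) ^ e := by
        exact_mod_cast pair_count he hR D0 hw hτ y hc
      rw [← sum_filter, sum_const, nsmul_eq_mul]
      refine (mul_le_mul_of_nonneg_right pc (by positivity)).trans ?_
      rw [mul_assoc, hA]
      exact mul_le_mul_of_nonneg_left (MeanSq_weight he5 D0 (Nat.divisor_le hD)) (by positivity)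
    · rw [nsmul_eq_mul]
      gcongr
  obtain ⟨X, hX⟩ : ∃ X : ℝ,
    X = C1 * (lam ^ e * (w * (10 * w ^ 2 * (5 ^ e * A))) + C2 * R ^ e * B) := ⟨_, rfl⟩
  have X0 : 0 ≤ X := by rw [hX]; positivity
  rw [← hX] at inner
  refine (MeanSq_expand n N b T hT).trans ?_
  have tot : ∑ t ∈ T, ∑ z ∈ sph ι N, ∑ t' ∈ T, ∑ z' ∈ sph ι N,
      ‖FF ι n fun i => ((2 * (t.num * z i - t'.num * z' i) : ℤ) : ℝ) / b‖ ≤
        b * (C2 * R ^ e * (b * X)) := by
    refine (sum_le_card_nsmul _ _ (C2 * R ^ e * (b * X)) fun t _ => ?_).trans ?_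
    · refine (sum_le_card_nsmul _ _ (b * X) fun z _ => ?_).trans ?_
      · refine (sum_le_card_nsmul _ _ X fun t' ht' => inner (fun i => t.num * z i) t' ht').trans ?_
        rw [nsmul_eq_mul]
        gcongr
      · rw [nsmul_eq_mul]
        gcongr
    · rw [nsmul_eq_mul]
      gcongr
  refine tot.trans ?_
  rw [← hA]
  obtain ⟨U, hU⟩ : ∃ U : ℝ, U = (lam : ℝ) ^ e * w ^ 3 * b ^ 2 * R ^ e * A := ⟨_, rfl⟩
  obtain ⟨V, hV⟩ : ∃ V : ℝ, V = (b : ℝ) ^ 4 * R ^ (2 * e) * lam ^ (e - 2) * √lam := ⟨_, rfl⟩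
  have U0 : 0 ≤ U := by rw [hU]; positivity
  have V0 : 0 ≤ V := by rw [hV]; positivity
  have ee : b * (C2 * R ^ e * (b * X)) = C1 * (C2 * (10 * 5 ^ e) * U + C2 ^ 2 * V) := by
    rw [hX, hU, hV, hB]
    ring
  rw [ee, ← hU, ← hV, mul_assoc C1]
  refine mul_le_mul_of_nonneg_left ?_ h1
  have a : 0 ≤ C2 * (10 * 5 ^ e) * V := by positivity
  have a' : 0 ≤ C2 ^ 2 * U := by positivity
  nlinarith

end Pool.Agent.P.MP_d565f2_an.LS
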