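import Pool.Agent.P.MP_d565f2_an.SR.CDefs

set_option autoImplicit false

open Finset

namespace Pool.Agent.P.MP_d565f2_an.LS

variable {ι : Type} [Fintype ι] [DecidableEq ι]

theorem Orbit_half {q : ℕ} (hq : 0 < q) {c u : ℤ} (h : (q : ℤ) ∣ u ^ 2 - c ^ 2) {d e : ℤ}
    (hd : d = (Int.gcd (u - c) q : ℤ)) (he : (q : ℤ) = d * e) : e ∣ u + c := by
  have hd0 : d ≠ 0 := by
    rintro rfl
    simp at he
    omega
  have h1 := Int.gcd_eq_gcd_ab (u - c) q
  obtain ⟨t, ht⟩ := h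
  have h2 : d * e ∣ d * (u + c) := by
    rw [← he]
    refine ⟨t * Int.gcdA (u - c) q + (u + c) * Int.gcdB (u - c) q, ?_⟩
    rw [hd, h1]
    linear_combination (Int.gcdA (u - c) q) * ht
  exact (mul_dvd_mul_iff_left hd0).1 h2

theorem Orbit_key {q : ℕ} (hq : 0 < q) {c u u' : ℤ} (hc : IsCoprime (q : ℤ) c)
    (h : (q : ℤ) ∣ u ^ 2 - c ^ 2) (h' : (q : ℤ) ∣ u' ^ 2 - c ^ 2)
    (hg : Int.gcd (u - c) q = Int.gcd (u' - c) q) : (q : ℤ) ∣ 2 * u - 2 * u' := by
  obtain ⟨e, he⟩ := Int.gcd_dvd_right (u - c) q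
  obtain ⟨s, hs⟩ := Orbit_half hq h rfl he
  obtain ⟨s', hs'⟩ := Orbit_half hq h' (congrArg Nat.cast hg) he
  obtain ⟨a, ha⟩ := Int.gcd_dvd_left (u - c) q
  obtain ⟨a', ha'⟩ := Int.gcd_dvd_left (u' - c) q
  rw [← hg] at ha'
  generalize ((Int.gcd (u - c) q : ℕ) : ℤ) = d at he ha ha'
  apply hc.dvd_of_dvd_mul_left (z := 2 * u - 2 * u')
  refine ⟨s * (a - a') - a * (s - s'), ?_⟩
  have e1 : u - u' = d * (a - a') := by linear_combination ha - ha'
  have e2 : u - u' = e * (s - s') := by linear_combination hs - hs'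
  have e3 : 2 * c = e * s - d * a := by linear_combination hs - ha
  rw [he]
  linear_combination (u - u') * e3 + e * s * e1 - d * a * e2

theorem Orbit_card {q : ℕ} (hq : 0 < q) (g : ℕ) {c : ℤ} (hc : IsCoprime (q : ℤ) c) :
    ((range (q * g)).filter fun u : ℕ => (q : ℤ) ∣ (u : ℤ) ^ 2 - c ^ 2).card ≤
      2 * q.divisors.card * g := by
  have h1 : (q.divisors ×ˢ range (2 * g)).card = 2 * q.divisors.card * g := by
    rw [card_product, card_range]; ring
  rw [← h1]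
  refine card_le_card_of_injOn (fun u : ℕ => (Int.gcd ((u : ℤ) - c) q, 2 * u / q)) ?_ ?_
  · intro u hu
    simp only [coe_filter, mem_range, Set.mem_ofPred_eq] at hu
    simp only [coe_product, Set.mem_prod, mem_coe, Nat.mem_divisors, mem_range]
    refine ⟨⟨?_, hq.ne'⟩, ?_⟩
    · exact_mod_cast Int.gcd_dvd_right ((u : ℤ) - c) q
    · rw [Nat.div_lt_iff_lt_mul hq]
      nlinarith [hu.1]
  · intro u hu u' hu' he
    simp only [coe_filter, mem_range, Set.mem_ofPred_eq] at hu hu'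
    simp only [Prod.mk.injEq] at he
    have h2 := Orbit_key hq hc hu.2 hu'.2 he.1
    have h3 : 2 * u' ≡ 2 * u [MOD q] := by
      rw [Nat.modEq_iff_dvd]
      exact_mod_cast h2
    have h4 := Nat.div_add_mod (2 * u) q
    have h5 := Nat.div_add_mod (2 * u') q
    rw [he.2, ← h3] at h4
    omega

/- q₁ = gcd (v - 1) q, q₂ = q / q₁ divides v + 1, gcd q₁ q₂ ∣ 2; two solutions with the same q₁
differ by a multiple of lcm q₁ q₂ ≥ q / 2. -/
theorem card_sq_one {q : ℕ} (hq : 0 < q) :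
    ((range q).filter fun v : ℕ => (q : ℤ) ∣ (v : ℤ) ^ 2 - 1).card ≤ 2 * q.divisors.card := by
  have := Orbit_card hq 1 (c := 1) isCoprime_one_right
  simpa using this

/- Fix a solution u₀, g = gcd n b, q = b / g; q ∣ u ^ 2 - u₀ ^ 2; u ↦ (u u₀⁻¹ mod q, u / q). -/
theorem card_sq_eq {b : ℕ} (hb : 0 < b) (n : ℕ) (a : ℤ) :
    ((range b).filter fun u : ℕ => u.Coprime b ∧ (b : ℤ) ∣ (u : ℤ) ^ 2 * n - a).card ≤
      2 * b.divisors.card * Nat.gcd n b := by
  rcases ((range b).filter fun u : ℕ => u.Coprime b ∧ (b : ℤ) ∣ (u : ℤ) ^ 2 * n - a).eq_empty_or_nonempty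
    with h | ⟨u0, hu0⟩
  · rw [h]; simp
  simp only [mem_filter, mem_range] at hu0
  have hg : 0 < Nat.gcd n b := Nat.gcd_pos_of_pos_right _ hb
  have hco := Nat.coprime_div_gcd_div_gcd (m := n) (n := b) hg
  obtain ⟨q, hq⟩ := Nat.gcd_dvd_right n b
  obtain ⟨n', hn⟩ := Nat.gcd_dvd_left n b
  generalize Nat.gcd n b = g at hg hco hq hn
  subst hq hn
  rw [Nat.mul_div_cancel_left _ hg, Nat.mul_div_cancel_left _ hg] at hco
  have hq0 : 0 < q := Nat.pos_of_mul_pos_left hb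
  have hc : IsCoprime (q : ℤ) (u0 : ℤ) :=
    Nat.isCoprime_iff_coprime.2 (Nat.Coprime.coprime_mul_left_right hu0.2.1).symm
  have hc' : IsCoprime (q : ℤ) (n' : ℤ) := Nat.isCoprime_iff_coprime.2 hco.symm
  have h1 := Orbit_card hq0 g hc
  have h2 : q.divisors.card ≤ (g * q).divisors.card :=
    card_le_card (Nat.divisors_subset_of_dvd hb.ne' (Dvd.intro_left g rfl))
  refine le_trans (card_le_card ?_) (h1.trans (by gcongr))
  intro u hu
  simp only [mem_filter, mem_range] at hu ⊢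
  refine ⟨by rw [mul_comm]; exact hu.1, ?_⟩
  have h3 := dvd_sub hu.2.2 hu0.2.2
  have h4 : (g : ℤ) * q ∣ g * (((u : ℤ) ^ 2 - (u0 : ℤ) ^ 2) * n') := by
    push_cast at h3
    obtain ⟨t, ht⟩ := h3
    exact ⟨t, by linear_combination ht⟩
  exact hc'.dvd_of_dvd_mul_right ((mul_dvd_mul_iff_left (by exact_mod_cast hg.ne')).1 h4)

/- b = ∑ over d ∣ b of φ d ≤ τ(b) φ(b) (`Nat.sum_totient`); some class mod b' holds φ(b) / b' units;
multiply by the inverse of one of them. -/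
theorem card_units_ge {b b' : ℕ} (hb : 0 < b) (h : b' ∣ b) :
    b ≤ b.divisors.card * b' *
      ((range b).filter fun u : ℕ => u.Coprime b ∧ (b' : ℤ) ∣ (u : ℤ) - 1).card := by
  have hb' : 0 < b' := Nat.pos_of_dvd_of_pos h hb
  have hφ : 0 < Nat.totient b := Nat.totient_pos.2 hb
  have h1 : b ≤ b.divisors.card * Nat.totient b := by
    calc b = ∑ d ∈ b.divisors, Nat.totient d := (Nat.sum_totient b).symm
      _ ≤ b.divisors.card • Nat.totient b := sum_le_card_nsmul _ _ _ fun d hd =>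
          Nat.le_of_dvd hφ (Nat.totient_dvd_of_dvd (Nat.dvd_of_mem_divisors hd))
      _ = _ := smul_eq_mul _ _
  have h2 : Nat.totient b ≤
      ((range b).filter fun u : ℕ => u.Coprime b ∧ (b' : ℤ) ∣ (u : ℤ) - 1).card * b' := by
    rw [Nat.totient_eq_card_coprime]
    refine le_trans (card_le_mul_card_image (f := fun u => u % b') _ _ ?_)
      (Nat.mul_le_mul_left _ ?_)
    · intro r hr
      obtain ⟨u1, hu1, rfl⟩ := mem_image.1 hr
      simp only [mem_filter, mem_range] at hu1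
      have hw : u1 * u1 ^ (Nat.totient b - 1) ≡ 1 [MOD b] := by
        rw [← pow_succ', Nat.sub_add_cancel hφ]
        exact Nat.ModEq.pow_totient hu1.2.symm
      have hwc : Nat.Coprime (u1 ^ (Nat.totient b - 1)) b := Nat.Coprime.pow_left _ hu1.2.symm
      generalize u1 ^ (Nat.totient b - 1) = w at hw hwc
      refine card_le_card_of_injOn (fun u => u * w % b) ?_ ?_
      · intro u hu
        simp only [coe_filter, mem_filter, mem_range, Set.mem_ofPred_eq] at hu ⊢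
        refine ⟨Nat.mod_lt _ hb, ?_, ?_⟩
        · have h3 : Nat.Coprime (u * w) b := Nat.Coprime.mul_left hu.1.2.symm hwc
          unfold Nat.Coprime
          rw [← Nat.gcd_rec]
          exact h3.symm
        · have h3 : u * w % b ≡ u * w [MOD b'] := (Nat.mod_modEq _ _).of_dvd h
          have h4 : u * w ≡ u1 * w [MOD b'] := Nat.ModEq.mul_right w hu.2
          have h5 := ((h3.trans h4).trans (hw.of_dvd h)).symm
          rw [Nat.modEq_iff_dvd] at h5
          exact_mod_cast h5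
      · intro u hu u' hu' he
        simp only [coe_filter, mem_filter, mem_range, Set.mem_ofPred_eq] at hu hu'
        have h3 : u * w ≡ u' * w [MOD b] := he
        exact (Nat.ModEq.cancel_right_of_coprime hwc.symm h3).eq_of_lt_of_lt hu.1.1 hu'.1.1
    · refine le_trans (card_le_card (t := range b') ?_) (card_range _).le
      intro r hr
      obtain ⟨u, -, rfl⟩ := mem_image.1 hr
      exact mem_range.2 (Nat.mod_lt _ hb')
  calc b ≤ b.divisors.card * Nat.totient b := h1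
    _ ≤ _ := by rw [mul_assoc]; exact Nat.mul_le_mul_left _ (by rw [mul_comm]; exact h2)

/- For u in the set U of `card_units_ge`, ξ ↦ (u ξ mod b) is injective on res ι b and maps the
solutions for n to those for u ^ 2 n.  Sum over U, swap, `card_sq_eq`. -/
theorem orbit (Φ : (ι → ℤ) → ℝ) (h0 : ∀ x, 0 ≤ Φ x) {b b' : ℕ} (n : ℕ) (hb : 0 < b) (hb' : b' ∣ b)
    (hper : ∀ x y, (∀ i, (b : ℤ) ∣ x i - y i) → Φ x = Φ y)
    (hinv : ∀ u : ℕ, u.Coprime b → (b' : ℤ) ∣ (u : ℤ) - 1 → ∀ x, Φ (fun i => u * x i) = Φ x) :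
    (b : ℝ) * ∑ ξ ∈ (res ι b).filter (fun ξ => (b : ℤ) ∣ ξ ⬝ᵥ ξ - n), Φ ξ ≤
      2 * (b.divisors.card : ℝ) ^ 2 * b' * Nat.gcd n b * ∑ ξ ∈ res ι b, Φ ξ := by
  classical
  have hbz : (0 : ℤ) < b := by exact_mod_cast hb
  have hU := card_units_ge hb hb'
  set U := (range b).filter fun u : ℕ => u.Coprime b ∧ (b' : ℤ) ∣ (u : ℤ) - 1 with hUdef
  set S := (res ι b).filter (fun ξ => (b : ℤ) ∣ ξ ⬝ᵥ ξ - n) with hS
  have h1 : ∀ u ∈ U, ∑ ξ ∈ S, Φ ξ ≤
      ∑ η ∈ res ι b, if (b : ℤ) ∣ (u : ℤ) ^ 2 * n - η ⬝ᵥ η then Φ η else 0 := by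
    intro u hu
    simp only [hUdef, mem_filter, mem_range] at hu
    have hc : IsCoprime (b : ℤ) (u : ℤ) := Nat.isCoprime_iff_coprime.2 hu.2.1.symm
    let T : (ι → ℤ) → ι → ℤ := fun ξ i => (u * ξ i) % b
    have hT : ∀ ξ i, (b : ℤ) ∣ T ξ i - u * ξ i := fun ξ i => (Int.mod_modEq _ _).symm.dvd
    have hinj : Set.InjOn T S := by
      intro ξ hξ ξ' hξ' he
      have a1 := mem_res.1 (mem_filter.1 (mem_coe.1 hξ)).1
      have a2 := mem_res.1 (mem_filter.1 (mem_coe.1 hξ')).1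
      funext i
      have a3 : (b : ℤ) ∣ u * (ξ i - ξ' i) := by
        have := dvd_sub (hT ξ' i) (hT ξ i)
        rw [he] at this
        obtain ⟨t, ht⟩ := this
        exact ⟨t, by linear_combination ht⟩
      have a4 := hc.dvd_of_dvd_mul_left a3
      have a5 := Int.eq_zero_of_abs_lt_dvd a4
        (abs_lt.2 ⟨by linarith [(a1 i).1, (a2 i).2], by linarith [(a1 i).2, (a2 i).1]⟩)
      linarith
    rw [← sum_filter]
    calc ∑ ξ ∈ S, Φ ξ = ∑ ξ ∈ S, Φ (T ξ) := sum_congr rfl fun ξ _ => by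
          rw [hper (T ξ) (fun i => u * ξ i) (hT ξ), hinv u hu.2.1 hu.2.2]
      _ = ∑ η ∈ S.image T, Φ η := (sum_image hinj).symm
      _ ≤ _ := by
          refine sum_le_sum_of_subset_of_nonneg ?_ fun η _ _ => h0 η
          intro η hη
          obtain ⟨ξ, hξ, rfl⟩ := mem_image.1 hη
          refine mem_filter.2 ⟨mem_res.2 fun i =>
            ⟨Int.emod_nonneg _ hbz.ne', Int.emod_lt_of_pos _ hbz⟩, ?_⟩
          have a1 := (mem_filter.1 hξ).2
          have a2 : (b : ℤ) ∣ ∑ i, (T ξ i - u * ξ i) * (T ξ i + u * ξ i) :=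
            dvd_sum fun i _ => (hT ξ i).mul_right _
          have a3 : ∑ i, (T ξ i - u * ξ i) * (T ξ i + u * ξ i) =
              T ξ ⬝ᵥ T ξ - (u : ℤ) ^ 2 * (ξ ⬝ᵥ ξ) := by
            simp only [dotProduct, mul_sum, ← sum_sub_distrib]
            exact sum_congr rfl fun i _ => by ring
          rw [a3] at a2
          have a4 := (dvd_add a2 (a1.mul_left ((u : ℤ) ^ 2))).neg_right
          obtain ⟨t, ht⟩ := a4
          exact ⟨t, by linear_combination ht⟩
  have h2 : (U.card : ℝ) * ∑ ξ ∈ S, Φ ξ ≤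
      2 * (b.divisors.card : ℝ) * Nat.gcd n b * ∑ η ∈ res ι b, Φ η := by
    calc (U.card : ℝ) * ∑ ξ ∈ S, Φ ξ = ∑ _u ∈ U, ∑ ξ ∈ S, Φ ξ := by
          rw [sum_const, nsmul_eq_mul]
      _ ≤ ∑ u ∈ U, ∑ η ∈ res ι b, if (b : ℤ) ∣ (u : ℤ) ^ 2 * n - η ⬝ᵥ η then Φ η else 0 :=
          sum_le_sum h1
      _ = ∑ η ∈ res ι b, ∑ u ∈ U, if (b : ℤ) ∣ (u : ℤ) ^ 2 * n - η ⬝ᵥ η then Φ η else 0 :=
          sum_comm
      _ ≤ ∑ η ∈ res ι b, 2 * (b.divisors.card : ℝ) * Nat.gcd n b * Φ η := by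
          refine sum_le_sum fun η _ => ?_
          rw [← sum_filter, sum_const, nsmul_eq_mul]
          refine mul_le_mul_of_nonneg_right ?_ (h0 η)
          have a1 := card_sq_eq hb n (η ⬝ᵥ η)
          have a2 : (U.filter fun u : ℕ => (b : ℤ) ∣ (u : ℤ) ^ 2 * n - η ⬝ᵥ η).card ≤
              ((range b).filter fun u : ℕ =>
                u.Coprime b ∧ (b : ℤ) ∣ (u : ℤ) ^ 2 * n - η ⬝ᵥ η).card := by
            refine card_le_card fun u hu => ?_
            simp only [hUdef, mem_filter] at hu ⊢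
            exact ⟨hu.1.1, hu.1.2.1, hu.2⟩
          exact_mod_cast a2.trans a1
      _ = _ := by rw [mul_sum]
  have h3 : 0 ≤ ∑ ξ ∈ S, Φ ξ := sum_nonneg fun ξ _ => h0 ξ
  have h4 : (b : ℝ) ≤ (b.divisors.card : ℝ) * b' * U.card := by exact_mod_cast hU
  calc (b : ℝ) * ∑ ξ ∈ S, Φ ξ ≤ (b.divisors.card : ℝ) * b' * U.card * ∑ ξ ∈ S, Φ ξ :=
        mul_le_mul_of_nonneg_right h4 h3
    _ = (b.divisors.card : ℝ) * b' * (U.card * ∑ ξ ∈ S, Φ ξ) := by ring
    _ ≤ (b.divisors.card : ℝ) * b' *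
        (2 * (b.divisors.card : ℝ) * Nat.gcd n b * ∑ η ∈ res ι b, Φ η) :=
        mul_le_mul_of_nonneg_left h2 (by positivity)
    _ = _ := by ring

end Pool.Agent.P.MP_d565f2_an.LS
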