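import Pool.Agent.P.MP_d565f2_an.SR.RelPairs
import Pool.Agent.P.MP_d565f2_an.SR.ClsCount

set_option autoImplicit false

open Finset

namespace Pool.Agent.P.MP_d565f2_an.LS

variable {ι : Type} [Fintype ι] [DecidableEq ι]

theorem PairsA_fib {α β γ : Type} [DecidableEq β] {S : Finset α} (f : α → β) (g : α → γ)
    {t : Finset β} (F : β → Finset γ) {n : ℕ} (hf : ∀ a ∈ S, f a ∈ t) (hg : ∀ a ∈ S, g a ∈ F (f a))
    (inj : ∀ a a', f a = f a' → g a = g a' → a = a') (hn : ∀ y ∈ t, (F y).card ≤ n) :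
    S.card ≤ n * t.card :=
  card_le_mul_card_image_of_maps_to hf n fun y hy => (card_le_card_of_injOn g
    (fun a ha => by
      obtain ⟨h1, rfl⟩ := mem_filter.1 (mem_coe.1 ha)
      exact hg a h1)
    fun a ha a' ha' e => inj a a'
      ((mem_filter.1 (mem_coe.1 ha)).2.trans (mem_filter.1 (mem_coe.1 ha')).2.symm) e).trans
      (hn y hy)

theorem PairsA_card {b : ℕ} {T : Finset ℚ} (hT : ∀ t ∈ T, t.den = b ∧ 0 ≤ t ∧ t < 1) :
    T.card ≤ b :=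
  (card_le_card fun t ht => mem_filter.2
    ⟨mem_farey.2 ⟨(hT t ht).2.1, (hT t ht).2.2, (hT t ht).1.le⟩, (hT t ht).1⟩).trans
    (card_farey_den_eq b b)

/-- `δ` is the greatest common divisor of `b` and the doubled coordinates of `z`. -/
def PairsA_G (b δ : ℕ) (z : ι → ℤ) : Prop :=
  (∀ i, (δ : ℤ) ∣ 2 * z i) ∧ ∀ k : ℤ, (∀ i, (b : ℤ) ∣ k * (2 * z i)) → (b : ℤ) ∣ k * δ

omit [DecidableEq ι] in
theorem PairsA_ex (b : ℕ) (z : ι → ℤ) : ∃ δ, δ ∣ b ∧ PairsA_G b δ z := by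
  refine ⟨Int.gcd (univ.gcd fun i => 2 * z i) b, Int.natCast_dvd_natCast.1 (Int.gcd_dvd_right _ _),
    fun i => (Int.gcd_dvd_left _ _).trans (gcd_dvd (mem_univ i)), fun k hk => ?_⟩
  have h1 : (b : ℤ) ∣ univ.gcd fun i => k * (2 * z i) := dvd_gcd fun i _ => hk i
  rw [Finset.gcd_mul_left, ((normalize_associated k).mul_right _).dvd_iff_dvd_right] at h1
  rw [Int.gcd_eq_gcd_ab, mul_add, ← mul_assoc]
  exact dvd_add (h1.mul_right _) ((dvd_mul_right _ _).mul_left _)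

theorem PairsA_num {c δ : ℕ} (hc : 0 < c) {T : Finset ℚ}
    (hT : ∀ t ∈ T, t.den = δ * c ∧ 0 ≤ t ∧ t < 1)
    (h : ∀ t ∈ T, ∀ t' ∈ T, (c : ℤ) ∣ t.num - t'.num) : T.card ≤ δ := by
  have hc' : (0 : ℤ) < c := by exact_mod_cast hc
  refine (card_le_card_of_injOn (t := Ico (0 : ℤ) δ) (fun t => t.num / c) (fun t ht => ?_)
    fun t ht t' ht' e => ?_).trans_eq (by simp)
  · obtain ⟨h1, h2, h3⟩ := hT t ht
    refine mem_coe.2 (mem_Ico.2 ⟨Int.ediv_nonneg (Rat.num_nonneg.2 h2) hc'.le,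
      Int.ediv_lt_of_lt_mul hc' ?_⟩)
    have := Rat.num_lt_denom_iff.2 h3
    rw [h1] at this
    exact_mod_cast this
  · have e1 : t.num % c = t'.num % c := Int.modEq_iff_dvd.2 (h t' ht' t ht)
    have e2 : t.num / c = t'.num / c := e
    have e3 := Int.emod_add_mul_ediv t.num c
    have e4 := Int.emod_add_mul_ediv t'.num c
    rw [e1, e2] at e3
    exact Rat.ext (e3.symm.trans e4) ((hT t ht).1.trans (hT t' ht').1.symm)

theorem PairsA_pow {x δ : ℝ} {k : ℕ} (hx : 0 ≤ x) (hδ : 1 ≤ δ) (hk : k ≠ 0) :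
    δ * (x / δ) ^ k ≤ x ^ k := by
  rw [div_pow, mul_div_assoc', div_le_iff₀ (by positivity), mul_comm]
  exact mul_le_mul_of_nonneg_left (le_self_pow₀ hδ hk) (by positivity)

/- `pair_count` with D = b, `card_sph_le5`. -/
theorem AA_le1 {e : ℕ} (he : Fintype.card ι = e + 2) (he3 : 3 ≤ e) : ∃ C : ℝ, 0 ≤ C ∧
    ∀ (N R b w : ℕ) (T : Finset ℚ), 0 < N → N ≤ R ^ 2 → 0 < b →
      (∀ t ∈ T, t.den = b ∧ 0 ≤ t ∧ t < 1) → 1 ≤ w → (∀ t : ℕ, t ≤ R ^ 2 → t.divisors.card ≤ w) →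
      (AA ι N b T : ℝ) ≤ C * w ^ 2 * b ^ 2 * R ^ e * ((4 * R / b + 1 : ℕ) : ℝ) ^ e := by
  obtain ⟨C, hC, h⟩ := card_sph_le5 he he3
  refine ⟨10 * C, by positivity, fun N R b w T hN hR hb hT hw hτ => ?_⟩
  have h1 : AA ι N b T ≤ 10 * w ^ 2 * (4 * R / b + 1) ^ e * ((T ×ˢ T) ×ˢ sph ι N).card := by
    refine PairsA_fib (fun y => (y.1, y.2.1)) (fun y => y.2.2)
      (fun y : (ℚ × ℚ) × (ι → ℤ) => (sph ι N).filter fun z' =>
      ∀ i, (b : ℤ) ∣ 2 * (y.1.1.num * y.2 i - y.1.2.num * z' i)) (fun y hy => ?_) (fun y hy => ?_)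
      (fun y y' e1 e2 => ?_) fun y hy =>
        pair_count he hR hb hw hτ (fun i => y.1.1.num * y.2 i) (c' := y.1.2.num) ?_
    · have := mem_product.1 (mem_filter.1 hy).1
      exact mem_product.2 ⟨this.1, (mem_product.1 this.2).1⟩
    · exact mem_filter.2 ⟨(mem_product.1 (mem_product.1 (mem_filter.1 hy).1).2).2,
        (mem_filter.1 hy).2⟩
    · exact Prod.ext (Prod.ext_iff.1 e1).1 (Prod.ext (Prod.ext_iff.1 e1).2 e2)
    · rw [← (hT _ (mem_product.1 (mem_product.1 hy).1).2).1]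
      exact Rat.isCoprime_num_den _
  rw [card_product, card_product] at h1
  have h2 : (T.card : ℝ) ≤ b := by exact_mod_cast PairsA_card hT
  have h3 : √(N : ℝ) ≤ R := Real.sqrt_le_iff.2 ⟨Nat.cast_nonneg _, by exact_mod_cast hR⟩
  have h4 : ((sph ι N).card : ℝ) ≤ C * R ^ e := (h N hN).trans (by gcongr)
  calc (AA ι N b T : ℝ) ≤ 10 * w ^ 2 * ((4 * R / b + 1 : ℕ) : ℝ) ^ e *
        (T.card * T.card * (sph ι N).card) := by exact_mod_cast h1
    _ ≤ 10 * w ^ 2 * ((4 * R / b + 1 : ℕ) : ℝ) ^ e * (b * b * (C * R ^ e)) := by gcongr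
    _ = _ := by ring

/- T.card ≤ b (`card_farey_den_eq`).  Let δ = gcd of b and all 2 z' i, c = b / δ.  For fixed
t, z, z' at most δ fractions t' occur (c divides the difference of two numerators).  δ ∣ 2 z i
(t.num is coprime to b) and with ζ = 2 z / δ, ζ' = 2 z' / δ, u = t'.num * (inverse of t.num mod b)
the pair (z, z') is counted by `rel_pairs`.  Sum over δ ∣ b: δ (R / δ) ^ e ≤ R ^ e and
δ (R ^ 2 / (δ b)) ^ (e + 2) ≤ (R ^ 2 / b) ^ (e + 2). -/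
theorem AA_le2 {e : ℕ} (he : Fintype.card ι = e + 2) (he3 : 3 ≤ e) : ∃ C : ℝ, 0 ≤ C ∧
    ∀ (N R b w : ℕ) (T : Finset ℚ), 0 < N → N ≤ R ^ 2 → 0 < b →
      (∀ t ∈ T, t.den = b ∧ 0 ≤ t ∧ t < 1) → 1 ≤ w → b.divisors.card ≤ w →
      (∀ t : ℕ, t ≤ 10 ^ 5 * (e + 2) ^ 4 * (6 * R ^ 2) ^ 18 → t.divisors.card ≤ w) →
      1 + Real.log (6 * (R : ℝ) ^ 2) ≤ w →
      (AA ι N b T : ℝ) ≤ C * w ^ 6 * b * ((R : ℝ) ^ e + ((R : ℝ) ^ 2 / b) ^ (e + 2)) := by
  classical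
  obtain ⟨C, hC, h⟩ := rel_pairs he he3
  refine ⟨C, hC, fun N R b w T hN hR hb hT hw hd hτ hl => ?_⟩
  set S := ((T ×ˢ T) ×ˢ (sph ι N ×ˢ sph ι N)).filter fun y =>
    ∀ i, (b : ℤ) ∣ 2 * (y.1.1.num * y.2.1 i - y.1.2.num * y.2.2 i) with hS
  have h2 : (T.card : ℝ) ≤ b := by exact_mod_cast PairsA_card hT
  have hw' : (1 : ℝ) ≤ w := by exact_mod_cast hw
  have key : ∀ δ ∈ b.divisors, ((S.filter fun y => PairsA_G b δ y.2.2).card : ℝ) ≤
      C * w ^ 5 * b * ((R : ℝ) ^ e + ((R : ℝ) ^ 2 / b) ^ (e + 2)) := by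
    intro δ hδ
    obtain ⟨c, hc⟩ := Nat.dvd_of_mem_divisors hδ
    have d0 : 0 < δ := Nat.pos_of_mem_divisors hδ
    have c0 : 0 < c := Nat.pos_of_mul_pos_left (hc ▸ hb)
    have hc' : (b : ℤ) = δ * c := by exact_mod_cast hc
    have h3 := h N R δ c w hN hR d0 c0 hw hτ hl
    set P := (sph ι N ×ˢ sph ι N).filter fun p => ∃ (ζ ζ' : ι → ℤ) (u : ℤ), ∀ i,
      2 * p.1 i = δ * ζ i ∧ 2 * p.2 i = δ * ζ' i ∧ (c : ℤ) ∣ ζ i - u * ζ' i
    have h4 : (S.filter fun y => PairsA_G b δ y.2.2).card ≤ δ * (T ×ˢ P).card := by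
      refine PairsA_fib (fun y => (y.1.1, y.2)) (fun y => y.1.2)
        (fun y : ℚ × (ι → ℤ) × (ι → ℤ) => T.filter fun t' =>
        PairsA_G b δ y.2.2 ∧ ∀ i, (b : ℤ) ∣ 2 * (y.1.num * y.2.1 i - t'.num * y.2.2 i))
        (fun y hy => ?_) (fun y hy => ?_) (fun y y' e1 e2 => ?_) fun y _ =>
          PairsA_num c0 (fun t ht => hc ▸ hT t (mem_filter.1 ht).1) fun t ht t' ht' => ?_
      · obtain ⟨h5, h6⟩ := mem_filter.1 hy
        obtain ⟨h5, h7⟩ := mem_filter.1 h5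
        obtain ⟨h5, h8⟩ := mem_product.1 h5
        have h9 := (mem_product.1 h5).1
        refine mem_product.2 ⟨h9, mem_filter.2 ⟨h8, ?_⟩⟩
        obtain ⟨α, β, e1⟩ := Rat.isCoprime_num_den y.1.1
        rw [(hT _ h9).1, hc'] at e1
        choose ζ' hζ using h6.1
        choose k hk using h7
        refine ⟨fun i => c * (α * k i + 2 * β * y.2.1 i) + α * y.1.2.num * ζ' i, ζ',
          α * y.1.2.num, fun i => ⟨?_, hζ i, by simp⟩⟩
        have e2 := hk i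
        rw [hc'] at e2
        linear_combination (-2 * y.2.1 i) * e1 + α * e2 + α * y.1.2.num * hζ i
      · obtain ⟨h5, h6⟩ := mem_filter.1 hy
        obtain ⟨h5, h7⟩ := mem_filter.1 h5
        exact mem_filter.2 ⟨(mem_product.1 (mem_product.1 h5).1).2, h6, h7⟩
      · exact Prod.ext (Prod.ext (Prod.ext_iff.1 e1).1 e2) (Prod.ext_iff.1 e1).2
      · obtain ⟨-, h5, h6⟩ := mem_filter.1 ht
        have h7 := h5.2 (t.num - t'.num) fun i =>
          (dvd_sub ((mem_filter.1 ht').2.2 i) (h6 i)).trans (dvd_of_eq (by ring))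
        rw [hc', mul_comm (δ : ℤ)] at h7
        exact (mul_dvd_mul_iff_right (by exact_mod_cast d0.ne')).1 h7
    have d1 : (1 : ℝ) ≤ δ := by exact_mod_cast d0
    have e1 : (R : ℝ) ^ 2 / (δ ^ 2 * c) = (R : ℝ) ^ 2 / b / δ := by
      rw [hc, div_div]
      push_cast
      ring
    have h5 := PairsA_pow (k := e) (Nat.cast_nonneg R) d1 (by omega)
    have h6 := PairsA_pow (x := (R : ℝ) ^ 2 / b) (k := e + 2) (by positivity) d1 (by omega)
    have h7 : (R : ℝ) ^ e ≤ w ^ 5 * R ^ e :=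
      le_mul_of_one_le_left (by positivity) (one_le_pow₀ hw')
    rw [card_product] at h4
    rw [e1] at h3
    calc ((S.filter fun y => PairsA_G b δ y.2.2).card : ℝ) ≤ δ * (T.card * P.card) := by
          exact_mod_cast h4
      _ ≤ δ * (b * (C * (((R : ℝ) / δ) ^ e + w ^ 5 * ((R : ℝ) ^ 2 / b / δ) ^ (e + 2)))) := by
          gcongr
      _ = C * b * (δ * ((R : ℝ) / δ) ^ e + w ^ 5 * (δ * ((R : ℝ) ^ 2 / b / δ) ^ (e + 2))) := by
          ring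
      _ ≤ C * b * (w ^ 5 * R ^ e + w ^ 5 * ((R : ℝ) ^ 2 / b) ^ (e + 2)) := by
          have h8 := h5.trans h7
          gcongr C * b * (?_ + w ^ 5 * ?_)
      _ = _ := by ring
  have h3 : S.card ≤ ∑ δ ∈ b.divisors, (S.filter fun y => PairsA_G b δ y.2.2).card := by
    refine (card_le_card fun y hy => ?_).trans card_biUnion_le
    obtain ⟨δ, h4, h5⟩ := PairsA_ex b y.2.2
    exact mem_biUnion.2 ⟨δ, Nat.mem_divisors.2 ⟨h4, hb.ne'⟩, mem_filter.2 ⟨hy, h5⟩⟩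
  have h4 : (b.divisors.card : ℝ) ≤ w := by exact_mod_cast hd
  calc (AA ι N b T : ℝ)
      ≤ ∑ δ ∈ b.divisors, ((S.filter fun y => PairsA_G b δ y.2.2).card : ℝ) := by
        exact_mod_cast h3
    _ ≤ b.divisors.card • (C * w ^ 5 * b * ((R : ℝ) ^ e + ((R : ℝ) ^ 2 / b) ^ (e + 2))) :=
        sum_le_card_nsmul _ _ _ key
    _ ≤ w * (C * w ^ 5 * b * ((R : ℝ) ^ e + ((R : ℝ) ^ 2 / b) ^ (e + 2))) := by
        rw [nsmul_eq_mul]
        gcongr
    _ = _ := by ring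

end Pool.Agent.P.MP_d565f2_an.LS
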