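import Pool.Agent.P.MP_d565f2_an.SR.CDefs

set_option autoImplicit false

open Finset

namespace Pool.Agent.P.MP_d565f2_an.LS

variable {ι : Type} [Fintype ι] [DecidableEq ι]

theorem Parseval_den (t : ℚ) : (t : ℝ) * (t.den : ℝ) = (t.num : ℝ) := by
  exact_mod_cast Rat.mul_den_eq_num t

theorem GG_per {N b : ℕ} {T : Finset ℚ} (hT : ∀ t ∈ T, t.den = b) {x y : ι → ℤ}
    (h : ∀ i, (b : ℤ) ∣ x i - y i) : GG ι N T x = GG ι N T y := by
  choose k hk using h
  refine sum_congr rfl fun t ht => sum_congr rfl fun z _ => ?_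
  rw [← ex_add_int (∑ i, (t : ℝ) * ((2 * y i : ℤ) : ℝ) * z i) (∑ i, 2 * t.num * k i * z i)]
  congr 1
  push_cast
  rw [← sum_add_distrib]
  refine sum_congr rfl fun i _ => ?_
  have h1 := Parseval_den t
  rw [hT t ht] at h1
  have h2 : (x i : ℝ) - y i = b * k i := by exact_mod_cast hk i
  linear_combination 2 * (t : ℝ) * z i * h2 + 2 * (k i : ℝ) * z i * h1

theorem Parseval_inj {b : ℕ} {T : Finset ℚ} (hT : ∀ t ∈ T, t.den = b ∧ 0 ≤ t ∧ t < 1) {u : ℕ}
    (hu : u.Coprime b) : Set.InjOn (fun t : ℚ => Int.fract ((u : ℚ) * t)) T := by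
  intro t ht t' ht' h
  obtain ⟨a1, a2, a3⟩ := hT t ht
  obtain ⟨b1, b2, b3⟩ := hT t' ht'
  obtain ⟨k, hk⟩ := Int.fract_eq_fract.1 h
  have e1 := Rat.mul_den_eq_num t
  have e2 := Rat.mul_den_eq_num t'
  rw [a1] at e1
  rw [b1] at e2
  have hb : (0 : ℚ) < b := by rw [← a1]; exact_mod_cast t.pos
  have h1 : (b : ℤ) ∣ (u : ℤ) * (t.num - t'.num) := by
    refine ⟨k, ?_⟩
    have : (u : ℚ) * (t.num - t'.num) = b * k := by
      linear_combination (b : ℚ) * hk - u * e1 + u * e2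
    exact_mod_cast this
  obtain ⟨m, hm⟩ := (Nat.isCoprime_iff_coprime.2 hu.symm).dvd_of_dvd_mul_left h1
  have h2 : t - t' = m := by
    have : (t.num : ℚ) - t'.num = b * m := by exact_mod_cast hm
    refine mul_left_cancel₀ hb.ne' ?_
    linear_combination this + e1 - e2
  have h3 : (m : ℚ) < 1 := by linarith
  have h4 : (-1 : ℚ) < m := by linarith
  have h5 : m < 1 := by exact_mod_cast h3
  have h6 : -1 < m := by exact_mod_cast h4
  have h7 : m = 0 := by omega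
  rw [h7] at h2
  simpa [sub_eq_zero] using h2

theorem GG_inv {N b : ℕ} {T : Finset ℚ} (hT : ∀ t ∈ T, t.den = b ∧ 0 ≤ t ∧ t < 1) {u : ℕ}
    (hu : u.Coprime b) (h : ∀ t ∈ T, Int.fract ((u : ℚ) * t) ∈ T) (x : ι → ℤ) :
    GG ι N T (fun i => u * x i) = GG ι N T x := by
  have hi := Parseval_inj hT hu
  have him : T.image (fun t : ℚ => Int.fract ((u : ℚ) * t)) = T := by
    refine eq_of_subset_of_card_le (fun s hs => ?_) (card_image_of_injOn hi).ge
    obtain ⟨t, ht, rfl⟩ := mem_image.1 hs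
    exact h t ht
  conv_rhs => rw [GG, ← him, sum_image hi]
  refine sum_congr rfl fun t _ => sum_congr rfl fun z _ => ?_
  rw [← ex_add_int (∑ i, ((Int.fract ((u : ℚ) * t) : ℚ) : ℝ) * ((2 * x i : ℤ) : ℝ) * z i)
    (∑ i, ⌊(u : ℚ) * t⌋ * (2 * x i) * z i)]
  congr 1
  rw [Int.fract]
  push_cast
  rw [← sum_add_distrib]
  exact sum_congr rfl fun i _ => by ring

theorem Parseval_one {b : ℕ} (hb : 0 < b) (g : ℤ) :
    ∑ r ∈ Ico (0 : ℤ) b, ex ((r : ℝ) * g / b) = if (b : ℤ) ∣ g then (b : ℂ) else 0 := by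
  rw [← sum_ex b hb g]
  symm
  refine sum_nbij (fun r : ℕ => (r : ℤ)) ?_ ?_ ?_ ?_
  · intro r hr
    rw [mem_range] at hr
    rw [mem_Ico]; omega
  · intro r _ s _ h
    exact Nat.cast_injective (R := ℤ) h
  · intro r hr
    rw [mem_coe, mem_Ico] at hr
    exact ⟨r.toNat, by rw [mem_coe, mem_range]; omega, by simp only []; omega⟩
  · intro r _
    simp

omit [DecidableEq ι] in
theorem Parseval_prod (f : ι → ℝ) : ex (∑ i, f i) = ∏ i, ex (f i) := by
  classical
  induction (univ : Finset ι) using Finset.induction_on with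
  | empty => simp [ex_zero]
  | insert j s hj ih => rw [sum_insert hj, prod_insert hj, ex_add, ih]

theorem Parseval_res {b : ℕ} (hb : 0 < b) (η : ι → ℤ) :
    ∑ ξ ∈ res ι b, ex (∑ i, (ξ i : ℝ) * η i / b)
      = if ∀ i, (b : ℤ) ∣ η i then (b : ℂ) ^ Fintype.card ι else 0 := by
  simp only [Parseval_prod]
  rw [res, ← prod_univ_sum (fun _ : ι => Ico (0 : ℤ) b) (fun i r => ex ((r : ℝ) * η i / b))]
  simp only [Parseval_one hb]
  split_ifs with h
  · simp [h]
  · push Not at h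
    obtain ⟨i, hi⟩ := h
    exact prod_eq_zero (mem_univ i) (if_neg hi)

theorem parseval {N b : ℕ} (hb : 0 < b) {T : Finset ℚ} (hT : ∀ t ∈ T, t.den = b) :
    ∑ ξ ∈ res ι b, ‖GG ι N T ξ‖ ^ 2 = (b : ℝ) ^ Fintype.card ι * AA ι N b T := by
  have hb' : (b : ℝ) ≠ 0 := by positivity
  have e1 : ∀ ξ : ι → ℤ, ((‖GG ι N T ξ‖ ^ 2 : ℝ) : ℂ)
      = ∑ y ∈ (T ×ˢ T) ×ˢ (sph ι N ×ˢ sph ι N), ex (∑ i, (ξ i : ℝ) *
        ((2 * (y.1.1.num * y.2.1 i - y.1.2.num * y.2.2 i) : ℤ) : ℝ) / b) := by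
    intro ξ
    rw [← Complex.normSq_eq_norm_sq, ← Complex.mul_conj, GG, map_sum, sum_mul_sum,
      sum_product, sum_product]
    refine sum_congr rfl fun t ht => sum_congr rfl fun t' ht' => ?_
    rw [FF, FF, map_sum, sum_mul_sum, sum_product]
    refine sum_congr rfl fun z _ => sum_congr rfl fun z' _ => ?_
    rw [conj_ex, ← ex_add]
    congr 1
    rw [← sub_eq_add_neg, ← sum_sub_distrib]
    refine sum_congr rfl fun i _ => ?_
    have h1 := Parseval_den t
    have h2 := Parseval_den t'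
    rw [hT t ht] at h1
    rw [hT t' ht'] at h2
    push_cast
    rw [← h1, ← h2]
    field_simp
  refine Complex.ofReal_injective ?_
  rw [Complex.ofReal_sum]
  simp only [e1]
  rw [sum_comm]
  simp only [Parseval_res hb]
  rw [← sum_filter, sum_const, nsmul_eq_mul, AA]
  push_cast
  ring

end Pool.Agent.P.MP_d565f2_an.LS
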