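import Pool.Agent.P.MP_d565f2_an.SR.ClsBig
import Pool.Agent.P.MP_d565f2_an.SR.Orbit
import Pool.Agent.P.MP_d565f2_an.SR.Parseval
import Pool.Agent.P.MP_d565f2_an.SR.PairsA
import Pool.Agent.P.MP_d565f2_an.SR.Arith5

set_option autoImplicit false

open Finset

namespace Pool.Agent.P.MP_d565f2_an.LS

variable {ι : Type} [Fintype ι] [DecidableEq ι]

/- Group the points x by ξ = x mod b ∈ res ι b (b ∣ ξ ξ - n, `GG_per`); `class_big`, `orbit` for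
Φ = ‖GG ..‖ ^ 2 (`GG_inv`), `parseval`. -/
theorem mean_sq5 {e : ℕ} (he : Fintype.card ι = e + 2) (he3 : 3 ≤ e)
    {n lam N b b' V V' w Z : ℕ} {T : Finset ℚ} (hn : n ≤ lam ^ 2) (hb : 0 < b) (hb' : b' ∣ b)
    (hV : b < (V + 1) ^ 5) (hV' : b < (V' + 1) ^ 4) (hV1 : 1 ≤ V) (hV1' : 1 ≤ V') (hVb : V ≤ b)
    (hVb' : V' ≤ b) (hZ : lam ≤ Z) (hbZ : b ≤ Z) (hw : 1 ≤ w)
    (hτ : ∀ t : ℕ, t ≤ 10 ^ 5 * (e + 2) ^ 4 * Z ^ 18 → t.divisors.card ≤ w)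
    (hτb : b.divisors.card ≤ w) (hT : ∀ t ∈ T, t.den = b ∧ 0 ≤ t ∧ t < 1)
    (hinv : ∀ u : ℕ, u.Coprime b → (b' : ℤ) ∣ (u : ℤ) - 1 → ∀ t ∈ T, Int.fract ((u : ℚ) * t) ∈ T) :
    ∑ x ∈ psph ι n, ‖GG ι N T x‖ ^ 2 ≤ 40 * 11 ^ (e + 2) * (w : ℝ) ^ 4 * b' * Nat.gcd n b *
      ((2 * lam / b + b : ℕ) : ℝ) ^ e * b ^ e * ((V * V' : ℕ) * AA ι N b T) := by
  classical
  have hb0 : (0 : ℤ) < b := by exact_mod_cast hb
  have hb1 : (0 : ℝ) < b := by exact_mod_cast hb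
  have hper : ∀ x y : ι → ℤ, (∀ i, (b : ℤ) ∣ x i - y i) → ‖GG ι N T x‖ ^ 2 = ‖GG ι N T y‖ ^ 2 :=
    fun x y h => by rw [GG_per (fun t ht => (hT t ht).1) h]
  have h1 := orbit (fun x => ‖GG ι N T x‖ ^ 2) (fun _ => sq_nonneg _) n hb hb' hper
    fun u hu hu' x => by rw [GG_inv hT hu (hinv u hu hu')]
  rw [parseval hb (fun t ht => (hT t ht).1), he] at h1
  have hm : ∀ (x : ι → ℤ) i, (b : ℤ) ∣ x i - x i % b := fun x i => Int.dvd_self_sub_emod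
  have hmap : ∀ x ∈ psph ι n, (fun i => x i % b) ∈
      (res ι b).filter (fun ξ => (b : ℤ) ∣ ξ ⬝ᵥ ξ - n) := fun x hx => by
    refine mem_filter.2 ⟨mem_res.2 fun i => ⟨Int.emod_nonneg _ hb0.ne', Int.emod_lt_of_pos _ hb0⟩,
      ?_⟩
    rw [← mem_sph.1 (mem_psph.1 hx).1, dotProduct, dotProduct, ← sum_sub_distrib]
    refine dvd_sum fun i _ => ?_
    have : x i % b * (x i % b) - x i * x i = (x i - x i % b) * -(x i + x i % b) := by ring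
    exact this ▸ (hm x i).mul_right _
  obtain ⟨K, hK⟩ : ∃ K : ℕ, K = 20 * 11 ^ (e + 2) * w ^ 2 * (V * V') * (2 * lam / b + b) ^ e :=
    ⟨_, rfl⟩
  have h2 : (b : ℝ) * ∑ x ∈ psph ι n, ‖GG ι N T x‖ ^ 2 ≤
      K * ∑ ξ ∈ (res ι b).filter (fun ξ => (b : ℤ) ∣ ξ ⬝ᵥ ξ - n), ‖GG ι N T ξ‖ ^ 2 := by
    rw [← sum_fiberwise_of_maps_to hmap, mul_sum, mul_sum]
    refine sum_le_sum fun ξ _ => ?_
    have a1 : ∀ x ∈ (psph ι n).filter (fun x => (fun i => x i % (b : ℤ)) = ξ), ∀ i,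
        (b : ℤ) ∣ x i - ξ i := fun x hx i => by
      rw [← (mem_filter.1 hx).2]
      exact hm x i
    have a2 := class_big he he3 hn hb hV hV' hV1 hV1' hVb hVb' hZ hbZ hw hτ ξ
    have a3 : b * ((psph ι n).filter (fun x => (fun i => x i % (b : ℤ)) = ξ)).card ≤ K :=
      (Nat.mul_le_mul_left b (card_le_card fun x hx =>
        mem_filter.2 ⟨(mem_filter.1 hx).1, a1 x hx⟩)).trans (hK ▸ a2)
    rw [sum_congr rfl fun x hx => hper x ξ (a1 x hx), sum_const, nsmul_eq_mul, ← mul_assoc]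
    exact mul_le_mul_of_nonneg_right (by exact_mod_cast a3) (sq_nonneg _)
  have h3 : (b.divisors.card : ℝ) ≤ w := by exact_mod_cast hτb
  refine le_of_mul_le_mul_left ?_ (mul_pos hb1 hb1)
  calc _ = (b : ℝ) * (b * ∑ x ∈ psph ι n, ‖GG ι N T x‖ ^ 2) := mul_assoc _ _ _
    _ ≤ b * (K * _) := mul_le_mul_of_nonneg_left h2 hb1.le
    _ = K * (b * _) := mul_left_comm _ _ _
    _ ≤ K * _ := mul_le_mul_of_nonneg_left h1 (Nat.cast_nonneg K)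
    _ ≤ K * (2 * (w : ℝ) ^ 2 * b' * Nat.gcd n b * ((b : ℝ) ^ (e + 2) * AA ι N b T)) := by gcongr
    _ = _ := by
      rw [hK, Nat.cast_mul, Nat.cast_mul, Nat.cast_pow (2 * lam / b + b)]
      generalize ((2 * lam / b + b : ℕ) : ℝ) = Y
      push_cast
      ring

/- V ^ 5 ≤ b < (V + 1) ^ 5, V' ^ 4 ≤ b < (V' + 1) ^ 4 (`Nat.nthRoot` or `Nat.find`), lam = R ^ (e + 1),
Z = R ^ (e + 2); (2 lam / b + b) b ≤ 3 w ^ 4 lam.  `mean_sq5`, `AA_le1`, `AA_le2`, `VA_le` give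
w ^ 22 ∑ ‖G‖ ^ 2 ≤ C lam ^ e R ^ (2 e) gcd; then `sq_sum_le_card_mul_sum_sq`, `card_sph_le5` as in
`mean_one` (SR/Minor.lean). -/
theorem mean_one5 {e : ℕ} (he : Fintype.card ι = e + 2) (he3 : 3 ≤ e) : ∃ C : ℝ, 0 ≤ C ∧
    ∀ (n N R b b' w : ℕ) (T : Finset ℚ), 0 < n → n ≤ (R ^ (e + 1)) ^ 2 → 0 < N → N ≤ R ^ 2 →
      w ^ (8 * e + 60) < b → b ≤ w ^ 2 * R ^ 2 → b' ∣ b → b' ≤ w ^ 2 →
      (∀ t ∈ T, t.den = b ∧ 0 ≤ t ∧ t < 1) →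
      (∀ u : ℕ, u.Coprime b → (b' : ℤ) ∣ (u : ℤ) - 1 → ∀ t ∈ T, Int.fract ((u : ℚ) * t) ∈ T) →
      10 * (e + 2) ≤ w → w ^ (50 * e + 400) ≤ R →
      (∀ t : ℕ, t ≤ R ^ (20 * (e + 2)) → t.divisors.card ≤ w) →
      1 + Real.log (6 * (R : ℝ) ^ 2) ≤ w →
      (w : ℝ) ^ 11 * ∑ x ∈ psph ι n, ‖GG ι N T x‖ ≤
        C * ((R : ℝ) ^ (e + 1)) ^ e * R ^ e * Nat.gcd n b := by
  obtain ⟨C1, hC1, h1⟩ := AA_le1 he he3
  obtain ⟨C2, hC2, h2⟩ := AA_le2 he he3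
  obtain ⟨C3, hC3, h3⟩ := VA_le he3 hC1 hC2
  obtain ⟨C4, hC4, h4⟩ := card_sph_le5 he he3
  refine ⟨√(C4 * (40 * 11 ^ (e + 2) * 3 ^ e * C3)), Real.sqrt_nonneg _, ?_⟩
  intro n N R b b' w T hn hnR hN hNR hb1 hb2 hb' hb'w hT hinv hw hR hτ hlog
  have hb0 : 0 < b := by omega
  have hw1 : 1 ≤ w := by omega
  have hwR : ∀ k, k ≤ 400 → w ^ k ≤ R := fun k hk =>
    (Nat.pow_le_pow_right hw1 (by omega)).trans hR
  have hR6 : 6 ≤ R := by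
    have := hwR 1 (by norm_num)
    rw [pow_one] at this
    omega
  have hRp : ∀ i j, i ≤ j → R ^ i ≤ R ^ j := fun i j h => Nat.pow_le_pow_right (by omega) h
  have hb3 : b ≤ R ^ (e + 2) :=
    calc b ≤ R * R ^ 2 := hb2.trans (Nat.mul_le_mul_right _ (hwR 2 (by norm_num)))
      _ = R ^ 3 := by ring
      _ ≤ _ := hRp _ _ (by omega)
  have h6 : 6 * R ^ 2 ≤ R ^ (e + 2) :=
    calc 6 * R ^ 2 ≤ R * R ^ 2 := Nat.mul_le_mul_right _ hR6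
      _ = R ^ 3 := by ring
      _ ≤ _ := hRp _ _ (by omega)
  have hZ : 10 ^ 5 * (e + 2) ^ 4 * (R ^ (e + 2)) ^ 18 ≤ R ^ (20 * (e + 2)) := by
    have a1 : 10 ^ 5 * (e + 2) ^ 4 ≤ R :=
      calc 10 ^ 5 * (e + 2) ^ 4 = 10 * (10 * (e + 2)) ^ 4 := by ring
        _ ≤ w * w ^ 4 := Nat.mul_le_mul (by omega) (Nat.pow_le_pow_left hw 4)
        _ = w ^ 5 := by ring
        _ ≤ R := hwR 5 (by norm_num)
    calc _ ≤ R * (R ^ (e + 2)) ^ 18 := Nat.mul_le_mul_right _ a1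
      _ = R ^ ((e + 2) * 18 + 1) := by rw [← pow_mul, pow_succ']
      _ ≤ _ := hRp _ _ (by omega)
  have hτb := hτ b (hb3.trans (hRp _ _ (by omega)))
  have root : ∀ k, k ≠ 0 → ∃ V, V ^ k ≤ b ∧ b < (V + 1) ^ k ∧ 1 ≤ V ∧ V ≤ b := fun k hk => by
    have a1 : Nat.nthRoot k b ^ k ≤ b := Nat.pow_nthRoot_le (.inl hk)
    have a2 := Nat.lt_pow_nthRoot_add_one hk b
    refine ⟨_, a1, a2, Nat.pos_of_ne_zero fun h => ?_, (Nat.le_self_pow hk _).trans a1⟩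
    rw [h, zero_add, one_pow] at a2
    omega
  obtain ⟨V, v1, v2, v3, v4⟩ := root 5 (by norm_num)
  obtain ⟨V', u1, u2, u3, u4⟩ := root 4 (by norm_num)
  have hVV : (V * V') ^ 20 ≤ b ^ 9 :=
    calc (V * V') ^ 20 = (V ^ 5) ^ 4 * (V' ^ 4) ^ 5 := by ring
      _ ≤ b ^ 4 * b ^ 5 := Nat.mul_le_mul (Nat.pow_le_pow_left v1 4) (Nat.pow_le_pow_left u1 5)
      _ = _ := by ring
  have a1 := mean_sq5 (N := N) he he3 hnR hb0 hb' v2 u2 v3 u3 v4 u4 (hRp _ _ (Nat.le_succ _)) hb3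
    hw1 (fun t ht => hτ t (ht.trans hZ)) hτb hT hinv
  have a2 := h3 R b (V * V') w _ hw1 hR hb1 hb2 hVV
    (h1 N R b w T hN hNR hb0 hT hw1 fun t ht => hτ t (ht.trans (hRp _ _ (by omega))))
    (h2 N R b w T hN hNR hb0 hT hw1 hτb (fun t ht => hτ t ((ht.trans
      (Nat.mul_le_mul_left _ (Nat.pow_le_pow_left h6 18))).trans hZ)) hlog)
  have a3 : (2 * R ^ (e + 1) / b + b) * b ≤ 3 * (w ^ 4 * R ^ (e + 1)) := by
    have c1 := Nat.div_mul_le_self (2 * R ^ (e + 1)) b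
    have c2 : b * b ≤ w ^ 4 * R ^ (e + 1) :=
      calc b * b ≤ w ^ 2 * R ^ 2 * (w ^ 2 * R ^ 2) := Nat.mul_le_mul hb2 hb2
        _ = w ^ 4 * R ^ 4 := by ring
        _ ≤ _ := Nat.mul_le_mul_left _ (hRp _ _ (by omega))
    have c3 : R ^ (e + 1) ≤ w ^ 4 * R ^ (e + 1) := Nat.le_mul_of_pos_left _ (by positivity)
    rw [add_mul]
    omega
  have a4 : √(n : ℝ) ≤ (R : ℝ) ^ (e + 1) := by
    rw [Real.sqrt_le_left (by positivity)]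
    exact_mod_cast hnR
  have a5 : ((psph ι n).card : ℝ) ≤ C4 * ((R : ℝ) ^ (e + 1)) ^ e := by
    have c1 : ((psph ι n).card : ℝ) ≤ (sph ι n).card := by
      exact_mod_cast card_le_card fun x hx => (mem_psph.1 hx).1
    exact (c1.trans (h4 n hn)).trans (by gcongr)
  have a6 := sq_sum_le_card_mul_sum_sq (s := psph ι n) (f := fun x => ‖GG ι N T x‖)
  have a3' : ((2 * R ^ (e + 1) / b + b : ℕ) : ℝ) * b ≤ 3 * ((w : ℝ) ^ 4 * (R : ℝ) ^ (e + 1)) := by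
    exact_mod_cast a3
  have b1 : (b' : ℝ) ≤ (w : ℝ) ^ 2 := by exact_mod_cast hb'w
  have g1 : (1 : ℝ) ≤ Nat.gcd n b := by exact_mod_cast Nat.gcd_pos_of_pos_right n hb0
  have y0 : (0 : ℝ) ≤ ((2 * R ^ (e + 1) / b + b : ℕ) : ℝ) := Nat.cast_nonneg _
  have z0 : (0 : ℝ) ≤ ((V * V' : ℕ) : ℝ) * AA ι N b T := by positivity
  generalize ((2 * R ^ (e + 1) / b + b : ℕ) : ℝ) = Y at a1 a3' y0
  generalize ((V * V' : ℕ) : ℝ) * (AA ι N b T : ℝ) = A at a1 a2 z0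
  generalize (Nat.gcd n b : ℝ) = g at a1 g1 ⊢
  have l0 : (0 : ℝ) ≤ (R : ℝ) ^ (e + 1) := by positivity
  generalize (R : ℝ) ^ (e + 1) = l at a3' a5 l0 ⊢
  have g0 : 0 ≤ g := zero_le_one.trans g1
  have a7 : (w : ℝ) ^ 22 * ∑ x ∈ psph ι n, ‖GG ι N T x‖ ^ 2 ≤
      40 * 11 ^ (e + 2) * 3 ^ e * (g * g) * l ^ e * (C3 * (R : ℝ) ^ (2 * e)) :=
    calc _ ≤ (w : ℝ) ^ 22 * _ := mul_le_mul_of_nonneg_left a1 (by positivity)
      _ = (w : ℝ) ^ 26 * (40 * 11 ^ (e + 2) * b' * (g * 1) * (Y * b) ^ e * A) := by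
        rw [mul_pow]
        ring
      _ ≤ (w : ℝ) ^ 26 * (40 * 11 ^ (e + 2) * (w : ℝ) ^ 2 * (g * g) *
          (3 * ((w : ℝ) ^ 4 * l)) ^ e * A) := by gcongr
      _ = 40 * 11 ^ (e + 2) * 3 ^ e * (g * g) * l ^ e * ((w : ℝ) ^ (4 * e + 28) * A) := by
        rw [mul_pow, mul_pow, ← pow_mul]
        ring
      _ ≤ _ := mul_le_mul_of_nonneg_left a2 (by positivity)
  refine abs_le_of_sq_le_sq' ?_ (by positivity) |>.2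
  have a8 : 0 ≤ ∑ x ∈ psph ι n, ‖GG ι N T x‖ ^ 2 := sum_nonneg fun _ _ => by positivity
  calc ((w : ℝ) ^ 11 * ∑ x ∈ psph ι n, ‖GG ι N T x‖) ^ 2
      = (w : ℝ) ^ 22 * (∑ x ∈ psph ι n, ‖GG ι N T x‖) ^ 2 := by ring
    _ ≤ (w : ℝ) ^ 22 * ((C4 * l ^ e) * ∑ x ∈ psph ι n, ‖GG ι N T x‖ ^ 2) :=
        mul_le_mul_of_nonneg_left (a6.trans (mul_le_mul_of_nonneg_right a5 a8)) (by positivity)
    _ = (C4 * l ^ e) * ((w : ℝ) ^ 22 * ∑ x ∈ psph ι n, ‖GG ι N T x‖ ^ 2) := by ring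
    _ ≤ (C4 * l ^ e) * _ := mul_le_mul_of_nonneg_left a7 (by positivity)
    _ = _ := by
        rw [mul_pow, mul_pow, mul_pow, Real.sq_sqrt (by positivity)]
        ring

end Pool.Agent.P.MP_d565f2_an.LS
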