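import Pool.Agent.P.MP_d565f2_an.SR.BDefs

set_option autoImplicit false

open MvPolynomial Finset Module

namespace Pool.Agent.P.MP_d565f2_an.LS

variable {σ : Type} [Fintype σ] [DecidableEq σ]

/- `pow_dvd_det` as at the end of `class_rank` (LS/LocA.lean). -/
theorem minor_dvd {Y ι κ : Type} [Fintype κ] (z : Y → ι → ℤ) (p : ℤ) (c : κ → ι → ℤ)
    (h : ∀ y, ∃ a : κ → ℤ, ∀ j, p ∣ z y j - ∑ i, a i * c i j) {t : ℕ} (a : Fin t → Y)
    (b : Fin t → ι) : p ^ (t - Fintype.card κ) ∣ (Matrix.of fun s u => z (a s) (b u)).det := by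
  have hdvd := pow_dvd_det (Matrix.of fun u s => z (a s) (b u)) p
    (Submodule.span ℚ (Set.range fun (i : κ) (u : Fin t) => ((c i (b u) : ℤ) : ℚ)))
    (κ := Fintype.card κ) (finrank_range_le_card _) fun s => by
      obtain ⟨r, hr⟩ := h (a s)
      refine ⟨∑ i, ((r i : ℤ) : ℚ) • fun u : Fin t => ((c i (b u) : ℤ) : ℚ),
        Submodule.sum_mem _ fun i _ => Submodule.smul_mem _ _ (Submodule.subset_span ⟨i, rfl⟩),
        fun u => ?_⟩
      obtain ⟨k, hk⟩ := hr (b u)
      refine ⟨k, ?_⟩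
      rw [Matrix.of_apply, sub_eq_iff_eq_add'.1 hk]
      simp
  rw [Fintype.card_fin, ← Matrix.det_transpose] at hdvd
  exact hdvd

/- `Matrix.det_le`. -/
theorem minor_le {Y ι : Type} (z : Y → ι → ℤ) {Z : ℕ} (hz : ∀ y j, |z y j| ≤ Z) {t : ℕ}
    (a : Fin t → Y) (b : Fin t → ι) :
    |(Matrix.of fun s u => z (a s) (b u)).det| ≤ ((t.factorial * Z ^ t : ℕ) : ℤ) := by
  have := Matrix.det_le (A := Matrix.of fun s u => z (a s) (b u)) (abv := AbsoluteValue.abs)
    (x := (Z : ℤ)) fun s u => hz _ _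
  rw [Fintype.card_fin, nsmul_eq_mul] at this
  push_cast
  exact this

/- `exists_minor`. -/
theorem rank_lt {Y ι : Type} [Fintype Y] (z : Y → ι → ℤ) {t : ℕ}
    (h : ∀ (a : Fin t → Y) (b : Fin t → ι), (Matrix.of fun s u => z (a s) (b u)).det = 0) :
    finrank ℚ (Submodule.span ℚ (Set.range fun j : ι => fun y : Y => (z y j : ℚ))) < t := by
  refine lt_of_not_ge fun hle => ?_
  obtain ⟨a, b, hd⟩ := exists_minor (fun (y : Y) (j : ι) => ((z y j : ℤ) : ℚ)) hle
  refine hd ?_
  have := congrArg (Int.castRingHom ℚ) (h a b)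
  rw [RingHom.map_det, map_zero] at this
  exact this

/- Take a, b with nonzero minor Δ; b is injective, so two columns k₀ ≠ k₁ are outside its range.
For such k expand the minor with rows Fin.cons y a and columns col = Fin.cons k b along the first
row (`Matrix.det_succ_row_zero`): u o = ∑ j with col j = o, (-1) ^ j * minor j / p; col is
injective, u k = Δ / p ≠ 0 and u vanishes at the other outside column. -/
theorem two_normals {Y ι : Type} [Fintype ι] [DecidableEq ι] (z : Y → ι → ℤ) {t H : ℕ} {p : ℤ}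
    (hp : 0 < p) (hι : Fintype.card ι = t + 2)
    (h0 : ∀ (a : Fin (t + 1) → Y) (b : Fin (t + 1) → ι),
      (Matrix.of fun s u => z (a s) (b u)).det = 0)
    (h1 : ∀ (a : Fin t → Y) (b : Fin t → ι), p ∣ (Matrix.of fun s u => z (a s) (b u)).det ∧
      |(Matrix.of fun s u => z (a s) (b u)).det| ≤ H * p)
    (h2 : ∃ (a : Fin t → Y) (b : Fin t → ι), (Matrix.of fun s u => z (a s) (b u)).det ≠ 0) :
    ∃ u u' : ι → ℤ, (∀ j, |u j| ≤ H) ∧ (∀ j, |u' j| ≤ H) ∧
      (∃ a b, u a * u' b - u b * u' a ≠ 0) ∧ ∀ y, u ⬝ᵥ z y = 0 ∧ u' ⬝ᵥ z y = 0 := by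
  obtain ⟨a, b, hd⟩ := h2
  have hb : Function.Injective b := fun i j e => by
    by_contra hij
    exact hd (Matrix.det_zero_of_column_eq hij fun k => by simp [e])
  have key : ∀ k, k ∉ Set.range b → ∃ u : ι → ℤ, (∀ j, |u j| ≤ H) ∧ u k ≠ 0 ∧
      (∀ o, o ≠ k → o ∉ Set.range b → u o = 0) ∧ ∀ y, u ⬝ᵥ z y = 0 := by
    intro k hk
    let col : Fin (t + 1) → ι := Fin.cons k b
    have hc : Function.Injective col := Fin.cons_injective_iff.2 ⟨hk, hb⟩
    choose q hq using fun j : Fin (t + 1) => (h1 a fun u => col (j.succAbove u)).1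
    have hH : ∀ j, |q j| ≤ H := fun j => by
      have := (h1 a fun u => col (j.succAbove u)).2
      rw [hq, abs_mul, abs_of_pos hp, mul_comm] at this
      exact le_of_mul_le_mul_right this hp
    let u : ι → ℤ := fun o => ∑ j, if col j = o then (-1) ^ (j : ℕ) * q j else 0
    have u1 : ∀ j, u (col j) = (-1) ^ (j : ℕ) * q j := fun j => by simp [u, hc.eq_iff]
    have u2 : ∀ o, (∀ j, col j ≠ o) → u o = 0 := fun o ho => by simp [u, ho]
    refine ⟨u, fun o => ?_, ?_, fun o o1 o2 => u2 o fun j => ?_, fun y => ?_⟩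
    · by_cases ho : ∃ j, col j = o
      · obtain ⟨j, rfl⟩ := ho
        rw [u1, abs_mul, abs_pow, abs_neg, abs_one, one_pow, one_mul]
        exact hH j
      · rw [u2 o fun j e => ho ⟨j, e⟩]
        simp
    · have := u1 0
      rw [Fin.val_zero, pow_zero, one_mul] at this
      intro e
      refine hd ((hq 0).trans ?_)
      rw [← this, show u (col 0) = 0 from e, mul_zero]
    · induction j using Fin.cases with
      | zero => exact o1.symm
      | succ j => exact fun e => o2 ⟨j, e⟩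
    · have e1 : u ⬝ᵥ z y = ∑ j : Fin (t + 1), (-1) ^ (j : ℕ) * q j * z y (col j) := by
        simp only [dotProduct, u, Finset.sum_mul, ite_mul, zero_mul]
        rw [Finset.sum_comm]
        simp
      have e2 := h0 (Fin.cons y a) col
      rw [Matrix.det_succ_row_zero] at e2
      refine (mul_eq_zero.1 ?_).resolve_left hp.ne'
      rw [e1, ← e2, Finset.mul_sum]
      refine Finset.sum_congr rfl fun j _ => ?_
      have e3 : ((Matrix.of fun s u => z ((Fin.cons y a : Fin (t + 1) → Y) s) (col u)).submatrix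
        Fin.succ j.succAbove).det = p * q j := hq j
      rw [e3, Matrix.of_apply, Fin.cons_zero]
      ring
  have hcard : 1 < (Finset.univ.image b)ᶜ.card := by
    rw [Finset.card_compl, Finset.card_image_of_injective _ hb, hι]
    simp
  obtain ⟨k, hk, k', hk', hne⟩ := Finset.one_lt_card.1 hcard
  have n1 : k ∉ Set.range b := by simpa using hk
  have n2 : k' ∉ Set.range b := by simpa using hk'
  obtain ⟨u, a1, a2, a3, a4⟩ := key k n1
  obtain ⟨u', b1, b2, -, b4⟩ := key k' n2
  refine ⟨u, u', a1, b1, ⟨k, k', ?_⟩, fun y => ⟨a4 y, b4 y⟩⟩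
  rw [a3 k' hne.symm n2, zero_mul, sub_zero]
  exact mul_ne_zero a2 b2

end Pool.Agent.P.MP_d565f2_an.LS
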