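import Pool.Agent.P.MP_d565f2_an.SR.CDefs
import Pool.Agent.P.MP_d565f2_an.LS.Ell

set_option autoImplicit false

open Finset

namespace Pool.Agent.P.MP_d565f2_an.LS

variable {ι : Type} [Fintype ι] [DecidableEq ι]

theorem Plane_lag (a b : ι → ℤ) : 2 * ((a ⬝ᵥ a) * (b ⬝ᵥ b) - (a ⬝ᵥ b) ^ 2) =
    ∑ k, ∑ l, (a k * b l - a l * b k) ^ 2 := by
  have h1 : (a ⬝ᵥ a) * (b ⬝ᵥ b) = ∑ k, ∑ l, a k * a k * (b l * b l) := by
    simp only [dotProduct, Finset.sum_mul_sum]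
  have h2 : (a ⬝ᵥ a) * (b ⬝ᵥ b) = ∑ k, ∑ l, a l * a l * (b k * b k) := by
    rw [h1, Finset.sum_comm]
  have h3 : (a ⬝ᵥ b) ^ 2 = ∑ k, ∑ l, a k * b k * (a l * b l) := by
    simp only [sq, dotProduct, Finset.sum_mul_sum]
  calc _ = (a ⬝ᵥ a) * (b ⬝ᵥ b) + (a ⬝ᵥ a) * (b ⬝ᵥ b) - 2 * (a ⬝ᵥ b) ^ 2 := by ring
    _ = ∑ k, ∑ l, a k * a k * (b l * b l) + ∑ k, ∑ l, a l * a l * (b k * b k) -
        2 * ∑ k, ∑ l, a k * b k * (a l * b l) := by rw [← h1, ← h2, ← h3]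
    _ = _ := by
      simp only [Finset.mul_sum, ← Finset.sum_add_distrib, ← Finset.sum_sub_distrib]
      exact Finset.sum_congr rfl fun k _ => Finset.sum_congr rfl fun l _ => by ring

theorem Plane_sq_le (a : ι → ℤ) (i : ι) : a i ^ 2 ≤ a ⬝ᵥ a := by
  rw [sq]
  exact Finset.single_le_sum (f := fun l => a l * a l) (fun l _ => mul_self_nonneg _) (mem_univ i)

theorem Plane_nonneg (a : ι → ℤ) : 0 ≤ a ⬝ᵥ a :=
  Finset.sum_nonneg fun l _ => mul_self_nonneg _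

theorem Plane_dot_le {a b : ι → ℤ} {A B : ℤ} (ha : ∀ l, |a l| ≤ A) (hb : ∀ l, |b l| ≤ B) :
    |a ⬝ᵥ b| ≤ Fintype.card ι * (A * B) := by
  refine (Finset.abs_sum_le_sum_abs _ _).trans ?_
  have := Finset.sum_le_card_nsmul univ (fun l => |a l * b l|) (A * B) fun l _ => by
    rw [abs_mul]
    exact mul_le_mul (ha l) (hb l) (abs_nonneg _) ((abs_nonneg _).trans (ha l))
  simpa using this

theorem Plane_mul_le {a b A B : ℤ} (ha : |a| ≤ A) (hb : |b| ≤ B) : |a * b| ≤ A * B := by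
  rw [abs_mul]
  exact mul_le_mul ha hb (abs_nonneg _) ((abs_nonneg _).trans ha)

theorem Plane_sub_le {a b A B : ℤ} (ha : |a| ≤ A) (hb : |b| ≤ B) : |a - b| ≤ A + B :=
  (abs_sub a b).trans (add_le_add ha hb)

/- Fix x₁ ∈ S, μ = the minor, a = v' j • v - v j • v', a' = v i • v' - v' i • v.  For x ∈ S,
μ (x - x₁) = p a + q a' with p = x i - x₁ i, q = x j - x₁ j; x ↦ (p, q) is injective and
(a a) p ^ 2 + 2 (a a') p q + (a' a') q ^ 2 + 2 μ (x₁ a) p + 2 μ (x₁ a') q = 0.  The form is positive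
definite (a i = μ, a j = 0, a' i = 0, a' j = μ; or Lagrange).  `ell_conic`. -/
theorem plane_count {n Z w : ℕ} (hn : n ≤ Z ^ 2) (hw : 1 ≤ w)
    (hτ : ∀ t : ℕ, t ≤ 10 ^ 5 * Fintype.card ι ^ 4 * Z ^ 18 → t.divisors.card ≤ w)
    {v v' : ι → ℤ} (hv : ∀ i, |v i| ≤ Z) (hv' : ∀ i, |v' i| ≤ Z) {i j : ι}
    (hij : v i * v' j - v j * v' i ≠ 0) (S : Finset (ι → ℤ)) (hS : S ⊆ sph ι n)
    (h : ∀ x ∈ S, ∀ y ∈ S, ∃ α β : ℚ, ∀ l, ((x l - y l : ℤ) : ℚ) = α * v l + β * v' l) :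
    S.card ≤ 10 * w ^ 2 := by
  classical
  rcases S.eq_empty_or_nonempty with rfl | ⟨x₁, hx₁⟩
  · simp
  set μ := v i * v' j - v j * v' i with hμ
  let a : ι → ℤ := fun l => v' j * v l - v j * v' l
  let a' : ι → ℤ := fun l => v i * v' l - v' i * v l
  have key : ∀ x ∈ S, ∀ l, μ * x l = μ * x₁ l + (x i - x₁ i) * a l + (x j - x₁ j) * a' l := by
    intro x hx l
    obtain ⟨α, β, e⟩ := h x hx x₁ hx₁
    have e1 := e i
    have e2 := e j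
    have e3 := e l
    push_cast at e1 e2 e3
    have : ((μ * x l : ℤ) : ℚ) = ((μ * x₁ l + (x i - x₁ i) * a l + (x j - x₁ j) * a' l : ℤ) : ℚ) := by
      simp only [a, a', hμ]
      push_cast
      rw [e1, e2]
      linear_combination ((v i : ℚ) * v' j - v j * v' i) * e3
    exact_mod_cast this
  let g : (ι → ℤ) → ℤ × ℤ := fun x => (x i - x₁ i, x j - x₁ j)
  have hg : Set.InjOn g S := by
    intro x hx y hy e
    obtain ⟨e1, e2⟩ := Prod.ext_iff.1 e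
    simp only [g] at e1 e2
    funext l
    apply mul_left_cancel₀ hij
    rw [key x hx l, key y hy l, e1, e2]
  rw [← Finset.card_image_of_injOn hg]
  have hpos : 0 < (a ⬝ᵥ a) * (a' ⬝ᵥ a') - (a ⬝ᵥ a') ^ 2 := by
    have h1 := Plane_lag a a'
    have h2 : (a i * a' j - a j * a' i) ^ 2 ≤ ∑ k, ∑ l, (a k * a' l - a l * a' k) ^ 2 :=
      le_trans (Finset.single_le_sum (f := fun l => (a i * a' l - a l * a' i) ^ 2)
        (fun l _ => sq_nonneg _) (mem_univ j))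
        (Finset.single_le_sum (f := fun k => ∑ l, (a k * a' l - a l * a' k) ^ 2)
          (fun k _ => Finset.sum_nonneg fun l _ => sq_nonneg _) (mem_univ i))
    have h3 : a i * a' j - a j * a' i = μ ^ 2 := by simp only [a, a', hμ]; ring
    rw [h3] at h2
    have h4 : 0 < (μ ^ 2) ^ 2 := by positivity
    linarith
  have hZ : (0 : ℤ) ≤ Z := Int.natCast_nonneg Z
  have hx1 : x₁ ⬝ᵥ x₁ = n := mem_sph.1 (hS hx₁)
  have bx : ∀ l, |x₁ l| ≤ Z := mem_box.1 (mem_box_of_dot (by rw [hx1]; exact_mod_cast hn))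
  have ba : ∀ l, |a l| ≤ Z * Z + Z * Z := fun l =>
    Plane_sub_le (Plane_mul_le (hv' j) (hv l)) (Plane_mul_le (hv j) (hv' l))
  have ba' : ∀ l, |a' l| ≤ Z * Z + Z * Z := fun l =>
    Plane_sub_le (Plane_mul_le (hv i) (hv' l)) (Plane_mul_le (hv' i) (hv l))
  have bμ : |μ| ≤ Z * Z + Z * Z :=
    Plane_sub_le (Plane_mul_le (hv i) (hv' j)) (Plane_mul_le (hv j) (hv' i))
  have bA := Plane_dot_le ba ba
  have bB := Plane_dot_le ba ba'
  have bC := Plane_dot_le ba' ba'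
  have bD := Plane_dot_le bx ba
  have bE := Plane_dot_le bx ba'
  have hA0 := Plane_nonneg a
  have hC0 := Plane_nonneg a'
  refine ell_conic (a := a ⬝ᵥ a) (b := 2 * (a ⬝ᵥ a')) (c := a' ⬝ᵥ a') (d := 2 * (μ * (x₁ ⬝ᵥ a)))
    (e := 2 * (μ * (x₁ ⬝ᵥ a'))) (f := 0) (by linarith) _ ?_ hw (hτ _ ?_)
  · intro u hu
    obtain ⟨x, hx, rfl⟩ := Finset.mem_image.1 hu
    have hxn : x ⬝ᵥ x = n := mem_sph.1 (hS hx)
    have e : μ • x = μ • x₁ + (x i - x₁ i) • a + (x j - x₁ j) • a' := by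
      funext l
      simpa using key x hx l
    have e2 : (μ • x) ⬝ᵥ (μ • x) = μ * μ * n := by
      rw [smul_dotProduct, dotProduct_smul, hxn]; simp only [smul_eq_mul]; ring
    rw [e] at e2
    simp only [add_dotProduct, dotProduct_add, smul_dotProduct, dotProduct_smul, smul_eq_mul,
      hx1, dotProduct_comm a x₁, dotProduct_comm a' x₁, dotProduct_comm a' a] at e2
    simp only [g]
    linear_combination e2
  · generalize a ⬝ᵥ a = A at *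
    generalize a ⬝ᵥ a' = B at *
    generalize a' ⬝ᵥ a' = C at *
    generalize x₁ ⬝ᵥ a = D at *
    generalize x₁ ⬝ᵥ a' = E at *
    have hd : (0 : ℤ) ≤ Fintype.card ι := Int.natCast_nonneg _
    have t1 := Plane_mul_le bμ bD
    have t2 := Plane_mul_le bμ bE
    have t3 := Plane_sub_le (Plane_mul_le bA t2) (Plane_mul_le bB t1)
    have t4 := Plane_mul_le t3 t3
    have t5 := Plane_mul_le (Plane_mul_le bA bC) (Plane_mul_le t1 t1)
    have t6 := le_of_abs_le t4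
    have t7 := le_of_abs_le t5
    have t8 : 0 ≤ B * B * (μ * D * (μ * D)) := mul_nonneg (mul_self_nonneg _) (mul_self_nonneg _)
    have t9 : 0 ≤ (A * C - B ^ 2) * (μ * D * (μ * D)) := mul_nonneg hpos.le (mul_self_nonneg _)
    have t10 : (0 : ℤ) ≤ (Fintype.card ι : ℤ) ^ 4 * (Z : ℤ) ^ 18 := by positivity
    have t11 := mul_self_nonneg (A * (μ * E) - B * (μ * D))
    zify
    rw [abs_le]
    constructor
    · nlinarith
    · nlinarith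

/- Strong induction on z z + y y: if 2 |z y| exceeds z z (or y y) replace y by y ∓ z (or z by
z ∓ y). -/
theorem gauss_reduce (z y : ι → ℤ) : ∃ a a' : ι → ℤ, (∃ p q : ℤ, ∀ l, z l = p * a l + q * a' l) ∧
    (∃ p q : ℤ, ∀ l, y l = p * a l + q * a' l) ∧
    (a ⬝ᵥ a) * (a' ⬝ᵥ a') - (a ⬝ᵥ a') ^ 2 = (z ⬝ᵥ z) * (y ⬝ᵥ y) - (z ⬝ᵥ y) ^ 2 ∧
    3 * ((a ⬝ᵥ a) * (a' ⬝ᵥ a')) ≤ 4 * ((z ⬝ᵥ z) * (y ⬝ᵥ y) - (z ⬝ᵥ y) ^ 2) := by
  induction hN : (z ⬝ᵥ z + y ⬝ᵥ y).toNat using Nat.strong_induction_on generalizing z y with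
  | _ N ih =>
  have step : ∀ z y : ι → ℤ, (z ⬝ᵥ z + y ⬝ᵥ y).toNat = N → z ⬝ᵥ z < 2 * |z ⬝ᵥ y| →
      ∃ a a' : ι → ℤ, (∃ p q : ℤ, ∀ l, z l = p * a l + q * a' l) ∧
      (∃ p q : ℤ, ∀ l, y l = p * a l + q * a' l) ∧
      (a ⬝ᵥ a) * (a' ⬝ᵥ a') - (a ⬝ᵥ a') ^ 2 = (z ⬝ᵥ z) * (y ⬝ᵥ y) - (z ⬝ᵥ y) ^ 2 ∧
      3 * ((a ⬝ᵥ a) * (a' ⬝ᵥ a')) ≤ 4 * ((z ⬝ᵥ z) * (y ⬝ᵥ y) - (z ⬝ᵥ y) ^ 2) := by
    intro z y hN hlt
    obtain ⟨s, s1, s2⟩ : ∃ s : ℤ, s * s = 1 ∧ s * (z ⬝ᵥ y) = |z ⬝ᵥ y| := by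
      rcases le_total 0 (z ⬝ᵥ y) with h | h
      · exact ⟨1, by norm_num, by rw [abs_of_nonneg h, one_mul]⟩
      · exact ⟨-1, by norm_num, by rw [abs_of_nonpos h, neg_one_mul]⟩
    have e1 : (y - s • z) ⬝ᵥ (y - s • z) = y ⬝ᵥ y - 2 * (s * (z ⬝ᵥ y)) + s * s * (z ⬝ᵥ z) := by
      simp only [sub_dotProduct, dotProduct_sub, smul_dotProduct, dotProduct_smul, smul_eq_mul,
        dotProduct_comm y z]
      ring
    have e2 : z ⬝ᵥ (y - s • z) = z ⬝ᵥ y - s * (z ⬝ᵥ z) := by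
      simp only [dotProduct_sub, dotProduct_smul, smul_eq_mul]
    have e3 : (z ⬝ᵥ z) * ((y - s • z) ⬝ᵥ (y - s • z)) - (z ⬝ᵥ (y - s • z)) ^ 2 =
        (z ⬝ᵥ z) * (y ⬝ᵥ y) - (z ⬝ᵥ y) ^ 2 := by rw [e1, e2]; ring
    have h0 := Plane_nonneg z
    have h0' := Plane_nonneg (y - s • z)
    have hlt' : (z ⬝ᵥ z + (y - s • z) ⬝ᵥ (y - s • z)).toNat < N := by
      rw [s1, s2] at e1
      omega
    obtain ⟨a, a', ⟨p, q, h1⟩, ⟨p', q', h2⟩, h3, h4⟩ := ih _ hlt' z (y - s • z) rfl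
    refine ⟨a, a', ⟨p, q, h1⟩, ⟨p' + s * p, q' + s * q, fun l => ?_⟩, h3.trans e3, e3 ▸ h4⟩
    have := h2 l
    simp only [Pi.sub_apply, Pi.smul_apply, smul_eq_mul] at this
    rw [h1 l] at this
    linear_combination this
  by_cases c1 : z ⬝ᵥ z < 2 * |z ⬝ᵥ y|
  · exact step z y hN c1
  by_cases c2 : y ⬝ᵥ y < 2 * |y ⬝ᵥ z|
  · obtain ⟨a, a', h1, h2, h3, h4⟩ := step y z (by rw [add_comm]; exact hN) c2
    rw [dotProduct_comm y z, mul_comm (y ⬝ᵥ y)] at h3 h4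
    exact ⟨a, a', h2, h1, h3, h4⟩
  rw [dotProduct_comm y z] at c2
  refine ⟨z, y, ⟨1, 0, fun l => by ring⟩, ⟨0, 1, fun l => by ring⟩, rfl, ?_⟩
  have h1 := mul_le_mul (not_lt.1 c1) (not_lt.1 c2) (by positivity) (Plane_nonneg z)
  have h2 := sq_abs (z ⬝ᵥ y)
  nlinarith

theorem exists_minor_of_gram {a a' : ι → ℤ} (h : (a ⬝ᵥ a) * (a' ⬝ᵥ a') - (a ⬝ᵥ a') ^ 2 ≠ 0) :
    ∃ i j, a i * a' j - a j * a' i ≠ 0 := by
  by_contra hc
  push Not at hc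
  have := Plane_lag a a'
  simp only [hc] at this
  simp at this
  exact h (by simpa using this)

/- Let k = max |a i| ∈ Icc 1 X; then a' ∈ box (X / k).  At most 2 d (2 k + 1) ^ (d - 1) vectors a
have max = k; (2 (X / k) + 1) ^ d ≤ (3 X / k) ^ d; `harmonic_le_one_add_log`. -/
theorem card_short_pairs (ι : Type) [Fintype ι] [DecidableEq ι] : ∃ C : ℝ, 0 ≤ C ∧ ∀ X : ℕ,
    (((box ι X ×ˢ box ι X).filter fun p => p.1 ≠ 0 ∧ p.2 ≠ 0 ∧
      (p.1 ⬝ᵥ p.1) * (p.2 ⬝ᵥ p.2) ≤ (X : ℤ) ^ 2).card : ℝ) ≤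
      C * (X : ℝ) ^ Fintype.card ι * (1 + Real.log X) := by
  classical
  refine ⟨2 * Fintype.card ι * 9 ^ Fintype.card ι, by positivity, fun X => ?_⟩
  have hsub : ((box ι X ×ˢ box ι X).filter fun p => p.1 ≠ 0 ∧ p.2 ≠ 0 ∧
      (p.1 ⬝ᵥ p.1) * (p.2 ⬝ᵥ p.2) ≤ (X : ℤ) ^ 2) ⊆
      (Icc 1 X).biUnion fun k => (box ι k \ box ι (k - 1)) ×ˢ box ι (X / k) := by
    rintro ⟨a, b⟩ hp
    simp only [mem_filter, mem_product] at hp
    obtain ⟨⟨ha, -⟩, ha0, -, hab⟩ := hp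
    have hex : ∃ k, a ∈ box ι k := ⟨X, ha⟩
    have k1 : 1 ≤ Nat.find hex := by
      by_contra hk
      have h0 : Nat.find hex = 0 := by omega
      have := Nat.find_spec hex
      rw [h0, mem_box] at this
      exact ha0 (funext fun l => by simpa using this l)
    have k2 : Nat.find hex ≤ X := Nat.find_min' hex ha
    have k3 : a ∉ box ι (Nat.find hex - 1) := Nat.find_min hex (by omega)
    refine mem_biUnion.2 ⟨Nat.find hex, mem_Icc.2 ⟨k1, k2⟩,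
      mem_product.2 ⟨mem_sdiff.2 ⟨Nat.find_spec hex, k3⟩, mem_box.2 fun l => ?_⟩⟩
    generalize Nat.find hex = k at *
    rw [mem_box] at k3
    push Not at k3
    obtain ⟨i, hi⟩ := k3
    have hi' : (k : ℤ) ≤ |a i| := by omega
    have h1 : (k : ℤ) ^ 2 ≤ a ⬝ᵥ a :=
      le_trans (by rw [← sq_abs (a i)]; gcongr) (Plane_sq_le a i)
    have h2 : (|b l| * k) ^ 2 ≤ (X : ℤ) ^ 2 := by
      refine le_trans ?_ hab
      rw [mul_pow, sq_abs, mul_comm]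
      exact mul_le_mul h1 (Plane_sq_le b l) (sq_nonneg _) (Plane_nonneg a)
    have h3 : |b l| * k ≤ X := (abs_le_of_sq_le_sq' h2 (Int.natCast_nonneg X)).2
    show |b l| ≤ ((X / k : ℕ) : ℤ)
    push_cast
    exact Int.le_ediv_of_mul_le (by exact_mod_cast k1) h3
  have hterm : ∀ k ∈ Icc 1 X, ((((box ι k \ box ι (k - 1)) ×ˢ box ι (X / k)).card : ℕ) : ℝ) ≤
      2 * Fintype.card ι * 9 ^ Fintype.card ι * (X : ℝ) ^ Fintype.card ι * (k : ℝ)⁻¹ := by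
    intro k hk
    obtain ⟨k1, k2⟩ := mem_Icc.1 hk
    have hs : box ι (k - 1) ⊆ box ι k := fun z hz => mem_box.2 fun l =>
      (mem_box.1 hz l).trans (by omega)
    have k1' : (1 : ℝ) ≤ k := by exact_mod_cast k1
    have k2' : (k : ℝ) ≤ X := by exact_mod_cast k2
    rw [card_product, card_sdiff_of_subset hs, Nat.cast_mul, Nat.cast_sub (card_le_card hs),
      card_box, card_box, card_box]
    generalize Fintype.card ι = d
    rcases d with _ | d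
    · simp
    have b1 : (((2 * k + 1) ^ (d + 1) : ℕ) : ℝ) - (((2 * (k - 1) + 1) ^ (d + 1) : ℕ) : ℝ) ≤
        2 * (d + 1 : ℕ) * (3 * k) ^ d := by
      have h := abs_pow_sub_pow_le (2 * (k : ℝ) + 1) (2 * (k - 1) + 1) (d + 1)
      rw [show (2 * (k : ℝ) + 1) - (2 * (k - 1) + 1) = 2 by ring, abs_two,
        abs_of_nonneg (by linarith : (0 : ℝ) ≤ 2 * k + 1),
        abs_of_nonneg (by linarith : (0 : ℝ) ≤ 2 * (k - 1) + 1), max_eq_left (by linarith),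
        Nat.add_sub_cancel] at h
      push_cast [Nat.cast_sub k1] at h ⊢
      refine (le_of_abs_le h).trans ?_
      gcongr
      linarith
    have b2 : (((2 * (X / k) + 1) ^ (d + 1) : ℕ) : ℝ) ≤ (3 * (X / k)) ^ (d + 1) := by
      have h1 : ((X / k : ℕ) : ℝ) ≤ X / k := Nat.cast_div_le
      have h2 : (1 : ℝ) ≤ X / k := by rw [le_div_iff₀ (by linarith)]; linarith
      rw [Nat.cast_pow]
      gcongr
      push_cast
      linarith
    refine (mul_le_mul b1 b2 (Nat.cast_nonneg _) (by positivity)).trans ?_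
    have e : 2 * ((d + 1 : ℕ) : ℝ) * (3 * k) ^ d * (3 * (X / k)) ^ (d + 1) =
        2 * ((d + 1 : ℕ) : ℝ) * (3 * 9 ^ d) * (X : ℝ) ^ (d + 1) * (k : ℝ)⁻¹ := by
      rw [show (9 : ℝ) = 3 * 3 by norm_num]
      simp only [mul_pow, div_pow, pow_succ]
      field_simp
    have h9 : (3 : ℝ) * 9 ^ d ≤ 9 ^ (d + 1) := by
      have : (0 : ℝ) < 9 ^ d := by positivity
      rw [pow_succ]
      linarith
    rw [e]
    gcongr
  have h1 := (card_le_card hsub).trans card_biUnion_le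
  have h2 := (Nat.cast_le (α := ℝ)).2 h1
  rw [Nat.cast_sum] at h2
  refine h2.trans ((Finset.sum_le_sum hterm).trans ?_)
  rw [← Finset.mul_sum]
  gcongr
  have := harmonic_le_one_add_log X
  rw [harmonic_eq_sum_Icc] at this
  push_cast at this
  exact this

end Pool.Agent.P.MP_d565f2_an.LS
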