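import Pool.Agent.P.MP_d565f2_an.SR.Th7

set_option autoImplicit false

open Finset

namespace Pool.Agent.P.MP_d565f2_an.LS

variable {ι : Type} [Fintype ι] [DecidableEq ι]

theorem card_farey_le (Q : ℕ) : (farey Q).card ≤ Q ^ 2 := by
  refine card_biUnion_le.trans ((sum_le_card_nsmul _ _ Q fun q hq => ?_).trans ?_)
  · exact card_image_le.trans (by simpa using (mem_Icc.1 hq).2)
  · simp [sq]

theorem Rat_psi_one (x : ℝ) : Psi2 x ≤ 1 := by
  have h : 1 ≤ max 1 x := le_max_left _ _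
  rw [Psi2, div_le_one (by positivity)]
  exact one_le_pow₀ h

theorem Rat_psi_le {x y : ℝ} (hy : 0 < y) (h : y ≤ x) : Psi2 x ≤ 1 / y ^ 2 :=
  one_div_le_one_div_of_le (by positivity)
    (pow_le_pow_left₀ hy.le (h.trans (le_max_right _ _)) 2)

theorem Rat_nd {a : ℤ} {b : ℕ} (hb : 0 < b) (h : ¬ (b : ℤ) ∣ a) : 1 / (b : ℝ) ≤ nd (a / b) := by
  have hb' : (0 : ℝ) < b := by exact_mod_cast hb
  have h1 : a - b * round ((a : ℝ) / b) ≠ 0 := fun e => h ⟨_, sub_eq_zero.1 e⟩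
  have h2 : (1 : ℝ) ≤ |((a - b * round ((a : ℝ) / b) : ℤ) : ℝ)| := by
    exact_mod_cast Int.one_le_abs h1
  have h3 : (a : ℝ) / b - round ((a : ℝ) / b) = ((a - b * round ((a : ℝ) / b) : ℤ) : ℝ) / b := by
    push_cast
    field_simp
  rw [nd, h3, abs_div, abs_of_pos hb']
  gcongr

theorem Rat_mult (N : ℕ) {k : ℕ} (hk : 0 < k) :
    ∑ q ∈ Icc 1 N, (if k ∣ q then 1 / √(q : ℝ) ^ 5 else 0) ≤ 3 / √(k : ℝ) ^ 5 := by
  have hk' : (0 : ℝ) < √k := Real.sqrt_pos.2 (by exact_mod_cast hk)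
  rw [← sum_filter]
  have h1 : (Icc 1 N).filter (k ∣ ·) ⊆ (Icc 1 N).image (k * ·) := by
    intro q hq
    obtain ⟨h, j, rfl⟩ := mem_filter.1 hq
    rw [mem_Icc] at h
    refine mem_image.2 ⟨j, mem_Icc.2 ⟨Nat.pos_of_mul_pos_left h.1, ?_⟩, rfl⟩
    exact (Nat.le_mul_of_pos_left j hk).trans h.2
  refine (sum_le_sum_of_subset_of_nonneg h1 fun _ _ _ => by positivity).trans ?_
  rw [sum_image fun _ _ _ _ e => Nat.eq_of_mul_eq_mul_left hk e]
  refine le_trans ?_ (div_le_div_of_nonneg_right (sum_Icc_sqrt_le N) (by positivity))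
  rw [sum_div]
  refine sum_le_sum fun j hj => ?_
  have h2 : (1 : ℝ) ≤ √j := Real.one_le_sqrt.2 (by exact_mod_cast (mem_Icc.1 hj).1)
  rw [Nat.cast_mul, Real.sqrt_mul (Nat.cast_nonneg k), mul_pow, div_div, mul_comm]
  gcongr
  norm_num

theorem Rat_half (N : ℕ) : ∑ q ∈ Icc 1 N, 1 / √(q : ℝ) ≤ 2 * √(N : ℝ) := by
  induction N with
  | zero => simp
  | succ N ih =>
    rw [sum_Icc_succ_top (by omega)]
    have h0 : (0 : ℝ) ≤ N := Nat.cast_nonneg N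
    have h1 : 0 < √((N + 1 : ℕ) : ℝ) := Real.sqrt_pos.2 (by positivity)
    have h2 : √((N + 1 : ℕ) : ℝ) ^ 2 = N + 1 := by rw [Real.sq_sqrt (by positivity)]; simp
    have h3 : √(N : ℝ) ^ 2 = N := Real.sq_sqrt h0
    have h4 : 1 / √((N + 1 : ℕ) : ℝ) ≤ 2 * √((N + 1 : ℕ) : ℝ) - 2 * √(N : ℝ) := by
      rw [div_le_iff₀ h1]
      nlinarith [sq_nonneg (√((N + 1 : ℕ) : ℝ) - √(N : ℝ))]
    linarith

theorem FF_rat {e : ℕ} (he : Fintype.card ι = e + 2) (he5 : 5 ≤ e) : ∃ C : ℝ, 0 ≤ C ∧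
    ∀ (n b k : ℕ) (η : ι → ℤ), 0 < n → 0 < b → 0 < k →
      (∀ q : ℕ, (∀ i, (b : ℤ) ∣ q * η i) → k ∣ q) →
      ‖FF ι n fun i => (η i : ℝ) / b‖ ≤
        C * (√n ^ e / √k ^ 5 + (b : ℝ) ^ 2 * √n ^ (e - 2) * √(√n)) := by
  obtain ⟨C, hC, h⟩ := FF_bound7 (ι := ι) (by omega)
  refine ⟨3 * C, by positivity, fun n b k η hn hb hk hq => (h n hn _).trans ?_⟩
  have hn' : (0 : ℝ) < n := by exact_mod_cast hn
  have hb' : (0 : ℝ) < b := by exact_mod_cast hb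
  have hs : 0 < √(n : ℝ) := Real.sqrt_pos.2 hn'
  have h1 : ∀ q ∈ Icc 1 n.sqrt,
      1 / √(q : ℝ) ^ 5 * Psi2 (√n * ndv (fun i => (q : ℝ) * ((η i : ℝ) / b)) / q) ≤
        (if k ∣ q then 1 / √(q : ℝ) ^ 5 else 0) + (b : ℝ) ^ 2 / √n ^ 2 * (1 / √(q : ℝ)) := by
    intro q hq1
    have hq0 : (0 : ℝ) < q := by exact_mod_cast (mem_Icc.1 hq1).1
    have hq2 : 0 < √(q : ℝ) := Real.sqrt_pos.2 hq0
    split_ifs with c
    · refine (mul_le_of_le_one_right (by positivity) (Rat_psi_one _)).trans ?_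
      exact le_add_of_nonneg_right (by positivity)
    · obtain ⟨i, hi⟩ := not_forall.1 fun a => c (hq q a)
      have h2 := Rat_nd hb hi
      rw [Int.cast_mul, Int.cast_natCast, mul_div_assoc] at h2
      have h3 := h2.trans (nd_le_ndv (fun i => (q : ℝ) * ((η i : ℝ) / b)) i)
      have h4 := Rat_psi_le (y := √n * (1 / b) / q) (by positivity)
        (div_le_div_of_nonneg_right (mul_le_mul_of_nonneg_left h3 hs.le) hq0.le)
      refine (mul_le_mul_of_nonneg_left h4 (by positivity)).trans (le_of_eq ?_)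
      have h5 : (q : ℝ) = √q ^ 2 := (Real.sq_sqrt hq0.le).symm
      generalize √(q : ℝ) = t at *
      rw [h5]
      field_simp
      ring
  have h6 : √(n.sqrt : ℝ) ≤ √(√n) := Real.sqrt_le_sqrt Real.nat_sqrt_le_real_sqrt
  have h7 := sum_le_sum h1
  rw [sum_add_distrib, ← mul_sum] at h7
  have h8 := h7.trans (add_le_add (Rat_mult _ hk) (mul_le_mul_of_nonneg_left
    ((Rat_half _).trans (mul_le_mul (show (2 : ℝ) ≤ 3 by norm_num) h6 (by positivity)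
      (by norm_num))) (by positivity)))
  rw [he, Nat.add_sub_cancel]
  refine (mul_le_mul_of_nonneg_left h8 (by positivity)).trans (le_of_eq ?_)
  obtain ⟨f, rfl⟩ : ∃ f, e = f + 2 := ⟨e - 2, by omega⟩
  rw [Nat.add_sub_cancel]
  field_simp
  ring

theorem card_sph_le {e : ℕ} (he : Fintype.card ι = e + 2) (he5 : 5 ≤ e) : ∃ C : ℝ, 0 ≤ C ∧
    ∀ n : ℕ, 0 < n → ((sph ι n).card : ℝ) ≤ C * √n ^ e := by
  obtain ⟨C, hC, h⟩ := FF_bound7 (ι := ι) (by omega)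
  refine ⟨3 * C, by positivity, fun n hn => ?_⟩
  have h1 := h n hn fun _ => 0
  have h2 : FF ι n (fun _ => 0) = (sph ι n).card := by simp [FF, ex]
  have h3 := Rat_mult n.sqrt Nat.one_pos
  simp only [one_dvd, if_true, Nat.cast_one, Real.sqrt_one, one_pow, div_one] at h3
  rw [h2, Complex.norm_natCast, he, Nat.add_sub_cancel] at h1
  refine h1.trans ((mul_le_mul_of_nonneg_left ((sum_le_sum fun q _ =>
    mul_le_of_le_one_right (by positivity) (Rat_psi_one _)).trans h3) (by positivity)).trans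
      (le_of_eq ?_))
  ring

end Pool.Agent.P.MP_d565f2_an.LS
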