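import Pool.Agent.P.MP_d565f2_an.SR.Th5
import Pool.Agent.P.MP_d565f2_an.SR.Rat

set_option autoImplicit false

open Finset

namespace Pool.Agent.P.MP_d565f2_an.LS

variable {ι : Type} [Fintype ι] [DecidableEq ι]

theorem Rat5_psi_one (x : ℝ) : Psi1 x ≤ 1 := by
  have h : 1 ≤ max 1 x := le_max_left _ _
  rw [Psi1, div_le_one (by positivity)]
  exact h

theorem Rat5_psi_le {x y : ℝ} (hy : 0 < y) (h : y ≤ x) : Psi1 x ≤ 1 / y :=
  one_div_le_one_div_of_le hy (h.trans (le_max_right _ _))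

theorem Rat5_mult (N : ℕ) {k : ℕ} (hk : 0 < k) :
    ∑ q ∈ Icc 1 N, (if k ∣ q then 1 / √(q : ℝ) ^ 3 else 0) ≤ 3 / √(k : ℝ) ^ 3 := by
  have hk' : (0 : ℝ) < √k := Real.sqrt_pos.2 (by exact_mod_cast hk)
  rw [← sum_filter]
  have h1 : (Icc 1 N).filter (k ∣ ·) ⊆ (Icc 1 N).image (k * ·) := by
    intro q hq
    obtain ⟨h, j, rfl⟩ := mem_filter.1 hq
    rw [mem_Icc] at h
    refine mem_image.2 ⟨j, mem_Icc.2 ⟨Nat.pos_of_mul_pos_left h.1, ?_⟩, rfl⟩
    exact (Nat.le_mul_of_pos_left j hk).trans h.2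
  refine (sum_le_sum_of_subset_of_nonneg h1 fun _ _ _ => by positivity).trans ?_
  rw [sum_image fun _ _ _ _ e => Nat.eq_of_mul_eq_mul_left hk e]
  refine le_trans ?_ (div_le_div_of_nonneg_right (sum_Icc_sqrt_le N) (by positivity))
  rw [sum_div]
  refine sum_le_sum fun j _ => ?_
  rw [Nat.cast_mul, Real.sqrt_mul (Nat.cast_nonneg k), mul_pow, div_div, mul_comm]

theorem FF_rat5 {e : ℕ} (he : Fintype.card ι = e + 2) (he3 : 3 ≤ e) : ∃ C : ℝ, 0 ≤ C ∧
    ∀ (n b k : ℕ) (η : ι → ℤ), 0 < n → 0 < b → 0 < k →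
      (∀ q : ℕ, (∀ i, (b : ℤ) ∣ q * η i) → k ∣ q) →
      ‖FF ι n fun i => (η i : ℝ) / b‖ ≤
        C * (√n ^ e / √k ^ 3 + (b : ℝ) * √n ^ (e - 1) * √(√n)) := by
  obtain ⟨C, hC, h⟩ := FF_bound5 (ι := ι) (by omega)
  refine ⟨3 * C, by positivity, fun n b k η hn hb hk hq => (h n hn _).trans ?_⟩
  have hn' : (0 : ℝ) < n := by exact_mod_cast hn
  have hb' : (0 : ℝ) < b := by exact_mod_cast hb
  have hs : 0 < √(n : ℝ) := Real.sqrt_pos.2 hn'
  have h1 : ∀ q ∈ Icc 1 n.sqrt,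
      1 / √(q : ℝ) ^ 3 * Psi1 (√n * ndv (fun i => (q : ℝ) * ((η i : ℝ) / b)) / q) ≤
        (if k ∣ q then 1 / √(q : ℝ) ^ 3 else 0) + (b : ℝ) / √n * (1 / √(q : ℝ)) := by
    intro q hq1
    have hq0 : (0 : ℝ) < q := by exact_mod_cast (mem_Icc.1 hq1).1
    have hq2 : 0 < √(q : ℝ) := Real.sqrt_pos.2 hq0
    split_ifs with c
    · refine (mul_le_of_le_one_right (by positivity) (Rat5_psi_one _)).trans ?_
      exact le_add_of_nonneg_right (by positivity)
    · obtain ⟨i, hi⟩ := not_forall.1 fun a => c (hq q a)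
      have h2 := Rat_nd hb hi
      rw [Int.cast_mul, Int.cast_natCast, mul_div_assoc] at h2
      have h3 := h2.trans (nd_le_ndv (fun i => (q : ℝ) * ((η i : ℝ) / b)) i)
      have h4 := Rat5_psi_le (y := √n * (1 / b) / q) (by positivity)
        (div_le_div_of_nonneg_right (mul_le_mul_of_nonneg_left h3 hs.le) hq0.le)
      refine (mul_le_mul_of_nonneg_left h4 (by positivity)).trans (le_of_eq ?_)
      have h5 : (q : ℝ) = √q ^ 2 := (Real.sq_sqrt hq0.le).symm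
      generalize √(q : ℝ) = t at *
      rw [h5]
      field_simp
      ring
  have h6 : √(n.sqrt : ℝ) ≤ √(√n) := Real.sqrt_le_sqrt Real.nat_sqrt_le_real_sqrt
  have h7 := sum_le_sum h1
  rw [sum_add_distrib, ← mul_sum] at h7
  have h8 := h7.trans (add_le_add (Rat5_mult _ hk) (mul_le_mul_of_nonneg_left
    ((Rat_half _).trans (mul_le_mul (show (2 : ℝ) ≤ 3 by norm_num) h6 (by positivity)
      (by norm_num))) (by positivity)))
  rw [he, Nat.add_sub_cancel]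
  refine (mul_le_mul_of_nonneg_left h8 (by positivity)).trans (le_of_eq ?_)
  obtain ⟨f, rfl⟩ : ∃ f, e = f + 1 := ⟨e - 1, by omega⟩
  rw [Nat.add_sub_cancel]
  field_simp
  ring

theorem card_sph_le5 {e : ℕ} (he : Fintype.card ι = e + 2) (he3 : 3 ≤ e) : ∃ C : ℝ, 0 ≤ C ∧
    ∀ n : ℕ, 0 < n → ((sph ι n).card : ℝ) ≤ C * √n ^ e := by
  obtain ⟨C, hC, h⟩ := FF_bound5 (ι := ι) (by omega)
  refine ⟨3 * C, by positivity, fun n hn => ?_⟩
  have h1 := h n hn fun _ => 0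
  have h2 : FF ι n (fun _ => 0) = (sph ι n).card := by simp [FF, ex]
  have h3 := sum_Icc_sqrt_le n.sqrt
  rw [h2, Complex.norm_natCast, he, Nat.add_sub_cancel] at h1
  refine h1.trans ((mul_le_mul_of_nonneg_left ((sum_le_sum fun q _ =>
    mul_le_of_le_one_right (by positivity) (Rat5_psi_one _)).trans h3) (by positivity)).trans
      (le_of_eq ?_))
  ring

end Pool.Agent.P.MP_d565f2_an.LS
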