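import Pool.Agent.P.MP_d565f2_an.SR.Plane
import Pool.Agent.P.MP_d565f2_an.SR.Rat5

set_option autoImplicit false

open Finset

namespace Pool.Agent.P.MP_d565f2_an.LS

variable {ι : Type} [Fintype ι] [DecidableEq ι]

omit [DecidableEq ι] in
theorem RelPairs_diag {z z' : ι → ℤ} {N : ℤ} (h1 : z ⬝ᵥ z = N) (h2 : z' ⬝ᵥ z' = N)
    (h : (z ⬝ᵥ z') ^ 2 = N ^ 2) : z = z' ∨ z = -z' := by
  rcases sq_eq_sq_iff_eq_or_eq_neg.1 h with h | h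
  · left
    by_contra hne
    have := dot_self_pos (sub_ne_zero.2 hne)
    rw [sub_dotProduct, dotProduct_sub, dotProduct_sub, dotProduct_comm z' z, h1, h2, h] at this
    omega
  · right
    by_contra hne
    have h0 : z + z' ≠ 0 := fun h0 => hne (eq_neg_of_add_eq_zero_left h0)
    have := dot_self_pos h0
    rw [add_dotProduct, dotProduct_add, dotProduct_add, dotProduct_comm z' z, h1, h2, h] at this
    omega

open Classical in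
theorem RelPairs_scale {e : ℕ} {C : ℝ} (hC : 0 ≤ C)
    (h : ∀ n : ℕ, 0 < n → ((sph ι n).card : ℝ) ≤ C * √n ^ e) {N R δ : ℕ} (hN : 0 < N)
    (hR : N ≤ R ^ 2) (hδ : 0 < δ) :
    (((sph ι N).filter fun z => ∃ ζ : ι → ℤ, ∀ i, 2 * z i = δ * ζ i).card : ℝ) ≤
      C * 2 ^ e * ((R : ℝ) / δ) ^ e := by
  set A := (sph ι N).filter fun z => ∃ ζ : ι → ℤ, ∀ i, 2 * z i = δ * ζ i with hA
  have key : ∀ z ∈ A, (∀ i, 2 * z i = δ * (2 * z i / δ)) ∧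
      (δ : ℤ) ^ 2 * ((fun i => 2 * z i / (δ : ℤ)) ⬝ᵥ fun i => 2 * z i / (δ : ℤ)) = 4 * N := by
    intro z hz
    obtain ⟨hz1, ζ, hζ⟩ := mem_filter.1 hz
    have h1 : ∀ i, 2 * z i = δ * (2 * z i / δ) := fun i =>
      (Int.mul_ediv_cancel' ⟨ζ i, hζ i⟩).symm
    refine ⟨h1, ?_⟩
    rw [← mem_sph.1 hz1]
    simp only [dotProduct, mul_sum]
    refine sum_congr rfl fun i _ => ?_
    linear_combination (-(2 * z i + δ * (2 * z i / δ))) * h1 i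
  rcases A.eq_empty_or_nonempty with h0 | ⟨z₀, hz₀⟩
  · rw [h0]
    simp only [card_empty, Nat.cast_zero]
    positivity
  obtain ⟨m, hm⟩ := Int.eq_ofNat_of_zero_le (dot_self_nonneg fun i => 2 * z₀ i / (δ : ℤ))
  have hm1 : (δ : ℤ) ^ 2 * m = 4 * N := by rw [← hm]; exact (key z₀ hz₀).2
  have hm2 : δ ^ 2 * m = 4 * N := by exact_mod_cast hm1
  have hm0 : 0 < m := by
    rcases Nat.eq_zero_or_pos m with h0 | h0
    · rw [h0] at hm2; omega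
    · exact h0
  have hδ' : (δ : ℤ) ≠ 0 := by exact_mod_cast hδ.ne'
  have hc : A.card ≤ (sph ι m).card := by
    refine card_le_card_of_injOn (fun z i => 2 * z i / (δ : ℤ)) (fun z hz => ?_) ?_
    · refine mem_coe.2 (mem_sph.2 ?_)
      have := (key z hz).2
      rw [← hm1] at this
      exact mul_left_cancel₀ (pow_ne_zero 2 hδ') this
    · intro z hz z' hz' hzz
      funext i
      have h1 := (key z hz).1 i
      have h2 := (key z' hz').1 i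
      have h3 : 2 * z i / (δ : ℤ) = 2 * z' i / (δ : ℤ) := congrFun hzz i
      rw [h3] at h1
      omega
  have hδR : (0 : ℝ) < δ := by exact_mod_cast hδ
  have hs : √(m : ℝ) ≤ 2 * ((R : ℝ) / δ) := by
    refine Real.sqrt_le_iff.2 ⟨by positivity, ?_⟩
    have h1 : (δ : ℝ) ^ 2 * m = 4 * N := by exact_mod_cast hm2
    have h2 : (N : ℝ) ≤ (R : ℝ) ^ 2 := by exact_mod_cast hR
    have h3 : (2 * ((R : ℝ) / δ)) ^ 2 = 4 * (R : ℝ) ^ 2 / δ ^ 2 := by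
      field_simp
      ring
    rw [h3, le_div_iff₀ (by positivity)]
    linarith
  calc (A.card : ℝ) ≤ (sph ι m).card := by exact_mod_cast hc
    _ ≤ C * √m ^ e := h m hm0
    _ ≤ C * (2 * ((R : ℝ) / δ)) ^ e := by gcongr
    _ = C * 2 ^ e * ((R : ℝ) / δ) ^ e := by rw [mul_pow, mul_assoc]

theorem RelPairs_gram {z z' ζ ζ' : ι → ℤ} {u : ℤ} {N δ c : ℕ} (hδ : 0 < δ) (hc : 0 < c)
    (h1 : z ⬝ᵥ z = N) (h2 : z' ⬝ᵥ z' = N)
    (h : ∀ i, 2 * z i = δ * ζ i ∧ 2 * z' i = δ * ζ' i ∧ (c : ℤ) ∣ ζ i - u * ζ' i)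
    (hne : (z ⬝ᵥ z') ^ 2 ≠ (N : ℤ) ^ 2) :
    δ ^ 2 * c ≤ 4 * N ∧ ∃ a a' : ι → ℤ, a ≠ 0 ∧ a' ≠ 0 ∧
      (a ⬝ᵥ a) * (a' ⬝ᵥ a') ≤ ((5 * N / (δ ^ 2 * c) + 1 : ℕ) : ℤ) ^ 2 ∧
      (a ⬝ᵥ a) * (a' ⬝ᵥ a') - (a ⬝ᵥ a') ^ 2 ≠ 0 ∧
      (∃ α β : ℚ, ∀ l, (z l : ℚ) = α * a l + β * a' l) ∧
      (∃ α β : ℚ, ∀ l, (z' l : ℚ) = α * a l + β * a' l) := by
  choose y hy using fun i => (h i).2.2
  have hz : ∀ i, 2 * z i = δ * (u * ζ' i + c * y i) := fun i => by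
    linear_combination (h i).1 + δ * hy i
  have hz' : ∀ i, 2 * z' i = δ * ζ' i := fun i => (h i).2.1
  have e1 : 4 * (z ⬝ᵥ z) =
      δ ^ 2 * (u ^ 2 * (ζ' ⬝ᵥ ζ') + 2 * u * c * (ζ' ⬝ᵥ y) + c ^ 2 * (y ⬝ᵥ y)) := by
    simp only [dotProduct, mul_sum, ← sum_add_distrib]
    refine sum_congr rfl fun i _ => ?_
    linear_combination (2 * z i + δ * (u * ζ' i + c * y i)) * hz i
  have e2 : 4 * (z' ⬝ᵥ z') = δ ^ 2 * (ζ' ⬝ᵥ ζ') := by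
    simp only [dotProduct, mul_sum]
    refine sum_congr rfl fun i _ => ?_
    linear_combination (2 * z' i + δ * ζ' i) * hz' i
  have e3 : 4 * (z ⬝ᵥ z') = δ ^ 2 * (u * (ζ' ⬝ᵥ ζ') + c * (ζ' ⬝ᵥ y)) := by
    simp only [dotProduct, mul_sum, ← sum_add_distrib]
    refine sum_congr rfl fun i _ => ?_
    linear_combination (2 * z' i) * hz i + δ * (u * ζ' i + c * y i) * hz' i
  rw [h1] at e1
  rw [h2] at e2
  obtain ⟨a, a', ⟨p, q, hp⟩, ⟨p', q', hp'⟩, hG, hG'⟩ := gauss_reduce ζ' y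
  set G := (ζ' ⬝ᵥ ζ') * (y ⬝ᵥ y) - (ζ' ⬝ᵥ y) ^ 2 with hGd
  have e4 : 16 * ((N : ℤ) ^ 2 - (z ⬝ᵥ z') ^ 2) = ((δ : ℤ) ^ 2 * c) ^ 2 * G := by
    rw [hGd]
    linear_combination (4 * (N : ℤ)) * e1 +
      δ ^ 2 * (u ^ 2 * (ζ' ⬝ᵥ ζ') + 2 * u * c * (ζ' ⬝ᵥ y) + c ^ 2 * (y ⬝ᵥ y)) * e2 -
      (4 * (z ⬝ᵥ z') + δ ^ 2 * (u * (ζ' ⬝ᵥ ζ') + c * (ζ' ⬝ᵥ y))) * e3
  have hG0 : G ≠ 0 := by
    intro h0
    rw [h0, mul_zero] at e4
    exact hne (by linarith)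
  have ha : a ≠ 0 := by
    rintro rfl
    simp only [zero_dotProduct, zero_mul] at hG
    exact hG0 (by rw [← hG]; ring)
  have ha' : a' ≠ 0 := by
    rintro rfl
    simp only [dotProduct_zero, mul_zero] at hG
    exact hG0 (by rw [← hG]; ring)
  have hP : 0 < (a ⬝ᵥ a) * (a' ⬝ᵥ a') := mul_pos (dot_self_pos ha) (dot_self_pos ha')
  have hG1 : 1 ≤ G := by omega
  have hD : 0 < δ ^ 2 * c := by positivity
  obtain ⟨D, hDd⟩ : ∃ D : ℕ, D = δ ^ 2 * c := ⟨_, rfl⟩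
  have hD' : (δ : ℤ) ^ 2 * c = D := by rw [hDd]; push_cast; ring
  rw [hD'] at e4
  rw [← hDd] at hD ⊢
  have e5 : (D : ℤ) ^ 2 * G ≤ 16 * (N : ℤ) ^ 2 := by nlinarith [sq_nonneg (z ⬝ᵥ z')]
  have hD0 : (0 : ℤ) < D := by exact_mod_cast hD
  refine ⟨?_, a, a', ha, ha', ?_, by rw [hG]; exact hG0, ?_, ?_⟩
  · have e6 : (D : ℤ) ^ 2 ≤ (4 * N) ^ 2 := by nlinarith [sq_nonneg (D : ℤ)]
    have e7 : (D : ℤ) ≤ 4 * N := (abs_le_of_sq_le_sq' e6 (by positivity)).2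
    exact_mod_cast e7
  · obtain ⟨X, hX⟩ : ∃ X : ℕ, X = 5 * N / D + 1 := ⟨_, rfl⟩
    rw [← hX]
    have e6 : 5 * N ≤ D * X := by
      rw [hX]
      exact (Nat.lt_mul_div_succ _ hD).le
    have e7 : (5 * N : ℤ) ≤ D * X := by exact_mod_cast e6
    have e8 : (5 * N : ℤ) ^ 2 ≤ (D * X) ^ 2 := by gcongr
    have e9 : (D : ℤ) ^ 2 * (3 * ((a ⬝ᵥ a) * (a' ⬝ᵥ a'))) ≤ (D : ℤ) ^ 2 * (4 * G) := by gcongr
    have e10 : (D : ℤ) ^ 2 * ((a ⬝ᵥ a) * (a' ⬝ᵥ a')) ≤ (D : ℤ) ^ 2 * (X : ℤ) ^ 2 := by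
      nlinarith [sq_nonneg (N : ℤ)]
    exact le_of_mul_le_mul_left e10 (by positivity)
  · refine ⟨δ * (u * p + c * p') / 2, δ * (u * q + c * q') / 2, fun l => ?_⟩
    have e6 : 2 * z l = δ * (u * (p * a l + q * a' l) + c * (p' * a l + q' * a' l)) := by
      rw [← hp l, ← hp' l, hz l]
    have e7 : (2 : ℚ) * z l = δ * (u * (p * a l + q * a' l) + c * (p' * a l + q' * a' l)) := by
      exact_mod_cast e6
    linear_combination e7 / 2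
  · refine ⟨δ * p / 2, δ * q / 2, fun l => ?_⟩
    have e6 : 2 * z' l = δ * (p * a l + q * a' l) := by rw [← hp l, hz' l]
    have e7 : (2 : ℚ) * z' l = δ * (p * a l + q * a' l) := by exact_mod_cast e6
    linear_combination e7 / 2

open Classical in
/- Write ζ = u ζ' + c y with y integral.  If the Gram determinant of (ζ', y) is zero then z = ± z'
(`exists_minor_of_gram` is not needed: Gram (z, z') = 0 and z z = z' z' give (z - z')(z - z') = 0 or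
(z + z')(z + z') = 0); z' ↦ ζ' is injective into the sphere of squared radius 4 N / δ ^ 2:
`card_sph_le5`.  Otherwise `gauss_reduce ζ' y` gives a, a' ≠ 0 with
3 (a a)(a' a') ≤ 4 (4 N / (δ ^ 2 c)) ^ 2, so (a, a') is counted by `card_short_pairs` with
X = 5 N / (δ ^ 2 c) + 1 ≤ 6 R ^ 2 (and X ≤ 10 R ^ 2 / (δ ^ 2 c) when such a pair exists); z and z'
lie in ℚ a + ℚ a', which holds ≤ 10 w ^ 2 points of the sphere (`plane_count`, Z = 6 R ^ 2). -/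
theorem rel_pairs {e : ℕ} (he : Fintype.card ι = e + 2) (he3 : 3 ≤ e) : ∃ C : ℝ, 0 ≤ C ∧
    ∀ N R δ c w : ℕ, 0 < N → N ≤ R ^ 2 → 0 < δ → 0 < c → 1 ≤ w →
      (∀ t : ℕ, t ≤ 10 ^ 5 * (e + 2) ^ 4 * (6 * R ^ 2) ^ 18 → t.divisors.card ≤ w) →
      1 + Real.log (6 * (R : ℝ) ^ 2) ≤ w →
      (((sph ι N ×ˢ sph ι N).filter fun p => ∃ (ζ ζ' : ι → ℤ) (u : ℤ), ∀ i,
        2 * p.1 i = δ * ζ i ∧ 2 * p.2 i = δ * ζ' i ∧ (c : ℤ) ∣ ζ i - u * ζ' i).card : ℝ) ≤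
      C * (((R : ℝ) / δ) ^ e + w ^ 5 * ((R : ℝ) ^ 2 / (δ ^ 2 * c)) ^ (e + 2)) := by
  obtain ⟨C₁, hC₁, h₁⟩ := card_sph_le5 he he3
  obtain ⟨C₂, hC₂, h₂⟩ := card_short_pairs ι
  refine ⟨2 * (C₁ * 2 ^ e) + 100 * C₂ * 9 ^ (e + 2), by positivity, ?_⟩
  intro N R δ c w hN hR hδ hc hw hτ hlog
  set P := (sph ι N ×ˢ sph ι N).filter fun p => ∃ (ζ ζ' : ι → ℤ) (u : ℤ), ∀ i,
        2 * p.1 i = δ * ζ i ∧ 2 * p.2 i = δ * ζ' i ∧ (c : ℤ) ∣ ζ i - u * ζ' i with hP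
  set A := (sph ι N).filter fun z => ∃ ζ : ι → ℤ, ∀ i, 2 * z i = δ * ζ i with hA
  have hAc : (A.card : ℝ) ≤ C₁ * 2 ^ e * ((R : ℝ) / δ) ^ e := RelPairs_scale hC₁ h₁ hN hR hδ
  have hsplit := card_filter_add_card_filter_not (s := P)
    (fun p => (p.1 ⬝ᵥ p.2) ^ 2 = (N : ℤ) ^ 2)
  set P₁ := P.filter fun p => (p.1 ⬝ᵥ p.2) ^ 2 = (N : ℤ) ^ 2 with hP₁
  set P₂ := P.filter fun p => ¬ (p.1 ⬝ᵥ p.2) ^ 2 = (N : ℤ) ^ 2 with hP₂
  have b1 : P₁.card ≤ 2 * A.card := by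
    have hsub : P₁ ⊆ A.image (fun z => (z, z)) ∪ A.image (fun z => (-z, z)) := by
      intro p hp
      obtain ⟨hp1, hp2⟩ := mem_filter.1 hp
      obtain ⟨hp3, ζ, ζ', u, hp4⟩ := mem_filter.1 hp1
      obtain ⟨hp5, hp6⟩ := mem_product.1 hp3
      have hp7 : p.2 ∈ A := mem_filter.2 ⟨hp6, ζ', fun i => (hp4 i).2.1⟩
      rcases RelPairs_diag (mem_sph.1 hp5) (mem_sph.1 hp6) hp2 with h | h
      · exact mem_union_left _ (mem_image.2 ⟨p.2, hp7, Prod.ext h.symm rfl⟩)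
      · exact mem_union_right _ (mem_image.2 ⟨p.2, hp7, Prod.ext h.symm rfl⟩)
    have := (card_le_card hsub).trans (card_union_le _ _)
    have i1 : (A.image (fun z => (z, z))).card ≤ A.card := card_image_le
    have i2 : (A.image (fun z => (-z, z))).card ≤ A.card := card_image_le
    omega
  have hδR : (0 : ℝ) < δ := by exact_mod_cast hδ
  have hcR : (0 : ℝ) < c := by exact_mod_cast hc
  have b2 : (P₂.card : ℝ) ≤
      100 * C₂ * 9 ^ (e + 2) * (w ^ 5 * ((R : ℝ) ^ 2 / (δ ^ 2 * c)) ^ (e + 2)) := by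
    rcases P₂.eq_empty_or_nonempty with h0 | ⟨p₀, hp₀⟩
    · rw [h0]
      simp only [card_empty, Nat.cast_zero]
      positivity
    have key : ∀ p ∈ P₂, δ ^ 2 * c ≤ 4 * N ∧ ∃ a a' : ι → ℤ, a ≠ 0 ∧ a' ≠ 0 ∧
        (a ⬝ᵥ a) * (a' ⬝ᵥ a') ≤ ((5 * N / (δ ^ 2 * c) + 1 : ℕ) : ℤ) ^ 2 ∧
        (a ⬝ᵥ a) * (a' ⬝ᵥ a') - (a ⬝ᵥ a') ^ 2 ≠ 0 ∧
        (∃ α β : ℚ, ∀ l, (p.1 l : ℚ) = α * a l + β * a' l) ∧
        (∃ α β : ℚ, ∀ l, (p.2 l : ℚ) = α * a l + β * a' l) := by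
      intro p hp
      obtain ⟨hp1, hp2⟩ := mem_filter.1 hp
      obtain ⟨hp3, ζ, ζ', u, hp4⟩ := mem_filter.1 hp1
      obtain ⟨hp5, hp6⟩ := mem_product.1 hp3
      exact RelPairs_gram hδ hc (mem_sph.1 hp5) (mem_sph.1 hp6) hp4 hp2
    have hD := (key p₀ hp₀).1
    obtain ⟨X, hX⟩ : ∃ X : ℕ, X = 5 * N / (δ ^ 2 * c) + 1 := ⟨_, rfl⟩
    rw [← hX] at key
    have hX1 : 1 ≤ X := by rw [hX]; exact Nat.le_add_left _ _
    have hX2 : X ≤ 6 * R ^ 2 := by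
      have := Nat.div_le_self (5 * N) (δ ^ 2 * c)
      omega
    have hX3 : (X : ℝ) ≤ 9 * ((R : ℝ) ^ 2 / (δ ^ 2 * c)) := by
      have i1 : X * (δ ^ 2 * c) ≤ 9 * R ^ 2 := by
        have := Nat.div_mul_le_self (5 * N) (δ ^ 2 * c)
        rw [hX, add_mul]
        omega
      have i2 : (X : ℝ) * (δ ^ 2 * c) ≤ 9 * R ^ 2 := by exact_mod_cast i1
      rw [← mul_div_assoc, le_div_iff₀ (by positivity)]
      exact i2
    have hX4 : 1 + Real.log X ≤ w := by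
      have i1 : (X : ℝ) ≤ 6 * (R : ℝ) ^ 2 := by exact_mod_cast hX2
      have i2 : (0 : ℝ) < X := by exact_mod_cast hX1
      have := Real.log_le_log i2 i1
      linarith
    set T := (box ι X ×ˢ box ι X).filter fun p => p.1 ≠ 0 ∧ p.2 ≠ 0 ∧
      (p.1 ⬝ᵥ p.1) * (p.2 ⬝ᵥ p.2) ≤ (X : ℤ) ^ 2 with hT
    have hTc : (T.card : ℝ) ≤ C₂ * (X : ℝ) ^ (e + 2) * (1 + Real.log X) := by
      rw [← he]
      exact h₂ X
    set T' := T.filter fun t => (t.1 ⬝ᵥ t.1) * (t.2 ⬝ᵥ t.2) - (t.1 ⬝ᵥ t.2) ^ 2 ≠ 0 with hT'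
    set S : (ι → ℤ) × (ι → ℤ) → Finset (ι → ℤ) := fun t =>
      (sph ι N).filter fun x => ∃ α β : ℚ, ∀ l, (x l : ℚ) = α * t.1 l + β * t.2 l with hS
    have hSc : ∀ t ∈ T', (S t).card ≤ 10 * w ^ 2 := by
      intro t ht
      obtain ⟨ht1, ht2⟩ := mem_filter.1 ht
      obtain ⟨ht3, ht4⟩ := mem_product.1 (mem_filter.1 ht1).1
      obtain ⟨i, j, hij⟩ := exists_minor_of_gram ht2
      have hXZ : (X : ℤ) ≤ ((6 * R ^ 2 : ℕ) : ℤ) := by exact_mod_cast hX2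
      refine plane_count (n := N) (Z := 6 * R ^ 2) ?_ hw (by rw [he]; exact hτ)
        (fun l => (mem_box.1 ht3 l).trans hXZ) (fun l => (mem_box.1 ht4 l).trans hXZ) hij _
        (filter_subset _ _) ?_
      · exact (show N ≤ 6 * R ^ 2 by omega).trans (Nat.le_self_pow two_ne_zero _)
      · intro x hx y hy
        obtain ⟨α, β, hx1⟩ := (mem_filter.1 hx).2
        obtain ⟨α', β', hy1⟩ := (mem_filter.1 hy).2
        refine ⟨α - α', β - β', fun l => ?_⟩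
        push_cast
        rw [hx1 l, hy1 l]
        ring
    have hsub : P₂ ⊆ T'.biUnion fun t => S t ×ˢ S t := by
      intro p hp
      obtain ⟨-, a, a', ha, ha', h1, h2, h3, h4⟩ := key p hp
      obtain ⟨hp5, hp6⟩ := mem_product.1 (mem_filter.1 (mem_filter.1 hp).1).1
      have i1 := dot_self_pos ha
      have i2 := dot_self_pos ha'
      refine mem_biUnion.2 ⟨(a, a'), mem_filter.2 ⟨mem_filter.2 ⟨mem_product.2
        ⟨mem_box_of_dot ?_, mem_box_of_dot ?_⟩, ha, ha', h1⟩, h2⟩,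
        mem_product.2 ⟨mem_filter.2 ⟨hp5, h3⟩, mem_filter.2 ⟨hp6, h4⟩⟩⟩
      · exact le_trans (le_mul_of_one_le_right i1.le i2) h1
      · exact le_trans (le_mul_of_one_le_left i2.le i1) h1
    have hcard : P₂.card ≤ T.card * (100 * w ^ 4) := by
      refine (card_le_card hsub).trans ((card_biUnion_le_card_mul _ _ (100 * w ^ 4) ?_).trans
        (Nat.mul_le_mul_right _ (card_filter_le _ _)))
      intro t ht
      rw [card_product]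
      calc (S t).card * (S t).card ≤ (10 * w ^ 2) * (10 * w ^ 2) :=
            Nat.mul_le_mul (hSc t ht) (hSc t ht)
        _ = 100 * w ^ 4 := by ring
    calc (P₂.card : ℝ) ≤ T.card * (100 * w ^ 4) := by exact_mod_cast hcard
      _ ≤ C₂ * (X : ℝ) ^ (e + 2) * (1 + Real.log X) * (100 * w ^ 4) := by gcongr
      _ ≤ C₂ * (9 * ((R : ℝ) ^ 2 / (δ ^ 2 * c))) ^ (e + 2) * w * (100 * w ^ 4) := by gcongr
      _ = _ := by rw [mul_pow]; ring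
  have b3 : (P.card : ℝ) ≤ 2 * A.card + P₂.card := by
    have : P.card ≤ 2 * A.card + P₂.card := by omega
    exact_mod_cast this
  have p1 : 0 ≤ ((R : ℝ) / δ) ^ e := by positivity
  have p2 : 0 ≤ (w : ℝ) ^ 5 * ((R : ℝ) ^ 2 / (δ ^ 2 * c)) ^ (e + 2) := by positivity
  have p3 : 0 ≤ 2 * (C₁ * 2 ^ e) := by positivity
  have p4 : 0 ≤ 100 * C₂ * 9 ^ (e + 2) := by positivity
  have p5 := mul_nonneg p3 p2
  have p6 := mul_nonneg p4 p1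
  linarith [p5, p6, mul_add (2 * (C₁ * 2 ^ e) + 100 * C₂ * 9 ^ (e + 2)) (((R : ℝ) / δ) ^ e)
    ((w : ℝ) ^ 5 * ((R : ℝ) ^ 2 / (δ ^ 2 * c)) ^ (e + 2))]

end Pool.Agent.P.MP_d565f2_an.LS
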