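import Pool.Agent.P.MP_d565f2_an.SR.Major

set_option autoImplicit false

open Finset

namespace Pool.Agent.P.MP_d565f2_an.LS

variable {ι : Type} [Fintype ι] [DecidableEq ι]

/- Copy the injection h5 and the end of `level0` (Sieve2.lean) and the start of `level0_count`
(Sieve1.lean): `sieve_ineq`, `sum_sigma`, `sum_dvd_ex_eq`; split the sum over a into den ≤ w ^ 40
(`major` with B = w ^ 40, Q = w ^ 2) and the rest (EE); `log_le_selL`. -/
theorem TT_le {e : ℕ} (he : Fintype.card ι = e + 2) (he5 : 5 ≤ e) : ∃ C : ℝ, 0 ≤ C ∧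
    ∀ (x x₀ f : ι → ℤ) (γ R w : ℕ), (∀ i, x i = γ * x₀ i) → ∑ i, x₀ i * f i = 1 → 0 < γ → 1 ≤ w →
      w ^ 160 ≤ R → (TT ι R w x : ℝ) * Real.log w ≤ 2 * (C * (R : ℝ) ^ e + EE ι γ R w x₀) := by
  classical
  obtain ⟨C, hC0, hC⟩ := major he he5
  refine ⟨C, hC0, fun x x₀ f γ R w hxγ hf hγ0 hw hR => ?_⟩
  have hγ' : (0 : ℤ) < γ := by exact_mod_cast hγ0
  have hdot : ∀ v, x ⬝ᵥ v = γ * (x₀ ⬝ᵥ v) := by
    intro v
    simp only [dotProduct, hxγ, Finset.mul_sum, mul_assoc]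
  have h0 := hC x₀ f γ R (w ^ 40) (w ^ 2) hf hγ0 (by rwa [← pow_mul])
  have h1 : ((((Icc 1 (R ^ 2 / γ)).sigma fun m => (sph ι (γ * m)).filter
        fun z => (m : ℤ) ∣ 2 * (x₀ ⬝ᵥ z)).filter
      fun y : (_ : ℕ) × (ι → ℤ) =>
        ∃ p : ℕ, p.Prime ∧ w < p ∧ 2 * (x₀ ⬝ᵥ y.2) / (y.1 : ℤ) = p).card : ℝ) * selL w ≤
      C * (R : ℝ) ^ e + EE ι γ R w x₀ := by
    refine (sieve_ineq _ _ (fun y : (_ : ℕ) × (ι → ℤ) => 2 * (x₀ ⬝ᵥ y.2) / (y.1 : ℤ)) w
      (filter_subset _ _) fun y hy => (mem_filter.1 hy).2).trans ?_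
    refine le_trans ?_ (add_le_add_left h0 _)
    rw [EE, ← Finset.sum_add_distrib]
    refine Finset.sum_le_sum fun s _ => ?_
    rw [Finset.sum_sigma, ← Finset.sum_add_distrib]
    refine (norm_sum_le _ _).trans (Finset.sum_le_sum fun m hm => ?_)
    simp only
    rw [sum_dvd_ex_eq x₀ _ m (mem_Icc.1 hm).1, norm_mul, norm_inv, Complex.norm_natCast, ← mul_add,
      ← Finset.sum_filter_add_sum_filter_not _ fun a : ℕ => (((a : ℚ) + s) / m).den ≤ w ^ 40]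
    exact mul_le_mul_of_nonneg_left ((norm_add_le _ _).trans
      (add_le_add_left (norm_sum_le _ _) _)) (by positivity)
  have h3 := log_le_selL w
  have h4 : Real.log w ≤ Real.log (w + 1) :=
    Real.log_le_log (by exact_mod_cast (by omega : 0 < w)) (by linarith)
  have h5 : TT ι R w x ≤
      (((Icc 1 (R ^ 2 / γ)).sigma fun m => (sph ι (γ * m)).filter
        fun z => (m : ℤ) ∣ 2 * (x₀ ⬝ᵥ z)).filter
      fun y : (_ : ℕ) × (ι → ℤ) =>
        ∃ p : ℕ, p.Prime ∧ w < p ∧ 2 * (x₀ ⬝ᵥ y.2) / (y.1 : ℤ) = p).card := by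
    refine Finset.card_le_card_of_injOn (fun z => ⟨(z ⬝ᵥ z).toNat / γ, z⟩) ?_ ?_
    · intro z hz
      obtain ⟨-, hz0, hz1, p, hp1, hp2, hp3, hp4⟩ := mem_filter.1 (mem_coe.1 hz)
      have hzpos := dot_self_pos hz0
      have hcop : IsCoprime (γ : ℤ) p := by
        rw [Nat.isCoprime_iff_coprime, Nat.coprime_comm, hp1.coprime_iff_not_dvd]
        intro h6
        apply hp3
        rw [hdot]
        exact Dvd.dvd.mul_right (by exact_mod_cast h6) _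
      have h6 : (γ : ℤ) ∣ z ⬝ᵥ z :=
        hcop.dvd_of_dvd_mul_left ⟨2 * (x₀ ⬝ᵥ z), by rw [← hp4, hdot]; ring⟩
      obtain ⟨k, hk⟩ := h6
      have hk0 : 0 < k := by
        rw [hk] at hzpos
        exact (pos_iff_pos_of_mul_pos hzpos).1 hγ'
      obtain ⟨m, rfl⟩ := Int.eq_ofNat_of_zero_le hk0.le
      have hm0 : 0 < m := by exact_mod_cast hk0
      have h7 : (z ⬝ᵥ z).toNat / γ = m := by
        rw [hk, ← Nat.cast_mul, Int.toNat_natCast, Nat.mul_div_cancel_left _ hγ0]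
      have h8 : 2 * (x₀ ⬝ᵥ z) = m * p := by
        apply mul_left_cancel₀ hγ'.ne'
        rw [hdot, hk] at hp4
        linarith
      simp only [h7, coe_filter, mem_sigma, mem_Icc, mem_filter, Set.mem_ofPred_eq, mem_sph]
      refine ⟨⟨⟨hm0, ?_⟩, by rw [hk]; push_cast; rfl, ⟨p, h8⟩⟩, p, hp1, hp2, ?_⟩
      · rw [Nat.le_div_iff_mul_le hγ0, mul_comm]
        rw [hk] at hz1
        exact_mod_cast hz1
      · rw [h8, Int.mul_ediv_cancel_left _ hk0.ne']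
    · intro z _ z' _ h
      exact eq_of_heq (Sigma.mk.inj h).2
  have h6 : (0 : ℝ) ≤ Real.log w := Real.log_natCast_nonneg w
  calc _ ≤ ((((Icc 1 (R ^ 2 / γ)).sigma fun m => (sph ι (γ * m)).filter
        fun z => (m : ℤ) ∣ 2 * (x₀ ⬝ᵥ z)).filter
      fun y : (_ : ℕ) × (ι → ℤ) =>
        ∃ p : ℕ, p.Prime ∧ w < p ∧ 2 * (x₀ ⬝ᵥ y.2) / (y.1 : ℤ) = p).card : ℝ) * (2 * selL w) := by
        gcongr
        exact h4.trans h3
    _ ≤ _ := by
        rw [mul_left_comm]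
        exact mul_le_mul_of_nonneg_left h1 (by norm_num)

end Pool.Agent.P.MP_d565f2_an.LS
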