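import Pool.Agent.P.MP_d565f2_an.SR.CDefs

set_option autoImplicit false

open Finset

namespace Pool.Agent.P.MP_d565f2_an.LS

variable {ι : Type} [Fintype ι] [DecidableEq ι]

theorem SieveW_den {s s' u : ℚ} (h : Int.fract (s - s') = u) :
    u.den ∣ s.den.lcm s'.den ∧ s.den ∣ u.den * s'.den ∧ s'.den ∣ s.den * u.den := by
  refine ⟨?_, ?_, ?_⟩
  · rw [← h, Int.fract, Rat.sub_intCast_den]
    exact Rat.sub_den_dvd_lcm _ _
  · have e : s = u + s' + (⌊s - s'⌋ : ℤ) := by rw [← h, Int.fract]; ring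
    have := Rat.add_den_dvd u s'
    rwa [← Rat.add_intCast_den _ ⌊s - s'⌋, ← e] at this
  · have e : s' = s - u - (⌊s - s'⌋ : ℤ) := by rw [← h, Int.fract]; ring
    have := Rat.sub_den_dvd s u
    rwa [← Rat.sub_intCast_den _ ⌊s - s'⌋, ← e] at this

theorem SieveW_q {d d' b : ℕ} (hb : b ≠ 0) (hd : Squarefree d) (h : d ∣ d' * b) :
    d / d.gcd b ∣ d' / d'.gcd b := by
  have c := Nat.coprime_div_gcd_of_squarefree hd hb
  have h1 : d / d.gcd b ∣ d' :=
    c.dvd_of_dvd_mul_right ((Nat.div_dvd_of_dvd (Nat.gcd_dvd_left _ _)).trans h)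
  refine (c.coprime_dvd_right (Nat.gcd_dvd_right d' b)).dvd_of_dvd_mul_right ?_
  rwa [Nat.div_mul_cancel (Nat.gcd_dvd_left _ _)]

theorem SieveW_count {R d d' : ℕ} {u : ℚ} (hd : 0 < d) (S : Finset (ℚ × ℚ))
    (hS : ∀ p ∈ S, p.1 ∈ farey R ∧ p.2 ∈ farey R ∧ Int.fract (p.1 - p.2) = u ∧ p.1.den = d ∧
      p.2.den = d') : S.card ≤ d.gcd d' := by
  rcases S.eq_empty_or_nonempty with rfl | ⟨p₀, h₀⟩
  · simp
  have g0 : 0 < d.gcd d' := Nat.gcd_pos_of_pos_left _ hd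
  refine le_trans (card_le_card_of_injOn
    (t := (range (d.gcd d')).image fun r : ℕ => (r : ℚ) / (d.gcd d' : ℕ))
    (fun p => Int.fract (p.1 - p₀.1)) (fun p hp => ?_) fun p hp p' hp' h => ?_)
    (card_image_le.trans (card_range _).le)
  · obtain ⟨-, -, a3, a4, a5⟩ := hS p hp
    obtain ⟨-, -, b3, b4, b5⟩ := hS p₀ h₀
    obtain ⟨z, hz⟩ := Int.fract_eq_fract.1 (a3.trans b3.symm)
    have e : (Int.fract (p.1 - p₀.1)).den = (p.1 - p₀.1).den := Rat.sub_intCast_den _ _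
    have h1 := Rat.sub_den_dvd_lcm p.1 p₀.1
    have h2 := Rat.sub_den_dvd_lcm p.2 p₀.2
    rw [a4, b4, Nat.lcm_self] at h1
    rw [a5, b5, Nat.lcm_self, ← Rat.add_intCast_den _ z,
      show p.2 - p₀.2 + z = p.1 - p₀.1 by linarith] at h2
    obtain ⟨r, hr, hrs⟩ := eq_div_of_den_dvd (Int.fract_nonneg (p.1 - p₀.1)) (Int.fract_lt_one _)
      g0 (e ▸ Nat.dvd_gcd h1 h2)
    exact mem_coe.2 (mem_image.2 ⟨r, mem_range.2 hr, hrs⟩)
  · obtain ⟨a1, a2, a3, -⟩ := hS p hp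
    obtain ⟨b1, b2, b3, -⟩ := hS p' hp'
    obtain ⟨z, hz⟩ := Int.fract_eq_fract.1 h
    obtain ⟨y, hy⟩ := Int.fract_eq_fract.1 (a3.trans b3.symm)
    have e : p.1 = p'.1 := eq_of_sub_int a1 b1 (z := z) (by linarith)
    exact Prod.ext e (eq_of_sub_int b2 a2 (z := y) (by rw [e] at hy; linarith)).symm

/- u = c / b.  Group the s by σ = fract (b s) = a / q₀ ∈ farey R; q₀ ∣ s.den is squarefree when
μ s.den ≠ 0.  Then s = (a + j q₀) / (q₀ b) with 0 ≤ j < b, s.den = q₀ b / g₁, g₁ = gcd (a + j q₀) b,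
and s' ≡ s - u has s'.den = q₀ b / g₂, g₂ = gcd (a + (j - c) q₀) b (both numerators are coprime to
q₀).  g₁, g₂, q₀ are pairwise coprime, so for given divisors g₁, g₂ of b at most b / (g₁ g₂) values
of j occur; ∑ over j of 1 / (s.den s'.den) ≤ τ(b) ^ 2 / (q₀ ^ 2 b).  At most q₀ values σ have
denominator q₀ (`card_farey_den_eq`).  Any other proof is welcome. -/
theorem weight_le (R : ℕ) (u : ℚ) :
    ∑ p ∈ (farey R ×ˢ farey R).filter (fun p => Int.fract (p.1 - p.2) = u),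
      |((ArithmeticFunction.moebius p.1.den : ℤ) : ℝ) / p.1.den *
        (((ArithmeticFunction.moebius p.2.den : ℤ) : ℝ) / p.2.den)| ≤ selL R * wt u := by
  classical
  have hb : u.den ≠ 0 := u.den_nz
  have hb' : (0 : ℝ) < u.den := by exact_mod_cast u.pos
  rw [← sum_filter_of_ne (p := fun p : ℚ × ℚ => Squarefree p.1.den ∧ Squarefree p.2.den)
    (fun p _ h => by
      by_contra k
      rcases not_and_or.1 k with k | k <;>
        simp [ArithmeticFunction.moebius_eq_zero_of_not_squarefree k] at h)]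
  set P := ((farey R ×ˢ farey R).filter fun p => Int.fract (p.1 - p.2) = u).filter
    fun p : ℚ × ℚ => Squarefree p.1.den ∧ Squarefree p.2.den with hP
  have mP : ∀ p ∈ P, p.1 ∈ farey R ∧ p.2 ∈ farey R ∧ Int.fract (p.1 - p.2) = u ∧
      Squarefree p.1.den ∧ Squarefree p.2.den := fun p hp => by
    simp only [hP, mem_filter, mem_product] at hp
    exact ⟨hp.1.1.1, hp.1.1.2, hp.1.2, hp.2⟩
  let φ : ℚ × ℚ → ℕ × ℕ × ℕ := fun p =>
    (p.1.den / p.1.den.gcd u.den, p.1.den.gcd u.den, p.2.den.gcd u.den)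
  have hφ : ∀ p ∈ P, φ p ∈ Icc 1 R ×ˢ (u.den.divisors ×ˢ u.den.divisors) := fun p hp => by
    simp only [φ, mem_product, mem_Icc, Nat.mem_divisors]
    exact ⟨⟨Nat.div_pos (Nat.le_of_dvd p.1.pos (Nat.gcd_dvd_left _ _))
      (Nat.gcd_pos_of_pos_left _ p.1.pos),
      (Nat.div_le_self _ _).trans (mem_farey.1 (mP p hp).1).2.2⟩,
      ⟨Nat.gcd_dvd_right _ _, hb⟩, Nat.gcd_dvd_right _ _, hb⟩
  rw [← sum_fiberwise_of_maps_to hφ]
  have fib : ∀ y ∈ Icc 1 R ×ˢ (u.den.divisors ×ˢ u.den.divisors), ∑ p ∈ P with φ p = y,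
      |((ArithmeticFunction.moebius p.1.den : ℤ) : ℝ) / p.1.den *
        (((ArithmeticFunction.moebius p.2.den : ℤ) : ℝ) / p.2.den)| ≤
      ((ArithmeticFunction.moebius y.1 : ℤ) : ℝ) ^ 2 / y.1 / u.den := by
    rintro ⟨q, e₁, e₂⟩ -
    rcases (P.filter fun p => φ p = (q, e₁, e₂)).eq_empty_or_nonempty with h | ⟨p₀, h₀⟩
    · rw [h, sum_empty]
      positivity
    have dd : ∀ p ∈ P.filter fun p => φ p = (q, e₁, e₂), p.1.den = q * e₁ ∧ p.2.den = q * e₂ := by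
      intro p hp
      obtain ⟨h1, h2⟩ := mem_filter.1 hp
      obtain ⟨-, -, a3, a4, a5⟩ := mP p h1
      obtain ⟨-, c2, c3⟩ := SieveW_den a3
      simp only [φ, Prod.mk.injEq] at h2
      have e := Nat.dvd_antisymm (SieveW_q hb a4 (mul_comm u.den _ ▸ c2)) (SieveW_q hb a5 c3)
      rw [← h2.1, ← h2.2.1, ← h2.2.2]
      refine ⟨(Nat.div_mul_cancel (Nat.gcd_dvd_left _ _)).symm, ?_⟩
      rw [e]
      exact (Nat.div_mul_cancel (Nat.gcd_dvd_left _ _)).symm
    obtain ⟨h1, h2⟩ := mem_filter.1 h₀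
    obtain ⟨-, -, a3, a4, a5⟩ := mP p₀ h1
    obtain ⟨d1, d2⟩ := dd p₀ h₀
    have hq : p₀.1.den / p₀.1.den.gcd u.den = q := congrArg Prod.fst h2
    have cq : q.Coprime u.den := hq ▸ Nat.coprime_div_gcd_of_squarefree a4 hb
    have q1 : q ∣ p₀.1.den := Dvd.intro _ d1.symm
    have l1 : q * u.den ≤ p₀.1.den.lcm p₀.2.den :=
      Nat.le_of_dvd (Nat.lcm_pos p₀.1.pos p₀.2.pos)
        (cq.mul_dvd_of_dvd_of_dvd (q1.trans (Nat.dvd_lcm_left _ _)) (SieveW_den a3).1)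
    have cnt := SieveW_count (R := R) (u := u) (d' := p₀.2.den) p₀.1.pos
      (P.filter fun p => φ p = (q, e₁, e₂)) fun p hp =>
        have m := mP p (mem_filter.1 hp).1
        ⟨m.1, m.2.1, m.2.2.1, (dd p hp).1.trans d1.symm, (dd p hp).2.trans d2.symm⟩
    have x1 : (0 : ℝ) < p₀.1.den := by exact_mod_cast p₀.1.pos
    have x2 : (0 : ℝ) < p₀.2.den := by exact_mod_cast p₀.2.pos
    have x3 : (0 : ℝ) < q := by exact_mod_cast Nat.pos_of_dvd_of_pos q1 p₀.1.pos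
    have mu : ((ArithmeticFunction.moebius q : ℤ) : ℝ) ^ 2 = 1 := by
      exact_mod_cast ArithmeticFunction.moebius_sq_eq_one_of_squarefree (a4.squarefree_of_dvd q1)
    refine (sum_le_card_nsmul _ _ (1 / ((p₀.1.den : ℝ) * p₀.2.den)) fun p hp => ?_).trans ?_
    · have m := mP p (mem_filter.1 hp).1
      rw [abs_mul, abs_div, abs_div, ← Int.cast_abs, ← Int.cast_abs,
        ArithmeticFunction.abs_moebius_eq_one_of_squarefree m.2.2.2.1,
        ArithmeticFunction.abs_moebius_eq_one_of_squarefree m.2.2.2.2, Nat.abs_cast, Nat.abs_cast,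
        (dd p hp).1.trans d1.symm, (dd p hp).2.trans d2.symm]
      simp [mul_comm]
    · rw [nsmul_eq_mul, mu, mul_one_div, div_div, div_le_div_iff₀ (by positivity) (by positivity),
        one_mul]
      have := (Nat.mul_le_mul cnt l1).trans (Nat.gcd_mul_lcm _ _).le
      exact_mod_cast this
  refine (sum_le_sum fib).trans (le_of_eq ?_)
  rw [sum_product, selL, sum_mul]
  refine sum_congr rfl fun q _ => ?_
  simp only [sum_const, card_product, nsmul_eq_mul, wt]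
  push_cast
  ring

/- Copy `sieve_ineq` (Sieve1.lean); in h6 group the pairs (s, s') by u = fract (s - s') ∈
farey (R ^ 2) (`fract_sub_mem`) and use `weight_le`. -/
theorem sieve_ineq2 {α : Type} (Ω Ω₀ : Finset α) (g : α → ℤ) (R : ℕ) (hΩ : Ω₀ ⊆ Ω)
    (hp : ∀ x ∈ Ω₀, ∃ p : ℕ, p.Prime ∧ R < p ∧ g x = p) :
    Ω₀.card * selL R ≤ ∑ s ∈ farey (R ^ 2), wt s * ‖∑ x ∈ Ω, ex ((s : ℝ) * g x)‖ := by
  classical
  set B := ∑ s ∈ farey (R ^ 2), wt s * ‖∑ x ∈ Ω, ex ((s : ℝ) * g x)‖ with hB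
  have hB0 : 0 ≤ B := Finset.sum_nonneg fun _ _ => by unfold wt; positivity
  have hL0 : 0 ≤ selL R := Finset.sum_nonneg fun _ _ => by positivity
  let a : ℚ → ℝ := fun s => ((ArithmeticFunction.moebius s.den : ℤ) : ℝ) / s.den
  let La : ℤ → ℂ := fun n => ∑ s ∈ farey R, (a s : ℂ) * ex ((s : ℝ) * n)
  let E : ℚ → ℂ := fun s => ∑ x ∈ Ω, ex ((s : ℝ) * g x)
  have hmaps : ∀ s ∈ farey R, s.den ∈ Icc 1 R := fun s hs =>
    mem_Icc.2 ⟨s.pos, (mem_farey.1 hs).2.2⟩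
  have h1 : ∀ p : ℕ, p.Prime → R < p → La p = (selL R : ℂ) := by
    intro p hp hR
    simp only [La, selL]
    rw [← Finset.sum_fiberwise_of_maps_to hmaps, Complex.ofReal_sum]
    refine Finset.sum_congr rfl fun q hq => ?_
    have h2 := ramanujan hp hR q (mem_Icc.1 hq).1 (mem_Icc.1 hq).2
    calc ∑ s ∈ (farey R).filter (fun s => s.den = q), (a s : ℂ) * ex ((s : ℝ) * ((p : ℤ) : ℝ))
        = ∑ s ∈ (farey R).filter (fun s => s.den = q),
            ((((ArithmeticFunction.moebius q : ℤ) : ℝ) / q : ℝ) : ℂ) * ex ((s : ℝ) * p) := by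
          refine Finset.sum_congr rfl fun s hs => ?_
          simp only [a, (mem_filter.1 hs).2]
          rfl
      _ = _ := by
          rw [← Finset.mul_sum, h2]
          push_cast
          ring
  have hEfract : ∀ s : ℚ, E s = E (Int.fract s) := by
    intro s
    refine Finset.sum_congr rfl fun x _ => ?_
    rw [← ex_add_int (((Int.fract s : ℚ) : ℝ) * g x) (⌊s⌋ * g x)]
    congr 1
    rw [Int.fract]
    push_cast
    ring
  have h5 : ((∑ x ∈ Ω, ‖La (g x)‖ ^ 2 : ℝ) : ℂ) =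
      ∑ s ∈ farey R, ∑ s' ∈ farey R, ((a s * a s' : ℝ) : ℂ) * E (s - s') := by
    rw [Complex.ofReal_sum]
    have h6 : ∀ x, ((‖La (g x)‖ ^ 2 : ℝ) : ℂ) = ∑ s ∈ farey R, ∑ s' ∈ farey R,
        ((a s * a s' : ℝ) : ℂ) * ex (((s - s' : ℚ) : ℝ) * g x) := by
      intro x
      rw [Complex.ofReal_pow, ← Complex.mul_conj', map_sum, Finset.sum_mul_sum]
      refine Finset.sum_congr rfl fun s _ => Finset.sum_congr rfl fun s' _ => ?_
      have h7 : ((s - s' : ℚ) : ℝ) * g x = s * g x + -(s' * g x) := by push_cast; ring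
      rw [map_mul, conj_ex, Complex.conj_ofReal, h7, ex_add]
      push_cast
      ring
    simp only [h6, E, Finset.mul_sum]
    rw [Finset.sum_comm]
    exact Finset.sum_congr rfl fun s _ => Finset.sum_comm
  have h6 : ∑ x ∈ Ω, ‖La (g x)‖ ^ 2 ≤ selL R * B := by
    refine (le_abs_self _).trans ?_
    rw [← Real.norm_eq_abs, ← Complex.norm_real, h5, ← Finset.sum_product']
    refine (norm_sum_le _ _).trans ?_
    rw [← Finset.sum_fiberwise_of_maps_to (t := farey (R ^ 2))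
      (g := fun p : ℚ × ℚ => Int.fract (p.1 - p.2))
      (fun p hp => fract_sub_mem (mem_product.1 hp).1 (mem_product.1 hp).2), hB, Finset.mul_sum]
    refine Finset.sum_le_sum fun u _ => ?_
    rw [← mul_assoc]
    refine le_trans (le_of_eq ?_) (mul_le_mul_of_nonneg_right (weight_le R u) (norm_nonneg (E u)))
    rw [Finset.sum_mul]
    refine Finset.sum_congr rfl fun p hp => ?_
    rw [norm_mul, Complex.norm_real, Real.norm_eq_abs, hEfract, (mem_filter.1 hp).2]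
  have h7 : Ω₀.card * selL R ^ 2 ≤ ∑ x ∈ Ω, ‖La (g x)‖ ^ 2 := by
    refine le_trans ?_ (Finset.sum_le_sum_of_subset_of_nonneg hΩ fun _ _ _ => by positivity)
    rw [← nsmul_eq_mul]
    refine Finset.card_nsmul_le_sum _ _ _ fun x hx => ?_
    obtain ⟨p, hp1, hp2, hp3⟩ := hp x hx
    rw [hp3, h1 p hp1 hp2, Complex.norm_real, Real.norm_of_nonneg hL0]
  rcases hL0.eq_or_lt with h0 | h0
  · rw [← h0, mul_zero]; exact hB0
  · refine le_of_mul_le_mul_left ?_ h0
    nlinarith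

end Pool.Agent.P.MP_d565f2_an.LS
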