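import Pool.Agent.P.MP_d565f2_an.SR.Major5
import Pool.Agent.P.MP_d565f2_an.SR.SieveW
import Pool.Agent.P.MP_d565f2_an.SR.Sieve3

set_option autoImplicit false

open Finset

namespace Pool.Agent.P.MP_d565f2_an.LS

variable {ι : Type} [Fintype ι] [DecidableEq ι]

/- Copy `TT_le` (SR/Sieve3.lean) with `sieve_ineq2`, `major5`, and wt ≤ C' on the part with large
denominators (`card_divisors_pow_le 2`). -/
theorem TT_le5 {e : ℕ} (he : Fintype.card ι = e + 2) (he3 : 3 ≤ e) : ∃ C : ℝ, 0 ≤ C ∧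
    ∀ (x x₀ f : ι → ℤ) (γ R w B : ℕ), (∀ i, x i = γ * x₀ i) → ∑ i, x₀ i * f i = 1 → 0 < γ →
      1 ≤ w → B ^ 6 ≤ R →
      (TT ι R w x : ℝ) * Real.log w ≤ C * ((R : ℝ) ^ e + EB ι γ R w B x₀) := by
  classical
  obtain ⟨C, hC0, hC⟩ := major5 he he3
  obtain ⟨K, hK⟩ := card_divisors_pow_le 2 (by omega)
  have w0 : ∀ s, 0 ≤ wt s := fun s => by unfold wt; positivity
  have wK : ∀ s, wt s ≤ K := fun s => by
    rw [wt, div_le_iff₀ (by exact_mod_cast s.den_pos)]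
    exact_mod_cast hK s.den s.den_nz
  refine ⟨2 * (C + K), by positivity, fun x x₀ f γ R w B hxγ hf hγ0 hw hR => ?_⟩
  have hγ' : (0 : ℤ) < γ := by exact_mod_cast hγ0
  have hdot : ∀ v, x ⬝ᵥ v = γ * (x₀ ⬝ᵥ v) := by
    intro v
    simp only [dotProduct, hxγ, Finset.mul_sum, mul_assoc]
  have h0 := hC x₀ f γ R B (w ^ 2) hf hγ0 hR
  have hE : 0 ≤ EB ι γ R w B x₀ := by unfold EB; positivity
  have h1 : ((((Icc 1 (R ^ 2 / γ)).sigma fun m => (sph ι (γ * m)).filter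
        fun z => (m : ℤ) ∣ 2 * (x₀ ⬝ᵥ z)).filter
      fun y : (_ : ℕ) × (ι → ℤ) =>
        ∃ p : ℕ, p.Prime ∧ w < p ∧ 2 * (x₀ ⬝ᵥ y.2) / (y.1 : ℤ) = p).card : ℝ) * selL w ≤
      C * (R : ℝ) ^ e + K * EB ι γ R w B x₀ := by
    refine (sieve_ineq2 _ _ (fun y : (_ : ℕ) × (ι → ℤ) => 2 * (x₀ ⬝ᵥ y.2) / (y.1 : ℤ)) w
      (filter_subset _ _) fun y hy => (mem_filter.1 hy).2).trans ?_
    refine le_trans ?_ (add_le_add_left h0 _)
    rw [EB, Finset.mul_sum, ← Finset.sum_add_distrib]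
    refine Finset.sum_le_sum fun s _ => ?_
    refine le_trans ?_ (add_le_add_right (mul_le_mul_of_nonneg_right (wK s) (by positivity)) _)
    rw [← mul_add]
    refine mul_le_mul_of_nonneg_left ?_ (w0 s)
    rw [Finset.sum_sigma, ← Finset.sum_add_distrib]
    refine (norm_sum_le _ _).trans (Finset.sum_le_sum fun m hm => ?_)
    simp only
    rw [sum_dvd_ex_eq x₀ _ m (mem_Icc.1 hm).1, norm_mul, norm_inv, Complex.norm_natCast, ← mul_add,
      ← Finset.sum_filter_add_sum_filter_not _ fun a : ℕ => (((a : ℚ) + s) / m).den ≤ B]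
    exact mul_le_mul_of_nonneg_left ((norm_add_le _ _).trans
      (add_le_add_left (norm_sum_le _ _) _)) (by positivity)
  have h3 := log_le_selL w
  have h4 : Real.log w ≤ Real.log (w + 1) :=
    Real.log_le_log (by exact_mod_cast (by omega : 0 < w)) (by linarith)
  have h5 : TT ι R w x ≤
      (((Icc 1 (R ^ 2 / γ)).sigma fun m => (sph ι (γ * m)).filter
        fun z => (m : ℤ) ∣ 2 * (x₀ ⬝ᵥ z)).filter
      fun y : (_ : ℕ) × (ι → ℤ) =>
        ∃ p : ℕ, p.Prime ∧ w < p ∧ 2 * (x₀ ⬝ᵥ y.2) / (y.1 : ℤ) = p).card := by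
    refine Finset.card_le_card_of_injOn (fun z => ⟨(z ⬝ᵥ z).toNat / γ, z⟩) ?_ ?_
    · intro z hz
      obtain ⟨-, hz0, hz1, p, hp1, hp2, hp3, hp4⟩ := mem_filter.1 (mem_coe.1 hz)
      have hzpos := dot_self_pos hz0
      have hcop : IsCoprime (γ : ℤ) p := by
        rw [Nat.isCoprime_iff_coprime, Nat.coprime_comm, hp1.coprime_iff_not_dvd]
        intro h6
        apply hp3
        rw [hdot]
        exact Dvd.dvd.mul_right (by exact_mod_cast h6) _
      have h6 : (γ : ℤ) ∣ z ⬝ᵥ z :=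
        hcop.dvd_of_dvd_mul_left ⟨2 * (x₀ ⬝ᵥ z), by rw [← hp4, hdot]; ring⟩
      obtain ⟨k, hk⟩ := h6
      have hk0 : 0 < k := by
        rw [hk] at hzpos
        exact (pos_iff_pos_of_mul_pos hzpos).1 hγ'
      obtain ⟨m, rfl⟩ := Int.eq_ofNat_of_zero_le hk0.le
      have hm0 : 0 < m := by exact_mod_cast hk0
      have h7 : (z ⬝ᵥ z).toNat / γ = m := by
        rw [hk, ← Nat.cast_mul, Int.toNat_natCast, Nat.mul_div_cancel_left _ hγ0]
      have h8 : 2 * (x₀ ⬝ᵥ z) = m * p := by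
        apply mul_left_cancel₀ hγ'.ne'
        rw [hdot, hk] at hp4
        linarith
      simp only [h7, coe_filter, mem_sigma, mem_Icc, mem_filter, Set.mem_ofPred_eq, mem_sph]
      refine ⟨⟨⟨hm0, ?_⟩, by rw [hk]; push_cast; rfl, ⟨p, h8⟩⟩, p, hp1, hp2, ?_⟩
      · rw [Nat.le_div_iff_mul_le hγ0, mul_comm]
        rw [hk] at hz1
        exact_mod_cast hz1
      · rw [h8, Int.mul_ediv_cancel_left _ hk0.ne']
    · intro z _ z' _ h
      exact eq_of_heq (Sigma.mk.inj h).2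
  have h6 : (0 : ℝ) ≤ Real.log w := Real.log_natCast_nonneg w
  calc _ ≤ ((((Icc 1 (R ^ 2 / γ)).sigma fun m => (sph ι (γ * m)).filter
        fun z => (m : ℤ) ∣ 2 * (x₀ ⬝ᵥ z)).filter
      fun y : (_ : ℕ) × (ι → ℤ) =>
        ∃ p : ℕ, p.Prime ∧ w < p ∧ 2 * (x₀ ⬝ᵥ y.2) / (y.1 : ℤ) = p).card : ℝ) * (2 * selL w) := by
        gcongr
        exact h4.trans h3
    _ ≤ 2 * (C * (R : ℝ) ^ e + K * EB ι γ R w B x₀) := by
        rw [mul_left_comm]
        exact mul_le_mul_of_nonneg_left h1 (by norm_num)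
    _ ≤ _ := by
        have k1 : 0 ≤ C * EB ι γ R w B x₀ := by positivity
        have k2 : 0 ≤ (K : ℝ) * (R : ℝ) ^ e := by positivity
        linarith

end Pool.Agent.P.MP_d565f2_an.LS
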