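import Pool.Agent.P.MP_d565f2_an.SR.BDefs
import Pool.Agent.P.MP_d565f2_an.LS.Coprime

set_option autoImplicit false

open MvPolynomial Finset Module

namespace Pool.Agent.P.MP_d565f2_an.LS

variable {σ : Type} [Fintype σ] [DecidableEq σ]

theorem Slice_filter {W : Finset (σ → ℤ)} {k a : ℕ} (h : Rel W (k + a)) (u u' : σ → ℤ)
    (g : MvPolynomial (Fin 2) ℚ) (hg : g.totalDegree ≤ a) :
    Rel (W.filter fun x => eval (cst ![u ⬝ᵥ x, u' ⬝ᵥ x]) g ≠ 0) k := by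
  have hl : ∀ v : σ → ℤ, (toQ (lf v)).totalDegree ≤ 1 := fun v =>
    (totalDegree_toQ _).trans (totalDegree_finsetSum_le fun j _ =>
      (totalDegree_mul _ _).trans (by rw [totalDegree_C, totalDegree_X]))
  have h1 : (aeval ![toQ (lf u), toQ (lf u')] g).totalDegree ≤ a := by
    rw [g.as_sum, map_sum]
    refine totalDegree_finsetSum_le fun m hm => ?_
    rw [aeval_monomial, algebraMap_eq, Finsupp.prod]
    refine (totalDegree_mul _ _).trans ?_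
    rw [totalDegree_C, zero_add]
    refine (totalDegree_finsetProd _ _).trans (le_trans (sum_le_sum fun i _ => ?_)
      ((le_totalDegree hm).trans hg))
    refine (totalDegree_pow _ _).trans (mul_le_of_le_one_right' ?_)
    fin_cases i
    · exact hl u
    · exact hl u'
  have h2 : ∀ (x : σ → ℤ) (g : MvPolynomial (Fin 2) ℚ),
      eval (cst x) (aeval ![toQ (lf u), toQ (lf u')] g) = eval (cst ![u ⬝ᵥ x, u' ⬝ᵥ x]) g := by
    intro x g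
    induction g using MvPolynomial.induction_on with
    | C c => simp
    | add p q hp hq => simp only [map_add, hp, hq]
    | mul_X p j hp =>
      simp only [map_mul, hp, aeval_X, eval_X]
      congr 1
      fin_cases j <;> simp [eval_toQ, eval_lf, cst]
  simpa only [h2] using filterQ h _ h1

theorem Slice_prime {W : Finset (σ → ℤ)} (hW : W.Nonempty) {k e : ℕ} (h : Rel W (k + e))
    (u u' : σ → ℤ) {F : MvPolynomial (Fin 2) ℚ} (hF : F ≠ 0) (hFe : F.totalDegree ≤ e)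
    (hFW : ∀ x ∈ W, eval (cst ![u ⬝ᵥ x, u' ⬝ᵥ x]) F = 0) :
    ∃ W' ⊆ W, W'.Nonempty ∧ Rel W' k ∧ ∃ f : MvPolynomial (Fin 2) ℚ, Prime f ∧
      f.totalDegree ≤ e ∧ ∀ x ∈ W', eval (cst ![u ⬝ᵥ x, u' ⬝ᵥ x]) f = 0 := by
  induction F using UniqueFactorizationMonoid.induction_on_prime with
  | h₁ => exact absurd rfl hF
  | h₂ F hu =>
    obtain ⟨x, hx⟩ := hW
    exact absurd (hFW x hx) (hu.map (eval (cst ![u ⬝ᵥ x, u' ⬝ᵥ x]))).ne_zero
  | h₃ G p hG hp ih =>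
    have hd := totalDegree_mul_of_isDomain hp.ne_zero hG
    by_cases hGW : ∀ x ∈ W, eval (cst ![u ⬝ᵥ x, u' ⬝ᵥ x]) G = 0
    · exact ih hG (by omega) hGW
    · push Not at hGW
      obtain ⟨x, hx, hx'⟩ := hGW
      refine ⟨_, Finset.filter_subset _ _, ⟨x, Finset.mem_filter.2 ⟨hx, hx'⟩⟩,
        Slice_filter h u u' G (by omega), p, hp, by omega, fun y hy => ?_⟩
      obtain ⟨hy1, hy2⟩ := Finset.mem_filter.1 hy
      have := hFW y hy1
      rw [map_mul] at this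
      exact (mul_eq_zero.1 this).resolve_right hy2

theorem Slice_point {Z : Finset (Fin 2 → ℤ)} {f g : MvPolynomial (Fin 2) ℚ} (hf : Prime f)
    (hfg : ¬ f ∣ g) (hfW : ∀ x ∈ Z, eval (cst x) f = 0) (hgW : ∀ x ∈ Z, eval (cst x) g = 0)
    {e : ℕ} (hfe : f.totalDegree ≤ e) (hge : g.totalDegree ≤ e) {z : Fin 2 → ℤ} (hz : z ∈ Z) :
    ∃ q : MvPolynomial (Fin 2) ℚ, q.totalDegree ≤ 2 * e ∧ eval (cst z) q ≠ 0 ∧
      ∀ y ∈ Z, eval (cst y) q ≠ 0 → y = z := by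
  obtain ⟨P, -, h2, h3⟩ := coprime_red hf hfg hfW hgW hfe hge
  have h4 : V1 Z ^ (2 * e) = V1 Z ^ (2 * e + 1) :=
    Submodule.eq_of_le_of_finrank_le (V1_pow_mono Z (Nat.le_succ _))
      ((Submodule.finrank_mono h3).trans ((finrank_mul_le _ _).trans
        (mul_le_of_le_one_left' (by simpa using h2))))
  have h5 : ∀ n, V1 Z ^ (2 * e + n) = V1 Z ^ (2 * e) := fun n => by
    induction n with
    | zero => rfl
    | succ n ih => rw [← add_assoc, pow_succ, ih, ← pow_succ, ← h4]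
  set q₀ : MvPolynomial (Fin 2) ℚ := ∏ y ∈ Z.erase z, ∑ j, (X j - C (y j : ℚ)) ^ 2 with hq₀
  obtain ⟨q, hq, h6⟩ := exists_of_mem Z
    (h5 q₀.totalDegree ▸ ev_mem Z (Nat.le_add_left q₀.totalDegree (2 * e)))
  have h7 : ∀ y ∈ Z, eval (cst y) q = ∏ t ∈ Z.erase z, ∑ j, ((y j : ℚ) - t j) ^ 2 := fun y hy => by
    rw [← ev_apply Z q ⟨y, hy⟩, h6, ev_apply, hq₀]
    simp [cst]
  refine ⟨q, hq, ?_, fun y hy h => ?_⟩
  · rw [h7 z hz]
    refine prod_ne_zero_iff.2 fun t ht h => (mem_erase.1 ht).1 (funext fun j => ?_)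
    have := (sum_eq_zero_iff_of_nonneg fun j _ => sq_nonneg _).1 h j (mem_univ j)
    exact_mod_cast (sub_eq_zero.1 (pow_eq_zero_iff two_ne_zero |>.1 this)).symm
  · by_contra hn
    rw [h7 y hy] at h
    exact h (prod_eq_zero (mem_erase.2 ⟨hn, hy⟩) (by simp))

/- f = 0 gives G₀ ≠ 0 in 𝒢.  Copy `exists_prime_factor` (LS/Factor.lean) with the pull-backs
aeval ![toQ (lf u), toQ (lf u')] f (degree ≤ deg f, `filterQ`): a prime factor f of G₀ vanishes on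
the image of W₁, cost e.  Take G with ¬ f ∣ G; `coprime_red` on the image Z of W₁ in Fin 2 → ℤ gives
P of dimension ≤ 1, so finrank (V1 Z ^ (2 e + 1)) ≤ finrank (V1 Z ^ (2 e)) (`finrank_mul_le`), the
two spaces agree (`V1_pow_mono`), hence V1 Z ^ D ≤ V1 Z ^ (2 e) for all D.  The indicator of one
point of Z is a polynomial function (`ev_mem`), so `exists_of_mem` gives q of degree ≤ 2 e;
`filterQ` with its pull-back, cost 2 e. -/
theorem single_slice {W : Finset (σ → ℤ)} (hW : W.Nonempty) {k e : ℕ} (h : Rel W (k + 3 * e))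
    (u u' : σ → ℤ) (𝒢 : Set (MvPolynomial (Fin 2) ℚ)) (hdeg : ∀ G ∈ 𝒢, G.totalDegree ≤ e)
    (h0 : ∀ G ∈ 𝒢, ∀ x ∈ W, eval (cst ![u ⬝ᵥ x, u' ⬝ᵥ x]) G = 0)
    (hnd : ∀ x ∈ W, ∀ f : MvPolynomial (Fin 2) ℚ, eval (cst ![u ⬝ᵥ x, u' ⬝ᵥ x]) f = 0 →
      ∃ G ∈ 𝒢, ¬ f ∣ G) :
    ∃ W' ⊆ W, W'.Nonempty ∧ Rel W' k ∧ ∃ t t' : ℤ, ∀ x ∈ W', u ⬝ᵥ x = t ∧ u' ⬝ᵥ x = t' := by
  obtain ⟨x₀, hx₀⟩ := hW
  obtain ⟨G₀, hG₀, hne⟩ := hnd x₀ hx₀ 0 (map_zero _)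
  obtain ⟨W₁, hW₁, ⟨x₁, hx₁⟩, hrel, f, hf, hfe, hfW⟩ := Slice_prime ⟨x₀, hx₀⟩
    (k := k + 2 * e) (e := e) (h.mono (by omega)) u u' (F := G₀)
    (fun h => hne (h ▸ dvd_rfl)) (hdeg _ hG₀) (h0 _ hG₀)
  obtain ⟨G, hG, hfG⟩ := hnd x₁ (hW₁ hx₁) f (hfW _ hx₁)
  obtain ⟨q, hq, h1, h2⟩ := Slice_point (Z := W₁.image fun x => ![u ⬝ᵥ x, u' ⬝ᵥ x]) hf hfG
    (forall_mem_image.2 hfW) (forall_mem_image.2 fun x hx => h0 G hG x (hW₁ hx)) hfe (hdeg _ hG)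
    (mem_image_of_mem _ hx₁)
  refine ⟨_, (filter_subset _ _).trans hW₁, ⟨x₁, mem_filter.2 ⟨hx₁, h1⟩⟩,
    Slice_filter hrel u u' q hq, u ⬝ᵥ x₁, u' ⬝ᵥ x₁, fun x hx => ?_⟩
  have := h2 _ (mem_image_of_mem _ (mem_filter.1 hx).1) (mem_filter.1 hx).2
  exact ⟨congrFun this 0, congrFun this 1⟩

end Pool.Agent.P.MP_d565f2_an.LS
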