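import Pool.Agent.P.MP_d565f2_an.SR.Exc5
import Pool.Agent.P.MP_d565f2_an.SR.Small

set_option autoImplicit false

open Finset

namespace Pool.Agent.P.MP_d565f2_an.LS

variable {ι : Type} [Fintype ι] [DecidableEq ι]

theorem Small5_log {D w : ℕ} (hw : (4 * D + 6) ^ 2 ≤ w) :
    1 + Real.log (6 * ((w ^ D : ℕ) : ℝ) ^ 2) ≤ w := by
  have hw' : ((4 : ℝ) * D + 6) ^ 2 ≤ w := by exact_mod_cast hw
  have hD : (0 : ℝ) ≤ D := Nat.cast_nonneg D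
  have h0 : (0 : ℝ) < w := lt_of_lt_of_le (by positivity) hw'
  have h2 : Real.log (6 * ((w ^ D : ℕ) : ℝ) ^ 2) = Real.log 6 + 4 * D * Real.log (Real.sqrt w) := by
    push_cast
    rw [Real.log_mul (by norm_num) (by positivity), Real.log_pow, Real.log_pow,
      Real.log_sqrt h0.le]
    push_cast
    ring
  have h3 : 4 * (D : ℝ) + 6 ≤ Real.sqrt w := Real.le_sqrt_of_sq_le hw'
  have h4 := Real.log_le_sub_one_of_pos (x := Real.sqrt w) (by linarith)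
  have h5 := Real.mul_self_sqrt h0.le
  have h6 := Real.log_le_sub_one_of_pos (x := 6) (by norm_num)
  rw [h2]
  nlinarith

/- Copy `small_of_rel` (SR/Small.lean) with `exc5`, R = w ^ (50 e + 400). -/
theorem small_of_rel5 {e : ℕ} (he : Fintype.card ι = e + 2) (he3 : 3 ≤ e) :
    ∃ w₀ K C₁ : ℕ, ∀ w : ℕ, w₀ ≤ w → ∀ n : ℕ, n ≠ 0 →
      n ≤ ((w ^ (50 * e + 400)) ^ (e + 1)) ^ 2 → ∀ Z ⊆ sph ι n,
      Rel Z (K * (w ^ (50 * e + 400)) ^ e) →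
      w * Z.card ≤ C₁ * ((w ^ (50 * e + 400)) ^ (e + 1)) ^ e := by
  classical
  obtain ⟨C₀, C₁, hC₀, hexc⟩ := exc5 he he3
  have hD0 : 50 * e + 400 ≠ 0 := by omega
  generalize 50 * e + 400 = D at hexc hD0 ⊢
  obtain ⟨w₁, hw₁⟩ := divisor_bound (D * (20 * (e + 2)))
  set B : ℕ := D * e + 1 with hB
  obtain ⟨K₀, hK₀⟩ := exists_nat_gt (2 * B * (2 * C₀) + 3 * B)
  obtain ⟨K, hK, hK'⟩ : ∃ K : ℕ, K₀ ≤ K ∧ 10 ^ 10 ≤ K := ⟨K₀ + 10 ^ 10, by omega, by omega⟩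
  refine ⟨w₁ + 4 * K + (4 * D + 6) ^ 2 + 10 * (e + 2), 8 * (e + 2) * K, 4 * C₁,
    fun w hw n hn0 hn Z hZ hrel => ?_⟩
  have hw4 : 4 * K ≤ w := by omega
  have hharm := Small5_log (D := D) (w := w) (by omega)
  set ρ := w ^ D with hρ
  have hw2 : 3 ≤ w := by omega
  have hwρ : w ≤ ρ := Nat.le_self_pow hD0 _
  have hρ1 : 1 ≤ ρ := by omega
  have hρe : ρ ≤ ρ ^ e := Nat.le_self_pow (by omega) _
  set P := K * ρ ^ e with hP
  have hP1 : 10 ^ 10 ≤ P := by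
    calc 10 ^ 10 ≤ K * 1 := by omega
      _ ≤ P := by rw [hP]; gcongr; omega
  have hwP : w ≤ P := by
    calc w ≤ 1 * ρ ^ e := by omega
      _ ≤ P := by rw [hP]; gcongr; omega
  have hn3 : n ≤ P ^ 3 := by
    calc n ≤ (ρ ^ (e + 1)) ^ 2 := hn
      _ = 1 ^ 3 * ρ ^ (2 * e + 2) := by ring
      _ ≤ K ^ 3 * ρ ^ (3 * e) := by
        gcongr
        · omega
        · omega
      _ = P ^ 3 := by rw [hP]; ring
  have hn4 : ∀ p : ℕ, P < p → 4 * (n : ℤ) ≤ (p : ℤ) ^ 2 * (ρ : ℤ) ^ 2 := by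
    intro p hp
    have : 4 * n ≤ p ^ 2 * ρ ^ 2 := by
      calc 4 * n ≤ 4 * (ρ ^ (e + 1)) ^ 2 := by omega
        _ = (2 * ρ ^ e) ^ 2 * ρ ^ 2 := by ring
        _ ≤ (K * ρ ^ e) ^ 2 * ρ ^ 2 := by gcongr; omega
        _ ≤ p ^ 2 * ρ ^ 2 := by gcongr
    exact_mod_cast this
  have hτ : ∀ t : ℕ, t ≤ ρ ^ (20 * (e + 2)) → t.divisors.card ≤ w := fun t ht =>
    hw₁ w (by omega) t (by rw [pow_mul w D]; exact ht)
  have h4P : 4 * P ≤ w ^ B := by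
    calc 4 * P = ρ ^ e * (4 * K) := by rw [hP]; ring
      _ ≤ ρ ^ e * w := Nat.mul_le_mul_left _ hw4
      _ = w ^ B := by rw [hB, pow_succ w (D * e), pow_mul w D]
  have hS : ∀ x ∈ Z, x ⬝ᵥ x = n := fun x hx => mem_sph.1 (hZ hx)
  set PP := ((Ioc P (4 * P)).filter Nat.Prime).filter fun p => ¬ p ∣ n with hPP
  have hPP1 : ∀ p ∈ PP, p.Prime ∧ P < p ∧ p ≤ 4 * P ∧ ¬ p ∣ n := by
    intro p hp
    obtain ⟨h1, h2⟩ := mem_filter.1 hp
    obtain ⟨h3, h4⟩ := mem_filter.1 h1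
    exact ⟨h4, (mem_Ioc.1 h3).1, (mem_Ioc.1 h3).2, h2⟩
  have hPP2 : ∀ T : ℕ, (T : ℝ) * Real.log w ≤ 2 * C₀ * ((ρ : ℕ) : ℝ) ^ e → 2 * T < PP.card := by
    intro T hT
    refine enough_primes hP1 hn0 hn3 (by omega) h4P hT (by exact_mod_cast hwρ.trans hρe) ?_
    have h1 : (0 : ℝ) < ((ρ : ℕ) : ℝ) ^ e := by positivity
    have h2 : (K₀ : ℝ) ≤ K := by exact_mod_cast (by omega : K₀ ≤ K)
    rw [hP]
    push_cast
    exact mul_lt_mul_of_pos_right (hK₀.trans_le h2) h1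
  have hdeg : 2 * (Fintype.card ι * (4 * P)) = 8 * (e + 2) * K * ρ ^ e := by rw [he, hP]; ring
  have hE := hexc n ρ w (by omega) hn (by omega) le_rfl hτ hharm
  have hne : PP.Nonempty := by
    have := hPP2 0 (by rw [Nat.cast_zero, zero_mul]; positivity)
    exact card_pos.1 (by omega)
  have hZE := card_le_of_average
    (E := (sph ι n).filter fun x => C₀ * (ρ : ℝ) ^ e < TT ι ρ w x * Real.log w) PP (4 * P) hne
    (fun p hp => ⟨(hPP1 p hp).1, (hPP1 p hp).2.2.1⟩) (hrel.mono (le_of_eq hdeg)) fun x hx hxE => by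
      have h1 : (TT ι ρ w x : ℝ) * Real.log w ≤ C₀ * (ρ : ℝ) ^ e := by
        by_contra hcon
        exact hxE (mem_filter.2 ⟨hZ hx, not_le.1 hcon⟩)
      have h2 := hPP2 (2 * TT ι ρ w x) (by push_cast; linarith)
      have h3 : (PP.filter fun p : ℕ => ∃ y ∈ Z, y ≠ x ∧ ∀ i, (p : ℤ) ∣ x i - y i).card ≤
          TT ι ρ w x := by
        unfold TT
        convert card_mates_le Z hS PP
          (fun p hp => ⟨(hPP1 p hp).1.pos, hn4 p (hPP1 p hp).2.1⟩) hx _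
          fun p hp y _ z hz0 _ hz2 hz3 => ?_
        refine mem_filter.2 ⟨mem_box_of_dot hz2, hz0, hz2, p, (hPP1 p hp).1,
          hwP.trans_lt (hPP1 p hp).2.1, ?_, hz3⟩
        rw [hS x hx]
        exact_mod_cast (hPP1 p hp).2.2.2
      omega
  calc w * Z.card ≤ w * (4 * _) := Nat.mul_le_mul_left _ hZE
    _ = 4 * (w * _) := by ring
    _ ≤ 4 * (C₁ * (ρ ^ (e + 1)) ^ e) := Nat.mul_le_mul_left _ hE
    _ = _ := by ring

end Pool.Agent.P.MP_d565f2_an.LS
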